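import Mathlib

/-! The finite search: matchings of the names of two triple points. -/

namespace Pool.Agent.V5helper74.SR.Blk

/-- letter, triple point and sign of a port -/
def pl (p : ℕ) : ℕ := p % 6 / 2
def pT (p : ℕ) : ℕ := p / 6
def ps (p : ℕ) : ℕ := p % 2

/-- the circle containing the dart -/
def circ (p o : ℕ) : ℕ :=
  bif Nat.beq (pl p) 0 then (bif Nat.beq o 1 then 3 * pT p else 3 * pT p + 1)
  else bif Nat.beq (pl p) 1 then (bif Nat.beq o 1 then 3 * pT p else 3 * pT p + 2)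
  else (bif Nat.beq o 1 then 3 * pT p + 1 else 3 * pT p + 2)

/-- the other sheet for branch points -/
def oo (p q o : ℕ) : ℕ := bif Nat.beq p q then 1 - o else o

def upd (a : ℕ → ℕ) (p v : ℕ) : ℕ → ℕ := fun q => bif Nat.beq q p then v else a q

/-- is `A` joined to `C` at the triple point -/
def selfAC (a : ℕ → ℕ) (t : ℕ) : Bool :=
  (Nat.beq (a (6 * t)) (6 * t + 4) || Nat.beq (a (6 * t)) (6 * t + 5)) ||
  (Nat.beq (a (6 * t + 1)) (6 * t + 4) || Nat.beq (a (6 * t + 1)) (6 * t + 5))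

/-- can `k` be joined to `v` -/
def okp (a : ℕ → ℕ) (k v : ℕ) : Bool :=
  Nat.beq v 12 || (bif Nat.beq v k then Nat.beq (pl k) 1 else
    (Nat.beq (a v) 15 && !(Nat.beq (ps v) (ps k)) &&
      (!(Nat.beq (pT v) (pT k)) || (!(Nat.beq (pl v) (pl k)) && !(Nat.beq (pl v) 1) &&
        !(Nat.beq (pl k) 1) && !(selfAC a (pT k))))))

/-- join `k` to `v` -/
def jn (a : ℕ → ℕ) (k v : ℕ) : ℕ → ℕ := bif Nat.beq v 12 then upd a k v else upd (upd a v k) k v

def dg (f d : ℕ) : ℕ := Nat.land (Nat.shiftRight f (2 * d)) 3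

/-- darts of the circles in cyclic order -/
def cd (c : ℕ) : List ℕ :=
  let t := c / 3
  match c % 3 with
  | 0 => [12 * t + 1, 12 * t + 5, 12 * t + 3, 12 * t + 7]
  | 1 => [12 * t, 12 * t + 9, 12 * t + 2, 12 * t + 11]
  | _ => [12 * t + 4, 12 * t + 8, 12 * t + 6, 12 * t + 10]

def sm (f : ℕ) (l : List ℕ) : ℕ := l.foldr (fun d n => dg f d + n) 0

/-- the positive and the negative part of the intersection number -/
def pp (f g : ℕ) : List ℕ → ℕ
  | [a, b, c, _] => dg f a * dg g b + dg f b + dg g a + (dg f a * dg g c + dg f c + dg g a) +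
      (dg f b * dg g c + dg f c + dg g b)
  | _ => 0

def fine (a : ℕ → ℕ) (f g p o : ℕ) : Bool :=
  let x := a p
  bif Nat.beq x 15 then (Nat.beq (dg f (2 * p + o)) 1 && Nat.beq (dg g (2 * p + o)) 1)
  else bif Nat.beq x 12 then Nat.beq (dg f (2 * p + o)) 1
  else (Nat.beq (dg f (2 * p + o) + dg f (2 * x + oo p x o)) 2 &&
    Nat.beq (dg g (2 * p + o) + dg g (2 * x + oo p x o)) 2)

def R12 : List ℕ := [0, 1, 2, 3, 4, 5, 6, 7, 8, 9, 10, 11]

def certB (e : Bool) (a : ℕ → ℕ) (f g : ℕ) : Bool :=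
  R12.all (fun p => fine a f g p 0 && fine a f g p 1) &&
  [0, 1, 2, 3, 4, 5].all (fun c => Nat.beq (sm f (cd c)) 4 && Nat.beq (sm g (cd c)) 4) &&
  !(Nat.beq (pp f g (cd 0) + pp f g (cd 1) + pp f g (cd 2) +
      (bif e then pp g f (cd 3) + pp g f (cd 4) + pp g f (cd 5)
        else pp f g (cd 3) + pp f g (cd 4) + pp f g (cd 5)))
    (pp g f (cd 0) + pp g f (cd 1) + pp g f (cd 2) +
      (bif e then pp f g (cd 3) + pp f g (cd 4) + pp f g (cd 5)
        else pp g f (cd 3) + pp g f (cd 4) + pp g f (cd 5))))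

/-- the bit of the circle to which the dart is joined -/
def tb (a : ℕ → ℕ) (d : ℕ) : ℕ :=
  let p := d / 2
  let x := a p
  bif Nat.beq x 12 then 0 else Nat.shiftLeft 1 (circ x (oo p x (d % 2)))

def nbs (a : ℕ → ℕ) (c : ℕ) : ℕ := (cd c).foldr (fun d n => Nat.lor (tb a d) n) (Nat.shiftLeft 1 c)

def bit (r c : ℕ) : Bool := Nat.beq (Nat.land (Nat.shiftRight r c) 1) 1

def stp (a : ℕ → ℕ) (r : ℕ) : ℕ :=
  [0, 1, 2, 3, 4, 5].foldr (fun c n => bif bit r c then Nat.lor (nbs a c) n else n) r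

def clo (a : ℕ → ℕ) (c : ℕ) : ℕ := stp a (stp a (stp a (stp a (stp a (Nat.shiftLeft 1 c)))))

/-- the corners -/
def crn : List (ℕ × ℕ × ℕ) :=
  [0, 1, 2, 3, 4, 5].flatMap fun c => match cd c with
    | [a, b, c', d] => [(c, a, b), (c, a, d), (c, c', b), (c, c', d)]
    | _ => []

def outc (a : ℕ → ℕ) (z : ℕ × ℕ × ℕ) : Bool := Nat.beq (a (z.2.1 / 2)) 12 && Nat.beq (a (z.2.2 / 2)) 12

def twoB (a : ℕ → ℕ) : Bool :=
  [0, 1, 2, 3, 4, 5].all fun c =>
    (cd c).all (fun d => !(Nat.beq (a (d / 2)) 12)) ||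
      Nat.ble 2 (crn.filter fun z => outc a z && bit (clo a c) z.1).length

/-- two letters of the first triple point are joined to the same letters of the second one -/
def sameL (a : ℕ → ℕ) (l : ℕ) : Bool :=
  (Nat.beq (a (2 * l)) (2 * l + 6) || Nat.beq (a (2 * l)) (2 * l + 7)) ||
  (Nat.beq (a (2 * l + 1)) (2 * l + 6) || Nat.beq (a (2 * l + 1)) (2 * l + 7))

def r2B (a : ℕ → ℕ) : Bool :=
  (sameL a 0 && sameL a 1) || (sameL a 0 && sameL a 2) || (sameL a 1 && sameL a 2)

def R13 : List ℕ := [12, 0, 1, 2, 3, 4, 5, 6, 7, 8, 9, 10, 11]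

def search (e : Bool) : List ℕ → (ℕ → ℕ) → List ℕ → Option (List ℕ)
  | [], a, s => match s with
    | 0 :: s' => bif twoB a then some s' else none
    | 2 :: f :: g :: s' => bif certB e a f g then some s' else none
    | 3 :: s' => bif e && r2B a then some s' else none
    | _ => none
  | k :: l, a, s => bif Nat.beq (a k) 15 then
      (match s with
      | 1 :: s' => R13.foldl (fun acc v => bif okp a k v then
          (match acc with
            | some s'' => search e l (jn a k v) s''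
            | none => none) else acc) (some s')
      | 2 :: f :: g :: s' => bif certB e a f g then some s' else none
      | 3 :: s' => bif e && r2B a then some s' else none
      | _ => none)
    else search e l a s

def order : List ℕ := [0, 1, 4, 5, 6, 7, 10, 11, 2, 3, 8, 9]

end Pool.Agent.V5helper74.SR.Blk
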