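import Pool.Agent.V5helper74.SR.B1

/-! The finite search is correct. -/

namespace Pool.Agent.V5helper74.SR.Blk

/-- the matchings of the ports -/
structure Val (e : Bool) (M : ℕ → ℕ) : Prop where
  out : ∀ p, 12 ≤ p → M p = 15
  le : ∀ p, p < 12 → M p ≤ 12
  inv : ∀ p, M p < 12 → M (M p) = p
  fixB : ∀ p, p < 12 → M p = p → pl p = 1
  sgn : ∀ p, M p < 12 → M p ≠ p → ps (M p) ≠ ps p
  slf : ∀ p, M p < 12 → M p ≠ p → pT (M p) = pT p → pl (M p) ≠ pl p ∧ pl (M p) ≠ 1 ∧ pl p ≠ 1
  f3 : ∀ t, t < 2 → ¬((M (6 * t) = 6 * t + 4 ∨ M (6 * t) = 6 * t + 5) ∧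
    (M (6 * t + 1) = 6 * t + 4 ∨ M (6 * t + 1) = 6 * t + 5))
  r2 : e = true → r2B M = false
  nc : ∀ f g, certB e M f g = false

/-- the partial matching `a` is a part of `M` -/
structure Agr (M a : ℕ → ℕ) : Prop where
  val : ∀ p, a p ≠ 15 → p < 12 ∧ M p = a p
  clo : ∀ p, a p < 12 → a (a p) = p

variable {e : Bool} {M a : ℕ → ℕ}

theorem beq_iff {a b : ℕ} : Nat.beq a b = true ↔ a = b := by
  constructor
  · exact Nat.eq_of_beq_eq_true
  · rintro rfl; simp

theorem beq_false {a b : ℕ} : Nat.beq a b = false ↔ a ≠ b := by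
  rw [ne_eq, ← beq_iff, Bool.not_eq_true]

theorem upd_apply (a : ℕ → ℕ) (p v q : ℕ) : upd a p v q = if q = p then v else a q := by
  unfold upd
  by_cases h : q = p
  · subst h; simp
  · rw [if_neg h, beq_false.2 h]; rfl

theorem Agr.un (h : Agr M a) (hM : Val e M) {k : ℕ} (hk : a k = 15) (hv : M k < 12) : a (M k) = 15 := by
  by_contra hne
  obtain ⟨h1, h2⟩ := h.val _ hne
  rw [hM.inv k hv] at h2
  have hk12 : k < 12 := by
    by_contra hh
    rw [hM.out k (by omega)] at hv
    omega
  have h3 := h.clo (M k) (by rw [← h2]; exact hk12)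
  rw [← h2, hk] at h3
  omega

theorem jn_apply (a : ℕ → ℕ) (k v q : ℕ) : jn a k v q =
    if q = k then v else if v ≠ 12 ∧ q = v then k else a q := by
  unfold jn
  by_cases h : v = 12
  · subst h
    simp only [beq_iff.2 rfl, cond_true, upd_apply]
    simp
  · rw [beq_false.2 h]
    simp only [cond_false, upd_apply]
    simp [h]

theorem Agr.jn (h : Agr M a) (hM : Val e M) {k : ℕ} (hk12 : k < 12) (hk : a k = 15) :
    Agr M (jn a k (M k)) := by
  have hle := hM.le k hk12
  refine ⟨fun p hp => ?_, fun p hp => ?_⟩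
  · rw [jn_apply] at hp ⊢
    split_ifs at hp ⊢ with h1 h2
    · exact ⟨h1 ▸ hk12, by rw [h1]⟩
    · have h3 : M k < 12 := by omega
      refine ⟨by omega, ?_⟩
      rw [h2.2, hM.inv k h3]
    · exact h.val p hp
  · rw [jn_apply] at hp ⊢
    rw [jn_apply]
    by_cases h1 : p = k
    · rw [if_pos h1] at hp ⊢
      by_cases h2 : M k = k
      · rw [if_pos h2, h2]; exact h1.symm
      · rw [if_neg h2, if_pos ⟨by omega, rfl⟩]; exact h1.symm
    · rw [if_neg h1] at hp ⊢
      by_cases h2 : M k ≠ 12 ∧ p = M k
      · rw [if_pos h2, if_pos rfl]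
        exact h2.2.symm
      · rw [if_neg h2] at hp ⊢
        have h3 := h.clo p hp
        have h5 := (h.val p (by omega)).1
        have h4 : a p ≠ k := fun h => by rw [h, hk] at h3; omega
        have h6 : ¬(M k ≠ 12 ∧ a p = M k) := fun ⟨h7, h8⟩ => by
          have := h.un hM hk (by omega)
          rw [h8, this] at h3
          omega
        rw [if_neg h4, if_neg h6]
        exact h3

theorem fine_mono (h : Agr M a) (hM : Val e M) {f g p o : ℕ} (hp : p < 12) (ho : o < 2)
    (h1 : ∀ p < 12, fine a f g p 0 = true ∧ fine a f g p 1 = true) : fine M f g p o = true := by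
  have h2 : fine a f g p o = true := by
    interval_cases o
    · exact (h1 p hp).1
    · exact (h1 p hp).2
  by_cases ha : a p = 15
  · have e2 : Nat.beq (dg f (2 * p + o)) 1 = true ∧ Nat.beq (dg g (2 * p + o)) 1 = true := by
      unfold fine at h2
      simp only [ha, beq_iff.2 rfl, cond_true] at h2
      simpa using h2
    obtain ⟨e3, e4⟩ := e2
    have hle := hM.le p hp
    unfold fine
    have hn : Nat.beq (M p) 15 = false := beq_false.2 (by omega)
    simp only [hn, cond_false]
    by_cases h12 : M p = 12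
    · simp only [h12, beq_iff.2 rfl, cond_true, e3]
    · simp only [beq_false.2 h12, cond_false]
      have h3 := h.un hM ha (by omega)
      have ho' : oo p (M p) o = 0 ∨ oo p (M p) o = 1 := by
        unfold oo
        cases Nat.beq p (M p)
        · simp only [cond_false]; omega
        · simp only [cond_true]; omega
      have h4 : fine a f g (M p) (oo p (M p) o) = true := by
        rcases ho' with h' | h' <;> rw [h']
        · exact (h1 _ (by omega)).1
        · exact (h1 _ (by omega)).2
      unfold fine at h4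
      simp only [h3, beq_iff.2 rfl, cond_true, Bool.and_eq_true, beq_iff] at h4
      rw [beq_iff] at e3 e4
      simp only [Bool.and_eq_true, beq_iff, e3, e4, h4.1, h4.2]
      exact ⟨trivial, trivial⟩
  · have h3 := (h.val p ha).2
    unfold fine at h2 ⊢
    rw [h3]
    exact h2

theorem mem_R12 {p : ℕ} : p ∈ R12 ↔ p < 12 := by
  unfold R12
  simp only [List.mem_cons, List.not_mem_nil, or_false]
  omega

theorem cert_mono (h : Agr M a) (hM : Val e M) {f g : ℕ} (hc : certB e a f g = true) :
    certB e M f g = true := by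
  unfold certB at hc ⊢
  simp only [Bool.and_eq_true] at hc ⊢
  obtain ⟨⟨h1, h2⟩, h3⟩ := hc
  refine ⟨⟨?_, h2⟩, h3⟩
  rw [List.all_eq_true] at h1 ⊢
  have h4 : ∀ p < 12, fine a f g p 0 = true ∧ fine a f g p 1 = true := by
    intro p hp
    have := h1 p (mem_R12.2 hp)
    simpa using this
  intro p hp
  rw [mem_R12] at hp
  simp only [Bool.and_eq_true]
  exact ⟨fine_mono h hM hp (by omega) h4, fine_mono h hM hp (by omega) h4⟩

theorem sameL_mono (h : Agr M a) {l : ℕ} (hl : l < 3) (hc : sameL a l = true) : sameL M l = true := by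
  unfold sameL at hc ⊢
  simp only [Bool.or_eq_true, beq_iff] at hc ⊢
  rcases hc with (hc | hc) | (hc | hc)
  · have := (h.val _ (show a (2 * l) ≠ 15 by omega)).2
    omega
  · have := (h.val _ (show a (2 * l) ≠ 15 by omega)).2
    omega
  · have := (h.val _ (show a (2 * l + 1) ≠ 15 by omega)).2
    omega
  · have := (h.val _ (show a (2 * l + 1) ≠ 15 by omega)).2
    omega

theorem r2_mono (h : Agr M a) (hc : r2B a = true) : r2B M = true := by
  unfold r2B at hc ⊢
  simp only [Bool.or_eq_true, Bool.and_eq_true] at hc ⊢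
  have k0 := fun h' => sameL_mono (l := 0) h (by omega) h'
  have k1 := fun h' => sameL_mono (l := 1) h (by omega) h'
  have k2 := fun h' => sameL_mono (l := 2) h (by omega) h'
  tauto

theorem okp_val (h : Agr M a) (hM : Val e M) {k : ℕ} (hk12 : k < 12) (hk : a k = 15) :
    okp a k (M k) = true := by
  have hle := hM.le k hk12
  unfold okp
  by_cases h12 : M k = 12
  · simp [h12]
  · rw [beq_false.2 h12, Bool.false_or]
    by_cases hkk : M k = k
    · rw [beq_iff.2 hkk, cond_true, beq_iff]
      exact hM.fixB k hk12 hkk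
    · rw [beq_false.2 hkk, cond_false]
      have h1 := h.un hM hk (by omega)
      have h2 := hM.sgn k (by omega) hkk
      simp only [Bool.and_eq_true, Bool.or_eq_true, Bool.not_eq_true', beq_iff, beq_false]
      refine ⟨⟨h1, h2⟩, ?_⟩
      by_cases hT : pT (M k) = pT k
      · right
        obtain ⟨g1, g2, g3⟩ := hM.slf k (by omega) hkk hT
        refine ⟨⟨⟨g1, g2⟩, g3⟩, ?_⟩
        rw [Bool.eq_false_iff]
        intro hs
        have ht : pT k < 2 := by unfold pT; omega
        refine hM.f3 (pT k) ht ?_
        have hinv := hM.inv k (by omega)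
        unfold selfAC at hs
        simp only [Bool.or_eq_true, beq_iff] at hs
        obtain ⟨p₀, b1, b2, b3⟩ : ∃ p₀, (p₀ = 6 * pT k ∨ p₀ = 6 * pT k + 1) ∧
            (M p₀ = 6 * pT k + 4 ∨ M p₀ = 6 * pT k + 5) ∧ a p₀ ≠ 15 := by
          rcases hs with hs | hs
          · have hne : a (6 * pT k) ≠ 15 := by omega
            exact ⟨_, Or.inl rfl, by rw [(h.val _ hne).2]; exact hs, hne⟩
          · have hne : a (6 * pT k + 1) ≠ 15 := by omega
            exact ⟨_, Or.inr rfl, by rw [(h.val _ hne).2]; exact hs, hne⟩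
        obtain ⟨p₁, c1, c2, c3⟩ : ∃ p₁, (p₁ = 6 * pT k ∨ p₁ = 6 * pT k + 1) ∧
            (M p₁ = 6 * pT k + 4 ∨ M p₁ = 6 * pT k + 5) ∧ a p₁ = 15 := by
          have hv12 : M k < 12 := by omega
          have key : (k = 6 * pT k ∨ k = 6 * pT k + 1) ∧ (M k = 6 * pT k + 4 ∨ M k = 6 * pT k + 5) ∨
              (M k = 6 * pT k ∨ M k = 6 * pT k + 1) ∧ (k = 6 * pT k + 4 ∨ k = 6 * pT k + 5) := by
            unfold pl at g1 g2 g3
            unfold pT at hT ⊢
            omega
          rcases key with ⟨k1, k2⟩ | ⟨k1, k2⟩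
          · exact ⟨k, k1, k2, hk⟩
          · exact ⟨M k, k1, by rw [hinv]; exact k2, h1⟩
        have hne : p₀ ≠ p₁ := fun h => b3 (h ▸ c3)
        rcases b1 with rfl | rfl <;> rcases c1 with rfl | rfl
        · exact absurd rfl hne
        · exact ⟨b2, c2⟩
        · exact ⟨c2, b2⟩
        · exact absurd rfl hne
      · left
        exact hT

theorem mem_R13 {p : ℕ} : p ∈ R13 ↔ p ≤ 12 := by
  unfold R13
  simp only [List.mem_cons, List.not_mem_nil, or_false]
  omega

/-- the loop of the search -/
theorem loop_sound {F : ℕ → List ℕ → Option (List ℕ)} {b : ℕ → Bool} : ∀ (L : List ℕ)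
    (acc : Option (List ℕ)) (s' : List ℕ),
    L.foldl (fun acc v => bif b v then (match acc with
      | some s'' => F v s''
      | none => none) else acc) acc = some s' →
    (∃ s, acc = some s) ∧ ∀ v ∈ L, b v = true → ∃ s₁ s₂, F v s₁ = some s₂ := by
  intro L
  induction L with
  | nil =>
    intro acc s' h
    exact ⟨⟨s', h⟩, fun v hv => absurd hv (by simp)⟩
  | cons v L ih =>
    intro acc s' h
    rw [List.foldl_cons] at h
    obtain ⟨⟨s, h1⟩, h2⟩ := ih _ _ h
    cases hb : b v
    · rw [hb, cond_false] at h1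
      refine ⟨⟨s, h1⟩, fun w hw hbw => ?_⟩
      rcases List.mem_cons.1 hw with rfl | hw
      · rw [hb] at hbw; exact absurd hbw (by simp)
      · exact h2 w hw hbw
    · rw [hb, cond_true] at h1
      cases acc with
      | none => exact absurd h1 (by simp)
      | some s₀ =>
        refine ⟨⟨s₀, rfl⟩, fun w hw hbw => ?_⟩
        rcases List.mem_cons.1 hw with rfl | hw
        · exact ⟨s₀, s, h1⟩
        · exact h2 w hw hbw

theorem leaf2 (h : Agr M a) (hM : Val e M) {f g : ℕ} {s s' : List ℕ}
    (hs : (bif certB e a f g then some s else none) = some s') : False := by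
  cases hc : certB e a f g
  · rw [hc] at hs; exact absurd hs (by simp)
  · have := cert_mono h hM hc
    rw [hM.nc f g] at this
    exact absurd this (by simp)

theorem leaf3 (h : Agr M a) (hM : Val e M) {s s' : List ℕ}
    (hs : (bif e && r2B a then some s else none) = some s') : False := by
  cases hc : e && r2B a
  · rw [hc] at hs; exact absurd hs (by simp)
  · rw [Bool.and_eq_true] at hc
    have := r2_mono h hc.2
    rw [hM.r2 hc.1] at this
    exact absurd this (by simp)

theorem search_sound (hM : Val e M) : ∀ (l : List ℕ) (a : ℕ → ℕ) (s s' : List ℕ),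
    search e l a s = some s' → Agr M a → (∀ p < 12, p ∉ l → a p ≠ 15) → (∀ k ∈ l, k < 12) →
    twoB M = true := by
  intro l
  induction l with
  | nil =>
    intro a s s' hs h hd _
    have haM : a = M := by
      funext p
      by_cases hp : p < 12
      · exact ((h.val p (hd p hp (by simp))).2).symm
      · have h1 : a p = 15 := by
          by_contra hne
          exact hp (h.val p hne).1
        rw [h1, hM.out p (by omega)]
    unfold search at hs
    split at hs
    · cases hc : twoB a
      · rw [hc] at hs; exact absurd hs (by simp)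
      · rw [← haM]; exact hc
    · exact (leaf2 h hM hs).elim
    · exact (leaf3 h hM hs).elim
    · exact absurd hs (by simp)
  | cons k l ih =>
    intro a s s' hs h hd hk
    unfold search at hs
    by_cases ha : a k = 15
    · rw [beq_iff.2 ha, cond_true] at hs
      split at hs
      · obtain ⟨-, h2⟩ := loop_sound (b := okp a k) (F := fun v s'' => search e l (jn a k v) s'')
          _ _ _ hs
        have hk12 := hk k (by simp)
        obtain ⟨s₁, s₂, h3⟩ := h2 (M k) (mem_R13.2 (hM.le k hk12)) (okp_val h hM hk12 ha)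
        refine ih _ _ _ h3 (h.jn hM hk12 ha) (fun p hp hpl => ?_) fun k' hk' => hk k' (by simp [hk'])
        rw [jn_apply]
        have hle := hM.le k hk12
        split_ifs with g1 g2
        · omega
        · omega
        · exact hd p hp (by simp [g1, hpl])
      · exact (leaf2 h hM hs).elim
      · exact (leaf3 h hM hs).elim
      · exact absurd hs (by simp)
    · rw [beq_false.2 ha, cond_false] at hs
      refine ih _ _ _ hs h (fun p hp hpl => ?_) fun k' hk' => hk k' (by simp [hk'])
      by_cases hpk : p = k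
      · rw [hpk]; exact ha
      · exact hd p hp (by simp [hpk, hpl])

theorem sound {str : List ℕ} (hrun : (search e order (fun _ => 15) str == some []) = true)
    (hM : Val e M) : twoB M = true := by
  refine search_sound hM order (fun _ => 15) str [] (by simpa using hrun) ⟨?_, ?_⟩ ?_ ?_
  · intro p hp; exact absurd rfl hp
  · intro p hp
    exact absurd (show (15 : ℕ) < 12 from hp) (by omega)
  · intro p hp hn
    exfalso
    apply hn
    unfold order
    simp only [List.mem_cons, List.not_mem_nil, or_false]
    omega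
  · intro k hk
    unfold order at hk
    simp only [List.mem_cons, List.not_mem_nil, or_false] at hk
    omega

end Pool.Agent.V5helper74.SR.Blk
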