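import Pool.Agent.V5helper74.SR.E12
import Pool.Agent.V5helper74.SR.VMain

/-! Double curves passing through few triple points: the theorem. -/

namespace Pool.Agent.V5helper74.SR

open Pool.Agent.Y468.SR
open Pool.Agent.Y874.TP (NullV Tri TC word4 passes_append' TC_cons TC_nil sep mem_code colour)
open Pool.Agent.R800.BT (Bad Hts)

variable {D : Code} {Ts : List Tri} {m : ℕ → ℕ} {T T' : Tri} {l : List Tri}

/-- a closed double curve through two triple points: they can be removed -/
theorem GS.dropPair (h : GS D (T :: T' :: l) m) (hn : (D.map Prod.snd).Nodup) {y w : Lt}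
    (hc : ∀ i, ∃ j, m (pt T y i) = pt T' w j) : ∃ m', GS D l m' := by
  obtain ⟨he, hz⟩ := h.pairlem hn hc
  obtain ⟨m', h1, h2⟩ := h.toSt.drop2 he (hz .A).2 (hz .B).2
  have hT : T ∈ T :: T' :: l := by simp
  have hT' : T' ∈ T :: T' :: l := by simp
  have key : ∀ S ∈ l, ∀ y i, m' (pt S y i) = m (pt S y i) := by
    intro S hS y i
    have hSm : S ∈ T :: T' :: l := by simp [hS]
    refine h2 _ (onD_append.2 (Or.inr (onD_TC.2 ⟨S, hS, pt_names S y i⟩))) (fun h3 => ?_)
      fun h3 => ?_
    · obtain ⟨z, j, e⟩ := names_pt.1 (names_iff.2 h3)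
      have h4 := h.cmp S hSm y i
      rw [← e, h.cpt hT] at h4
      obtain ⟨-, -, -, p4⟩ := h.tame.pair (hz z).1
      exact p4 S hS y h4.symm
    · obtain ⟨z, j, e⟩ := names_pt.1 (names_iff.2 h3)
      have h4 := h.cmp S hSm y i
      rw [← e, h.cpt hT', (hz z).1] at h4
      obtain ⟨-, -, -, p4⟩ := h.tame.pair (hz z).1
      exact p4 S hS y h4.symm
  refine ⟨m', h1, fun S hS => h.col S (by simp [hS]), fun S hS y i => ?_, fun S hS y i => ?_,
    h.tame.tail.tail⟩
  · rw [key S hS]; exact h.cmp S (by simp [hS]) y i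
  · rw [key S hS]; exact h.cmo S (by simp [hS]) y i

/-- all crossings of one colour belong to one triple point -/
theorem GS.F2' (h : GS D (T :: l) m) (hn : (D.map Prod.snd).Nodup)
    (hB : ∀ i, m (pt T .B i) = pt T .B i) (hA : ∀ i, m (pt T .A i) ≠ pt T .A i)
    (hC : ∀ i, m (pt T .C i) ≠ pt T .C i) : False := by
  have hT : T ∈ T :: l := by simp
  set K : ℕ → Prop := fun c => Ks (T :: l) m (cl T .A) c ∧ ∀ i, c ≠ pt T .B i with hKd
  have hK : Clo D (T :: l) m K := by
    refine ⟨?_, ?_⟩
    · rintro c hc ⟨h1, h2⟩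
      refine ⟨(h.clo _).mm c hc h1, fun i hi => h2 i ?_⟩
      rw [← h.m_m hc, hi, hB i]
    · rintro S hS x i ⟨h1, h2⟩
      refine ⟨(h.clo _).op S hS x i h1, fun j hj => ?_⟩
      rcases List.mem_cons.1 hS with rfl | hS
      · obtain ⟨rfl, -⟩ := h.pt_inj hT hj
        exact h2 i rfl
      · exact absurd hj.symm (h.ne hS _ _ _ _)
  have hN : ∀ c, onD (D ++ TC (T :: l)) c → K c → m c ≠ c := by
    rintro c hc ⟨h1, h2⟩ he
    obtain ⟨S, hS, x, i, rfl, h4, h5, h6⟩ := h.nofix hc h1 he
    rcases List.mem_cons.1 hS with rfl | hS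
    · cases x
      · exact hA i h5
      · exact h2 i rfl
      · exact hC i h5
    · obtain ⟨l₁, l₂, rfl⟩ := List.append_of_mem hS
      have h' : GS D (T :: S :: (l₁ ++ l₂)) m := h.perm (List.Perm.cons _ List.perm_middle)
      obtain ⟨q, -⟩ := h'.tame.pair h4
      omega
  refine h.toSt.F2 hn hB (fl_ind h.toSt hK hN true) ?_ ?_
  · unfold ind
    rw [if_pos]
    exact ⟨⟨(h.ks_pt hT .A false _).2 rfl, fun i hi => absurd (h.pt_inj hT hi).1 (by simp)⟩, rfl⟩
  · unfold ind
    rw [if_neg]
    rintro ⟨-, h1⟩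
    exact absurd h1 (by simp)

theorem bad_A {i : Bool} {y : Lt} {j : Bool} (hy : y = .A ∨ y = .C)
    (he : m (pt T y i) = pt T y i ∨ m (pt T y i) = pt T .B j) : Bad T m := by
  have hj : pt T .B j ∈ [T.b₁, T.b₂] := by cases j <;> simp [pt]
  rcases hy with rfl | rfl
  · refine Or.inl ⟨pt T .A i, by cases i <;> simp [pt], ?_⟩
    rcases he with he | he
    · exact Or.inl he
    · exact Or.inr (he ▸ hj)
  · refine Or.inr ⟨pt T .C i, by cases i <;> simp [pt], ?_⟩
    rcases he with he | he
    · exact Or.inl he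
    · exact Or.inr (he ▸ hj)

theorem bool_ne {i j : Bool} (h : ¬j = i) : j = !i := by cases i <;> cases j <;> simp_all

theorem bool_ne₂ {i j k : Bool} (h : j ≠ k) (h' : ¬i = j) : i = k := by
  cases i <;> cases j <;> cases k <;> simp_all

/-- if no pair of triple points can be removed, then all triple points are free or can be removed -/
theorem GS.gd (h : GS D (T :: l) m) (hn : (D.map Prod.snd).Nodup)
    (hno : ∀ T' l', l.Perm (T' :: l') → ∀ y w, ∃ i, ∀ j, m (pt T y i) ≠ pt T' w j) : Gd D m T := by
  have hT : T ∈ T :: l := by simp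
  by_cases hb : Bad T m
  · exact Or.inl hb
  have hF1 : ∀ y i, m (pt T y i) ≠ pt T y (!i) := by
    intro y i he
    cases i
    · exact h.F1 hn y he
    · refine h.F1 hn y ?_
      show m (pt T y (!true)) = _
      rw [← he, h.m_pt hT]
  have hfix : ∀ y i, y = .A ∨ y = .C → m (pt T y i) ≠ pt T y i := fun y i hy he =>
    hb (bad_A (j := true) hy (Or.inl he))
  have hAB : ∀ y i j, y = .A ∨ y = .C → m (pt T y i) ≠ pt T .B j := fun y i j hy he =>
    hb (bad_A hy (Or.inr he))
  have key : ∀ y, ∃ i, onD D (m (pt T y i)) := by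
    intro y
    by_contra hno'
    push Not at hno'
    have h1 : ∀ i, ∃ S ∈ T :: l, ∃ z j, m (pt T y i) = pt S z j := by
      intro i
      rcases h.side (on_iff.2 ⟨T, hT, y, i, rfl⟩) with h1 | h1
      · exact on_iff.1 h1
      · exact absurd h1 (hno' i)
    by_cases hs : ∃ S ∈ l, ∃ w, cl S w = cl T y
    · obtain ⟨S, hS, w, hw⟩ := hs
      obtain ⟨l₁, l₂, rfl⟩ := List.append_of_mem hS
      have h' : GS D (T :: S :: (l₁ ++ l₂)) m := h.perm (List.Perm.cons _ List.perm_middle)
      obtain ⟨p1, p2, p3, p4⟩ := h'.tame.pair hw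
      obtain ⟨i, hi⟩ := hno S (l₁ ++ l₂) List.perm_middle y w
      obtain ⟨S', hS', z, j, e⟩ := h1 i
      have hz : cl S' z = cl T y := by rw [← h.cpt hS' z j, ← e, h.cmp T hT]
      rcases List.mem_cons.1 hS' with rfl | hS'
      · obtain rfl := p2 z hz
        by_cases hij : j = i
        · rw [hij] at e; exact h.cmo _ hT z i p1 e
        · have : j = !i := bool_ne hij
          rw [this] at e; exact hF1 z i e
      · have hS'' : S' = S ∨ S' ∈ l₁ ++ l₂ := by
          simp only [List.mem_append, List.mem_cons] at hS' ⊢; tauto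
        rcases hS'' with rfl | hS''
        · obtain rfl := p3 z hz
          exact hi j e
        · exact p4 S' hS'' z hz
    · push Not at hs
      have h2 : ∀ i, ∃ z j, m (pt T y i) = pt T z j := by
        intro i
        obtain ⟨S, hS, z, j, e⟩ := h1 i
        rcases List.mem_cons.1 hS with rfl | hS
        · exact ⟨z, j, e⟩
        · exact absurd (by rw [← h.cpt (by simp [hS]) z j, ← e, h.cmp T hT]) (hs S hS z)
      have hbk : ∀ i z j, m (pt T y i) = pt T z j → m (pt T z j) = pt T y i := by
        intro i z j e; rw [← e, h.m_pt hT]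
      have hself : ∀ i j, m (pt T y i) = pt T y j → j = i := by
        intro i j e
        by_contra hij
        have : j = !i := bool_ne hij
        rw [this] at e; exact hF1 y i e
      cases y
      · refine h.toSt.F3 hn fun i => ?_
        obtain ⟨z, j, e⟩ := h2 i
        cases z
        · obtain rfl := hself i j e
          exact absurd e (hfix .A _ (Or.inl rfl))
        · exact absurd e (hAB .A _ _ (Or.inl rfl))
        · exact ⟨j, e⟩
      · refine h.F2' hn (fun i => ?_) (fun i => hfix .A i (Or.inl rfl)) fun i => hfix .C i (Or.inr rfl)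
        obtain ⟨z, j, e⟩ := h2 i
        cases z
        · exact absurd (hbk _ _ _ e) (hAB .A _ _ (Or.inl rfl))
        · obtain rfl := hself i j e
          exact e
        · exact absurd (hbk _ _ _ e) (hAB .C _ _ (Or.inr rfl))
      · have hC : ∀ i, ∃ j, m (pt T .C i) = pt T .A j := by
          intro i
          obtain ⟨z, j, e⟩ := h2 i
          cases z
          · exact ⟨j, e⟩
          · exact absurd e (hAB .C _ _ (Or.inr rfl))
          · obtain rfl := hself i j e
            exact absurd e (hfix .C _ (Or.inr rfl))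
        refine h.toSt.F3 hn fun i => ?_
        obtain ⟨j₀, h₀⟩ := hC false
        obtain ⟨j₁, h₁⟩ := hC true
        have hne : j₀ ≠ j₁ := by
          rintro rfl
          have e := congrArg m (h₀.trans h₁.symm)
          rw [h.m_pt hT, h.m_pt hT] at e
          exact absurd (h.pt_inj hT e).2 (by simp)
        by_cases hj : i = j₀
        · exact ⟨false, by rw [hj, ← h₀, h.m_pt hT]⟩
        · have : i = j₁ := bool_ne₂ hne hj
          exact ⟨true, by rw [this, ← h₁, h.m_pt hT]⟩
  right
  refine ⟨?_, ?_, ?_⟩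
  · obtain ⟨i, hi⟩ := key .A
    cases i
    · exact Or.inl hi
    · exact Or.inr hi
  · obtain ⟨i, hi⟩ := key .B
    cases i
    · exact Or.inl hi
    · exact Or.inr hi
  · obtain ⟨i, hi⟩ := key .C
    cases i
    · exact Or.inl hi
    · exact Or.inr hi

/-- diagrams whose double curves pass through few triple points -/
theorem GS.movie (hD : Classical D) (hn : (D.map Prod.snd).Nodup) (n : ℕ) :
    ∀ (Ts : List Tri) (m : ℕ → ℕ), Ts.length = n → GS D Ts m → Movie true false D [] := by
  induction n using Nat.strong_induction_on with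
  | _ n ih =>
    intro Ts m hl h
    by_cases hc : ∃ T T' l y w, Ts.Perm (T :: T' :: l) ∧ ∀ i, ∃ j, m (pt T y i) = pt T' w j
    · obtain ⟨T, T', l, y, w, hp, hc⟩ := hc
      obtain ⟨m', h'⟩ := (h.perm hp).dropPair hn hc
      refine ih l.length ?_ l m' rfl h'
      have := hp.length_eq
      simp only [List.length_cons] at this
      omega
    · refine engine n _ D Ts m hl rfl hD hn h.toSt fun T hT => ?_
      obtain ⟨l₁, l₂, rfl⟩ := List.append_of_mem hT
      refine (h.perm List.perm_middle).gd hn fun T' l' hp y w => ?_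
      by_contra hno
      push Not at hno
      exact hc ⟨T, T', l', y, w, List.perm_middle.trans (hp.cons T), hno⟩

end Pool.Agent.V5helper74.SR
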