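import Pool.Agent.V5helper74.SR.G4
import Pool.Agent.R800.TP.Even
import Pool.Agent.V5helper74.SR.E13

/-! The faces with few corners: colours. -/

namespace Pool.Agent.V5helper74.SR

open Pool.Agent.Y874.TP2 (CycL om part sg)
open Pool.Agent.Y468.SR
open Pool.Agent.Y874.TP (NullV Tri TC word4 passes_append' TC_cons TC_nil sep mem_code)
open Pool.Agent.R800.BT (Bad Hts)
open Pool.Agent.R800.TP (curve crs)

variable {D : Code} {Ts : List Tri} {m : ℕ → ℕ} {χ : ℕ → ℕ} {T T' : Tri}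

theorem St.pt_eq (h : St D Ts m) (hT : T ∈ Ts) (hT' : T' ∈ Ts) {z w : Lt} {i j : Bool}
    (he : pt T z i = pt T' w j) : T = T' ∧ z = w ∧ i = j := by
  by_cases hTT : T = T'
  · subst hTT
    exact ⟨rfl, h.pt_inj hT he⟩
  · exfalso
    obtain ⟨l₁, l₂, rfl⟩ := List.append_of_mem hT
    have hT'' : T' ∈ l₁ ++ l₂ := by
      simp only [List.mem_append, List.mem_cons] at hT' ⊢
      rcases hT' with h | h | h
      · exact Or.inl h
      · exact absurd h.symm hTT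
      · exact Or.inr h
    refine h.names_disj hT'' (pt_names T' w j) ?_
    rw [← he]
    exact names_iff.1 (pt_names T z i)

theorem St.dp_eq (h : St D Ts m) (hT : T ∈ Ts) (hT' : T' ∈ Ts) {z w : Lt} {i j o p : Bool}
    (he : dp T z i o = dp T' w j p) : T = T' ∧ z = w ∧ i = j ∧ o = p := by
  obtain ⟨h1, h2, h3⟩ := h.pt_eq hT hT' (show pt T z i = pt T' w j from congrArg Pass.crossing he)
  exact ⟨h1, h2, h3, congrArg Pass.isOver he⟩

/-- two darts forming an edge -/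
def Ln (m : ℕ → ℕ) (T T' : Tri) (z z' : Lt) (i j o o' : Bool) : Prop :=
  (T' = T ∧ z' = z ∧ j = i ∧ o' = !o ∧ m (pt T z i) = pt T z i) ∨
  (m (pt T z i) = pt T' z' j ∧ m (pt T z i) ≠ pt T z i ∧ o' = o ∧
    xor j (sl T' z') = !xor i (sl T z))

theorem St.fs_step (h : St D Ts m) {y y' : Pass} (hs : (pcode D Ts m).Fs y y') :
    ∃ T ∈ Ts, ∃ z i o, ∃ T' ∈ Ts, ∃ z' j o', y = dp T z i o ∧ y' = nd T' z' j o' ∧
      Ln m T T' z z' i j o o' := by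
  obtain ⟨h1, h2, q, hq, hc⟩ := hs
  obtain ⟨w, hw, hy⟩ := List.mem_flatten.1 h1
  obtain ⟨T, hT, hw'⟩ := mem_Q hw
  obtain ⟨z, i, o, rfl, -⟩ := mem_wd T (h.ok T hT).2 hw' hy
  obtain ⟨T', hT', hq'⟩ := mem_Q hq
  have hσ : (pcode D Ts m).σ (dp T z i o) = part m (dp T z i o) := rfl
  rw [hσ] at hc
  obtain ⟨z', j, o', e, rfl⟩ := mem_wd T' (h.ok T' hT').2 hq' (Pq.cycL_mem hc).1
  rw [e] at hc
  refine ⟨T, hT, z, i, o, T', hT', z', j, o', rfl, cyc_nd (h.ok T' hT').2 (h.nodup hT') hc, ?_⟩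
  rcases part_cases m (dp T z i o) with ⟨k1, k2⟩ | ⟨k1, k2, k3⟩
  · left
    have k1' : m (pt T z i) = pt T z i := k1
    rw [k2] at e
    obtain ⟨e1, e2, e3⟩ := h.pt_eq hT hT' (show pt T z i = pt T' z' j from congrArg Pass.crossing e)
    exact ⟨e1.symm, e2.symm, e3.symm, (congrArg Pass.isOver e).symm, k1'⟩
  · right
    have k1' : m (pt T z i) ≠ pt T z i := k1
    have e1 : m (pt T z i) = pt T' z' j := by
      have := congrArg Pass.crossing e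
      rw [k2] at this
      exact this
    refine ⟨e1, k1', ?_, ?_⟩
    · have := congrArg Pass.isOver e
      rw [k3] at this
      exact this.symm
    · have : part m (dp T z i o) = ⟨m (pt T z i), o, !(!(xor i (sl T z)))⟩ := by
        unfold part; rw [if_neg k1]; rfl
      rw [this] at e
      have e3 : (!(!(xor i (sl T z)))) = !(xor j (sl T' z')) := congrArg Pass.isPos e
      cases h1 : xor i (sl T z) <;> cases h2 : xor j (sl T' z') <;> rw [h1, h2] at e3 <;> simp_all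

/-- the classes of the names at the triple points -/
structure Ty (χ : ℕ → ℕ) (Ts : List Tri) (m : ℕ → ℕ) : Prop where
  same : ∀ T ∈ Ts, ∀ y i, χ (pt T y i) = χ (pt T y false)
  lab : ∀ T ∈ Ts, ∀ T' ∈ Ts, ∀ y z i j, m (pt T y i) = pt T' z j → χ (pt T' z j) = χ (pt T y i)
  fix : ∀ T ∈ Ts, ∀ y i, m (pt T y i) = pt T y i → χ (pt T y i) % 2 = 0

/-- the classes at the triple point -/
def tr (χ : ℕ → ℕ) (T : Tri) : ℕ × ℕ × ℕ := (χ (pt T .A false), χ (pt T .B false), χ (pt T .C false))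

/-- the curve of the preimage -/
def kp (χ : ℕ → ℕ) (p : Pass) : ℕ × Bool := curve (χ p.crossing) p.isOver

theorem kp_corner (χ : ℕ → ℕ) (hs : ∀ y i, χ (pt T y i) = χ (pt T y false)) (z : Lt) (i o : Bool) :
    s(kp χ (dp T z i o), kp χ (nd T z i o)) ∈ crs (tr χ T) := by
  have e : ∀ z i o, kp χ (dp T z i o) = curve (χ (pt T z false)) o := by
    intro z i o
    unfold kp dp
    rw [hs]
  unfold nd
  rw [e, e]
  cases z <;> cases o <;> simp only [pr, crs, tr] <;> simp [Sym2.eq_swap]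

theorem Ty.ln (h : Ty χ Ts m) (hT : T ∈ Ts) (hT' : T' ∈ Ts) {z z' : Lt} {i j o o' : Bool}
    (hl : Ln m T T' z z' i j o o') : kp χ (dp T z i o) = kp χ (dp T' z' j o') := by
  rcases hl with ⟨rfl, rfl, rfl, rfl, e⟩ | ⟨e1, -, rfl, -⟩
  · have := h.fix T' hT z' j e
    simp only [kp, dp, curve, this]
    simp
  · simp only [kp, dp]
    rw [h.lab T hT T' hT' z z' i j e1]

theorem Ty.step (h : Ty χ Ts m) (hst : St D Ts m) {y y' : Pass} (hs : (pcode D Ts m).Fs y y') :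
    ∃ T ∈ Ts, s(kp χ y, kp χ y') ∈ crs (tr χ T) := by
  obtain ⟨T, hT, z, i, o, T', hT', z', j, o', rfl, rfl, hl⟩ := hst.fs_step hs
  refine ⟨T', hT', ?_⟩
  rw [h.ln hT hT' hl]
  exact kp_corner χ (h.same T' hT') z' j o'

/-- the condition for the triples of colours -/
structure Cnd (S : ℕ × ℕ × ℕ → Prop) : Prop where
  ab : ∀ t t', S t → S t' → t.1 = t'.1 → t.2.1 = t'.2.1 → t.2.2 = t'.2.2
  ac : ∀ t t', S t → S t' → t.1 = t'.1 → t.2.2 = t'.2.2 → t.2.1 = t'.2.1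
  bc : ∀ t t', S t → S t' → t.2.1 = t'.2.1 → t.2.2 = t'.2.2 → t.1 = t'.1
  xab : ∀ t t', S t → S t' → t.1 = t'.2.1 → t.2.1 ≠ t'.1
  xbc : ∀ t t', S t → S t' → t.2.1 = t'.2.2 → t.2.2 ≠ t'.2.1
  tri : ∀ t₁ t₂ t₃, S t₁ → S t₂ → S t₃ → ∀ p q r, s(p, q) ∈ crs t₁ → s(q, r) ∈ crs t₂ →
    s(r, p) ∉ crs t₃

/-- two triple points joined by two double curves -/
def R2 (m : ℕ → ℕ) (T T' : Tri) : Prop := et T' = (!et T) ∧
  ∃ z w, z ≠ w ∧ (∃ i j, m (pt T z i) = pt T' z j) ∧ ∃ i j, m (pt T w i) = pt T' w j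

theorem pr_ne (z : Lt) (o : Bool) : (pr z o).1 ≠ z := by cases z <;> cases o <;> simp [pr]

theorem pr_pr (z : Lt) (o : Bool) : pr (pr z o).1 (pr z o).2 = (z, o) := by
  cases z <;> cases o <;> rfl

theorem cx_pr (T : Tri) (z : Lt) (o : Bool) : cx T (pr z o).1 (pr z o).2 = !cx T z o := by
  cases z <;> cases o <;> simp [pr, cx]

/-- the second letter of a circle -/
def bt : Lt → Bool → Bool
  | .A, _ => false
  | .B, o => o
  | .C, _ => true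

/-- the sign of the triple point from the signs and the index change -/
theorem et_of (hk : T.Ok) (ht : Hts T) : ∀ z o, xor (sl T z) (xor (sl T (pr z o).1) (cx T z o)) =
    xor (et T) (bt z o) := by
  obtain ⟨t1, t2, t3⟩ := ht
  obtain ⟨-, h1, h2⟩ := hk
  rw [t1, t2, t3] at h1 h2
  intro z o
  cases z <;> cases o <;> simp only [sl, pr, cx, et, bt] <;>
    cases h3 : T.sa <;> cases h4 : T.sb <;> cases h5 : T.sc <;> cases h6 : T.ei <;>
    cases h7 : T.ej <;> cases h8 : T.ek <;> rw [h3, h4, h6, h7, h8] at h1 <;>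
    rw [h4, h5, h6, h7, h8] at h2 <;> simp at h1 h2 ⊢

theorem et_flip (hk : T.Ok) (ht : Hts T) (hk' : T'.Ok) (ht' : Hts T') {z : Lt} {o i j j₃ i₂ : Bool}
    (h1 : xor j (sl T' z) = !xor i (sl T z))
    (h2 : xor j₃ (sl T (pr z o).1) = !xor i₂ (sl T' (pr z o).1)) (e1 : i₂ = xor j (cx T' z o))
    (e2 : i = xor j₃ (!cx T z o)) : et T' = !et T := by
  have a := et_of hk ht z o
  have b := et_of hk' ht' z o
  revert a b
  generalize bt z o = β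
  intro a b
  subst e1 e2
  revert h1 h2 a b
  generalize sl T z = s1
  generalize sl T' z = s2
  generalize sl T (pr z o).1 = s3
  generalize sl T' (pr z o).1 = s4
  generalize cx T z o = c1
  generalize cx T' z o = c2
  generalize et T = t1
  generalize et T' = t2
  revert s1 s2 s3 s4 c1 c2 t1 t2 β j j₃
  decide

theorem St.F1' (h : St D Ts m) (hn : (D.map Prod.snd).Nodup) (hT : T ∈ Ts) (y : Lt) (i : Bool) :
    m (pt T y i) ≠ pt T y (!i) := by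
  obtain ⟨l₁, l₂, rfl⟩ := List.append_of_mem hT
  have h' : St D (T :: (l₁ ++ l₂)) m := h.permT List.perm_middle
  intro he
  cases i
  · exact h'.F1 hn y he
  · refine h'.F1 hn y ?_
    show m (pt T y (!true)) = _
    rw [← he, h.m_pt hT]

theorem St.same_ne (h : St D Ts m) (hn : (D.map Prod.snd).Nodup) (hT : T ∈ Ts) (hT' : T' ∈ Ts)
    {y : Lt} {i j : Bool} (he : m (pt T y i) = pt T' y j) (hne : m (pt T y i) ≠ pt T y i) :
    T ≠ T' := by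
  rintro rfl
  by_cases hij : j = i
  · rw [hij] at he; exact hne he
  · have : j = !i := bool_ne hij
    rw [this] at he; exact h.F1' hn hT y i he

theorem loop_ab {S : ℕ × ℕ × ℕ → Prop} (hc : Cnd S) {t : ℕ × ℕ × ℕ} (ht : S t) : t.1 ≠ t.2.1 :=
  fun e => hc.xab t t ht ht e e.symm

theorem loop_bc {S : ℕ × ℕ × ℕ → Prop} (hc : Cnd S) {t : ℕ × ℕ × ℕ} (ht : S t) : t.2.1 ≠ t.2.2 :=
  fun e => hc.xbc t t ht ht e e.symm

theorem Ty.lb (h : Ty χ Ts m) (hT : T ∈ Ts) (hT' : T' ∈ Ts) {y z : Lt} {i j : Bool}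
    (e : m (pt T y i) = pt T' z j) : χ (pt T' z false) = χ (pt T y false) := by
  rw [← h.same T' hT' z j, ← h.same T hT y i]
  exact h.lab T hT T' hT' y z i j e

/-- no two different letters of one triple point are joined, except A and C -/
theorem no_join {S : ℕ × ℕ × ℕ → Prop} (hc : Cnd S) (ht : Ty χ Ts m) (hS : ∀ T ∈ Ts, S (tr χ T))
    (hT : T ∈ Ts) {y z : Lt} {i j : Bool} (e : m (pt T y i) = pt T z j)
    (hyz : (y = .A ∧ z = .B) ∨ (y = .B ∧ z = .A) ∨ (y = .B ∧ z = .C) ∨ (y = .C ∧ z = .B)) : False := by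
  have e1 := ht.lb hT hT e
  rcases hyz with ⟨rfl, rfl⟩ | ⟨rfl, rfl⟩ | ⟨rfl, rfl⟩ | ⟨rfl, rfl⟩
  · exact loop_ab hc (hS T hT) e1.symm
  · exact loop_ab hc (hS T hT) e1
  · exact loop_bc hc (hS T hT) e1.symm
  · exact loop_bc hc (hS T hT) e1

theorem fin₁ (z₁ z₃ : Lt) (o₁ o₃ : Bool) (h1 : z₁ = (pr z₃ o₃).1) (h2 : o₁ = !(pr z₃ o₃).2)
    (h3 : z₃ = (pr z₁ o₁).1) (h4 : o₃ = !(pr z₁ o₁).2) : False := by
  revert h1 h2 h3 h4
  cases z₁ <;> cases z₃ <;> cases o₁ <;> cases o₃ <;> simp [pr]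

theorem fin₂ (z₁ z₃ : Lt) (o₁ o₃ : Bool) (h1 : z₁ = (pr z₃ o₃).1) (h2 : o₁ = !(pr z₃ o₃).2)
    (h4 : o₃ = (pr z₁ o₁).2) : ((pr z₁ o₁).1 = .A ∧ z₃ = .B) ∨ ((pr z₁ o₁).1 = .B ∧ z₃ = .A) ∨
      ((pr z₁ o₁).1 = .B ∧ z₃ = .C) ∨ ((pr z₁ o₁).1 = .C ∧ z₃ = .B) := by
  revert h1 h2 h4
  cases z₁ <;> cases z₃ <;> cases o₁ <;> cases o₃ <;> simp [pr]

theorem fin₃ (z₁ z₃ : Lt) (o₁ o₃ : Bool) (h2 : o₁ = (pr z₃ o₃).2) (h4 : o₃ = (pr z₁ o₁).2) :
    (z₁ = (pr z₃ o₃).1 ∧ z₃ = (pr z₁ o₁).1) ∨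
    ((pr z₃ o₃).1 = .A ∧ z₁ = .B ∧ (pr z₁ o₁).1 = .A ∧ z₃ = .B) ∨
    ((pr z₃ o₃).1 = .B ∧ z₁ = .A ∧ (pr z₁ o₁).1 = .B ∧ z₃ = .A) ∨
    ((pr z₃ o₃).1 = .B ∧ z₁ = .C ∧ (pr z₁ o₁).1 = .B ∧ z₃ = .C) ∨
    ((pr z₃ o₃).1 = .C ∧ z₁ = .B ∧ (pr z₁ o₁).1 = .C ∧ z₃ = .B) := by
  revert h2 h4
  cases z₁ <;> cases z₃ <;> cases o₁ <;> cases o₃ <;> simp [pr]

/-- if no pair can be removed, there are no faces with few corners -/
theorem noShort {S : ℕ × ℕ × ℕ → Prop} (hc : Cnd S) (h : St D Ts m) (hn : (D.map Prod.snd).Nodup)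
    (ht : Ty χ Ts m) (hS : ∀ T ∈ Ts, S (tr χ T))
    (hno : ∀ T ∈ Ts, ∀ T' ∈ Ts, T ≠ T' → ¬R2 m T T') : (pcode D Ts m).NoShort := by
  refine ⟨fun y hy => ?_, fun y y' h1 h2 => ?_, fun y y' y'' h1 h2 h3 => ?_⟩
  · obtain ⟨T, hT, h1⟩ := ht.step h hy
    exact hc.tri _ _ _ (hS T hT) (hS T hT) (hS T hT) _ _ _ h1 h1 h1
  · obtain ⟨T, hT, z, i, o, T', hT', z₁, j, o₁, e1, e2, hl⟩ := h.fs_step h1
    obtain ⟨T₂, hT₂, z₂, i₂, o₂, T₃, hT₃, z₃, j₃, o₃, f1, f2, hl'⟩ := h.fs_step h2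
    rw [e2] at f1
    rw [e1] at f2
    obtain ⟨rfl, g1, g2, g3⟩ := h.dp_eq hT' hT₂ (show dp T' (pr z₁ o₁).1 (xor j (cx T' z₁ o₁))
      (pr z₁ o₁).2 = dp T₂ z₂ i₂ o₂ from f1)
    obtain ⟨rfl, k1, k2, k3⟩ := h.dp_eq hT hT₃ (show dp T z i o = dp T₃ (pr z₃ o₃).1
      (xor j₃ (cx T₃ z₃ o₃)) (pr z₃ o₃).2 from f2)
    subst g1 k1 g3 k3
    rcases hl with ⟨a1, a2, a3, a4, a5⟩ | ⟨a1, a2, a3, a4⟩
    · rcases hl' with ⟨b1, b2, b3, b4, b5⟩ | ⟨b1, b2, b3, b4⟩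
      · exact fin₁ z₁ z₃ o₁ o₃ a2 a4 b2 b4
      · subst a1
        exact no_join hc ht hS hT' b1 (fin₂ z₁ z₃ o₁ o₃ a2 a4 b3)
    · rcases hl' with ⟨b1, b2, b3, b4, b5⟩ | ⟨b1, b2, b3, b4⟩
      · subst b1
        exact no_join hc ht hS hT a1 (fin₂ z₃ z₁ o₃ o₁ b2 b4 a3)
      · rcases fin₃ z₁ z₃ o₁ o₃ a3 b3 with ⟨c1, c2⟩ | ⟨c1, c2, c3, c4⟩ | ⟨c1, c2, c3, c4⟩ |
          ⟨c1, c2, c3, c4⟩ | ⟨c1, c2, c3, c4⟩
        · have hw : pr z₁ o₁ = (z₃, o₃) := by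
            rw [← Prod.mk.eta (p := pr z₁ o₁), ← c2, ← b3]
          have hz : pr z₃ o₃ = (z₁, o₁) := by
            rw [← Prod.mk.eta (p := pr z₃ o₃), ← c1, ← a3]
          rw [hz] at a1 a2 a4 c1
          rw [hw] at b1 b2 b4 c2
          simp only at a1 a2 a4 b1 b2 b4
          refine hno T hT T' hT' (h.same_ne hn hT hT' a1 a2) ⟨?_, z₁, z₃, ?_, ⟨i, j, a1⟩, ?_⟩
          · refine et_flip (h.ok _ hT).1 (h.ok _ hT).2 (h.ok _ hT').1 (h.ok _ hT').2 (z := z₁)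
              (o := o₁) (i := i) (j := j) (j₃ := j₃) (i₂ := i₂) a4 ?_ g2.symm ?_
            · rw [hw]; exact b4
            · rw [k2]
              have := cx_pr T z₁ o₁
              rw [hw] at this
              rw [this]
          · have := pr_ne z₁ o₁
            rw [hw] at this
            exact this.symm
          · refine ⟨j₃, i₂, ?_⟩
            rw [← b1, h.m_pt hT']
        · rw [c1, c2] at a1
          rw [c3, c4] at b1
          exact hc.xab _ _ (hS T hT) (hS T' hT') (ht.lb hT hT' a1).symm (ht.lb hT' hT b1)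
        · rw [c1, c2] at a1
          rw [c3, c4] at b1
          exact hc.xab _ _ (hS T' hT') (hS T hT) (ht.lb hT hT' a1) (ht.lb hT' hT b1).symm
        · rw [c1, c2] at a1
          rw [c3, c4] at b1
          exact hc.xbc _ _ (hS T hT) (hS T' hT') (ht.lb hT hT' a1).symm (ht.lb hT' hT b1)
        · rw [c1, c2] at a1
          rw [c3, c4] at b1
          exact hc.xbc _ _ (hS T' hT') (hS T hT) (ht.lb hT hT' a1) (ht.lb hT' hT b1).symm
  · obtain ⟨T, hT, h1⟩ := ht.step h h1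
    obtain ⟨T', hT', h2⟩ := ht.step h h2
    obtain ⟨T'', hT'', h3⟩ := ht.step h h3
    exact hc.tri _ _ _ (hS T hT) (hS T' hT') (hS T'' hT'') _ _ _ h1 h2 h3

end Pool.Agent.V5helper74.SR
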