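import Pool.Agent.V5helper74.SR.B2
import Pool.Agent.V5helper74.SR.G5

/-! Two triple points: the matching of the ports. -/

namespace Pool.Agent.V5helper74.SR

open Pool.Agent.Y874.TP2 (CycL om part sg)
open Pool.Agent.Y468.SR hiding pl
open Pool.Agent.Y874.TP (NullV Tri TC word4 passes_append' TC_cons TC_nil sep mem_code)
open Pool.Agent.R800.BT (Bad Hts)
open Blk (pl pT ps sameL r2B)

/-- the letter with the given number -/
def ltr : ℕ → Lt
  | 0 => .A
  | 1 => .B
  | _ => .C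

/-- the number of a letter -/
def lno : Lt → ℕ
  | .A => 0
  | .B => 1
  | .C => 2

/-- the number as a sign -/
def bs (n : ℕ) : Bool := Nat.beq n 1

/-- the port with the given triple point, letter and sign -/
def pno (t : ℕ) (z : Lt) (s : Bool) : ℕ := 6 * t + 2 * lno z + s.toNat

theorem pno_T (t : ℕ) (z : Lt) (s : Bool) : pT (pno t z s) = t := by
  unfold pT pno
  cases z <;> cases s <;> simp [lno] <;> omega

theorem pno_l (t : ℕ) (z : Lt) (s : Bool) : pl (pno t z s) = lno z := by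
  unfold pl pno
  cases z <;> cases s <;> simp [lno] <;> omega

theorem pno_s (t : ℕ) (z : Lt) (s : Bool) : ps (pno t z s) = s.toNat := by
  unfold ps pno
  cases z <;> cases s <;> simp [lno] <;> omega

theorem ltr_lno (z : Lt) : ltr (lno z) = z := by cases z <;> rfl

theorem bs_toNat (s : Bool) : bs s.toNat = s := by cases s <;> rfl

theorem pl_lt (p : ℕ) : pl p < 3 := by unfold pl; omega

theorem ps_lt (p : ℕ) : ps p < 2 := by unfold ps; omega

theorem lno_ltr {n : ℕ} (h : n < 3) : lno (ltr n) = n := by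
  interval_cases n <;> rfl

theorem toNat_bs {n : ℕ} (h : n < 2) : (bs n).toNat = n := by
  interval_cases n <;> rfl

theorem pno_eq (p : ℕ) : pno (pT p) (ltr (pl p)) (bs (ps p)) = p := by
  unfold pno
  rw [lno_ltr (pl_lt p), toNat_bs (ps_lt p)]
  unfold pT pl ps
  omega

theorem pno_lt {t : ℕ} (ht : t < 2) (z : Lt) (s : Bool) : pno t z s < 12 := by
  unfold pno
  cases z <;> cases s <;> simp [lno] <;> omega

theorem pT_lt {p : ℕ} (h : p < 12) : pT p < 2 := by unfold pT; omega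

/-- the name of a port -/
def nm (tt : ℕ → Tri) (p : ℕ) : ℕ :=
  pt (tt (pT p)) (ltr (pl p)) (xor (bs (ps p)) (sl (tt (pT p)) (ltr (pl p))))

/-- the dart of a port in a sheet -/
def dt (tt : ℕ → Tri) (p : ℕ) (o : Bool) : Pass := ⟨nm tt p, o, !bs (ps p)⟩

theorem nm_pno (tt : ℕ → Tri) (t : ℕ) (z : Lt) (s : Bool) :
    nm tt (pno t z s) = pt (tt t) z (xor s (sl (tt t) z)) := by
  unfold nm
  rw [pno_T, pno_l, pno_s, ltr_lno, bs_toNat]

theorem xx (a b : Bool) : xor (xor a b) b = a := by cases a <;> cases b <;> rfl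

theorem nm_pt (tt : ℕ → Tri) (t : ℕ) (z : Lt) (i : Bool) :
    pt (tt t) z i = nm tt (pno t z (xor i (sl (tt t) z))) := by
  rw [nm_pno, xx]

theorem dt_pno (tt : ℕ → Tri) (t : ℕ) (z : Lt) (s o : Bool) :
    dt tt (pno t z s) o = dp (tt t) z (xor s (sl (tt t) z)) o := by
  unfold dt dp
  rw [nm_pno, pno_s, bs_toNat, xx]

theorem dt_eq (tt : ℕ → Tri) (p : ℕ) (o : Bool) : dt tt p o = dp (tt (pT p)) (ltr (pl p))
    (xor (bs (ps p)) (sl (tt (pT p)) (ltr (pl p)))) o := by
  rw [← dt_pno, pno_eq]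

theorem dp_dt (tt : ℕ → Tri) (t : ℕ) (z : Lt) (i o : Bool) :
    dp (tt t) z i o = dt tt (pno t z (xor i (sl (tt t) z))) o := by
  rw [dt_pno, xx]

variable {D : Code} {Ts : List Tri} {m : ℕ → ℕ} {tt : ℕ → Tri} {n : ℕ}

/-- triple points whose double curves do not pass through other triple points -/
structure Bk (D : Code) (Ts : List Tri) (m : ℕ → ℕ) (tt : ℕ → Tri) (n : ℕ) : Prop where
  n1 : 1 ≤ n
  n2 : n ≤ 2
  mem : ∀ t < n, tt t ∈ Ts
  inj : ∀ t < n, ∀ t' < n, tt t = tt t' → t = t'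
  cl : ∀ t < n, ∀ y i, (∃ t' < n, ∃ z j, m (pt (tt t) y i) = pt (tt t') z j) ∨
    onD D (m (pt (tt t) y i))
  bad : ∀ t < n, ¬Bad (tt t) m
  r2 : n = 2 → ¬R2 m (tt 0) (tt 1)

open Classical in
/-- the matching of the ports -/
noncomputable def mat (m : ℕ → ℕ) (tt : ℕ → Tri) (n : ℕ) (p : ℕ) : ℕ :=
  if p < 12 then (if h : pT p < n ∧ ∃ q, pT q < n ∧ m (nm tt p) = nm tt q then h.2.choose else 12)
  else 15

theorem Bk.pT_lt (hb : Bk D Ts m tt n) {p : ℕ} (h : pT p < n) : p < 12 := by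
  have := hb.n2
  unfold pT at h
  omega

theorem nm_names (tt : ℕ → Tri) (p : ℕ) : nm tt p ∈ (tt (pT p)).names := pt_names _ _ _

theorem Bk.on (hb : Bk D Ts m tt n) (h : St D Ts m) {p : ℕ} (hp : pT p < n) :
    onD (D ++ TC Ts) (nm tt p) := h.on_pt (hb.mem _ hp) _ _

theorem Bk.mm (hb : Bk D Ts m tt n) (h : St D Ts m) {p : ℕ} (hp : pT p < n) :
    m (m (nm tt p)) = nm tt p := h.m_pt (hb.mem _ hp) _ _

theorem Bk.notD (hb : Bk D Ts m tt n) (h : St D Ts m) {p : ℕ} (hp : pT p < n) :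
    ¬onD D (nm tt p) := h.pt_onD (hb.mem _ hp) _ _

theorem Bk.nm_inj (hb : Bk D Ts m tt n) (h : St D Ts m) {p q : ℕ} (hp : pT p < n) (hq : pT q < n)
    (he : nm tt p = nm tt q) : p = q := by
  obtain ⟨h1, h2, h3⟩ := h.pt_eq (hb.mem _ hp) (hb.mem _ hq) he
  have h4 := hb.inj _ hp _ hq h1
  rw [← pno_eq p, ← pno_eq q, ← h4, ← h2]
  congr 1
  rw [← h4, ← h2] at h3
  generalize sl (tt (pT p)) (ltr (pl p)) = x at h3
  generalize bs (ps p) = y at h3 ⊢
  generalize bs (ps q) = z at h3 ⊢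
  cases x <;> cases y <;> cases z <;> simp_all

theorem Bk.side (hb : Bk D Ts m tt n) {p : ℕ} (hp : pT p < n) :
    (∃ q, pT q < n ∧ m (nm tt p) = nm tt q) ∨ onD D (m (nm tt p)) := by
  rcases hb.cl _ hp (ltr (pl p)) (xor (bs (ps p)) (sl (tt (pT p)) (ltr (pl p)))) with
    ⟨t', ht', z, j, e⟩ | h
  · left
    refine ⟨pno t' z (xor j (sl (tt t') z)), by rw [pno_T]; exact ht', ?_⟩
    rw [← nm_pt]
    exact e
  · exact Or.inr h

theorem Bk.mat_spec (hb : Bk D Ts m tt n) (h : St D Ts m) {p q : ℕ} (hp : pT p < n) (hq : pT q < n)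
    (he : m (nm tt p) = nm tt q) : mat m tt n p = q := by
  unfold mat
  rw [if_pos (hb.pT_lt hp)]
  have hex : pT p < n ∧ ∃ q, pT q < n ∧ m (nm tt p) = nm tt q := ⟨hp, q, hq, he⟩
  rw [dif_pos hex]
  obtain ⟨h1, h2⟩ := hex.2.choose_spec
  exact hb.nm_inj h h1 hq (h2.symm.trans he)

theorem Bk.mat_lt (hb : Bk D Ts m tt n) (h : St D Ts m) {p : ℕ} (hlt : mat m tt n p < 12) :
    pT p < n ∧ pT (mat m tt n p) < n ∧ m (nm tt p) = nm tt (mat m tt n p) := by
  have hex : pT p < n ∧ ∃ q, pT q < n ∧ m (nm tt p) = nm tt q := by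
    by_contra hno
    unfold mat at hlt
    rw [dif_neg hno] at hlt
    split_ifs at hlt <;> omega
  obtain ⟨hp, q, hq, he⟩ := hex
  have := hb.mat_spec h hp hq he
  rw [this]
  exact ⟨hp, hq, he⟩

theorem Bk.mat_D (hb : Bk D Ts m tt n) (h : St D Ts m) {p : ℕ} (hp : pT p < n) :
    mat m tt n p = 12 ↔ onD D (m (nm tt p)) := by
  constructor
  · intro he
    refine (hb.side hp).resolve_left ?_
    rintro ⟨q, hq, e⟩
    have h1 := hb.mat_spec h hp hq e
    have h2 := hb.pT_lt hq
    omega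
  · intro hd
    unfold mat
    rw [if_pos (hb.pT_lt hp), dif_neg]
    rintro ⟨-, q, hq, e⟩
    rw [e] at hd
    exact hb.notD h hq hd

theorem Bk.mat_ge {p : ℕ} (hp : 12 ≤ p) : mat m tt n p = 15 := by
  unfold mat
  rw [if_neg (by omega)]

theorem Bk.mat_no {p : ℕ} (hp : p < 12) (hn : ¬pT p < n) : mat m tt n p = 12 := by
  unfold mat
  rw [if_pos hp, dif_neg fun h => hn h.1]

theorem Bk.mat_le (hb : Bk D Ts m tt n) {p : ℕ} (hp : p < 12) : mat m tt n p ≤ 12 := by
  unfold mat
  rw [if_pos hp]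
  split_ifs with h
  · exact le_of_lt (hb.pT_lt h.2.choose_spec.1)
  · exact le_refl _

theorem dp_mem {T : Tri} (ht : Hts T) (z : Lt) (i o : Bool) : dp T z i o ∈ passes T.code := by
  have hw := wd_mem T ht z i o
  have hw' := wd_w T z o
  rw [Tri.code, mem_passes]
  simp only [List.mem_cons, List.not_mem_nil, or_false] at hw' ⊢
  rcases hw' with e | e | e <;> rw [e] at hw
  · exact ⟨_, Or.inl rfl, hw⟩
  · exact ⟨_, Or.inr (Or.inl rfl), hw⟩
  · exact ⟨_, Or.inr (Or.inr rfl), hw⟩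

theorem Bk.dt_mem (hb : Bk D Ts m tt n) (h : St D Ts m) {p : ℕ} (hp : pT p < n) (o : Bool) :
    dt tt p o ∈ passes (D ++ TC Ts) := by
  rw [dt_eq]
  exact h.memE (hb.mem _ hp) (dp_mem (h.ok _ (hb.mem _ hp)).2 _ _ _)

/-- the signs of matched ports -/
theorem Bk.sgn (hb : Bk D Ts m tt n) (h : St D Ts m) {p q : ℕ} (hp : pT p < n) (hq : pT q < n)
    (he : m (nm tt p) = nm tt q) (hne : q ≠ p) : bs (ps q) = !bs (ps p) := by
  have h1 := Pool.Agent.Y759.TP2.part_mem h.wf h.mt (hb.dt_mem h hp true)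
  have h2 := hb.dt_mem h hq true
  have hne' : m (nm tt p) ≠ nm tt p := by
    rw [he]; exact fun e => hne (hb.nm_inj h hq hp e)
  have h3 : part m (dt tt p true) = ⟨m (nm tt p), true, !(!bs (ps p))⟩ := by
    unfold part
    rw [if_neg (show ¬m (dt tt p true).crossing = (dt tt p true).crossing from hne')]; rfl
  rw [h3] at h1
  have h4 := List.inj_on_of_nodup_map h.wf.2 h1 h2 (by rw [he]; rfl)
  have h5 := congrArg Pass.isPos h4
  simp only [dt, Bool.not_not] at h5
  rw [h5, Bool.not_not]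

/-- the matched dart -/
theorem Bk.part_dt (hb : Bk D Ts m tt n) (h : St D Ts m) {p q : ℕ} (hp : pT p < n) (hq : pT q < n)
    (he : m (nm tt p) = nm tt q) (o : Bool) :
    part m (dt tt p o) = dt tt q (if q = p then !o else o) := by
  by_cases hne : q = p
  · subst hne
    rw [if_pos rfl]
    unfold part
    rw [if_pos (show m (dt tt q o).crossing = (dt tt q o).crossing from he)]
    rfl
  · rw [if_neg hne]
    unfold part
    rw [if_neg (show ¬m (dt tt p o).crossing = (dt tt p o).crossing from fun e => hne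
      (hb.nm_inj h hq hp (he.symm.trans e)))]
    have := hb.sgn h hp hq he hne
    simp only [dt, he, this, Bool.not_not]

theorem Bk.outer (hb : Bk D Ts m tt n) (h : St D Ts m) {p : ℕ} (hp : pT p < n)
    (hd : onD D (m (nm tt p))) (o : Bool) :
    part m (dt tt p o) ∈ ((pcode D Ts m).B).flatten := by
  have h1 := h.outer (hb.mem _ hp) (p := dt tt p o) (by
    rw [dt_eq]; exact dp_mem (h.ok _ (hb.mem _ hp)).2 _ _ _) hd
  exact h1

theorem Bk.bad_B (hb : Bk D Ts m tt n) {p q : ℕ} (hp : pT p < n)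
    (he : m (nm tt p) = nm tt q) (hT : pT q = pT p) (hl : ltr (pl p) = .A ∨ ltr (pl p) = .C)
    (hB : q = p ∨ ltr (pl q) = .B) : False := by
  refine hb.bad _ hp (bad_A (y := ltr (pl p)) (i := xor (bs (ps p)) (sl (tt (pT p)) (ltr (pl p))))
    (j := xor (bs (ps q)) (sl (tt (pT q)) (ltr (pl q)))) hl ?_)
  rcases hB with rfl | hB
  · exact Or.inl he
  · right
    have : m (nm tt p) = pt (tt (pT p)) .B (xor (bs (ps q)) (sl (tt (pT q)) (ltr (pl q)))) := by
      rw [he]
      unfold nm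
      rw [hT, hB]
    exact this

theorem ltr_inj {a b : ℕ} (ha : a < 3) (hb : b < 3) (h : ltr a = ltr b) : a = b := by
  rw [← lno_ltr ha, ← lno_ltr hb, h]

theorem Bk.val (hb : Bk D Ts m tt n) (h : St D Ts m) (hn : (D.map Prod.snd).Nodup)
    (e : Bool) (he : n = 2 → e = true → et (tt 1) = !et (tt 0))
    (hnc : ∀ f g, Blk.certB e (mat m tt n) f g = false)
    (he1 : n = 1 → e = false) : Blk.Val e (mat m tt n) := by
  have swp : ∀ {p q}, pT p < n → m (nm tt p) = nm tt q → m (nm tt q) = nm tt p := by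
    intro p q hp he
    rw [← he, hb.mm h hp]
  refine ⟨fun p hp => Bk.mat_ge hp, fun p hp => hb.mat_le hp, fun p hp => ?_, fun p hp he => ?_,
    fun p hp hne => ?_, fun p hp hne hT => ?_, fun t ht => ?_, fun he2 => ?_, hnc⟩
  · obtain ⟨h1, h2, h3⟩ := hb.mat_lt h hp
    exact hb.mat_spec h h2 h1 (swp h1 h3)
  · obtain ⟨h1, h2, h3⟩ := hb.mat_lt h (p := p) (by omega)
    rw [he] at h3
    by_contra hl
    refine hb.bad_B h1 h3 rfl ?_ (Or.inl rfl)
    have := pl_lt p
    have : pl p = 0 ∨ pl p = 2 := by omega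
    rcases this with e | e <;> rw [e]
    · exact Or.inl rfl
    · exact Or.inr rfl
  · obtain ⟨h1, h2, h3⟩ := hb.mat_lt h hp
    have := hb.sgn h h1 h2 h3 hne
    intro e
    rw [e] at this
    cases h4 : bs (ps p) <;> rw [h4] at this <;> simp at this
  · obtain ⟨h1, h2, h3⟩ := hb.mat_lt h hp
    set q := mat m tt n p with hq
    have hl1 := pl_lt p
    have hl2 := pl_lt q
    have h4 : ltr (pl q) ≠ ltr (pl p) := by
      intro hl
      have hs : bs (ps q) = !bs (ps p) := hb.sgn h h1 h2 h3 hne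
      refine h.F1' hn (hb.mem _ h1) (ltr (pl p)) (xor (bs (ps p)) (sl (tt (pT p)) (ltr (pl p)))) ?_
      have : m (nm tt p) = pt (tt (pT p)) (ltr (pl p))
          (!(xor (bs (ps p)) (sl (tt (pT p)) (ltr (pl p))))) := by
        rw [h3]
        unfold nm
        rw [hT, hl, hs]
        congr 1
        cases bs (ps p) <;> cases sl (tt (pT p)) (ltr (pl p)) <;> rfl
      exact this
    have AC : ∀ {x}, x < 3 → x ≠ 1 → ltr x = .A ∨ ltr x = .C := by
      intro x hx hne
      have : x = 0 ∨ x = 2 := by omega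
      rcases this with rfl | rfl
      · exact Or.inl rfl
      · exact Or.inr rfl
    refine ⟨fun e => h4 (by rw [e]), fun e => ?_, fun e => ?_⟩
    · refine hb.bad_B h1 h3 hT (AC hl1 fun e' => h4 (by rw [e, e'])) (Or.inr (by rw [e]; rfl))
    · refine hb.bad_B h2 (swp h1 h3) hT.symm (AC hl2 fun e' => h4 (by rw [e, e'])) (Or.inr (by rw [e]; rfl))
  · rintro ⟨k1, k2⟩
    have e0 : 6 * t = pno t .A false := by simp [pno, lno]
    have e1 : 6 * t + 1 = pno t .A true := by simp [pno, lno]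
    have e4 : 6 * t + 4 = pno t .C false := by simp [pno, lno]
    have e5 : 6 * t + 5 = pno t .C true := by simp [pno, lno]
    have key : ∀ s, ∃ s', mat m tt n (pno t .A s) = pno t .C s' := by
      intro s
      cases s
      · rw [← e0]
        rcases k1 with k | k
        · exact ⟨false, by rw [k, e4]⟩
        · exact ⟨true, by rw [k, e5]⟩
      · rw [← e1]
        rcases k2 with k | k
        · exact ⟨false, by rw [k, e4]⟩
        · exact ⟨true, by rw [k, e5]⟩
    have ht' : t < n := by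
      obtain ⟨s', hs'⟩ := key false
      have := (hb.mat_lt h (p := pno t .A false) (by rw [hs']; exact pno_lt ht _ _)).1
      rwa [pno_T] at this
    obtain ⟨l₁, l₂, hl⟩ := List.append_of_mem (hb.mem t ht')
    have h' : St D (tt t :: (l₁ ++ l₂)) m := by
      refine h.permT ?_
      rw [hl]
      exact List.perm_middle
    refine h'.F3 hn fun i => ?_
    rw [nm_pt]
    obtain ⟨s', hs'⟩ := key (xor i (sl (tt t) .A))
    have h3 := (hb.mat_lt h (p := pno t .A (xor i (sl (tt t) .A))) (by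
      rw [hs']; exact pno_lt ht _ _)).2.2
    rw [hs', nm_pno tt t .C] at h3
    exact ⟨_, h3⟩
  · have hn2 : n = 2 := by
      have := hb.n1
      have := hb.n2
      by_contra h'
      have := he1 (by omega)
      rw [this] at he2
      exact absurd he2 (by simp)
    rw [Bool.eq_false_iff]
    intro hr
    refine hb.r2 hn2 ⟨he hn2 he2, ?_⟩
    have key : ∀ z, sameL (mat m tt n) (lno z) = true → ∃ i j, m (pt (tt 0) z i) = pt (tt 1) z j := by
      intro z hz
      have e0 : 2 * lno z = pno 0 z false := by simp [pno]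
      have e1 : 2 * lno z + 1 = pno 0 z true := by simp [pno]
      have e4 : 2 * lno z + 6 = pno 1 z false := by simp [pno]; omega
      have e5 : 2 * lno z + 7 = pno 1 z true := by simp [pno]; omega
      have h5 : ∃ s s', mat m tt n (pno 0 z s) = pno 1 z s' := by
        unfold sameL at hz
        rw [e4, e5, e1, e0] at hz
        simp only [Bool.or_eq_true, Blk.beq_iff] at hz
        rcases hz with (hz | hz) | (hz | hz)
        · exact ⟨_, _, hz⟩
        · exact ⟨_, _, hz⟩
        · exact ⟨_, _, hz⟩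
        · exact ⟨_, _, hz⟩
      obtain ⟨s, s', hs⟩ := h5
      have h3 := (hb.mat_lt h (p := pno 0 z s) (by rw [hs]; exact pno_lt (by omega) _ _)).2.2
      rw [hs, nm_pno, nm_pno] at h3
      exact ⟨_, _, h3⟩
    unfold r2B at hr
    simp only [Bool.or_eq_true, Bool.and_eq_true] at hr
    rcases hr with (hr | hr) | hr
    · exact ⟨.A, .B, by simp, key .A hr.1, key .B hr.2⟩
    · exact ⟨.A, .C, by simp, key .A hr.1, key .C hr.2⟩
    · exact ⟨.B, .C, by simp, key .B hr.1, key .C hr.2⟩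

end Pool.Agent.V5helper74.SR
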