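import Pool.Agent.V5helper74.SR.B4

/-! Two triple points: certificates are impossible. -/

namespace Pool.Agent.V5helper74.SR

open Pool.Agent.Y874.TP2 (CycL om part sg)
open Pool.Agent.Y468.SR hiding pl
open Pool.Agent.Y874.TP (NullV Tri TC word4 passes_append' TC_cons TC_nil sep mem_code)
open Pool.Agent.R800.BT (Bad Hts)
open Blk (pl pT ps cd pp dg sm fine certB oo)

variable {D : Code} {Ts : List Tri} {m : ℕ → ℕ} {tt : ℕ → Tri} {n : ℕ}

/-- the dart with the given number -/
def dn (tt : ℕ → Tri) (d : ℕ) : Pass := dt tt (d / 2) (bs (d % 2))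

/-- the dart belongs to the triple points -/
def IsB (tt : ℕ → Tri) (n : ℕ) (y : Pass) : Prop := ∃ d, pT (d / 2) < n ∧ y = dn tt d

open Classical in
/-- the value of a dart -/
noncomputable def vl (tt : ℕ → Tri) (n : ℕ) (c : ℕ → ℤ) (y : Pass) : ℤ :=
  if h : IsB tt n y then c h.choose else 0

open Classical in
/-- the value is extended to the matched darts -/
noncomputable def ext (m : ℕ → ℕ) (tt : ℕ → Tri) (n : ℕ) (c : ℕ → ℤ) (y : Pass) : ℤ :=
  if IsB tt n y then vl tt n c y else -vl tt n c (part m y)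

/-- the number of the matched dart -/
def nbd (M : ℕ → ℕ) (d : ℕ) : ℕ := 2 * M (d / 2) + oo (d / 2) (M (d / 2)) (d % 2)

theorem bs_inj {a b : ℕ} (ha : a < 2) (hb : b < 2) (h : bs a = bs b) : a = b := by
  rw [← toNat_bs ha, ← toNat_bs hb, h]

theorem Bk.dn_inj (hb : Bk D Ts m tt n) (h : St D Ts m) {d d' : ℕ} (hd : pT (d / 2) < n)
    (hd' : pT (d' / 2) < n) (he : dn tt d = dn tt d') : d = d' := by
  have h1 := hb.nm_inj h hd hd' (congrArg Pass.crossing he)
  have h2 := bs_inj (by omega) (by omega) (congrArg Pass.isOver he)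
  omega

theorem Bk.vl_dn (hb : Bk D Ts m tt n) (h : St D Ts m) (c : ℕ → ℤ) {d : ℕ} (hd : pT (d / 2) < n) :
    vl tt n c (dn tt d) = c d := by
  have hex : IsB tt n (dn tt d) := ⟨d, hd, rfl⟩
  unfold vl
  rw [dif_pos hex]
  obtain ⟨h1, h2⟩ := hex.choose_spec
  exact (congrArg c (hb.dn_inj h hd h1 h2)).symm

theorem vl_no (c : ℕ → ℤ) {y : Pass} (hy : ¬IsB tt n y) : vl tt n c y = 0 := dif_neg hy

theorem ext_dn (hb : Bk D Ts m tt n) (h : St D Ts m) (c : ℕ → ℤ) {d : ℕ} (hd : pT (d / 2) < n) :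
    ext m tt n c (dn tt d) = c d := by
  unfold ext
  rw [if_pos ⟨d, hd, rfl⟩, hb.vl_dn h c hd]

theorem oo_lt {p q o : ℕ} (ho : o < 2) : oo p q o < 2 := by
  unfold oo
  cases Nat.beq p q
  · exact ho
  · simp only [cond_true]; omega

theorem Bk.part_dn (hb : Bk D Ts m tt n) (h : St D Ts m) {d : ℕ}
    (hM : mat m tt n (d / 2) < 12) : part m (dn tt d) = dn tt (nbd (mat m tt n) d) ∧
      pT (nbd (mat m tt n) d / 2) < n := by
  obtain ⟨h1, h2, h3⟩ := hb.mat_lt h hM
  have ho := oo_lt (p := d / 2) (q := mat m tt n (d / 2)) (o := d % 2) (by omega)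
  have e1 : nbd (mat m tt n) d / 2 = mat m tt n (d / 2) := by
    unfold nbd; omega
  have e2 : nbd (mat m tt n) d % 2 = oo (d / 2) (mat m tt n (d / 2)) (d % 2) := by
    unfold nbd; omega
  refine ⟨?_, by rw [e1]; exact h2⟩
  unfold dn
  rw [e1, e2, hb.part_dt h h1 h2 h3]
  congr 1
  unfold oo
  by_cases he : mat m tt n (d / 2) = d / 2
  · rw [if_pos he, Blk.beq_iff.2 he.symm, cond_true]
    have : d % 2 < 2 := by omega
    interval_cases d % 2 <;> rfl
  · rw [if_neg he, Blk.beq_false.2 (Ne.symm he), cond_false]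

/-- the darts of the triple points which are not matched with other ones -/
theorem Bk.dn_outer (hb : Bk D Ts m tt n) (h : St D Ts m) {d : ℕ} (hd : pT (d / 2) < n)
    (hM : ¬mat m tt n (d / 2) < 12) : mat m tt n (d / 2) = 12 ∧
      part m (dn tt d) ∈ ((pcode D Ts m).B).flatten := by
  have h1 := hb.mat_le (hb.pT_lt hd)
  have h2 : mat m tt n (d / 2) = 12 := by omega
  exact ⟨h2, hb.outer h hd ((hb.mat_D h hd).1 h2) _⟩

theorem Bk.dn_passes (hb : Bk D Ts m tt n) (h : St D Ts m) {d : ℕ} (hd : pT (d / 2) < n) :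
    dn tt d ∈ passes (D ++ TC Ts) := hb.dt_mem h hd _

theorem Bk.notB (hb : Bk D Ts m tt n) (h : St D Ts m) {y : Pass} (hy : y ∈ passes D) :
    ¬IsB tt n y := by
  rintro ⟨d, hd, rfl⟩
  exact hb.notD h hd ⟨_, hy, rfl⟩

theorem mem_Bfl {y : Pass} : y ∈ ((pcode D Ts m).B).flatten ↔ y ∈ passes D := by
  show y ∈ (D.map Prod.fst).flatten ↔ _
  rw [Pool.Agent.Y759.TP2.flatten_fst]

theorem Bk.ext_anti (hb : Bk D Ts m tt n) (h : St D Ts m) {c : ℕ → ℤ}
    (hc : ∀ d, pT (d / 2) < n → mat m tt n (d / 2) < 12 → c (nbd (mat m tt n) d) = -c d)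
    {y : Pass} (hy : y ∈ passes (D ++ TC Ts)) : ext m tt n c (part m y) = -ext m tt n c y := by
  have hinv : part m (part m y) = y := Pool.Agent.Y759.TP2.part_invol h.mt hy
  by_cases hB : IsB tt n y
  · obtain ⟨d, hd, rfl⟩ := hB
    rw [ext_dn hb h c hd]
    by_cases hM : mat m tt n (d / 2) < 12
    · obtain ⟨k1, k2⟩ := hb.part_dn h hM
      rw [k1, ext_dn hb h c k2, hc d hd hM]
    · have h1 := (hb.dn_outer h hd hM).2
      rw [mem_Bfl] at h1
      unfold ext
      rw [if_neg (hb.notB h h1), hinv, hb.vl_dn h c hd]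
  · by_cases hB' : IsB tt n (part m y)
    · unfold ext
      rw [if_pos hB', if_neg hB, neg_neg]
    · unfold ext
      rw [if_neg hB', if_neg hB, hinv, vl_no c hB, vl_no c hB']
      ring

/-- the flow vanishes on the link if it vanishes on the outer darts -/
theorem Bk.ext_D (hb : Bk D Ts m tt n) (h : St D Ts m) {c : ℕ → ℤ}
    (hc : ∀ d, pT (d / 2) < n → mat m tt n (d / 2) = 12 → c d = 0)
    {y : Pass} (hy : y ∈ passes D) : ext m tt n c y = 0 := by
  have hy' : y ∈ passes (D ++ TC Ts) := by rw [passes_append']; exact List.mem_append_left _ hy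
  have hinv : part m (part m y) = y := Pool.Agent.Y759.TP2.part_invol h.mt hy'
  unfold ext
  rw [if_neg (hb.notB h hy), neg_eq_zero]
  by_cases hB' : IsB tt n (part m y)
  · obtain ⟨d, hd, e⟩ := hB'
    rw [e, hb.vl_dn h c hd]
    refine hc d hd ?_
    by_contra hne
    have hM : mat m tt n (d / 2) < 12 := by
      have := hb.mat_le (hb.pT_lt hd)
      omega
    obtain ⟨k1, k2⟩ := hb.part_dn h hM
    rw [← e, hinv] at k1
    exact hb.notB h hy ⟨_, k2, k1⟩
  · exact vl_no c hB'

/-- the circles of a triple point -/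
def cw (T : Tri) (j : ℕ) : List Pass := if j = 0 then T.wi else if j = 1 then T.wj else T.wk

/-- the flow vanishes at the other triple points -/
theorem Bk.ext_other (hb : Bk D Ts m tt n) (h : St D Ts m) (c : ℕ → ℤ) {T : Tri} (hT : T ∈ Ts)
    (hne : ∀ t < n, T ≠ tt t) {w : List Pass} (hw : w ∈ [T.wi, T.wj, T.wk]) {y : Pass} (hy : y ∈ w) :
    ext m tt n c y = 0 := by
  obtain ⟨z, i, o, rfl, -⟩ := mem_wd T (h.ok T hT).2 hw hy
  have hyp : dp T z i o ∈ passes (D ++ TC Ts) := h.memE hT (dp_mem (h.ok T hT).2 z i o)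
  have hinv : part m (part m (dp T z i o)) = dp T z i o := Pool.Agent.Y759.TP2.part_invol h.mt hyp
  have hB : ¬IsB tt n (dp T z i o) := by
    rintro ⟨d, hd, e⟩
    unfold dn at e
    rw [dt_eq] at e
    exact hne _ hd (h.dp_eq hT (hb.mem _ hd) e).1
  unfold ext
  rw [if_neg hB, neg_eq_zero]
  refine vl_no c ?_
  rintro ⟨d, hd, e⟩
  by_cases hM : mat m tt n (d / 2) < 12
  · obtain ⟨k1, k2⟩ := hb.part_dn h hM
    rw [← e, hinv] at k1
    exact hB ⟨_, k2, k1⟩
  · have h1 := (hb.dn_outer h hd hM).2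
    rw [← e, hinv, mem_Bfl] at h1
    exact h.pt_onD hT z i ⟨_, h1, rfl⟩

/-- the darts in the circle -/
def dz (t : ℕ) (z : Lt) (o s : Bool) : ℕ := 2 * pno t z s + o.toNat

theorem dn_dz (tt : ℕ → Tri) (t : ℕ) (z : Lt) (o s : Bool) : dn tt (dz t z o s) = dt tt (pno t z s) o := by
  have h1 : dz t z o s / 2 = pno t z s := by unfold dz; cases o <;> simp; omega
  have h2 : dz t z o s % 2 = o.toNat := by unfold dz; cases o <;> simp
  unfold dn
  rw [h1, h2, bs_toNat]

theorem dz_T (t : ℕ) (z : Lt) (o s : Bool) : pT (dz t z o s / 2) = t := by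
  have h1 : dz t z o s / 2 = pno t z s := by unfold dz; cases o <;> simp; omega
  rw [h1, pno_T]

theorem cd_eq (t : ℕ) : cd (3 * t) = [dz t .A true false, dz t .B true false, dz t .A true true,
      dz t .B true true] ∧
    cd (3 * t + 1) = [dz t .A false false, dz t .C true false, dz t .A false true,
      dz t .C true true] ∧
    cd (3 * t + 2) = [dz t .B false false, dz t .C false false, dz t .B false true,
      dz t .C false true] := by
  have e0 : 3 * t / 3 = t := by omega
  have e0' : 3 * t % 3 = 0 := by omega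
  have e1 : (3 * t + 1) / 3 = t := by omega
  have e1' : (3 * t + 1) % 3 = 1 := by omega
  have e2 : (3 * t + 2) / 3 = t := by omega
  have e2' : (3 * t + 2) % 3 = 2 := by omega
  refine ⟨?_, ?_, ?_⟩
  · unfold cd
    simp only [e0, e0', dz, pno, lno, Bool.toNat_false, Bool.toNat_true, List.cons.injEq]
    refine ⟨?_, ?_, ?_, ?_, trivial⟩ <;> ring
  · unfold cd
    simp only [e1, e1', dz, pno, lno, Bool.toNat_false, Bool.toNat_true, List.cons.injEq]
    refine ⟨?_, ?_, ?_, ?_, trivial⟩ <;> ring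
  · unfold cd
    simp only [e2, e2', dz, pno, lno, Bool.toNat_false, Bool.toNat_true, List.cons.injEq]
    refine ⟨?_, ?_, ?_, ?_, trivial⟩ <;> ring

theorem words_dn (tt : ℕ → Tri) (t : ℕ) (ht : Hts (tt t)) :
    (tt t).wi = word4 (tt t).ei (dn tt (dz t .A true (sl (tt t) .A)))
      (dn tt (dz t .A true (!sl (tt t) .A))) (dn tt (dz t .B true (sl (tt t) .B)))
      (dn tt (dz t .B true (!sl (tt t) .B))) ∧
    (tt t).wj = word4 (tt t).ej (dn tt (dz t .A false (sl (tt t) .A)))
      (dn tt (dz t .A false (!sl (tt t) .A))) (dn tt (dz t .C true (sl (tt t) .C)))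
      (dn tt (dz t .C true (!sl (tt t) .C))) ∧
    (tt t).wk = word4 (tt t).ek (dn tt (dz t .B false (sl (tt t) .B)))
      (dn tt (dz t .B false (!sl (tt t) .B))) (dn tt (dz t .C false (sl (tt t) .C)))
      (dn tt (dz t .C false (!sl (tt t) .C))) := by
  have h := words (tt t) ht
  simp only [dp_dt, Bool.false_xor, Bool.true_xor] at h
  simp only [dn_dz]
  exact h

theorem om_word (F G : Pass → ℤ) (e s₁ s₂ : Bool) (P Q : Bool → Pass)
    (hF : F (P false) + F (Q false) + F (P true) + F (Q true) = 0)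
    (hG : G (P false) + G (Q false) + G (P true) + G (Q true) = 0) :
    om F G (word4 e (P s₁) (P !s₁) (Q s₂) (Q !s₂)) = (if xor s₁ (xor s₂ e) then -1 else 1) *
      ((F (P false) * G (Q false) - F (Q false) * G (P false)) +
        (F (P false) * G (P true) - F (P true) * G (P false)) +
        (F (Q false) * G (P true) - F (P true) * G (Q false))) := by
  have hF' : F (Q true) = -(F (P false) + F (Q false) + F (P true)) := by linarith
  have hG' : G (Q true) = -(G (P false) + G (Q false) + G (P true)) := by linarith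
  cases e <;> cases s₁ <;> cases s₂ <;> simp [word4, om, hF', hG'] <;> ring

theorem sum_word (F : Pass → ℤ) (e s₁ s₂ : Bool) (P Q : Bool → Pass)
    (hF : F (P false) + F (Q false) + F (P true) + F (Q true) = 0) :
    ((word4 e (P s₁) (P !s₁) (Q s₂) (Q !s₂)).map F).sum = 0 := by
  cases e <;> cases s₁ <;> cases s₂ <;> simp [word4] <;> linarith

/-- the value of a digit -/
def cf (f d : ℕ) : ℤ := (dg f d : ℤ) - 1

/-- the intersection number at one triple point -/
def wt (f g t : ℕ) : ℤ :=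
  ((pp f g (cd (3 * t)) + pp f g (cd (3 * t + 1)) + pp f g (cd (3 * t + 2)) : ℕ) : ℤ) -
    ((pp g f (cd (3 * t)) + pp g f (cd (3 * t + 1)) + pp g f (cd (3 * t + 2)) : ℕ) : ℤ)

/-- the facts contained in a certificate -/
structure Cf (e : Bool) (M : ℕ → ℕ) (n f g : ℕ) : Prop where
  f0 : ∀ d, pT (d / 2) < n → M (d / 2) = 12 → cf f d = 0
  fm : ∀ d, pT (d / 2) < n → M (d / 2) < 12 → cf f (nbd M d) = -cf f d
  gm : ∀ d, pT (d / 2) < n → M (d / 2) < 12 → cf g (nbd M d) = -cf g d
  fs : ∀ k < 6, sm f (cd k) = 4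
  gs : ∀ k < 6, sm g (cd k) = 4
  ne : wt f g 0 + (if e then -1 else 1) * wt f g 1 ≠ 0
  f1 : n = 1 → wt f g 1 = 0

theorem mem_R12' {p : ℕ} : p ∈ Blk.R12 ↔ p < 12 := Blk.mem_R12

theorem cert_facts (hb : Bk D Ts m tt n) {e : Bool} {f g : ℕ}
    (hc : certB e (mat m tt n) f g = true) : Cf e (mat m tt n) n f g := by
  unfold certB at hc
  simp only [Bool.and_eq_true, List.all_eq_true, mem_R12', Bool.not_eq_true', Blk.beq_false,
    Blk.beq_iff] at hc
  obtain ⟨⟨h1, h2⟩, h3⟩ := hc
  have h4 : ∀ d, d / 2 < 12 → fine (mat m tt n) f g (d / 2) (d % 2) = true := by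
    intro d hd
    have := h1 _ hd
    have h5 : d % 2 < 2 := by omega
    interval_cases d % 2
    · exact this.1
    · exact this.2
  have hd : ∀ d, 2 * (d / 2) + d % 2 = d := fun d => by omega
  have h5 : ∀ d, d / 2 < 12 → mat m tt n (d / 2) = 12 → dg f d = 1 := by
    intro d hd' hM
    have := h4 d hd'
    unfold fine at this
    rw [hd d, hM] at this
    simpa [Blk.beq_iff] using this
  have h6 : ∀ d, mat m tt n (d / 2) < 12 → dg f d + dg f (nbd (mat m tt n) d) = 2 ∧
      dg g d + dg g (nbd (mat m tt n) d) = 2 := by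
    intro d hM
    have hd' : d / 2 < 12 := by
      by_contra hn
      rw [Bk.mat_ge (by omega)] at hM
      omega
    have := h4 d hd'
    unfold fine at this
    simp only [Blk.beq_false.2 (show mat m tt n (d / 2) ≠ 15 by omega),
      Blk.beq_false.2 (show mat m tt n (d / 2) ≠ 12 by omega), cond_false, Bool.and_eq_true,
      Blk.beq_iff, hd d] at this
    exact this
  refine ⟨fun d hd' hM => ?_, fun d hd' hM => ?_, fun d hd' hM => ?_, fun k hk => ?_, fun k hk => ?_,
    fun he => ?_, fun hn1 => ?_⟩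
  · unfold cf; rw [h5 d (hb.pT_lt hd') hM]; rfl
  · unfold cf; have := (h6 d hM).1; omega
  · unfold cf; have := (h6 d hM).2; omega
  · exact (h2 k (by simp only [List.mem_cons, List.not_mem_nil, or_false]; omega)).1
  · exact (h2 k (by simp only [List.mem_cons, List.not_mem_nil, or_false]; omega)).2
  · apply h3
    unfold wt at he
    have q1 : 3 * 0 = 0 := rfl
    have q2 : 3 * 0 + 1 = 1 := rfl
    have q3 : 3 * 0 + 2 = 2 := rfl
    have q4 : 3 * 1 = 3 := rfl
    have q5 : 3 * 1 + 1 = 4 := rfl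
    have q6 : 3 * 1 + 2 = 5 := rfl
    rw [q1, q2, q3, q4, q5, q6] at he
    cases e
    · simp only [Bool.false_eq_true, if_false, one_mul] at he
      rw [Bool.cond_false, Bool.cond_false]
      omega
    · simp only [if_true] at he
      rw [Bool.cond_true, Bool.cond_true]
      omega
  · have h7 : ∀ z o s, dg f (dz 1 z o s) = 1 := by
      intro z o s
      have e1 := dz_T 1 z o s
      have e2 : dz 1 z o s / 2 < 12 := by
        unfold pT at e1; omega
      exact h5 _ e2 (Bk.mat_no e2 (by rw [e1, hn1]; omega))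
    obtain ⟨c1, c2, c3⟩ := cd_eq 1
    unfold wt
    rw [c1, c2, c3]
    simp only [pp, h7]
    push_cast
    ring

theorem sum_cd {f k a b c d : ℕ} (h : sm f (cd k) = 4) (he : cd k = [a, b, c, d]) :
    cf f a + cf f b + cf f c + cf f d = 0 := by
  rw [he] at h
  unfold sm at h
  simp only [List.foldr_cons, List.foldr_nil] at h
  unfold cf
  omega

/-- the circles of one triple point -/
theorem Bk.circ (hb : Bk D Ts m tt n) (h : St D Ts m) {f g : ℕ} (hf : ∀ k < 6, sm f (cd k) = 4)
    (hg : ∀ k < 6, sm g (cd k) = 4) {t : ℕ} (ht : t < n) :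
    (∀ w ∈ [(tt t).wi, (tt t).wj, (tt t).wk], (w.map (ext m tt n (cf f))).sum = 0) ∧
    om (ext m tt n (cf f)) (ext m tt n (cf g)) (tt t).wi +
      om (ext m tt n (cf f)) (ext m tt n (cf g)) (tt t).wj +
      om (ext m tt n (cf f)) (ext m tt n (cf g)) (tt t).wk =
      (if et (tt t) then -1 else 1) * wt f g t := by
  obtain ⟨hok, hts⟩ := h.ok _ (hb.mem t ht)
  obtain ⟨w1, w2, w3⟩ := words_dn tt t hts
  obtain ⟨c1, c2, c3⟩ := cd_eq t
  have ht2 := hb.n2
  have hv : ∀ c z o s, ext m tt n c (dn tt (dz t z o s)) = c (dz t z o s) := fun c z o s =>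
    ext_dn hb h c (by rw [dz_T]; exact ht)
  have f1 := sum_cd (hf (3 * t) (by omega)) c1
  have f2 := sum_cd (hf (3 * t + 1) (by omega)) c2
  have f3 := sum_cd (hf (3 * t + 2) (by omega)) c3
  have g1 := sum_cd (hg (3 * t) (by omega)) c1
  have g2 := sum_cd (hg (3 * t + 1) (by omega)) c2
  have g3 := sum_cd (hg (3 * t + 2) (by omega)) c3
  simp only [← hv (cf f)] at f1 f2 f3
  simp only [← hv (cf g)] at g1 g2 g3
  constructor
  · intro w hw
    simp only [List.mem_cons, List.not_mem_nil, or_false] at hw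
    rcases hw with rfl | rfl | rfl
    · rw [w1]; exact sum_word _ _ _ _ (fun s => dn tt (dz t .A true s)) (fun s => dn tt (dz t .B true s)) f1
    · rw [w2]; exact sum_word _ _ _ _ (fun s => dn tt (dz t .A false s)) (fun s => dn tt (dz t .C true s)) f2
    · rw [w3]; exact sum_word _ _ _ _ (fun s => dn tt (dz t .B false s)) (fun s => dn tt (dz t .C false s)) f3
  · have e1 := et_of hok hts .A true
    have e2 := et_of hok hts .A false
    have e3 := et_of hok hts .B false
    simp only [pr, cx, bt, Bool.xor_false] at e1 e2 e3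
    rw [w1, w2, w3, om_word _ _ _ _ _ (fun s => dn tt (dz t .A true s))
      (fun s => dn tt (dz t .B true s)) f1 g1, om_word _ _ _ _ _ (fun s => dn tt (dz t .A false s))
      (fun s => dn tt (dz t .C true s)) f2 g2, om_word _ _ _ _ _ (fun s => dn tt (dz t .B false s))
      (fun s => dn tt (dz t .C false s)) f3 g3, e1, e2, e3]
    simp only [hv]
    unfold wt
    rw [c1, c2, c3]
    simp only [pp, cf]
    push_cast
    ring

theorem nodup_of {α : Type} {L : List α} (h : ∀ l₁ x l₂, L = l₁ ++ x :: l₂ → x ∉ l₂) : L.Nodup := by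
  induction L with
  | nil => exact List.nodup_nil
  | cons y L ih =>
    rw [List.nodup_cons]
    exact ⟨h [] y L rfl, ih fun l₁ x l₂ e => h (y :: l₁) x l₂ (by rw [e]; rfl)⟩

theorem St.nodupTs (h : St D Ts m) : Ts.Nodup := by
  refine nodup_of fun l₁ T l₂ e hT => ?_
  subst e
  exact h.names_disj (T' := T) (by simp [hT]) (pt_names T .A false)
    (names_iff.1 (pt_names T .A false))

theorem in_sum {F G : Pass → ℤ} : Pq.In (pcode D Ts m) F G =
    (Ts.map fun T => om F G T.wi + om F G T.wj + om F G T.wk).sum := by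
  unfold Pq.In pcode
  simp only
  induction Ts with
  | nil => rfl
  | cons T l ih =>
    rw [TC_cons, List.map_append, List.map_append, List.sum_append, ih, List.map_cons, List.sum_cons]
    congr 1
    simp only [Tri.code, List.map_cons, List.map_nil, List.sum_cons, List.sum_nil]
    ring

open Classical in
theorem Bk.sum_block (hb : Bk D Ts m tt n) (h : St D Ts m) {φ : Tri → ℤ}
    (h0 : ∀ T ∈ Ts, (∀ t < n, T ≠ tt t) → φ T = 0) :
    (Ts.map φ).sum = ∑ t ∈ Finset.range n, φ (tt t) := by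
  rw [← List.sum_toFinset φ h.nodupTs]
  have h1 : ∑ t ∈ Finset.range n, φ (tt t) = ∑ T ∈ (Finset.range n).image tt, φ T := by
    rw [Finset.sum_image]
    intro a ha b hb' e
    exact hb.inj a (Finset.mem_range.1 ha) b (Finset.mem_range.1 hb') e
  rw [h1]
  symm
  refine Finset.sum_subset (fun T hT => ?_) fun T hT hn => ?_
  · obtain ⟨t, ht, rfl⟩ := Finset.mem_image.1 hT
    exact List.mem_toFinset.2 (hb.mem t (Finset.mem_range.1 ht))
  · refine h0 T (List.mem_toFinset.1 hT) fun t ht e => hn ?_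
    rw [e]
    exact Finset.mem_image.2 ⟨t, Finset.mem_range.2 ht, rfl⟩

/-- certificates are impossible -/
theorem Bk.no_cert (hb : Bk D Ts m tt n) (h : St D Ts m) (hn : (D.map Prod.snd).Nodup) (e : Bool)
    (he : n = 2 → et (tt 1) = xor e (et (tt 0))) (f g : ℕ) :
    certB e (mat m tt n) f g = false := by
  rw [Bool.eq_false_iff]
  intro hc
  have C := cert_facts hb hc
  have hG := pcode_good hn h.wf h.mt h.nv
  have hfl : ∀ c : ℕ → ℤ, (∀ d, pT (d / 2) < n → mat m tt n (d / 2) < 12 →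
      c (nbd (mat m tt n) d) = -c d) → (∀ t < n, ∀ w ∈ [(tt t).wi, (tt t).wj, (tt t).wk],
      (w.map (ext m tt n c)).sum = 0) → (pcode D Ts m).Flow (ext m tt n c) := by
    intro c hc1 hc2
    refine ⟨fun y hy => hb.ext_anti h hc1 ((pcode_dart D Ts m y).1 hy), fun q hq => ?_⟩
    obtain ⟨T, hT, hw⟩ := mem_Q hq
    by_cases hex : ∃ t < n, T = tt t
    · obtain ⟨t, ht, rfl⟩ := hex
      exact hc2 t ht q hw
    · push Not at hex
      refine List.sum_eq_zero fun x hx => ?_
      obtain ⟨y, hy, rfl⟩ := List.mem_map.1 hx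
      exact hb.ext_other h c hT hex hw hy
  have hF := hfl (cf f) C.fm fun t ht => (hb.circ h C.fs C.gs ht).1
  have hGf := hfl (cf g) C.gm fun t ht => (hb.circ h C.gs C.fs ht).1
  have h0 := Pq.in_flow hG hF (fun y hy => hb.ext_D h C.f0 (mem_Bfl.1 hy)) hGf
  rw [in_sum, hb.sum_block h (φ := fun T => om (ext m tt n (cf f)) (ext m tt n (cf g)) T.wi +
    om (ext m tt n (cf f)) (ext m tt n (cf g)) T.wj +
    om (ext m tt n (cf f)) (ext m tt n (cf g)) T.wk) (fun T hT hne => by
      have key : ∀ w ∈ [T.wi, T.wj, T.wk], om (ext m tt n (cf f)) (ext m tt n (cf g)) w = 0 :=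
        fun w hw => om_zero _ _ w fun y hy => hb.ext_other h _ hT hne hw hy
      rw [key T.wi (by simp), key T.wj (by simp), key T.wk (by simp)]
      rfl),
    Finset.sum_congr rfl fun t ht => (hb.circ h C.fs C.gs (Finset.mem_range.1 ht)).2] at h0
  have hn12 : n = 1 ∨ n = 2 := by
    have := hb.n1
    have := hb.n2
    omega
  have hne := C.ne
  rcases hn12 with rfl | rfl
  · rw [Finset.sum_range_one] at h0
    rw [C.f1 rfl] at hne
    cases h1 : et (tt 0) <;> simp only [h1] at h0 <;> simp at h0 hne <;> exact hne h0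
  · rw [Finset.sum_range_succ, Finset.sum_range_one, he rfl] at h0
    apply hne
    cases h1 : et (tt 0) <;> cases e <;> simp [h1] at h0 ⊢ <;> linarith

end Pool.Agent.V5helper74.SR
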