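import Pool.Agent.V5helper74.SR.B5
import Pool.Agent.V5helper74.SR.B3a
import Pool.Agent.V5helper74.SR.B3b

/-! Two triple points: two corners in each component. -/

namespace Pool.Agent.V5helper74.SR

open Pool.Agent.Y874.TP2 (CycL om part sg)
open Pool.Agent.Y468.SR hiding pl
open Pool.Agent.Y874.TP (NullV Tri TC word4 passes_append' TC_cons TC_nil sep mem_code)
open Pool.Agent.R800.BT (Bad Hts)
open Blk (pl pT ps cd oo crn outc bit clo stp nbs tb twoB)

variable {D : Code} {Ts : List Tri} {m : ℕ → ℕ} {tt : ℕ → Tri} {n : ℕ}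

/-- the number of the circle of a dart -/
def kn : Lt → Bool → ℕ
  | .A, true => 0
  | .B, true => 0
  | .A, false => 1
  | .C, true => 1
  | .B, false => 2
  | .C, false => 2

/-- the circle with the given number -/
def wdn (tt : ℕ → Tri) (k : ℕ) : List Pass := cw (tt (k / 3)) (k % 3)

theorem kn_lt (z : Lt) (o : Bool) : kn z o < 3 := by cases z <;> cases o <;> simp [kn]

theorem cw_kn (T : Tri) (z : Lt) (o : Bool) : cw T (kn z o) = wd T z o := by
  cases z <;> cases o <;> rfl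

theorem wdn_kn (tt : ℕ → Tri) (t : ℕ) (z : Lt) (o : Bool) : wdn tt (3 * t + kn z o) = wd (tt t) z o := by
  have := kn_lt z o
  unfold wdn
  rw [show (3 * t + kn z o) / 3 = t by omega, show (3 * t + kn z o) % 3 = kn z o by omega, cw_kn]

theorem dz_div (t : ℕ) (z : Lt) (o s : Bool) : dz t z o s / 2 = pno t z s := by
  unfold dz; cases o <;> simp; omega

theorem dz_mod (t : ℕ) (z : Lt) (o s : Bool) : dz t z o s % 2 = o.toNat := by
  unfold dz; cases o <;> simp

theorem dz_ex (d : ℕ) : ∃ z o s, d = dz (pT (d / 2)) z o s := by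
  refine ⟨ltr (pl (d / 2)), bs (d % 2), bs (ps (d / 2)), ?_⟩
  unfold dz
  rw [pno_eq, toNat_bs (by omega)]
  omega

theorem circ_pno (t : ℕ) (z : Lt) (o s : Bool) : Blk.circ (pno t z s) o.toNat = 3 * t + kn z o := by
  unfold Blk.circ
  rw [pno_l, pno_T]
  cases z <;> cases o <;> rfl

theorem circ_dz (t : ℕ) (z : Lt) (o s : Bool) :
    Blk.circ (dz t z o s / 2) (dz t z o s % 2) = 3 * t + kn z o := by
  rw [dz_div, dz_mod, circ_pno]

theorem cd_mem {t : ℕ} {z : Lt} {o s : Bool} : dz t z o s ∈ cd (3 * t + kn z o) := by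
  obtain ⟨c1, c2, c3⟩ := cd_eq t
  cases z <;> cases o <;> cases s <;> simp only [kn, Nat.add_zero] <;>
    first
      | (rw [c1]; simp)
      | (rw [c2]; simp)
      | (rw [c3]; simp)

theorem cd_mem' {k d : ℕ} (h : d ∈ cd k) : ∃ z o s, d = dz (k / 3) z o s ∧ k = 3 * (k / 3) + kn z o := by
  obtain ⟨c1, c2, c3⟩ := cd_eq (k / 3)
  have hk : k = 3 * (k / 3) ∨ k = 3 * (k / 3) + 1 ∨ k = 3 * (k / 3) + 2 := by omega
  generalize k / 3 = t at *
  rcases hk with rfl | rfl | rfl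
  · rw [c1] at h
    simp only [List.mem_cons, List.not_mem_nil, or_false] at h
    rcases h with rfl | rfl | rfl | rfl
    · exact ⟨_, _, _, rfl, rfl⟩
    · exact ⟨_, _, _, rfl, rfl⟩
    · exact ⟨_, _, _, rfl, rfl⟩
    · exact ⟨_, _, _, rfl, rfl⟩
  · rw [c2] at h
    simp only [List.mem_cons, List.not_mem_nil, or_false] at h
    rcases h with rfl | rfl | rfl | rfl
    · exact ⟨_, _, _, rfl, rfl⟩
    · exact ⟨_, _, _, rfl, rfl⟩
    · exact ⟨_, _, _, rfl, rfl⟩
    · exact ⟨_, _, _, rfl, rfl⟩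
  · rw [c3] at h
    simp only [List.mem_cons, List.not_mem_nil, or_false] at h
    rcases h with rfl | rfl | rfl | rfl
    · exact ⟨_, _, _, rfl, rfl⟩
    · exact ⟨_, _, _, rfl, rfl⟩
    · exact ⟨_, _, _, rfl, rfl⟩
    · exact ⟨_, _, _, rfl, rfl⟩

theorem Bk.wdn_Q (hb : Bk D Ts m tt n) {k : ℕ} (hk : k / 3 < n) : wdn tt k ∈ (pcode D Ts m).Q := by
  have hT := hb.mem _ hk
  have : wdn tt k ∈ [(tt (k / 3)).wi, (tt (k / 3)).wj, (tt (k / 3)).wk] := by
    unfold wdn cw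
    split_ifs <;> simp
  show wdn tt k ∈ (TC Ts).map Prod.fst
  rw [List.mem_map]
  generalize wdn tt k = w at *
  generalize tt (k / 3) = T at *
  simp only [List.mem_cons, List.not_mem_nil, or_false] at this
  have key : ∀ C ∈ T.code, C ∈ TC Ts := fun C hC => List.mem_flatMap.2 ⟨T, hT, hC⟩
  rcases this with rfl | rfl | rfl
  · exact ⟨(T.wi, T.li), key _ (by simp [Tri.code]), rfl⟩
  · exact ⟨(T.wj, T.lj), key _ (by simp [Tri.code]), rfl⟩
  · exact ⟨(T.wk, T.lk), key _ (by simp [Tri.code]), rfl⟩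

/-- the dart belongs to its circle -/
theorem Bk.dn_wdn (hb : Bk D Ts m tt n) (h : St D Ts m) {d : ℕ} (hd : pT (d / 2) < n) :
    dn tt d ∈ wdn tt (Blk.circ (d / 2) (d % 2)) ∧ Blk.circ (d / 2) (d % 2) / 3 < n := by
  obtain ⟨z, o, s, e⟩ := dz_ex d
  have ht := hd
  generalize pT (d / 2) = t at e ht
  subst e
  have := kn_lt z o
  rw [circ_dz, wdn_kn, dn_dz, dt_pno]
  exact ⟨wd_mem _ (h.ok _ (hb.mem t ht)).2 _ _ _, by omega⟩

theorem cd_circ {k d : ℕ} (h : d ∈ cd k) : Blk.circ (d / 2) (d % 2) = k ∧ pT (d / 2) = k / 3 := by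
  obtain ⟨z, o, s, e1, e2⟩ := cd_mem' h
  rw [e1, circ_dz, dz_T]
  exact ⟨e2.symm, rfl⟩

theorem bit_eq (r c : ℕ) : bit r c = r.testBit c := by
  have h1 : Nat.land (Nat.shiftRight r c) 1 = (r >>> c) % 2 := Nat.and_one_is_mod _
  unfold bit Nat.testBit
  rw [h1, Nat.one_and_eq_mod_two]
  rcases Nat.mod_two_eq_zero_or_one (r >>> c) with h | h <;> rw [h] <;> rfl

theorem bit_lor (a b c : ℕ) : bit (Nat.lor a b) c = (bit a c || bit b c) := by
  rw [bit_eq, bit_eq, bit_eq]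
  exact Nat.testBit_or a b c

theorem bit_one {k c : ℕ} (h : bit (Nat.shiftLeft 1 k) c = true) : c = k := by
  rw [bit_eq] at h
  have h1 : Nat.shiftLeft 1 k = 2 ^ k := Nat.one_shiftLeft k
  rw [h1, Nat.testBit_two_pow] at h
  simpa [eq_comm] using h

/-- the circles reached -/
def Rc (P : Pq Pass) (tt : ℕ → Tri) (n : ℕ) (x : Pass) (c : ℕ) : Prop := c / 3 < n ∧ P.Cq x (wdn tt c)

theorem inv_lor {R : ℕ → Prop} {a b : ℕ} (ha : ∀ c, bit a c = true → R c)
    (hb : ∀ c, bit b c = true → R c) : ∀ c, bit (Nat.lor a b) c = true → R c := by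
  intro c hc
  rw [bit_lor, Bool.or_eq_true] at hc
  exact hc.elim (ha c) (hb c)

theorem tb_eq (a : ℕ → ℕ) (d : ℕ) : tb a d = bif Nat.beq (a (d / 2)) 12 then 0 else
    Nat.shiftLeft 1 (Blk.circ (a (d / 2)) (oo (d / 2) (a (d / 2)) (d % 2))) := rfl

theorem Bk.inv_tb (hb : Bk D Ts m tt n) (h : St D Ts m) (hn : (D.map Prod.snd).Nodup) {x : Pass}
    {c d : ℕ} (hc : Rc (pcode D Ts m) tt n x c) (hd : d ∈ cd c) :
    ∀ c', bit (tb (mat m tt n) d) c' = true → Rc (pcode D Ts m) tt n x c' := by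
  intro c' hc'
  have hG := pcode_good hn h.wf h.mt h.nv
  obtain ⟨e1, e2⟩ := cd_circ hd
  have hdn : pT (d / 2) < n := by rw [e2]; exact hc.1
  rw [tb_eq] at hc'
  by_cases h12 : mat m tt n (d / 2) = 12
  · rw [Blk.beq_iff.2 h12, cond_true, bit_eq, Nat.zero_testBit] at hc'
    exact absurd hc' (by simp)
  · rw [Blk.beq_false.2 h12, cond_false] at hc'
    have h1 := bit_one hc'
    have hM : mat m tt n (d / 2) < 12 := by
      have := hb.mat_le (hb.pT_lt hdn)
      omega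
    obtain ⟨k1, k2⟩ := hb.part_dn h hM
    obtain ⟨k3, k4⟩ := hb.dn_wdn h k2
    have ho := oo_lt (p := d / 2) (q := mat m tt n (d / 2)) (o := d % 2) (by omega)
    have e3 : nbd (mat m tt n) d / 2 = mat m tt n (d / 2) := by unfold nbd; omega
    have e4 : nbd (mat m tt n) d % 2 = oo (d / 2) (mat m tt n (d / 2)) (d % 2) := by unfold nbd; omega
    rw [e3, e4, ← h1] at k3 k4
    have h2 := (hb.dn_wdn h hdn).1
    rw [e1] at h2
    refine ⟨k4, Pq.cq_step hG (hb.wdn_Q hc.1) (hb.wdn_Q k4) h2 ?_ hc.2⟩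
    show part m (dn tt d) ∈ _
    rw [k1]; exact k3

theorem Bk.inv_nbs (hb : Bk D Ts m tt n) (h : St D Ts m) (hn : (D.map Prod.snd).Nodup) {x : Pass}
    {c : ℕ} (hc : Rc (pcode D Ts m) tt n x c) :
    ∀ c', bit (nbs (mat m tt n) c) c' = true → Rc (pcode D Ts m) tt n x c' := by
  unfold nbs
  have key : ∀ l : List ℕ, (∀ d ∈ l, d ∈ cd c) → ∀ c', bit (l.foldr (fun d n_1 => Nat.lor
      (tb (mat m tt n) d) n_1) (Nat.shiftLeft 1 c)) c' = true → Rc (pcode D Ts m) tt n x c' := by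
    intro l
    induction l with
    | nil =>
      intro _ c' hc'
      rw [bit_one hc']; exact hc
    | cons d l ih =>
      intro hl
      rw [List.foldr_cons]
      exact inv_lor (hb.inv_tb h hn hc (hl d (by simp))) (ih fun d' hd' => hl d' (by simp [hd']))
  exact key _ fun d hd => hd

theorem Bk.inv_stp (hb : Bk D Ts m tt n) (h : St D Ts m) (hn : (D.map Prod.snd).Nodup) {x : Pass}
    {r : ℕ} (hr : ∀ c, bit r c = true → Rc (pcode D Ts m) tt n x c) :
    ∀ c, bit (stp (mat m tt n) r) c = true → Rc (pcode D Ts m) tt n x c := by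
  unfold stp
  have key : ∀ l : List ℕ, ∀ c, bit (l.foldr (fun c n_1 => bif bit r c then
      Nat.lor (nbs (mat m tt n) c) n_1 else n_1) r) c = true → Rc (pcode D Ts m) tt n x c := by
    intro l
    induction l with
    | nil => exact hr
    | cons c l ih =>
      rw [List.foldr_cons]
      cases hc : bit r c
      · rw [cond_false]; exact ih
      · rw [cond_true]; exact inv_lor (hb.inv_nbs h hn (hr c hc)) ih
  exact key _

theorem Bk.inv_clo (hb : Bk D Ts m tt n) (h : St D Ts m) (hn : (D.map Prod.snd).Nodup) {x : Pass}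
    {k : ℕ} (hk : Rc (pcode D Ts m) tt n x k) :
    ∀ c, bit (clo (mat m tt n) k) c = true → Rc (pcode D Ts m) tt n x c := by
  unfold clo
  refine hb.inv_stp h hn (hb.inv_stp h hn (hb.inv_stp h hn (hb.inv_stp h hn (hb.inv_stp h hn ?_))))
  intro c hc
  rw [bit_one hc]; exact hk

theorem cyc_word4 (e s₁ s₂ s s' : Bool) (P Q : Bool → Pass) :
    CycL (P s) (Q s') (word4 e (P s₁) (P !s₁) (Q s₂) (Q !s₂)) ∨
      CycL (Q s') (P s) (word4 e (P s₁) (P !s₁) (Q s₂) (Q !s₂)) := by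
  have c1 : ∀ a b c d : Pass, CycL a b [a, b, c, d] := fun a b c d => Or.inl ⟨[], _, rfl⟩
  have c2 : ∀ a b c d : Pass, CycL b c [a, b, c, d] := fun a b c d => Or.inl ⟨[a], _, rfl⟩
  have c3 : ∀ a b c d : Pass, CycL c d [a, b, c, d] := fun a b c d => Or.inl ⟨[a, b], _, rfl⟩
  have c4 : ∀ a b c d : Pass, CycL d a [a, b, c, d] := fun a b c d => Or.inr ⟨[b, c], rfl⟩
  cases e <;> cases s₁ <;> cases s₂ <;> cases s <;> cases s' <;>
    simp only [word4, Bool.not_true, Bool.not_false, if_true, if_false, Bool.false_eq_true] <;>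
    first
      | exact Or.inl (c1 _ _ _ _)
      | exact Or.inl (c2 _ _ _ _)
      | exact Or.inl (c3 _ _ _ _)
      | exact Or.inl (c4 _ _ _ _)
      | exact Or.inr (c1 _ _ _ _)
      | exact Or.inr (c2 _ _ _ _)
      | exact Or.inr (c3 _ _ _ _)
      | exact Or.inr (c4 _ _ _ _)

/-- the darts of a corner follow one another -/
theorem Bk.crn_cyc (hb : Bk D Ts m tt n) (h : St D Ts m) {z : ℕ × ℕ × ℕ} (hz : z ∈ crn)
    (h3 : z.1 / 3 < n) : z.2.1 ∈ cd z.1 ∧ z.2.2 ∈ cd z.1 ∧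
      (CycL (dn tt z.2.1) (dn tt z.2.2) (wdn tt z.1) ∨ CycL (dn tt z.2.2) (dn tt z.2.1) (wdn tt z.1)) := by
  obtain ⟨c, a, b⟩ := z
  simp only at h3 ⊢
  unfold crn at hz
  rw [List.mem_flatMap] at hz
  obtain ⟨k, hk, hz⟩ := hz
  obtain ⟨c1, c2, c3⟩ := cd_eq (k / 3)
  have hts := (h.ok _ (hb.mem _ h3)).2
  have hkk : k = 3 * (k / 3) ∨ k = 3 * (k / 3) + 1 ∨ k = 3 * (k / 3) + 2 := by omega
  have key : ∀ (x₁ x₂ : Lt) (o₁ o₂ : Bool), kn x₁ o₁ = kn x₂ o₂ → k = 3 * (k / 3) + kn x₁ o₁ →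
      cd k = [dz (k / 3) x₁ o₁ false, dz (k / 3) x₂ o₂ false, dz (k / 3) x₁ o₁ true,
        dz (k / 3) x₂ o₂ true] → (k / 3 < n → ∃ e s₁ s₂, wdn tt k = word4 e
          (dn tt (dz (k / 3) x₁ o₁ s₁)) (dn tt (dz (k / 3) x₁ o₁ !s₁)) (dn tt (dz (k / 3) x₂ o₂ s₂))
          (dn tt (dz (k / 3) x₂ o₂ !s₂))) → a ∈ cd c ∧ b ∈ cd c ∧
      (CycL (dn tt a) (dn tt b) (wdn tt c) ∨ CycL (dn tt b) (dn tt a) (wdn tt c)) := by
    intro x₁ x₂ o₁ o₂ _ _ hcd hw
    rw [hcd] at hz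
    simp only [List.mem_cons, List.not_mem_nil, or_false, Prod.mk.injEq] at hz
    have hck : c = k := by rcases hz with h | h | h | h <;> exact h.1
    subst hck
    obtain ⟨e, s₁, s₂, hw⟩ := hw h3
    rw [hcd, hw]
    have q := fun s s' => cyc_word4 e s₁ s₂ s s' (fun s => dn tt (dz (c / 3) x₁ o₁ s))
      (fun s => dn tt (dz (c / 3) x₂ o₂ s))
    rcases hz with ⟨-, rfl, rfl⟩ | ⟨-, rfl, rfl⟩ | ⟨-, rfl, rfl⟩ | ⟨-, rfl, rfl⟩
    · exact ⟨by simp, by simp, q false false⟩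
    · exact ⟨by simp, by simp, q false true⟩
    · exact ⟨by simp, by simp, q true false⟩
    · exact ⟨by simp, by simp, q true true⟩
  have hwd : ∀ j, k = 3 * (k / 3) + j → j < 3 → wdn tt k = cw (tt (k / 3)) j := by
    intro j hj hj3
    unfold wdn
    rw [show k % 3 = j by omega]
  obtain ⟨w1, w2, w3⟩ := words_dn tt (k / 3)
    (by
      have hck : c = k := by
        rcases hkk with e | e | e
        · rw [← e] at c1
          rw [c1] at hz
          simp only [List.mem_cons, List.not_mem_nil, or_false, Prod.mk.injEq] at hz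
          rcases hz with h | h | h | h <;> exact h.1
        · rw [← e] at c2
          rw [c2] at hz
          simp only [List.mem_cons, List.not_mem_nil, or_false, Prod.mk.injEq] at hz
          rcases hz with h | h | h | h <;> exact h.1
        · rw [← e] at c3
          rw [c3] at hz
          simp only [List.mem_cons, List.not_mem_nil, or_false, Prod.mk.injEq] at hz
          rcases hz with h | h | h | h <;> exact h.1
      rw [← hck]; exact hts)
  rcases hkk with e | e | e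
  · rw [← e] at c1
    exact key .A .B true true rfl e c1 fun _ => ⟨_, _, _, (hwd 0 e (by omega)).trans w1⟩
  · rw [← e] at c2
    exact key .A .C false true rfl e c2 fun _ => ⟨_, _, _, (hwd 1 e (by omega)).trans w2⟩
  · rw [← e] at c3
    exact key .B .C false false rfl e c3 fun _ => ⟨_, _, _, (hwd 2 e (by omega)).trans w3⟩

/-- the two darts of an outer corner give a corner -/
theorem Bk.crn_cor (hb : Bk D Ts m tt n) (h : St D Ts m) (hn : (D.map Prod.snd).Nodup) {x : Pass}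
    {z : ℕ × ℕ × ℕ} (hz : z ∈ crn)
    (hR : Rc (pcode D Ts m) tt n x z.1) (ho : outc (mat m tt n) z = true) :
    ∃ p r, (pcode D Ts m).Cor p r ∧ p ≠ r ∧ (pcode D Ts m).Conn x p ∧ (pcode D Ts m).Conn x r ∧
      ((p = part m (dn tt z.2.1) ∧ r = part m (dn tt z.2.2)) ∨
        (p = part m (dn tt z.2.2) ∧ r = part m (dn tt z.2.1))) := by
  have hG := pcode_good hn h.wf h.mt h.nv
  obtain ⟨h1, h2, h3⟩ := hb.crn_cyc h hz hR.1
  have hd1 : pT (z.2.1 / 2) < n := by rw [(cd_circ h1).2]; exact hR.1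
  have hd2 : pT (z.2.2 / 2) < n := by rw [(cd_circ h2).2]; exact hR.1
  unfold outc at ho
  rw [Bool.and_eq_true, Blk.beq_iff, Blk.beq_iff] at ho
  have o1 := (hb.dn_outer h hd1 (by omega)).2
  have o2 := (hb.dn_outer h hd2 (by omega)).2
  have hne : dn tt z.2.1 ≠ dn tt z.2.2 := by
    intro e
    have e1 := hb.dn_inj h hd1 hd2 e
    have : ∀ z ∈ crn, z.2.1 ≠ z.2.2 := by decide
    exact this z hz e1
  have hq := hb.wdn_Q hR.1
  rcases h3 with h3 | h3
  · obtain ⟨k1, k2, k3, k4⟩ := Pq.adj_cor hG hq ⟨h3, o1, o2⟩ hne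
    exact ⟨_, _, k1, k2, Pq.conn_of hR.2 k3, Pq.conn_of hR.2 k4, Or.inr ⟨rfl, rfl⟩⟩
  · obtain ⟨k1, k2, k3, k4⟩ := Pq.adj_cor hG hq ⟨h3, o2, o1⟩ hne.symm
    exact ⟨_, _, k1, k2, Pq.conn_of hR.2 k3, Pq.conn_of hR.2 k4, Or.inl ⟨rfl, rfl⟩⟩

theorem crn_inj : ∀ z ∈ crn, ∀ z' ∈ crn, ((z.2.1 = z'.2.1 ∧ z.2.2 = z'.2.2) ∨
    (z.2.1 = z'.2.2 ∧ z.2.2 = z'.2.1)) → z = z' := by decide

theorem two_mem {α : Type} {L : List α} (hn : L.Nodup) (h : 2 ≤ L.length) :
    ∃ a ∈ L, ∃ b ∈ L, a ≠ b := by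
  match L, hn, h with
  | [], _, h => simp at h
  | [_], _, h => simp at h
  | a :: b :: _, hn, _ =>
    refine ⟨a, by simp, b, by simp, ?_⟩
    rintro rfl
    simp at hn

/-- two corners -/
theorem Bk.two_at (hb : Bk D Ts m tt n) (h : St D Ts m) (hn : (D.map Prod.snd).Nodup)
    (hT : twoB (mat m tt n) = true) {x : Pass} (hx : x ∈ ((pcode D Ts m).B).flatten) {t : ℕ}
    (ht : t < n) {w : List Pass} (hw : w ∈ [(tt t).wi, (tt t).wj, (tt t).wk])
    (hxw : part m x ∈ w) :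
    ∃ p₁ r₁ p₂ r₂, (pcode D Ts m).Cor p₁ r₁ ∧ (pcode D Ts m).Cor p₂ r₂ ∧ p₁ ≠ r₁ ∧ p₂ ≠ r₂ ∧
      ¬(p₁ = p₂ ∧ r₁ = r₂) ∧ (pcode D Ts m).Conn x p₁ ∧ (pcode D Ts m).Conn x r₁ ∧
      (pcode D Ts m).Conn x p₂ ∧ (pcode D Ts m).Conn x r₂ := by
  have hG := pcode_good hn h.wf h.mt h.nv
  have hxD := mem_Bfl.1 hx
  have hxE : x ∈ passes (D ++ TC Ts) := by rw [passes_append']; exact List.mem_append_left _ hxD
  have hinv : part m (part m x) = x := Pool.Agent.Y759.TP2.part_invol h.mt hxE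
  obtain ⟨z, i, o, e1, e2⟩ := mem_wd (tt t) (h.ok _ (hb.mem t ht)).2 hw hxw
  set d := dz t z o (xor i (sl (tt t) z)) with hd
  have e3 : part m x = dn tt d := by rw [e1, hd, dn_dz, dp_dt]
  have hdT : pT (d / 2) < n := by rw [hd, dz_T]; exact ht
  have hM : mat m tt n (d / 2) = 12 := by
    by_contra hne
    have hM : mat m tt n (d / 2) < 12 := by
      have := hb.mat_le (hb.pT_lt hdT)
      omega
    obtain ⟨k1, k2⟩ := hb.part_dn h hM
    rw [← e3, hinv] at k1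
    exact hb.notB h hxD ⟨_, k2, k1⟩
  set k := 3 * t + kn z o with hk
  have hk3 : k / 3 = t := by have := kn_lt z o; omega
  have hR : Rc (pcode D Ts m) tt n x k := by
    refine ⟨by omega, Pq.cq_base hG hx (hb.wdn_Q (by omega)) ?_⟩
    show part m x ∈ _
    rw [hk, wdn_kn, ← e2]; exact hxw
  unfold twoB at hT
  rw [List.all_eq_true] at hT
  have hk6 := hT k (by
    have := hb.n2
    have := kn_lt z o
    simp only [List.mem_cons, List.not_mem_nil, or_false]; omega)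
  rw [Bool.or_eq_true] at hk6
  rcases hk6 with hk6 | hk6
  · exfalso
    rw [List.all_eq_true] at hk6
    have := hk6 d cd_mem
    rw [hM] at this
    simp at this
  · have hlen := Nat.le_of_ble_eq_true hk6
    have hnd : crn.Nodup := by decide
    obtain ⟨z₁, hz₁, z₂, hz₂, hne⟩ := two_mem (hnd.filter _) hlen
    rw [List.mem_filter, Bool.and_eq_true] at hz₁ hz₂
    obtain ⟨p₁, r₁, a1, a2, a3, a4, a5⟩ := hb.crn_cor h hn hz₁.1
      (hb.inv_clo h hn hR _ hz₁.2.2) hz₁.2.1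
    obtain ⟨p₂, r₂, b1, b2, b3, b4, b5⟩ := hb.crn_cor h hn hz₂.1
      (hb.inv_clo h hn hR _ hz₂.2.2) hz₂.2.1
    refine ⟨p₁, r₁, p₂, r₂, a1, b1, a2, b2, ?_, a3, a4, b3, b4⟩
    rintro ⟨rfl, rfl⟩
    apply hne
    apply crn_inj z₁ hz₁.1 z₂ hz₂.1
    have R1 := (hb.inv_clo h hn hR _ hz₁.2.2).1
    have R2 := (hb.inv_clo h hn hR _ hz₂.2.2).1
    obtain ⟨c1, c2, -⟩ := hb.crn_cyc h hz₁.1 R1
    obtain ⟨c3, c4, -⟩ := hb.crn_cyc h hz₂.1 R2
    have g1 : pT (z₁.2.1 / 2) < n := by rw [(cd_circ c1).2]; exact R1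
    have g2 : pT (z₁.2.2 / 2) < n := by rw [(cd_circ c2).2]; exact R1
    have g3 : pT (z₂.2.1 / 2) < n := by rw [(cd_circ c3).2]; exact R2
    have g4 : pT (z₂.2.2 / 2) < n := by rw [(cd_circ c4).2]; exact R2
    have pinj : ∀ {a b}, pT (a / 2) < n → pT (b / 2) < n → part m (dn tt a) = part m (dn tt b) →
        a = b := by
      intro a b ha hb' e
      have := congrArg (part m) e
      rw [Pool.Agent.Y759.TP2.part_invol h.mt (hb.dn_passes h ha),
        Pool.Agent.Y759.TP2.part_invol h.mt (hb.dn_passes h hb')] at this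
      exact hb.dn_inj h ha hb' this
    rcases a5 with ⟨q1, q2⟩ | ⟨q1, q2⟩ <;> rcases b5 with ⟨q3, q4⟩ | ⟨q3, q4⟩
    · exact Or.inl ⟨pinj g1 g3 (q1.symm.trans q3), pinj g2 g4 (q2.symm.trans q4)⟩
    · exact Or.inr ⟨pinj g1 g4 (q1.symm.trans q3), pinj g2 g3 (q2.symm.trans q4)⟩
    · exact Or.inr ⟨pinj g1 g4 (q2.symm.trans q4), pinj g2 g3 (q1.symm.trans q3)⟩
    · exact Or.inl ⟨pinj g1 g3 (q2.symm.trans q4), pinj g2 g4 (q1.symm.trans q3)⟩

/-- the matching of the ports is found by the search -/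
theorem Bk.twoB (hb : Bk D Ts m tt n) (h : St D Ts m) (hn : (D.map Prod.snd).Nodup) :
    Blk.twoB (mat m tt n) = true := by
  have hn12 : n = 1 ∨ n = 2 := by
    have := hb.n1
    have := hb.n2
    omega
  rcases hn12 with rfl | rfl
  · exact Blk.sound Blk.run0 (hb.val h hn false (by omega)
      (fun f g => hb.no_cert h hn false (by omega) f g) fun _ => rfl)
  · by_cases he : et (tt 1) = et (tt 0)
    · refine Blk.sound Blk.run0 (hb.val h hn false (fun _ h => absurd h (by simp))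
        (fun f g => hb.no_cert h hn false (fun _ => by rw [he, Bool.false_xor]) f g) fun _ => rfl)
    · have he' : et (tt 1) = !et (tt 0) := by
        cases h1 : et (tt 1) <;> cases h2 : et (tt 0) <;> simp_all
      refine Blk.sound Blk.run1 (hb.val h hn true (fun _ _ => he')
        (fun f g => hb.no_cert h hn true (fun _ => by rw [he', Bool.true_xor]) f g)
        fun h => absurd h (by omega))

end Pool.Agent.V5helper74.SR
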