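import Pool.Agent.V5helper74.SR.G7

/-! Diagrams whose crossing graph has no triangles. -/

namespace Pool.Agent.V5helper74.SR

open Pool.Agent.Y468.SR
open Pool.Agent.Y874.TP (NullV Tri TC word4 passes_append' TC_cons TC_nil sep mem_code SameTri)
open Pool.Agent.R800.BT (Bad Hts)
open Pool.Agent.R800.TP (curve crs)

variable {D : Code} {Ts : List Tri} {m : ℕ → ℕ} {χ : ℕ → ℕ} {T T' : Tri}

theorem pt_same (h : SameTri T' T) (y : Lt) (i : Bool) : pt T' y i = pt T y i := by
  obtain ⟨a, b, c, rfl⟩ := h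
  cases y <;> cases i <;> rfl

theorem tr_same (h : SameTri T' T) : tr χ T' = tr χ T := by
  unfold tr
  rw [pt_same h, pt_same h, pt_same h]

theorem Ty.keep {D' : Code} {Ts' : List Tri} {m' : ℕ → ℕ} (h' : St D' Ts' m')
    (hk : Keep m Ts D' m' Ts') (ht : Ty χ Ts m) : Ty χ Ts' m' := by
  have key : ∀ T₁ ∈ Ts', ∀ y i, onD (TC Ts') (m' (pt T₁ y i)) → m' (pt T₁ y i) = m (pt T₁ y i) := by
    intro T₁ hT₁ y i h1
    have h2 : onD (TC Ts') (pt T₁ y i) := on_iff.2 ⟨T₁, hT₁, y, i, rfl⟩
    by_cases h3 : onD (TC Ts') (m (pt T₁ y i))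
    · exact (hk.loc _ h2).1 h3
    · exact absurd ((hk.loc _ h2).2 h3) (h'.disj h1)
  refine ⟨fun T₁ hT₁ y i => ?_, fun T₁ hT₁ T₂ hT₂ y z i j e => ?_, fun T₁ hT₁ y i e => ?_⟩
  · obtain ⟨T, hT, hs⟩ := hk.sub T₁ hT₁
    rw [pt_same hs, pt_same hs]
    exact ht.same T hT y i
  · have h1 := key T₁ hT₁ y i (by rw [e]; exact on_iff.2 ⟨T₂, hT₂, z, j, rfl⟩)
    rw [h1] at e
    obtain ⟨T, hT, hs⟩ := hk.sub T₁ hT₁
    obtain ⟨S, hS, hs'⟩ := hk.sub T₂ hT₂
    rw [pt_same hs, pt_same hs'] at e ⊢
    exact ht.lab T hT S hS y z i j e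
  · have h1 := key T₁ hT₁ y i (by rw [e]; exact on_iff.2 ⟨T₁, hT₁, y, i, rfl⟩)
    rw [h1] at e
    obtain ⟨T, hT, hs⟩ := hk.sub T₁ hT₁
    rw [pt_same hs] at e ⊢
    exact ht.fix T hT y i e

theorem Ty.perm {Ts' : List Tri} (hp : Ts.Perm Ts') (h : Ty χ Ts m) : Ty χ Ts' m :=
  ⟨fun T hT => h.same T (hp.mem_iff.2 hT), fun T hT T' hT' => h.lab T (hp.mem_iff.2 hT) T' (hp.mem_iff.2 hT'),
    fun T hT => h.fix T (hp.mem_iff.2 hT)⟩

/-- triple points which can be removed have the same classes -/
theorem r2_same {S : ℕ × ℕ × ℕ → Prop} (hc : Cnd S) (ht : Ty χ Ts m) (hS : ∀ T ∈ Ts, S (tr χ T))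
    (hT : T ∈ Ts) (hT' : T' ∈ Ts) (hR : R2 m T T') : ∀ y, χ (pt T' y false) = χ (pt T y false) := by
  obtain ⟨-, z, w, hne, ⟨i, j, hz⟩, ⟨i', j', hw⟩⟩ := hR
  have ez := ht.lb hT hT' hz
  have ew := ht.lb hT hT' hw
  have sT := hS T hT
  have sT' := hS T' hT'
  have kab : χ (pt T' .A false) = χ (pt T .A false) → χ (pt T' .B false) = χ (pt T .B false) →
      χ (pt T' .C false) = χ (pt T .C false) := fun e1 e2 => hc.ab _ _ sT' sT e1 e2
  have kac : χ (pt T' .A false) = χ (pt T .A false) → χ (pt T' .C false) = χ (pt T .C false) →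
      χ (pt T' .B false) = χ (pt T .B false) := fun e1 e2 => hc.ac _ _ sT' sT e1 e2
  have kbc : χ (pt T' .B false) = χ (pt T .B false) → χ (pt T' .C false) = χ (pt T .C false) →
      χ (pt T' .A false) = χ (pt T .A false) := fun e1 e2 => hc.bc _ _ sT' sT e1 e2
  intro y
  cases z <;> cases w <;> simp only [ne_eq, not_true_eq_false, reduceCtorEq, not_false_eq_true] at hne
  · cases y
    · exact ez
    · exact ew
    · exact kab ez ew
  · cases y
    · exact ez
    · exact kac ez ew
    · exact ew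
  · cases y
    · exact ew
    · exact ez
    · exact kab ew ez
  · cases y
    · exact kbc ez ew
    · exact ez
    · exact ew
  · cases y
    · exact ew
    · exact kac ew ez
    · exact ez
  · cases y
    · exact kbc ew ez
    · exact ew
    · exact ez

/-- diagrams whose crossing graph has no triangles -/
theorem engineT {S : ℕ × ℕ × ℕ → Prop} (hc : Cnd S) (n : ℕ) : ∀ (l : ℕ) (D : Code) (Ts : List Tri)
    (m : ℕ → ℕ), Ts.length = n → (passes D).length = l → Classical D → (D.map Prod.snd).Nodup →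
    St D Ts m → Ty χ Ts m → (∀ T ∈ Ts, S (tr χ T)) → Movie true false D [] := by
  induction n using Nat.strong_induction_on with
  | _ n ihn =>
    intro l
    induction l using Nat.strong_induction_on with
    | _ l ihl =>
      intro D Ts m h1 h2 hD hn h3 ht hS
      by_cases h : passes D = []
      · exact movie_mono (deaths hn h)
      by_cases hb : ∃ T ∈ Ts, ∃ T' ∈ Ts, T ≠ T' ∧ R2 m T T'
      · obtain ⟨T, hT, T', hT', hne, hR⟩ := hb
        have hs := r2_same hc ht hS hT hT' hR
        obtain ⟨l₁, l₂, rfl⟩ := List.append_of_mem hT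
        have hT'' : T' ∈ l₁ ++ l₂ := by
          simp only [List.mem_append, List.mem_cons] at hT' ⊢
          rcases hT' with h | h | h
          · exact Or.inl h
          · exact absurd h.symm hne
          · exact Or.inr h
        obtain ⟨l₃, l₄, hl⟩ := List.append_of_mem hT''
        have hp : (l₁ ++ T :: l₂).Perm (T :: T' :: (l₃ ++ l₄)) := by
          refine List.perm_middle.trans ?_
          rw [hl]
          exact List.Perm.cons _ List.perm_middle
        obtain ⟨m', k1, k2⟩ := (h3.permT hp).drop3 (ht.perm hp) hs hR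
        refine ihn (l₃ ++ l₄).length ?_ _ D (l₃ ++ l₄) m' rfl rfl hD hn k1 k2 fun S hS' => hS S ?_
        · rw [← h1, hp.length_eq]; simp only [List.length_append, List.length_cons]; omega
        · rw [hp.mem_iff]; simp only [List.mem_append, List.mem_cons] at hS' ⊢; tauto
      · push Not at hb
        have hG := pcode_good hn h3.wf h3.mt h3.nv
        have h4 : ∀ q ∈ (pcode D Ts m).Q, q.length = 4 := by
          intro q hq
          obtain ⟨T, hT, hw⟩ := mem_Q hq
          simp only [List.mem_cons, List.not_mem_nil, or_false] at hw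
          rcases hw with rfl | rfl | rfl
          · unfold Tri.wi word4; split_ifs <;> rfl
          · unfold Tri.wj word4; split_ifs <;> rfl
          · unfold Tri.wk word4; split_ifs <;> rfl
        have hTwo := Pq.two_of_faces hG h4 (noShort hc h3 hn ht hS hb)
        obtain ⟨D', Ts', m', r1, r2, r3, r4, r5, r6⟩ := step_of_junc hD hn h3 (h3.junc_of hn h hTwo)
        have ht' := ht.keep r4 r5
        have hS' : ∀ T ∈ Ts', S (tr χ T) := by
          intro T' hT'
          obtain ⟨T, hT, hs⟩ := r5.sub T' hT'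
          rw [tr_same hs]
          exact hS T hT
        refine r6.trans ?_
        rcases r1 with r1 | ⟨r1, r1'⟩
        · exact ihn Ts'.length (by omega) _ D' Ts' m' rfl rfl r2 r3 r4 ht' hS'
        · exact ihl (passes D').length (by omega) D' Ts' m' (by omega) rfl r2 r3 r4 ht' hS'

end Pool.Agent.V5helper74.SR
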