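import Pool.Agent.V5helper74.SR.B6
import Pool.Agent.V5helper74.SR.G8

/-! At most two triple points on each component of the set of double points. -/

namespace Pool.Agent.V5helper74.SR

open Pool.Agent.Y874.TP2 (CycL om part sg)
open Pool.Agent.Y468.SR hiding pl
open Pool.Agent.Y874.TP (NullV Tri TC word4 passes_append' TC_cons TC_nil sep mem_code SameTri)
open Pool.Agent.R800.BT (Bad Hts)

variable {D : Code} {Ts : List Tri} {m : ℕ → ℕ} {χ : ℕ → ℕ} {T T' : Tri}

/-- the component of the set of double points containing the triple point -/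
def kc (χ : ℕ → ℕ) (T : Tri) : ℕ := χ (pt T .A false)

/-- the components contain at most two triple points -/
structure Cp (χ : ℕ → ℕ) (Ts : List Tri) (m : ℕ → ℕ) : Prop where
  ty : Ty χ Ts m
  ev : ∀ c, χ c % 2 = 0
  one : ∀ T ∈ Ts, ∀ y, χ (pt T y false) = kc χ T
  two : ∀ T₁ ∈ Ts, ∀ T₂ ∈ Ts, ∀ T₃ ∈ Ts, kc χ T₁ = kc χ T₂ → kc χ T₂ = kc χ T₃ →
    T₁ = T₂ ∨ T₁ = T₃ ∨ T₂ = T₃

theorem Cp.cls (h : Cp χ Ts m) (hT : T ∈ Ts) (y : Lt) (i : Bool) : χ (pt T y i) = kc χ T := by
  rw [h.ty.same T hT, h.one T hT]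

theorem Cp.sub {Ts' : List Tri} (h : Cp χ Ts m) (hs : ∀ T ∈ Ts', T ∈ Ts) {m' : ℕ → ℕ}
    (ht : Ty χ Ts' m') : Cp χ Ts' m' :=
  ⟨ht, h.ev, fun T hT => h.one T (hs T hT), fun T₁ h₁ T₂ h₂ T₃ h₃ =>
    h.two T₁ (hs _ h₁) T₂ (hs _ h₂) T₃ (hs _ h₃)⟩

/-- a triple point is removed -/
theorem Cp.drop {l₁ l₂ : List Tri} (hst : St D (l₁ ++ T :: l₂) m) (h : Cp χ (l₁ ++ T :: l₂) m)
    (hb : Bad T m) : ∃ m', St D (l₁ ++ l₂) m' ∧ Cp χ (l₁ ++ l₂) m' := by
  obtain ⟨m', k1, k2⟩ := hst.drop hb
  have hs : ∀ S ∈ l₁ ++ l₂, S ∈ l₁ ++ T :: l₂ := by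
    intro S hS
    rcases List.mem_append.1 hS with h | h <;> simp [h]
  have hT : T ∈ l₁ ++ T :: l₂ := by simp
  refine ⟨m', k1, h.sub hs ⟨fun S hS => h.ty.same S (hs S hS), fun S hS S' hS' y z i j e => ?_,
    fun S _ y i _ => h.ev _⟩⟩
  have key : ∀ S ∈ l₁ ++ l₂, ∀ y i, m' (pt S y i) = m (pt S y i) ∨ χ (pt S y i) = kc χ T := by
    intro S hS y i
    by_cases h1 : onD T.code (m (pt S y i))
    · right
      obtain ⟨w, k, e⟩ := names_pt.1 (names_iff.2 h1)
      have := h.ty.lab S (hs S hS) T hT y w i k e.symm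
      rw [← this, h.cls hT]
    · exact Or.inl (k2 _ (onD_append.2 (Or.inr (on_iff.2 ⟨S, hS, y, i, rfl⟩))) h1)
  rcases key S hS y i with g1 | g1
  · rw [g1] at e
    exact h.ty.lab S (hs S hS) S' (hs S' hS') y z i j e
  · rcases key S' hS' z j with g2 | g2
    · have e2 : m (pt S' z j) = pt S y i := by
        rw [← g2, ← e, k1.m_pt hS]
      exact (h.ty.lab S' (hs S' hS') S (hs S hS) z y j i e2).symm
    · rw [g1, g2]

/-- the facts for the picture -/
theorem Cp.two_ (hst : St D Ts m) (hn : (D.map Prod.snd).Nodup) (h : Cp χ Ts m)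
    (hbad : ∀ T ∈ Ts, ¬Bad T m) (hr2 : ∀ T ∈ Ts, ∀ T' ∈ Ts, T ≠ T' → ¬R2 m T T') :
    (pcode D Ts m).Two := by
  have hG := pcode_good hn hst.wf hst.mt hst.nv
  intro x hx hx'
  obtain ⟨q, hq, hxq⟩ := List.mem_flatten.1 ((hG.dartσ x (Or.inl hx)).resolve_left hx')
  obtain ⟨T, hT, hw⟩ := mem_Q hq
  have hcl : ∀ S ∈ Ts, ∀ y i, (∃ S' ∈ Ts, kc χ S' = kc χ S ∧ ∃ z j, m (pt S y i) = pt S' z j) ∨
      onD D (m (pt S y i)) := by
    intro S hS y i
    rcases hst.side (on_iff.2 ⟨S, hS, y, i, rfl⟩) with h1 | h1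
    · left
      obtain ⟨S', hS', z, j, e⟩ := on_iff.1 h1
      have := h.ty.lab S hS S' hS' y z i j e
      rw [h.cls hS', h.cls hS] at this
      exact ⟨S', hS', this, z, j, e⟩
    · exact Or.inr h1
  by_cases hex : ∃ T' ∈ Ts, T' ≠ T ∧ kc χ T' = kc χ T
  · obtain ⟨T', hT', hne, hk⟩ := hex
    have hb : Bk D Ts m (fun t => if t = 0 then T else T') 2 := by
      refine ⟨by omega, le_refl _, fun t _ => ?_, fun t ht t' ht' e => ?_, fun t ht y i => ?_,
        fun t _ => ?_, fun _ => ?_⟩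
      · split_ifs
        · exact hT
        · exact hT'
      · split_ifs at e with h1 h2 h2
        · omega
        · exact absurd e.symm hne
        · exact absurd e hne
        · omega
      · have hm : (if t = 0 then T else T') ∈ Ts := by
          split_ifs
          · exact hT
          · exact hT'
        have hkm : kc χ (if t = 0 then T else T') = kc χ T := by
          split_ifs
          · rfl
          · exact hk
        rcases hcl _ hm y i with ⟨S', hS', h1, z, j, e⟩ | h1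
        · left
          rcases h.two S' hS' T hT T' hT' (h1.trans hkm) hk.symm with h2 | h2 | h2
          · exact ⟨0, by omega, z, j, by rw [e, h2]; rfl⟩
          · exact ⟨1, by omega, z, j, by rw [e, h2]; rfl⟩
          · exact absurd h2.symm hne
        · exact Or.inr h1
      · split_ifs
        · exact hbad T hT
        · exact hbad T' hT'
      · exact hr2 T hT T' hT' hne.symm
    exact hb.two_at hst hn (hb.twoB hst hn) hx (t := 0) (by omega) hw hxq
  · push Not at hex
    have hb : Bk D Ts m (fun _ => T) 1 := by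
      refine ⟨le_refl _, by omega, fun t _ => hT, fun t ht t' ht' e => by omega, fun t ht y i => ?_,
        fun t _ => hbad T hT, fun h => absurd h (by omega)⟩
      rcases hcl _ hT y i with ⟨S', hS', h1, z, j, e⟩ | h1
      · left
        have : S' = T := by
          by_contra hne
          exact hex S' hS' hne h1
        exact ⟨0, by omega, z, j, by rw [e, this]⟩
      · exact Or.inr h1
    exact hb.two_at hst hn (hb.twoB hst hn) hx (t := 0) (by omega) hw hxq

theorem kc_same (h : SameTri T' T) : kc χ T' = kc χ T := by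
  unfold kc
  rw [pt_same h]

theorem Cp.keep {D' : Code} {Ts' : List Tri} {m' : ℕ → ℕ} (h' : St D' Ts' m')
    (hk : Keep m Ts D' m' Ts') (h : Cp χ Ts m) : Cp χ Ts' m' := by
  refine ⟨h.ty.keep h' hk, h.ev, fun T₁ hT₁ y => ?_, fun T₁ h₁ T₂ h₂ T₃ h₃ e₁ e₂ => ?_⟩
  · obtain ⟨T, hT, hs⟩ := hk.sub T₁ hT₁
    rw [pt_same hs, kc_same hs]
    exact h.one T hT y
  · obtain ⟨S₁, g₁, s₁⟩ := hk.sub T₁ h₁
    obtain ⟨S₂, g₂, s₂⟩ := hk.sub T₂ h₂
    obtain ⟨S₃, g₃, s₃⟩ := hk.sub T₃ h₃
    rw [kc_same s₁, kc_same s₂] at e₁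
    rw [kc_same s₂, kc_same s₃] at e₂
    have inj : ∀ {A B A' B' : Tri}, A' ∈ Ts' → B' ∈ Ts' → SameTri A' A → SameTri B' B → A = B →
        A' = B' := by
      rintro A B A' B' hA hB sA sB rfl
      exact (h'.pt_eq hA hB (z := .A) (w := .A) (i := false) (j := false)
        (by rw [pt_same sA, pt_same sB])).1
    rcases h.two S₁ g₁ S₂ g₂ S₃ g₃ e₁ e₂ with e | e | e
    · exact Or.inl (inj h₁ h₂ s₁ s₂ e)
    · exact Or.inr (Or.inl (inj h₁ h₃ s₁ s₃ e))
    · exact Or.inr (Or.inr (inj h₂ h₃ s₂ s₃ e))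

/-- diagrams whose triple points lie in components with at most two triple points -/
theorem engineB (n : ℕ) : ∀ (l : ℕ) (D : Code) (Ts : List Tri)
    (m : ℕ → ℕ), Ts.length = n → (passes D).length = l → Classical D → (D.map Prod.snd).Nodup →
    St D Ts m → Cp χ Ts m → Movie true false D [] := by
  induction n using Nat.strong_induction_on with
  | _ n ihn =>
    intro l
    induction l using Nat.strong_induction_on with
    | _ l ihl =>
      intro D Ts m h1 h2 hD hn h3 hC
      by_cases h : passes D = []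
      · exact movie_mono (deaths hn h)
      by_cases hbad : ∃ T ∈ Ts, Bad T m
      · obtain ⟨T, hT, hb⟩ := hbad
        obtain ⟨l₁, l₂, rfl⟩ := List.append_of_mem hT
        obtain ⟨m', k1, k2⟩ := Cp.drop h3 hC hb
        refine ihn (l₁ ++ l₂).length ?_ _ D (l₁ ++ l₂) m' rfl rfl hD hn k1 k2
        rw [← h1]; simp only [List.length_append, List.length_cons]; omega
      push Not at hbad
      by_cases hb : ∃ T ∈ Ts, ∃ T' ∈ Ts, T ≠ T' ∧ R2 m T T'
      · obtain ⟨T, hT, T', hT', hne, hR⟩ := hb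
        have hs : ∀ y, χ (pt T' y false) = χ (pt T y false) := by
          obtain ⟨-, z, w, -, ⟨i, j, hz⟩, -⟩ := hR
          have e := hC.ty.lab T hT T' hT' z z i j hz
          rw [hC.cls hT', hC.cls hT] at e
          intro y
          rw [hC.one T' hT', hC.one T hT, e]
        obtain ⟨l₁, l₂, rfl⟩ := List.append_of_mem hT
        have hT'' : T' ∈ l₁ ++ l₂ := by
          simp only [List.mem_append, List.mem_cons] at hT' ⊢
          rcases hT' with h | h | h
          · exact Or.inl h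
          · exact absurd h.symm hne
          · exact Or.inr h
        obtain ⟨l₃, l₄, hl⟩ := List.append_of_mem hT''
        have hp : (l₁ ++ T :: l₂).Perm (T :: T' :: (l₃ ++ l₄)) := by
          refine List.perm_middle.trans ?_
          rw [hl]
          exact List.Perm.cons _ List.perm_middle
        obtain ⟨m', k1, k2⟩ := (h3.permT hp).drop3 (hC.ty.perm hp) hs hR
        refine ihn (l₃ ++ l₄).length ?_ _ D (l₃ ++ l₄) m' rfl rfl hD hn k1 (hC.sub (fun S hS' => ?_) k2)
        · rw [← h1, hp.length_eq]; simp only [List.length_append, List.length_cons]; omega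
        · rw [hp.mem_iff]; simp only [List.mem_append, List.mem_cons] at hS' ⊢; tauto
      · push Not at hb
        obtain ⟨D', Ts', m', r1, r2, r3, r4, r5, r6⟩ := step_of_junc hD hn h3
          (h3.junc_of hn h (Cp.two_ h3 hn hC hbad hb))
        have hC' := hC.keep r4 r5
        refine r6.trans ?_
        rcases r1 with r1 | ⟨r1, r1'⟩
        · exact ihn Ts'.length (by omega) _ D' Ts' m' rfl rfl r2 r3 r4 hC'
        · exact ihl (passes D').length (by omega) D' Ts' m' (by omega) rfl r2 r3 r4 hC'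

end Pool.Agent.V5helper74.SR
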