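import Pool.Agent.V5helper74.SR.E13

/-! Double curves passing through few triple points: movies. -/

namespace Pool.Agent.V5helper74.SR

open Pool.Agent.Y468.SR
open Pool.Agent.Y874.TP hiding S_REID S_REN S_THREE S_OUT S_CUT S_JUNC CStep CReid CM InvM InvC Inv3
open Pool.Agent.Y874.TP2
open Pool.Agent.Y874.TP2.T3
open Pool.Agent.R800.BT

/-- the colours of the double curves at a triple point -/
def tcols (t : ℕ × ℕ × ℕ) : List ℕ := [t.1, t.2.1, t.2.2]

theorem tame_of {T : List (ℕ × ℕ × ℕ)} {Ts : List Tri}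
    (hs : Ts.map sig = T.map fun t => (t, (true, true, true)))
    (hT : ∀ k, (T.filter fun t => decide (k ∈ tcols t)).length ≤ 1 ∨
      (k % 2 = 1 ∧ (T.flatMap tcols).count k ≤ 2)) : Tame Ts := by
  have h1 : Ts.map Tri.cols = T.map tcols := by
    have := congrArg (List.map fun x : (ℕ × ℕ × ℕ) × (Bool × Bool × Bool) => tcols x.1) hs
    rw [List.map_map, List.map_map] at this
    exact this
  have h2 : ∀ k, (Ts.filter fun S => decide (k ∈ S.cols)).length =
      (T.filter fun t => decide (k ∈ tcols t)).length := by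
    intro k
    rw [← List.countP_eq_length_filter, ← List.countP_eq_length_filter]
    have e1 : Ts.countP (fun S => decide (k ∈ S.cols)) =
        (Ts.map Tri.cols).countP fun l => decide (k ∈ l) := by
      rw [List.countP_map]; rfl
    have e2 : T.countP (fun t => decide (k ∈ tcols t)) =
        (T.map tcols).countP fun l => decide (k ∈ l) := by
      rw [List.countP_map]; rfl
    rw [e1, e2, h1]
  intro k
  rw [h2, List.flatMap_def, h1, ← List.flatMap_def]
  exact hT k

/-- discs given by a movie of virtual links whose double curves meeting the link pass through few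
triple points can be replaced by ribbon discs -/
theorem vribbon_of_tame {hd : Bool} {Z : ℕ → Prop} {D : Code} {T : List (ℕ × ℕ × ℕ)}
    (hD : Classical D) (h : VMovie hd Z D T) (hZ : ∀ p ∈ passes D, ¬Z (colour p.crossing))
    (hn : (D.map Prod.snd).Nodup)
    (hT : ∀ k, (T.filter fun t => decide (k ∈ tcols t)).length ≤ 1 ∨
      (k % 2 = 1 ∧ (T.flatMap tcols).count k ≤ 2)) : Movie true false D [] := by
  obtain ⟨Ts, hI, hs⟩ := vmovie_inv' RD.reid RN.ren TH.three h hZ
  obtain ⟨m, hm⟩ := hI.inv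
  have hts : ∀ S ∈ Ts, Hts S := by
    intro S hS
    have h1 : sig S ∈ T.map fun t => (t, (true, true, true)) := by
      rw [← hs]; exact List.mem_map_of_mem hS
    obtain ⟨t, ht, h2⟩ := List.mem_map.1 h1
    simp only [sig, Prod.ext_iff] at h2
    obtain ⟨-, h6, h7, h8⟩ := h2
    exact ⟨h6.symm, h7.symm, h8.symm⟩
  have hst : St D Ts m := ⟨wf_iff.1 hD.1, hI.wf, hm.1, hm.2.2, fun S hS => ⟨(hI.ok S hS).1, hts S hS⟩⟩
  have hcol : ∀ S ∈ Ts, ∀ y i, colour (pt S y i) = cl S y := by
    intro S hS y i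
    obtain ⟨k1, k2, k3⟩ := (hI.ok S hS).2
    cases i
    · rfl
    · cases y
      · exact k1
      · exact k2
      · exact k3
  have hp : ∀ S ∈ Ts, ∀ y i, ∃ p ∈ passes (D ++ TC Ts), p.crossing = pt S y i :=
    fun S hS y i => hst.on_pt hS y i
  refine GS.movie hD hn _ Ts m rfl ⟨hst, fun S hS y => hcol S hS y true, fun S hS y i => ?_,
    fun S hS y i h1 h2 => ?_, tame_of hs hT⟩
  · obtain ⟨p, hp, e⟩ := hp S hS y i
    rw [← e, (hm.2.1 p hp).1, e, hcol S hS]
  · obtain ⟨p, hp, e⟩ := hp S hS y i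
    refine (hm.2.1 p hp).2 ?_ (by rw [e, h2])
    rw [e, hcol S hS]
    omega

end Pool.Agent.V5helper74.SR
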