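import Pool.Agent.V5helper74.SR.G8
import Pool.Agent.V5helper74.SR.E14

/-! Double curves whose crossing graph has no triangles: movies. -/

namespace Pool.Agent.V5helper74.SR

open Pool.Agent.Y468.SR
open Pool.Agent.Y874.TP hiding S_REID S_REN S_THREE S_OUT S_CUT S_JUNC CStep CReid CM InvM InvC Inv3
open Pool.Agent.Y874.TP2
open Pool.Agent.Y874.TP2.T3
open Pool.Agent.R800.BT
open Pool.Agent.R800.TP (curve crs)

/-- discs given by a movie of virtual links, no three curves of the preimage cross one another -/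
theorem vribbon_of_cnd {hd : Bool} {Z : ℕ → Prop} {D : Code} {T : List (ℕ × ℕ × ℕ)}
    (hD : Classical D) (h : VMovie hd Z D T) (hZ : ∀ p ∈ passes D, ¬Z (colour p.crossing))
    (hn : (D.map Prod.snd).Nodup) (hT : Cnd fun t => t ∈ T) : Movie true false D [] := by
  obtain ⟨Ts, hI, hs⟩ := vmovie_inv' RD.reid RN.ren TH.three h hZ
  obtain ⟨m, hm⟩ := hI.inv
  have key : ∀ S ∈ Ts, Hts S ∧ tr colour S ∈ T := by
    intro S hS
    have h1 : sig S ∈ T.map fun t => (t, (true, true, true)) := by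
      rw [← hs]; exact List.mem_map_of_mem hS
    obtain ⟨t, ht, h2⟩ := List.mem_map.1 h1
    simp only [sig, Prod.ext_iff] at h2
    obtain ⟨⟨h3, h4, h5⟩, h6, h7, h8⟩ := h2
    refine ⟨⟨h6.symm, h7.symm, h8.symm⟩, ?_⟩
    have : tr colour S = t := by
      unfold tr pt
      exact Prod.ext h3.symm (Prod.ext h4.symm h5.symm)
    rw [this]; exact ht
  have hst : St D Ts m :=
    ⟨wf_iff.1 hD.1, hI.wf, hm.1, hm.2.2, fun S hS => ⟨(hI.ok S hS).1, (key S hS).1⟩⟩
  have hcol : ∀ S ∈ Ts, ∀ y i, colour (pt S y i) = colour (pt S y false) := by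
    intro S hS y i
    obtain ⟨k1, k2, k3⟩ := (hI.ok S hS).2
    cases i
    · rfl
    · cases y
      · exact k1
      · exact k2
      · exact k3
  refine engineT hT _ _ D Ts m rfl rfl hD hn hst ⟨hcol, fun S hS S' hS' y z i j e => ?_,
    fun S hS y i e => ?_⟩ fun S hS => (key S hS).2
  · obtain ⟨p, hp, e'⟩ := hst.on_pt hS y i
    rw [← e, ← e', (hm.2.1 p hp).1]
  · obtain ⟨p, hp, e'⟩ := hst.on_pt hS y i
    by_contra h1
    refine (hm.2.1 p hp).2 ?_ (by rw [e', e])
    rw [e']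
    omega

end Pool.Agent.V5helper74.SR
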