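import Pool.Agent.V5helper74.SR.B7
import Pool.Agent.V5helper74.SR.G9

/-! At most two triple points on each component of the set of double points: movies. -/

namespace Pool.Agent.V5helper74.SR

open Pool.Agent.Y468.SR
open Pool.Agent.Y874.TP hiding S_REID S_REN S_THREE S_OUT S_CUT S_JUNC CStep CReid CM InvM InvC Inv3
open Pool.Agent.Y874.TP2
open Pool.Agent.Y874.TP2.T3
open Pool.Agent.R800.BT

/-- discs given by a movie of virtual links, each component of the set of double points contains at
most two triple points -/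
theorem vribbon_of_two {hd : Bool} {Z : ℕ → Prop} {D : Code} {T : List (ℕ × ℕ × ℕ)}
    (hD : Classical D) (h : VMovie hd Z D T) (hZ : ∀ p ∈ passes D, ¬Z (colour p.crossing))
    (hn : (D.map Prod.snd).Nodup) (h₃ : ∀ t ∈ T, t.2.1 = t.1 ∧ t.2.2 = t.1)
    (h₄ : ∀ k, (T.map Prod.fst).count k ≤ 2) : Movie true false D [] := by
  obtain ⟨Ts, hI, hs⟩ := vmovie_inv' RD.reid RN.ren TH.three h hZ
  obtain ⟨m, hm⟩ := hI.inv
  have key : ∀ S ∈ Ts, Hts S ∧ tr colour S ∈ T := by
    intro S hS
    have h1 : sig S ∈ T.map fun t => (t, (true, true, true)) := by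
      rw [← hs]; exact List.mem_map_of_mem hS
    obtain ⟨t, ht, h2⟩ := List.mem_map.1 h1
    simp only [sig, Prod.ext_iff] at h2
    obtain ⟨⟨h3, h4, h5⟩, h6, h7, h8⟩ := h2
    refine ⟨⟨h6.symm, h7.symm, h8.symm⟩, ?_⟩
    have : tr colour S = t := by
      unfold tr pt
      exact Prod.ext h3.symm (Prod.ext h4.symm h5.symm)
    rw [this]; exact ht
  have hst : St D Ts m :=
    ⟨wf_iff.1 hD.1, hI.wf, hm.1, hm.2.2, fun S hS => ⟨(hI.ok S hS).1, (key S hS).1⟩⟩
  have hcol : ∀ S ∈ Ts, ∀ y i, colour (pt S y i) = colour (pt S y false) := by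
    intro S hS y i
    obtain ⟨k1, k2, k3⟩ := (hI.ok S hS).2
    cases i
    · rfl
    · cases y
      · exact k1
      · exact k2
      · exact k3
  have hone : ∀ S ∈ Ts, ∀ y, colour (pt S y false) = colour (pt S .A false) := by
    intro S hS y
    obtain ⟨g1, g2⟩ := h₃ _ (key S hS).2
    cases y
    · rfl
    · exact g1
    · exact g2
  have hmap : Ts.map (fun S => colour (pt S .A false)) = T.map Prod.fst := by
    have := congrArg (List.map fun x : (ℕ × ℕ × ℕ) × (Bool × Bool × Bool) => x.1.1) hs
    rw [List.map_map, List.map_map] at this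
    exact this
  refine engineB (χ := fun c => 2 * colour c) _ _ D Ts m rfl rfl hD hn hst
    ⟨⟨fun S hS y i => ?_, fun S hS S' hS' y z i j e => ?_, fun S hS y i e => ?_⟩, fun c => ?_,
      fun S hS y => ?_, fun T₁ k₁ T₂ k₂ T₃ k₃ e₁ e₂ => ?_⟩
  · simp only [hcol S hS y i]
  · obtain ⟨p, hp, e'⟩ := hst.on_pt hS y i
    rw [← e, ← e', (hm.2.1 p hp).1]
  · omega
  · omega
  · simp only [kc, hone S hS y]
  · by_contra hno
    push Not at hno
    obtain ⟨n1, n2, n3⟩ := hno
    have hnd : [T₁, T₂, T₃].Nodup := by simp [n1, n2, n3]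
    have hsub : [T₁, T₂, T₃].Subperm Ts := by
      refine List.subperm_of_subset hnd ?_
      intro S hS
      simp only [List.mem_cons, List.not_mem_nil, or_false] at hS
      rcases hS with rfl | rfl | rfl <;> assumption
    have h5 : (([T₁, T₂, T₃] : List Tri).map fun S => colour (pt S .A false)).count
        (colour (pt T₁ .A false)) ≤ (Ts.map fun S => colour (pt S .A false)).count
        (colour (pt T₁ .A false)) := by
      obtain ⟨l, hl, hsl⟩ := hsub
      rw [← (hl.map _).count_eq]
      exact (hsl.map _).count_le _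
    rw [hmap] at h5
    have h6 := h₄ (colour (pt T₁ .A false))
    simp only [kc] at e₁ e₂
    have e₁' : colour (pt T₂ .A false) = colour (pt T₁ .A false) := by omega
    have e₂' : colour (pt T₃ .A false) = colour (pt T₁ .A false) := by omega
    simp only [List.map_cons, List.map_nil, e₁', e₂', List.count_cons_self, List.count_nil] at h5
    omega

end Pool.Agent.V5helper74.SR
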