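import Pool.Agent.Y874.TP2.Lem

/-! Pictures without colours: the junction lemma. -/

namespace Pool.Agent.V5helper74.SR

open Pool.Agent.Y874.TP2

variable {X : Type}

/-- boundary words, words of crossings, edges -/
structure Pq (X : Type) where
  B : List (List X)
  Q : List (List X)
  σ : X → X

namespace Pq
variable (P : Pq X)

def dart (x : X) : Prop := x ∈ P.B.flatten ∨ x ∈ P.Q.flatten

def Flow (f : X → ℤ) : Prop :=
  (∀ x, P.dart x → f (P.σ x) = -f x) ∧ ∀ q ∈ P.Q, (q.map f).sum = 0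

structure Good : Prop where
  nd : (P.B.flatten ++ P.Q.flatten).Nodup
  dartσ : ∀ x, P.dart x → P.dart (P.σ x)
  invσ : ∀ x, P.dart x → P.σ (P.σ x) = x
  neσ : ∀ x, P.dart x → P.σ x ≠ x
  sum0 : ∀ f, P.Flow f → ∀ W ∈ P.B, (W.map f).sum = 0
  om0 : ∀ f g, P.Flow f → P.Flow g → ((P.B ++ P.Q).map (om f g)).sum = 0

/-- a corner -/
def Cor (p r : X) : Prop := p ∈ P.B.flatten ∧ r ∈ P.B.flatten ∧ ∃ q ∈ P.Q, CycL (P.σ r) (P.σ p) q

/-- an edge or a corner -/
def Gap (p r : X) : Prop := p ∈ P.B.flatten ∧ r ∈ P.B.flatten ∧ (P.σ p = r ∨ P.Cor p r)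

/-- two boundary darts are connected -/
def Conn (x z : X) : Prop := ∃ g, P.Flow g ∧ ∀ [DecidableEq X], ∀ d ∈ P.B.flatten,
  g d = (if d = x then 1 else 0) - (if d = z then 1 else 0)

/-- a boundary dart is connected with a word of a crossing -/
def Cq (x : X) (q : List X) : Prop := ∃ g : X → ℤ, (∀ x, P.dart x → g (P.σ x) = -g x) ∧
  (∀ q' ∈ P.Q, ∀ [Decidable (q' = q)], (q'.map g).sum = if q' = q then -1 else 0) ∧
  ∀ [DecidableEq X], ∀ d ∈ P.B.flatten, g d = if d = x then 1 else 0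

open Classical in
/-- the flow along an edge -/
noncomputable def ed (y x : X) : ℤ := (if x = y then 1 else 0) - (if x = P.σ y then 1 else 0)

variable {P}

theorem Good.nodupQ (hG : P.Good) {q : List X} (hq : q ∈ P.Q) : q.Nodup := by
  have := (List.nodup_append.1 hG.nd).2.1
  exact (List.nodup_flatten.1 this).1 q hq

theorem Good.nodupB (hG : P.Good) {W : List X} (hW : W ∈ P.B) : W.Nodup := by
  have := (List.nodup_append.1 hG.nd).1
  exact (List.nodup_flatten.1 this).1 W hW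

theorem Good.disj (hG : P.Good) {x : X} {q : List X} (hq : q ∈ P.Q) (hx : x ∈ q) :
    x ∉ P.B.flatten := fun h =>
  (List.nodup_append.1 hG.nd).2.2 x h x (List.mem_flatten.2 ⟨q, hq, hx⟩) rfl

theorem dartQ {x : X} {q : List X} (hq : q ∈ P.Q) (hx : x ∈ q) : P.dart x :=
  Or.inr (List.mem_flatten.2 ⟨q, hq, hx⟩)

theorem Good.uniqQ (hG : P.Good) {x : X} {q q' : List X} (hq : q ∈ P.Q) (hq' : q' ∈ P.Q)
    (hx : x ∈ q) (hx' : x ∈ q') : q = q' := by
  have hn := (List.nodup_append.1 hG.nd).2.1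
  obtain ⟨Q₁, Q₂, h⟩ := List.append_of_mem hq
  rw [h] at hn hq'
  by_contra hne
  rcases List.mem_append.1 hq' with h1 | h1
  · exact flatten_other hn q' (Or.inl h1) x hx' hx
  · rcases List.mem_cons.1 h1 with h1 | h1
    · exact hne h1.symm
    · exact flatten_other hn q' (Or.inr h1) x hx' hx

open Classical in
theorem sum_ite {q : List X} (hn : q.Nodup) (y : X) :
    (q.map fun x => if x = y then (1 : ℤ) else 0).sum = if y ∈ q then 1 else 0 := by
  induction q with
  | nil => simp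
  | cons x q ih =>
    rw [List.nodup_cons] at hn
    rw [List.map_cons, List.sum_cons, ih hn.2]
    by_cases h : x = y
    · subst h
      simp [hn.1]
    · have : y ∈ x :: q ↔ y ∈ q := by
        simp only [List.mem_cons, or_iff_right_iff_imp]
        exact fun h' => absurd h'.symm h
      simp [h, this]

open Classical in
theorem sum_ed {q : List X} (hn : q.Nodup) (y : X) :
    (q.map (P.ed y)).sum = (if y ∈ q then 1 else 0) - (if P.σ y ∈ q then 1 else 0) := by
  rw [← sum_ite hn y, ← sum_ite hn (P.σ y)]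
  unfold ed
  clear hn
  induction q with
  | nil => simp
  | cons x q ih =>
    simp only [List.map_cons, List.sum_cons, ih]
    ring

theorem ed_σ (hG : P.Good) {y x : X} (hy : P.dart y) (hx : P.dart x) :
    P.ed y (P.σ x) = -P.ed y x := by
  classical
  have h1 : P.σ x = y ↔ x = P.σ y :=
    ⟨fun h => by rw [← h, hG.invσ x hx], fun h => by rw [h, hG.invσ y hy]⟩
  have h2 : P.σ x = P.σ y ↔ x = y :=
    ⟨fun h => by rw [← hG.invσ x hx, h, hG.invσ y hy], fun h => by rw [h]⟩
  unfold ed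
  simp only [h1, h2]
  ring

theorem add_anti {f g : X → ℤ} (hf : ∀ x, P.dart x → f (P.σ x) = -f x)
    (hg : ∀ x, P.dart x → g (P.σ x) = -g x) (x : X) (hx : P.dart x) :
    (fun x => f x + g x) (P.σ x) = -(fun x => f x + g x) x := by
  simp only [hf x hx, hg x hx]; ring

theorem sum_add (f g : X → ℤ) (q : List X) :
    (q.map fun x => f x + g x).sum = (q.map f).sum + (q.map g).sum := by
  induction q with
  | nil => simp
  | cons x q ih => simp only [List.map_cons, List.sum_cons, ih]; ring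

theorem sum_sub (f g : X → ℤ) (q : List X) :
    (q.map fun x => f x - g x).sum = (q.map f).sum - (q.map g).sum := by
  induction q with
  | nil => simp
  | cons x q ih => simp only [List.map_cons, List.sum_cons, ih]; ring

theorem cq_base (hG : P.Good) {x : X} {q : List X} (hx : x ∈ P.B.flatten) (hq : q ∈ P.Q)
    (h : P.σ x ∈ q) : P.Cq x q := by
  classical
  have hd : P.dart x := Or.inl hx
  refine ⟨P.ed x, fun y hy => ed_σ hG hd hy, fun q' hq' _ => ?_, ?_⟩
  · rw [sum_ed (hG.nodupQ hq')]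
    have h1 : x ∉ q' := fun h' => hG.disj hq' h' hx
    have h2 : P.σ x ∈ q' ↔ q' = q :=
      ⟨fun h' => hG.uniqQ hq' hq h' h, fun h' => by rw [h']; exact h⟩
    rw [if_neg h1]
    by_cases h3 : q' = q
    · rw [if_pos (h2.2 h3), if_pos h3]; rfl
    · rw [if_neg (fun h => h3 (h2.1 h)), if_neg h3]; rfl
  · intro _ d hd'
    have h1 : d ≠ P.σ x := fun h' => hG.disj hq h (h' ▸ hd')
    unfold ed
    rw [if_neg h1]
    by_cases h2 : d = x
    · simp [h2]
    · simp [h2]

theorem cq_step (hG : P.Good) {x : X} {q q' : List X} {a : X} (hq : q ∈ P.Q) (hq' : q' ∈ P.Q)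
    (ha : a ∈ q) (ha' : P.σ a ∈ q') (h : P.Cq x q) : P.Cq x q' := by
  classical
  obtain ⟨g, h1, h2, h3⟩ := h
  have hd : P.dart a := dartQ hq ha
  refine ⟨fun y => g y + P.ed a y, add_anti h1 fun y hy => ed_σ hG hd hy, fun q'' hq'' _ => ?_, ?_⟩
  · rw [sum_add, h2 q'' hq'', sum_ed (hG.nodupQ hq'')]
    have k1 : a ∈ q'' ↔ q'' = q :=
      ⟨fun h' => hG.uniqQ hq'' hq h' ha, fun h' => by rw [h']; exact ha⟩
    have k2 : P.σ a ∈ q'' ↔ q'' = q' :=
      ⟨fun h' => hG.uniqQ hq'' hq' h' ha', fun h' => by rw [h']; exact ha'⟩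
    by_cases e1 : q'' = q
    · rw [if_pos e1, if_pos (k1.2 e1)]
      by_cases e2 : q'' = q'
      · rw [if_pos (k2.2 e2), if_pos e2]; rfl
      · rw [if_neg (fun h => e2 (k2.1 h)), if_neg e2]; rfl
    · rw [if_neg e1, if_neg (fun h => e1 (k1.1 h))]
      by_cases e2 : q'' = q'
      · rw [if_pos (k2.2 e2), if_pos e2]; rfl
      · rw [if_neg (fun h => e2 (k2.1 h)), if_neg e2]; rfl
  · intro _ d hd'
    have e1 : d ≠ a := fun h' => hG.disj hq ha (h' ▸ hd')
    have e2 : d ≠ P.σ a := fun h' => hG.disj hq' ha' (h' ▸ hd')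
    simp only
    rw [h3 d hd']
    unfold ed
    rw [if_neg e1, if_neg e2]
    ring

theorem conn_of {x z : X} {q : List X} (h : P.Cq x q) (h' : P.Cq z q) : P.Conn x z := by
  classical
  obtain ⟨g, h1, h2, h3⟩ := h
  obtain ⟨g', h1', h2', h3'⟩ := h'
  refine ⟨fun y => g y - g' y, ⟨fun y hy => ?_, fun q' hq' => ?_⟩, ?_⟩
  · simp only [h1 y hy, h1' y hy]; ring
  · rw [sum_sub, h2 q' hq', h2' q' hq', sub_self]
  · intro _ d hd
    simp only
    rw [h3 d hd, h3' d hd]

theorem Conn.symm {x z : X} (h : P.Conn x z) : P.Conn z x := by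
  classical
  obtain ⟨g, ⟨h1, h2⟩, h3⟩ := h
  refine ⟨fun y => -g y, ⟨fun y hy => by simp only [h1 y hy], fun q hq => ?_⟩, ?_⟩
  · have : (q.map fun y => -g y).sum = -(q.map g).sum := by
      generalize q = l
      induction l with
      | nil => simp
      | cons x l ih => simp only [List.map_cons, List.sum_cons, ih]; ring
    rw [this, h2 q hq, neg_zero]
  · intro _ d hd
    simp only
    rw [h3 d hd]
    ring

theorem Conn.trans {x y z : X} (h : P.Conn x y) (h' : P.Conn y z) : P.Conn x z := by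
  classical
  obtain ⟨g, ⟨h1, h2⟩, h3⟩ := h
  obtain ⟨g', ⟨h1', h2'⟩, h3'⟩ := h'
  refine ⟨fun y => g y + g' y, ⟨add_anti h1 h1', fun q hq => ?_⟩, ?_⟩
  · rw [sum_add, h2 q hq, h2' q hq, add_zero]
  · intro _ d hd
    simp only
    rw [h3 d hd, h3' d hd]
    ring

/-- connected darts lie in the same regions -/
theorem conn_mem {x z : X} (h : P.Conn x z) {M : List X} (hn : M.Nodup)
    (hM : ∀ d ∈ M, d ∈ P.B.flatten) (h0 : ∀ g, P.Flow g → (M.map g).sum = 0) (hx : x ∈ M) :
    z ∈ M := by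
  classical
  obtain ⟨g, h1, h2⟩ := h
  have h3 := h0 g h1
  have h4 : (M.map g).sum = (M.map fun d => (if d = x then (1 : ℤ) else 0) -
      (if d = z then 1 else 0)).sum := by
    congr 1
    exact List.map_congr_left fun d hd => h2 d (hM d hd)
  rw [h4, sum_sub, sum_ite hn, sum_ite hn, if_pos hx] at h3
  by_contra hz
  rw [if_neg hz] at h3
  omega

/-- the identity for a flow with two boundary darts -/
theorem ident (hG : P.Good) {f g : X → ℤ} (hf : P.Flow f) (hg : P.Flow g) {A M C : List X}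
    {x z : X} (hW : A ++ x :: (M ++ z :: C) ∈ P.B)
    (hfb : ∀ d ∈ P.B.flatten, d ≠ x → d ≠ z → f d = 0) (hz : f z = -f x) :
    f x * (2 * (M.map g).sum + g x + g z) + (P.Q.map (om f g)).sum = 0 := by
  have hn := hG.nodupB hW
  have h0 := hG.om0 f g hf hg
  rw [List.map_append, List.sum_append] at h0
  have hmem : ∀ d ∈ A ++ x :: (M ++ z :: C), d ∈ P.B.flatten := fun d hd =>
    List.mem_flatten.2 ⟨_, hW, hd⟩
  have hnB := (List.nodup_append.1 hG.nd).1
  obtain ⟨B₁, B₂, hB⟩ := List.append_of_mem hW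
  have ho := flatten_other (B₁ := B₁) (B₂ := B₂) (W := A ++ x :: (M ++ z :: C))
    (by rw [← hB]; exact hnB)
  have hz' : ∀ W', W' ∈ B₁ ∨ W' ∈ B₂ → om f g W' = 0 := by
    intro W' hW'
    refine om_zero fun d hd => hfb d ?_ ?_ ?_
    · rw [hB]
      refine List.mem_flatten.2 ⟨W', ?_, hd⟩
      rcases hW' with h | h <;> simp [h]
    · rintro rfl; exact ho W' hW' _ hd (by simp)
    · rintro rfl; exact ho W' hW' _ hd (by simp)
  rw [hB, sum_single _ _ _ _ (fun b hb => hz' b (Or.inl hb)) (fun b hb => hz' b (Or.inr hb))] at h0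
  rw [List.nodup_append, List.nodup_cons, List.nodup_append, List.nodup_cons] at hn
  obtain ⟨-, ⟨n1, -, ⟨n2, -⟩, n3⟩, n4⟩ := hn
  rw [om_key (fun d hd => hfb d (hmem d (by simp [hd])) (fun h => n4 d hd x (by simp) h)
    (fun h => n4 d hd z (by simp) h))
    (fun d hd => hfb d (hmem d (by simp [hd])) (fun h => n1 (by rw [← h]; simp [hd]))
    (fun h => n3 d hd z (by simp) h))
    (fun d hd => hfb d (hmem d (by simp [hd])) (fun h => n1 (by rw [← h]; simp [hd]))
    (fun h => n2 (by rw [← h]; exact hd))) hz] at h0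
  exact h0

theorem circ_one (hG : P.Good) {f g : X → ℤ} {q : List X} (hq : q ∈ P.Q)
    (h : ∀ q' ∈ P.Q, q' ≠ q → om f g q' = 0) : (P.Q.map (om f g)).sum = om f g q := by
  have hnQ := (List.nodup_append.1 hG.nd).2.1
  obtain ⟨Q₁, Q₂, hQ⟩ := List.append_of_mem hq
  have ho := flatten_other (B₁ := Q₁) (B₂ := Q₂) (W := q) (by rw [← hQ]; exact hnQ)
  have key : ∀ q', q' ∈ Q₁ ∨ q' ∈ Q₂ → om f g q' = 0 := by
    intro q' hq'
    have hm : q' ∈ P.Q := by rw [hQ]; rcases hq' with h | h <;> simp [h]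
    by_cases he : q' = q
    · rcases q' with _ | ⟨x, l⟩
      · rfl
      · exact absurd (by rw [← he]; simp : x ∈ q) (ho _ hq' x (by simp))
    · exact h q' hm he
  rw [hQ, sum_single _ _ _ _ (fun b hb => key b (Or.inl hb)) (fun b hb => key b (Or.inr hb))]

theorem cycL_mem {r p : X} {W : List X} (h : CycL r p W) : r ∈ W ∧ p ∈ W := by
  rcases h with ⟨u, v, rfl⟩ | ⟨u, rfl⟩ <;> simp

/-- the flow of a corner -/
theorem cor_flow (hG : P.Good) {p r : X} (h : P.Cor p r) (hpr : p ≠ r) :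
    ∃ f, P.Flow f ∧ f p = 1 ∧ f r = -1 ∧ (∀ d ∈ P.B.flatten, d ≠ p → d ≠ r → f d = 0) ∧
      ∀ g, P.Flow g → (P.Q.map (om f g)).sum = -g r - g p := by
  classical
  obtain ⟨hp, hr, q, hq, hc⟩ := h
  obtain ⟨mr, mp⟩ := cycL_mem hc
  have dp : P.dart p := Or.inl hp
  have dr : P.dart r := Or.inl hr
  have e1 : P.σ (P.σ r) = r := hG.invσ r dr
  have e2 : P.σ (P.σ p) = p := hG.invσ p dp
  have hne : P.σ r ≠ P.σ p := fun h => hpr (by rw [← e2, ← h, e1])
  have n1 : p ≠ P.σ p := fun h => hG.disj hq mp (h ▸ hp)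
  have n2 : p ≠ P.σ r := fun h => hG.disj hq mr (h ▸ hp)
  have n3 : r ≠ P.σ p := fun h => hG.disj hq mp (h ▸ hr)
  have n4 : r ≠ P.σ r := fun h => hG.disj hq mr (h ▸ hr)
  set f : X → ℤ := fun x => P.ed p x + P.ed (P.σ r) x with hf
  have hfv : ∀ x, f x = ((if x = p then 1 else 0) - (if x = P.σ p then 1 else 0)) +
      ((if x = P.σ r then 1 else 0) - (if x = r then 1 else 0)) := by
    intro x; rw [hf]; simp only [ed, e1]
  have hfl : P.Flow f := by
    refine ⟨add_anti (fun y hy => ed_σ hG dp hy)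
      (fun y hy => ed_σ hG (dartQ hq mr) hy), fun q' hq' => ?_⟩
    rw [hf, sum_add, sum_ed (hG.nodupQ hq'), sum_ed (hG.nodupQ hq'), e1]
    have k1 : p ∉ q' := fun h => hG.disj hq' h hp
    have k2 : r ∉ q' := fun h => hG.disj hq' h hr
    rw [if_neg k1, if_neg k2]
    by_cases e : q' = q
    · subst e
      rw [if_pos mp, if_pos mr]; ring
    · have k3 : P.σ p ∉ q' := fun h => e (hG.uniqQ hq' hq h mp)
      have k4 : P.σ r ∉ q' := fun h => e (hG.uniqQ hq' hq h mr)
      rw [if_neg k3, if_neg k4]; ring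
  have f1 : f p = 1 := by rw [hfv]; simp [n1, n2, hpr]
  have f2 : f r = -1 := by rw [hfv]; simp [n3, n4, Ne.symm hpr]
  have f3 : f (P.σ r) = 1 := by rw [hfl.1 r dr, f2]; ring
  have f4 : f (P.σ p) = -1 := by rw [hfl.1 p dp, f1]
  have f0 : ∀ x, x ≠ p → x ≠ r → x ≠ P.σ p → x ≠ P.σ r → f x = 0 := by
    intro x h1 h2 h3 h4
    rw [hfv]; simp [h1, h2, h3, h4]
  refine ⟨f, hfl, f1, f2, fun d hd h1 h2 => f0 d h1 h2 (fun h => hG.disj hq mp (h ▸ hd))
    (fun h => hG.disj hq mr (h ▸ hd)), fun g hg => ?_⟩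
  rw [circ_one hG hq]
  · have hn := hG.nodupQ hq
    have hqd : ∀ d ∈ q, d ≠ p ∧ d ≠ r := fun d hd =>
      ⟨fun h => hG.disj hq hd (h ▸ hp), fun h => hG.disj hq hd (h ▸ hr)⟩
    have g1 := hg.1 p dp
    have g2 := hg.1 r dr
    rcases hc with ⟨u, v, e⟩ | ⟨u, e⟩
    · have hz : f (P.σ p) = -f (P.σ r) := by rw [f3, f4]
      rw [e, List.nodup_append, List.nodup_cons, List.nodup_cons] at hn
      obtain ⟨-, ⟨m1, m2, -⟩, m3⟩ := hn
      have key : om f g q = f (P.σ r) * (2 * (([] : List X).map g).sum + g (P.σ r) + g (P.σ p)) := by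
        rw [e, ← om_key (A := u) (M := []) (C := v) (fun d hd => f0 d (hqd d (by rw [e]; simp [hd])).1
          (hqd d (by rw [e]; simp [hd])).2 (fun h => m3 d hd _ (by simp) h)
          (fun h => m3 d hd _ (by simp) h)) (by simp)
          (fun d hd => f0 d (hqd d (by rw [e]; simp [hd])).1
          (hqd d (by rw [e]; simp [hd])).2 (fun h => m2 (h ▸ hd))
          (fun h => m1 (by rw [← h]; simp [hd]))) hz]
        rfl
      rw [key, f3, g1, g2]
      simp only [List.map_nil, List.sum_nil]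
      ring
    · have hz : f (P.σ r) = -f (P.σ p) := by rw [f3, f4]; ring
      rw [e, List.nodup_cons, List.nodup_append] at hn
      obtain ⟨m1, -, -, m3⟩ := hn
      have hs : g (P.σ p) + (u.map g).sum + g (P.σ r) = 0 := by
        have := hg.2 q hq
        rw [e, List.map_cons, List.sum_cons, List.map_append, List.sum_append] at this
        simp only [List.map_cons, List.map_nil, List.sum_cons, List.sum_nil] at this
        linarith
      have key : om f g q = f (P.σ p) * (2 * (u.map g).sum + g (P.σ p) + g (P.σ r)) := by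
        have h5 := om_key (f := f) (g := g) (A := []) (M := u) (C := []) (x := P.σ p) (z := P.σ r)
          (by simp) (fun d hd => f0 d (hqd d (by rw [e]; simp [hd])).1
          (hqd d (by rw [e]; simp [hd])).2 (fun h => m1 (by rw [← h]; simp [hd]))
          (fun h => m3 d hd _ (by simp) h)) (by simp) hz
        rw [← h5, e]
        rfl
      rw [key, f4]
      have : (u.map g).sum = -(g (P.σ p) + g (P.σ r)) := by linarith
      rw [this, g1, g2]
      ring
  · intro q' hq' he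
    refine om_zero fun d hd => f0 d (fun h => hG.disj hq' hd (h ▸ hp))
      (fun h => hG.disj hq' hd (h ▸ hr)) (fun h => he (hG.uniqQ hq' hq hd (h ▸ mp)))
      (fun h => he (hG.uniqQ hq' hq hd (h ▸ mr)))

/-- the flow of an edge joining boundary darts -/
theorem edge_flow (hG : P.Good) {p : X} (hp : p ∈ P.B.flatten) (hr : P.σ p ∈ P.B.flatten) :
    ∃ f, P.Flow f ∧ f p = 1 ∧ f (P.σ p) = -1 ∧
      (∀ d ∈ P.B.flatten, d ≠ p → d ≠ P.σ p → f d = 0) ∧ ∀ q ∈ P.Q, ∀ d ∈ q, f d = 0 := by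
  classical
  have dp : P.dart p := Or.inl hp
  have hne := hG.neσ p dp
  have hfl : P.Flow (P.ed p) := by
    refine ⟨fun y hy => ed_σ hG dp hy, fun q' hq' => ?_⟩
    rw [sum_ed (hG.nodupQ hq'), if_neg (fun h => hG.disj hq' h hp),
      if_neg (fun h => hG.disj hq' h hr), sub_self]
  refine ⟨P.ed p, hfl, ?_, ?_, fun d _ h1 h2 => ?_, fun q hq d hd => ?_⟩
  · unfold ed; simp [Ne.symm hne]
  · unfold ed; simp [hne]
  · unfold ed; simp [h1, h2]
  · have h1 : d ≠ p := fun h => hG.disj hq hd (h ▸ hp)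
    have h2 : d ≠ P.σ p := fun h => hG.disj hq hd (h ▸ hr)
    unfold ed; simp [h1, h2]

theorem gap_ne (hG : P.Good) {A M C : List X} {x z : X} (hW : A ++ x :: (M ++ z :: C) ∈ P.B) :
    x ≠ z := by
  have hn := hG.nodupB hW
  rw [List.nodup_append, List.nodup_cons] at hn
  exact fun h => hn.2.1.1 (by rw [h]; simp)

/-- the part between the ends of a gap -/
theorem gap_sum (hG : P.Good) {A M C : List X} {p r : X} (hW : A ++ p :: (M ++ r :: C) ∈ P.B)
    (h : P.Gap p r) {g : X → ℤ} (hg : P.Flow g) : (M.map g).sum = 0 := by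
  have hpr := gap_ne hG hW
  obtain ⟨hp, hr, h | h⟩ := h
  · obtain ⟨f, h1, h2, h3, h4, h5⟩ := edge_flow hG hp (by rw [h]; exact hr)
    rw [h] at h3 h4
    have := ident hG h1 hg hW h4 (by rw [h2, h3])
    have h6 : (P.Q.map (om f g)).sum = 0 := sum_zero fun q hq => om_zero (h5 q hq)
    have h7 := hg.1 p (Or.inl hp)
    rw [h] at h7
    rw [h6, h2, h7] at this
    linarith
  · obtain ⟨f, h1, h2, h3, h4, h5⟩ := cor_flow hG h hpr
    have := ident hG h1 hg hW h4 (by rw [h2, h3])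
    rw [h5 g hg, h2] at this
    linarith

/-- a corner whose ends have the wrong order -/
theorem cor_sum (hG : P.Good) {A M C : List X} {p r : X} (hW : A ++ r :: (M ++ p :: C) ∈ P.B)
    (h : P.Cor p r) {g : X → ℤ} (hg : P.Flow g) : ((r :: (M ++ [p])).map g).sum = 0 := by
  have hpr := gap_ne hG hW
  obtain ⟨f, h1, h2, h3, h4, h5⟩ := cor_flow hG h hpr.symm
  have := ident hG h1 hg hW (fun d hd a b => h4 d hd b a) (by rw [h2, h3]; ring)
  rw [h5 g hg, h3] at this
  simp only [List.map_cons, List.map_append, List.sum_cons, List.sum_append, List.map_nil,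
    List.sum_nil]
  linarith

/-- two different corners connected with each dart joined with a crossing -/
def Two (P : Pq X) : Prop := ∀ x ∈ P.B.flatten, P.σ x ∉ P.B.flatten →
  ∃ p₁ r₁ p₂ r₂, P.Cor p₁ r₁ ∧ P.Cor p₂ r₂ ∧ p₁ ≠ r₁ ∧ p₂ ≠ r₂ ∧ ¬(p₁ = p₂ ∧ r₁ = r₂) ∧
    P.Conn x p₁ ∧ P.Conn x r₁ ∧ P.Conn x p₂ ∧ P.Conn x r₂

theorem split_two {M : List X} {p r : X} (hp : p ∈ M) (hr : r ∈ M) (hne : p ≠ r) :
    (∃ A' M' C', M = A' ++ p :: (M' ++ r :: C')) ∨ ∃ A' M' C', M = A' ++ r :: (M' ++ p :: C') := by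
  obtain ⟨A, C, rfl⟩ := List.append_of_mem hp
  simp only [List.mem_append, List.mem_cons] at hr
  rcases hr with hr | hr | hr
  · obtain ⟨A₁, A₂, rfl⟩ := List.append_of_mem hr
    exact Or.inr ⟨A₁, A₂, C, by simp⟩
  · exact absurd hr.symm hne
  · obtain ⟨C₁, C₂, rfl⟩ := List.append_of_mem hr
    exact Or.inl ⟨A, C₁, C₂, rfl⟩

theorem idx_le [DecidableEq X] {M A M' C : List X} {r p z : X} (hn : M.Nodup)
    (h : M = A ++ r :: (M' ++ p :: C)) (hz : z ∈ r :: (M' ++ [p])) :
    M.idxOf r ≤ M.idxOf z ∧ M.idxOf z ≤ M.idxOf p := by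
  subst h
  have hn' := hn
  rw [List.nodup_append, List.nodup_cons, List.nodup_append, List.nodup_cons] at hn'
  obtain ⟨-, ⟨n1, -, ⟨n2, -⟩, n3⟩, n4⟩ := hn'
  have hA : ∀ y ∈ r :: (M' ++ p :: C), y ∉ A := fun y hy h => n4 y h y hy rfl
  have hz' : z ∈ r :: (M' ++ p :: C) := by
    simp only [List.mem_cons, List.mem_append, List.not_mem_nil, or_false] at hz ⊢
    tauto
  have i1 := List.idxOf_append_of_notMem (l₂ := r :: (M' ++ p :: C)) (hA r (by simp))
  have i2 := List.idxOf_append_of_notMem (l₂ := r :: (M' ++ p :: C)) (hA z hz')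
  have i3 := List.idxOf_append_of_notMem (l₂ := r :: (M' ++ p :: C)) (hA p (by simp))
  rw [i1, i2, i3, List.idxOf_cons_self]
  refine ⟨by omega, Nat.add_le_add_left ?_ _⟩
  have e : r :: (M' ++ p :: C) = (r :: (M' ++ [p])) ++ C := by simp
  have hp : p ∈ r :: (M' ++ [p]) := by simp
  rw [e, List.idxOf_append_of_mem hz, List.idxOf_append_of_mem hp]
  have h5 : p ∉ r :: M' := by
    intro h
    rcases List.mem_cons.1 h with h | h
    · exact n1 (by rw [← h]; simp)
    · exact n3 p h p (by simp) rfl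
  have h6 : (r :: (M' ++ [p])).idxOf p = (r :: M').length := by
    have : r :: (M' ++ [p]) = (r :: M') ++ [p] := by simp
    rw [this, List.idxOf_append_of_notMem h5, List.idxOf_cons_self]; rfl
  have h7 := List.idxOf_lt_length_of_mem hz
  rw [h6]
  simp only [List.length_cons, List.length_append, List.length_nil] at h7 ⊢
  omega

/-- in a region there is a gap -/
theorem region (hG : P.Good) (hT : P.Two) {A M C : List X} (hW : A ++ M ++ C ∈ P.B)
    (h0 : ∀ g, P.Flow g → (M.map g).sum = 0) (hM : M ≠ []) :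
    ∃ A' p M' r C', M = A' ++ p :: (M' ++ r :: C') ∧ P.Gap p r := by
  classical
  have hnW := hG.nodupB hW
  have hn : M.Nodup := by
    rw [List.append_assoc, List.nodup_append, List.nodup_append] at hnW
    exact hnW.2.1.1
  have hB : ∀ d ∈ M, d ∈ P.B.flatten := fun d hd => List.mem_flatten.2 ⟨_, hW, by simp [hd]⟩
  obtain ⟨x, hx⟩ := List.exists_mem_of_ne_nil _ hM
  by_cases hσ : P.σ x ∈ P.B.flatten
  · have hne := hG.neσ x (Or.inl (hB x hx))
    have hz : P.σ x ∈ M := by
      obtain ⟨f, h1, h2, h3, h4, -⟩ := edge_flow hG (hB x hx) hσ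
      refine conn_mem (x := x) ⟨f, h1, fun d hd => ?_⟩ hn hB h0 hx
      by_cases e1 : d = x
      · subst e1; simp [h2, Ne.symm hne]
      · by_cases e2 : d = P.σ x
        · subst e2; simp [h3, hne]
        · simp [h4 d hd e1 e2, e1, e2]
    rcases split_two hx hz (Ne.symm hne) with ⟨A', M', C', e⟩ | ⟨A', M', C', e⟩
    · exact ⟨A', x, M', P.σ x, C', e, hB x hx, hσ, Or.inl rfl⟩
    · exact ⟨A', P.σ x, M', x, C', e, hσ, hB x hx, Or.inl (hG.invσ x (Or.inl (hB x hx)))⟩
  · obtain ⟨p₁, r₁, p₂, r₂, c₁, c₂, n₁, n₂, hne, k1, k2, k3, k4⟩ := hT x (hB x hx) hσ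
    have m1 := conn_mem k1 hn hB h0 hx
    have m2 := conn_mem k2 hn hB h0 hx
    have m3 := conn_mem k3 hn hB h0 hx
    have m4 := conn_mem k4 hn hB h0 hx
    have key : ∀ {p r y z : X} {A' M' C' : List X}, P.Cor p r → M = A' ++ r :: (M' ++ p :: C') →
        P.Conn y z → y = r → z ∈ r :: (M' ++ [p]) := by
      intro p r y z A' M' C' hc e hyz hy
      subst hy
      have hW' : (A ++ A') ++ y :: (M' ++ p :: (C' ++ C)) ∈ P.B := by
        rw [e] at hW
        simpa using hW
      refine conn_mem (x := y) hyz ?_ ?_ (fun g hg => cor_sum hG hW' hc hg) (by simp)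
      · rw [e] at hn
        have : y :: (M' ++ p :: C') = (y :: (M' ++ [p])) ++ C' := by simp
        rw [this, List.nodup_append, List.nodup_append] at hn
        exact hn.2.1.1
      · intro d hd
        refine hB d ?_
        rw [e]
        simp only [List.mem_cons, List.mem_append, List.not_mem_nil, or_false] at hd ⊢
        tauto
    rcases split_two m1 m2 n₁ with ⟨A', M', C', e⟩ | ⟨A', M', C', e⟩
    · exact ⟨A', p₁, M', r₁, C', e, hB _ m1, hB _ m2, Or.inr c₁⟩
    rcases split_two m3 m4 n₂ with ⟨A'', M'', C'', e'⟩ | ⟨A'', M'', C'', e'⟩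
    · exact ⟨A'', p₂, M'', r₂, C'', e', hB _ m3, hB _ m4, Or.inr c₂⟩
    exfalso
    have l1 := idx_le hn e (key c₁ e (k2.symm.trans k4) rfl)
    have l2 := idx_le hn e (key c₁ e (k2.symm.trans k3) rfl)
    have l3 := idx_le hn e' (key c₂ e' (k4.symm.trans k2) rfl)
    have l4 := idx_le hn e' (key c₂ e' (k4.symm.trans k1) rfl)
    refine hne ⟨?_, ?_⟩
    · exact (List.idxOf_inj m1).1 (by omega)
    · exact (List.idxOf_inj m2).1 (by omega)

/-- the junction lemma -/
theorem junc (hG : P.Good) (hT : P.Two) (hB : ∃ W ∈ P.B, W ≠ []) :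
    ∃ W ∈ P.B, ∃ A x y C, W = A ++ x :: y :: C ∧
      (P.σ x = y ∨ ∃ q ∈ P.Q, CycL (P.σ y) (P.σ x) q) := by
  obtain ⟨W, hW, hne⟩ := hB
  have main : ∀ (n : ℕ) (A M C : List X), M.length = n → A ++ M ++ C = W →
      (∀ g, P.Flow g → (M.map g).sum = 0) → M ≠ [] →
      ∃ A x y C, W = A ++ x :: y :: C ∧ (P.σ x = y ∨ ∃ q ∈ P.Q, CycL (P.σ y) (P.σ x) q) := by
    intro n
    induction n using Nat.strong_induction_on with
    | _ n ih =>
      intro A M C hl hW' h0 hM
      obtain ⟨A', p, M', r, C', e, hg⟩ := region hG hT (A := A) (C := C) (by rw [hW']; exact hW) h0 hM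
      have e2 : (A ++ A') ++ p :: (M' ++ r :: (C' ++ C)) = W := by
        rw [← hW', e]; simp
      by_cases hM' : M' = []
      · subst hM'
        refine ⟨A ++ A', p, r, C' ++ C, by rw [← e2]; simp, ?_⟩
        rcases hg.2.2 with h | h
        · exact Or.inl h
        · exact Or.inr h.2.2
      · refine ih M'.length ?_ (A ++ A' ++ [p]) M' (r :: (C' ++ C)) rfl ?_ ?_ hM'
        · rw [← hl, e]; simp; omega
        · rw [← e2]; simp
        · intro g hg'
          exact gap_sum hG (A := A ++ A') (C := C' ++ C) (by rw [e2]; exact hW) hg hg'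
  obtain ⟨A, x, y, C, h⟩ := main _ [] W [] rfl (by simp) (fun g hg => hG.sum0 g hg W hW) hne
  exact ⟨W, hW, A, x, y, C, h⟩

end Pq

end Pool.Agent.V5helper74.SR
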