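import Pool.Agent.V5helper74.SR.E9

/-! Flows along double curves and the crossings of the double curves. -/

namespace Pool.Agent.V5helper74.SR

open Pool.Agent.Y874.TP2 (om part sg)
open Pool.Agent.Y468.SR
open Pool.Agent.Y874.TP (NullV Tri TC word4 passes_append' TC_cons TC_nil sep mem_code)
open Pool.Agent.R800.BT (Bad Hts)

variable {D : Code} {Ts : List Tri} {m : ℕ → ℕ} {F G : ℕ → Bool → ℤ}

/-- the coefficients of a flow following the double curves, depending on the crossing and the sheet -/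
structure Fl (D : Code) (Ts : List Tri) (m : ℕ → ℕ) (F : ℕ → Bool → ℤ) : Prop where
  cm : ∀ c, onD (D ++ TC Ts) c → m c ≠ c → ∀ o, F (m c) o = F c o
  fx : ∀ c, onD (D ++ TC Ts) c → m c = c → F c true = F c false
  op : ∀ T ∈ Ts, ∀ y o, F (pt T y true) o = F (pt T y false) o

/-- the flow -/
def fl (F : ℕ → Bool → ℤ) (p : Pass) : ℤ := F p.crossing p.isOver * sg p

/-- the contribution of a triple point to the intersection number -/
def th (T : Tri) (F G : ℕ → Bool → ℤ) : ℤ :=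
  (if et T then -1 else 1) * ((F T.a₁ true * G T.b₁ true - F T.b₁ true * G T.a₁ true) -
    (F T.a₁ false * G T.c₁ true - F T.c₁ true * G T.a₁ false) +
    (F T.b₁ false * G T.c₁ false - F T.c₁ false * G T.b₁ false))

theorem sg_part (m : ℕ → ℕ) (p : Pass) : sg (part m p) = -sg p := by
  unfold part sg
  split_ifs <;> simp_all [Pass.mate]

theorem fl_anti (hF : Fl D Ts m F) {p : Pass} (hp : p ∈ passes (D ++ TC Ts)) :
    fl F (part m p) = -fl F p := by
  unfold fl
  rw [sg_part]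
  rcases part_cases m p with ⟨h1, h2⟩ | ⟨h1, h2, h3⟩
  · have := hF.fx p.crossing ⟨p, hp, rfl⟩ h1
    rw [h2]
    have e : F p.mate.crossing p.mate.isOver = F p.crossing p.isOver := by
      show F p.crossing (!p.isOver) = _
      cases p.isOver
      · exact this
      · exact this.symm
    rw [e]; ring
  · rw [h2, h3, hF.cm p.crossing ⟨p, hp, rfl⟩ h1]; ring

theorem om4 {X : Type} (f g : X → ℤ) (e : Bool) (p₁ p₂ q₁ q₂ : X) (w : List X)
    (hw : w = if e then [q₂, p₂, q₁, p₁] else [p₂, q₂, p₁, q₁]) (h1 : f p₂ = -f p₁)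
    (h2 : f q₂ = -f q₁) (h3 : g p₂ = -g p₁) (h4 : g q₂ = -g q₁) :
    om f g w = (if e then -2 else 2) * (f p₁ * g q₁ - f q₁ * g p₁) ∧ (w.map f).sum = 0 := by
  subst hw
  cases e <;> simp [om, h1, h2, h3, h4] <;> ring

theorem om_zero {X : Type} (f g : X → ℤ) : ∀ w : List X, (∀ x ∈ w, f x = 0) → om f g w = 0 := by
  intro w
  induction w with
  | nil => intro _; rfl
  | cons x w ih =>
    intro h
    have h1 : (w.map f).sum = 0 := by
      refine List.sum_eq_zero fun y hy => ?_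
      obtain ⟨z, hz, rfl⟩ := List.mem_map.1 hy
      exact h z (by simp [hz])
    simp only [om, ih fun y hy => h y (by simp [hy]), h x (by simp), h1]
    ring

theorem fl_op {T : Tri} (hF : ∀ y o, F (pt T y true) o = F (pt T y false) o) :
    fl F T.pa₂ = -fl F T.pa₁ ∧ fl F T.pa₂.mate = -fl F T.pa₁.mate ∧ fl F T.pb₂ = -fl F T.pb₁ ∧
    fl F T.pb₂.mate = -fl F T.pb₁.mate ∧ fl F T.pc₂ = -fl F T.pc₁ ∧
    fl F T.pc₂.mate = -fl F T.pc₁.mate := by
  have key : ∀ (c d : ℕ) (o s : Bool), (∀ o, F d o = F c o) →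
      fl F ⟨d, o, s⟩ = -fl F ⟨c, o, !s⟩ := by
    intro c d o s h
    unfold fl
    simp only [h, sg]
    cases o <;> cases s <;> simp
  have key' : ∀ (c d : ℕ) (o s : Bool), (∀ o, F d o = F c o) →
      fl F (Pass.mate ⟨d, o, s⟩) = -fl F (Pass.mate ⟨c, o, !s⟩) := fun c d o s h => key c d (!o) s h
  exact ⟨key _ _ _ _ (hF .A), key' _ _ _ _ (hF .A), key _ _ _ _ (hF .B), key' _ _ _ _ (hF .B),
    key _ _ _ _ (hF .C), key' _ _ _ _ (hF .C)⟩

theorem om_code {T : Tri} (hok : T.Ok) (ht : Hts T)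
    (hF : ∀ y o, F (pt T y true) o = F (pt T y false) o)
    (hG : ∀ y o, G (pt T y true) o = G (pt T y false) o) :
    (T.code.map fun C => om (fl F) (fl G) C.1).sum = 2 * th T F G ∧
      ∀ C ∈ T.code, (C.1.map (fl F)).sum = 0 := by
  obtain ⟨f1, f2, f3, f4, f5, f6⟩ := fl_op hF
  obtain ⟨g1, g2, g3, g4, g5, g6⟩ := fl_op hG
  have hi := om4 (fl F) (fl G) T.ei T.pa₁ T.pa₂ T.pb₁ T.pb₂ T.wi rfl f1 f3 g1 g3
  have hj := om4 (fl F) (fl G) T.ej T.pa₁.mate T.pa₂.mate T.pc₁ T.pc₂ T.wj rfl f2 f5 g2 g5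
  have hk := om4 (fl F) (fl G) T.ek T.pb₁.mate T.pb₂.mate T.pc₁.mate T.pc₂.mate T.wk rfl f4 f6 g4 g6
  constructor
  · simp only [Tri.code, List.map_cons, List.map_nil, List.sum_cons, List.sum_nil, hi.1, hj.1, hk.1]
    clear hi hj hk f1 f2 f3 f4 f5 f6 g1 g2 g3 g4 g5 g6 hF hG
    obtain ⟨a₁, a₂, b₁, b₂, c₁, c₂, ta, tb, tc, sa, sb, sc, ei, ej, ek, li, lj, lk⟩ := T
    simp only [Hts] at ht
    obtain ⟨rfl, rfl, rfl⟩ := ht
    obtain ⟨-, o1, o2⟩ := hok
    simp only [th, et, fl, Tri.pa₁, Tri.pb₁, Tri.pc₁, Pass.mate, sg] at o1 o2 ⊢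
    cases ei <;> cases ej <;> cases ek <;> cases sa <;> cases sb <;> cases sc <;>
      simp at o1 o2 ⊢ <;> ring
  · intro C hC
    simp only [Tri.code, List.mem_cons, List.not_mem_nil, or_false] at hC
    rcases hC with rfl | rfl | rfl
    · exact hi.2
    · exact hj.2
    · exact hk.2

theorem theta (h : St D Ts m) (hn : (D.map Prod.snd).Nodup) (hF : Fl D Ts m F) (hG : Fl D Ts m G)
    (h0 : ∀ c, onD D c → ∀ o, F c o = 0) : (Ts.map fun T => th T F G).sum = 0 := by
  have h1 := Pool.Agent.Y761.TP2.flow D (TC Ts) m (fl F) (fl G) hn h.wf h.mt h.nv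
    (fun p hp => ⟨fl_anti hF hp, fl_anti hG hp⟩) (by
      intro C hC
      obtain ⟨T, hT, hC⟩ := List.mem_flatMap.1 hC
      obtain ⟨hok, ht⟩ := h.ok T hT
      exact ⟨(om_code hok ht (hF.op T hT) (hG.op T hT)).2 C hC,
        (om_code hok ht (hG.op T hT) (hF.op T hT)).2 C hC⟩)
  have h2 := h1.2
  rw [List.map_append, List.sum_append] at h2
  have h3 : (D.map fun C => om (fl F) (fl G) C.1).sum = 0 := by
    refine List.sum_eq_zero fun y hy => ?_
    obtain ⟨C, hC, rfl⟩ := List.mem_map.1 hy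
    refine om_zero _ _ _ fun x hx => ?_
    unfold fl
    rw [h0 x.crossing ⟨x, mem_passes.2 ⟨C, hC, hx⟩, rfl⟩, zero_mul]
  rw [h3, zero_add] at h2
  have h4 : ∀ l : List Tri, (∀ T ∈ l, T ∈ Ts) →
      ((TC l).map fun C => om (fl F) (fl G) C.1).sum = 2 * (l.map fun T => th T F G).sum := by
    intro l
    induction l with
    | nil => intro _; rfl
    | cons T l ih =>
      intro hl
      have hT := hl T (by simp)
      obtain ⟨hok, ht⟩ := h.ok T hT
      rw [TC_cons, List.map_append, List.sum_append, ih fun S hS => hl S (by simp [hS]),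
        (om_code hok ht (hF.op T hT) (hG.op T hT)).1, List.map_cons, List.sum_cons]
      ring
  rw [h4 Ts fun _ h => h] at h2
  omega

end Pool.Agent.V5helper74.SR
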