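import Pool.Agent.V5helper74.SR.E10

/-! Closed double curves. -/

namespace Pool.Agent.V5helper74.SR

open Pool.Agent.Y468.SR
open Pool.Agent.Y874.TP (NullV Tri TC word4 passes_append' TC_cons TC_nil sep mem_code)
open Pool.Agent.R800.BT (Bad Hts)

variable {D : Code} {Ts : List Tri} {m : ℕ → ℕ} {F G : ℕ → Bool → ℤ}

theorem St.onE {c : ℕ} : onD (D ++ TC Ts) c ↔ onD D c ∨ onD (TC Ts) c := onD_append

theorem St.on_m (h : St D Ts m) {c : ℕ} (hc : onD (D ++ TC Ts) c) : onD (D ++ TC Ts) (m c) := by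
  obtain ⟨p, hp, rfl⟩ := hc
  obtain ⟨q, hq, h1, -⟩ := h.mt p hp
  exact ⟨q, hq, h1⟩

theorem St.m_m (h : St D Ts m) {c : ℕ} (hc : onD (D ++ TC Ts) c) : m (m c) = c := by
  obtain ⟨p, hp, rfl⟩ := hc
  exact h.invol hp

theorem St.on_pt (_h : St D Ts m) {T : Tri} (hT : T ∈ Ts) (y : Lt) (i : Bool) :
    onD (D ++ TC Ts) (pt T y i) :=
  onD_append.2 (Or.inr (onD_TC.2 ⟨T, hT, pt_names T y i⟩))

theorem St.m_pt (h : St D Ts m) {T : Tri} (hT : T ∈ Ts) (y : Lt) (i : Bool) :
    m (m (pt T y i)) = pt T y i := h.m_m (h.on_pt hT y i)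

theorem St.pt_onD (h : St D Ts m) {T : Tri} (hT : T ∈ Ts) (y : Lt) (i : Bool) :
    ¬onD D (pt T y i) := h.not_onD hT (pt_names T y i)

theorem St.pt_inj (h : St D Ts m) {T : Tri} (hT : T ∈ Ts) {y z : Lt} {i j : Bool}
    (he : pt T y i = pt T z j) : y = z ∧ i = j := by
  have hd := h.nodup hT
  simp only [List.nodup_cons, List.mem_cons, List.not_mem_nil, or_false, not_or,
    not_false_eq_true, List.nodup_nil, and_true] at hd
  cases y <;> cases i <;> cases z <;> cases j <;> simp only [pt] at he <;> simp_all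

/-- a set of crossings closed under the matching and under passing through the triple points -/
structure Clo (D : Code) (Ts : List Tri) (m : ℕ → ℕ) (K : ℕ → Prop) : Prop where
  mm : ∀ c, onD (D ++ TC Ts) c → K c → K (m c)
  op : ∀ T ∈ Ts, ∀ y i, K (pt T y i) → K (pt T y (!i))

open Classical in
/-- the flow along a set of double curves in one sheet -/
noncomputable def ind (K : ℕ → Prop) (o : Bool) (c : ℕ) (l : Bool) : ℤ := if K c ∧ l = o then 1 else 0

open Classical in
/-- the flow along a set of double curves in both sheets -/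
noncomputable def indb (K : ℕ → Prop) (c : ℕ) (_ : Bool) : ℤ := if K c then 1 else 0

variable {K : ℕ → Prop}

theorem Clo.iff_m (h : St D Ts m) (hK : Clo D Ts m K) {c : ℕ} (hc : onD (D ++ TC Ts) c) :
    K (m c) ↔ K c := by
  refine ⟨fun k => ?_, hK.mm c hc⟩
  have := hK.mm (m c) (h.on_m hc) k
  rwa [h.m_m hc] at this

theorem Clo.iff_op (hK : Clo D Ts m K) {T : Tri} (hT : T ∈ Ts) (y : Lt) :
    K (pt T y true) ↔ K (pt T y false) := ⟨hK.op T hT y true, hK.op T hT y false⟩

theorem fl_one : Fl D Ts m (fun _ _ => 1) := ⟨fun _ _ _ _ => rfl, fun _ _ _ => rfl, fun _ _ _ _ => rfl⟩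

theorem fl_indb (h : St D Ts m) (hK : Clo D Ts m K) : Fl D Ts m (indb K) := by
  refine ⟨fun c hc _ o => ?_, fun _ _ _ => rfl, fun T hT y o => ?_⟩
  · unfold indb; rw [hK.iff_m h hc]
  · unfold indb; rw [hK.iff_op hT y]

theorem fl_ind (h : St D Ts m) (hK : Clo D Ts m K)
    (hn : ∀ c, onD (D ++ TC Ts) c → K c → m c ≠ c) (o : Bool) : Fl D Ts m (ind K o) := by
  refine ⟨fun c hc _ l => ?_, fun c hc h1 => ?_, fun T hT y l => ?_⟩
  · unfold ind; rw [hK.iff_m h hc]
  · have : ¬K c := fun k => hn c hc k h1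
    simp only [ind, this, false_and]
  · unfold ind; rw [hK.iff_op hT y]

variable {T T' : Tri} {l : List Tri}

theorem St.ne (h : St D (T :: l) m) (hT' : T' ∈ l) (y z : Lt) (i j : Bool) : pt T y i ≠ pt T' z j := by
  intro he
  refine h.names_disj (l₁ := []) hT' (pt_names T' z j) ?_
  rw [← he]
  exact names_iff.1 (pt_names T y i)

theorem th_zero (hF : ∀ y o, F (pt T y false) o = 0) : th T F G = 0 := by
  have a := hF .A
  have b := hF .B
  have c := hF .C
  simp only [pt] at a b c
  simp only [th, a, b, c]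
  ring

/-- the flows vanish at the other triple points -/
theorem theta_one (h : St D (T :: l) m) (hn : (D.map Prod.snd).Nodup) (hF : Fl D (T :: l) m F)
    (hG : Fl D (T :: l) m G) (h0 : ∀ c, onD D c → ∀ o, F c o = 0)
    (h1 : ∀ T' ∈ l, ∀ y o, F (pt T' y false) o = 0) : th T F G = 0 := by
  have h2 := theta h hn hF hG h0
  rw [List.map_cons, List.sum_cons] at h2
  have h3 : (l.map fun T => th T F G).sum = 0 := by
    refine List.sum_eq_zero fun y hy => ?_
    obtain ⟨T', hT', rfl⟩ := List.mem_map.1 hy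
    exact th_zero (h1 T' hT')
  rw [h3, add_zero] at h2
  exact h2

theorem theta_two (h : St D (T :: T' :: l) m) (hn : (D.map Prod.snd).Nodup)
    (hF : Fl D (T :: T' :: l) m F) (hG : Fl D (T :: T' :: l) m G)
    (h0 : ∀ c, onD D c → ∀ o, F c o = 0)
    (h1 : ∀ T'' ∈ l, ∀ y o, F (pt T'' y false) o = 0) : th T F G + th T' F G = 0 := by
  have h2 := theta h hn hF hG h0
  rw [List.map_cons, List.sum_cons, List.map_cons, List.sum_cons] at h2
  have h3 : (l.map fun T => th T F G).sum = 0 := by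
    refine List.sum_eq_zero fun y hy => ?_
    obtain ⟨T', hT', rfl⟩ := List.mem_map.1 hy
    exact th_zero (h1 T' hT')
  rw [h3, add_zero] at h2
  exact h2

/-- the contribution without the sign -/
def th0 (T : Tri) (F G : ℕ → Bool → ℤ) : ℤ :=
  (F (pt T .A false) true * G (pt T .B false) true - F (pt T .B false) true * G (pt T .A false) true) -
    (F (pt T .A false) false * G (pt T .C false) true -
      F (pt T .C false) true * G (pt T .A false) false) +
    (F (pt T .B false) false * G (pt T .C false) false -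
      F (pt T .C false) false * G (pt T .B false) false)

theorem th_eq : th T F G = (if et T then -1 else 1) * th0 T F G := rfl

theorem th0_of (h : th T F G = 0) : th0 T F G = 0 := by
  rw [th_eq] at h
  by_cases he : et T = true
  · simp only [he, if_true] at h; omega
  · simp only [he] at h; simpa using h

/-- the curve crossing the given one at a triple point -/
def pr : Lt → Bool → Lt × Bool
  | .A, true => (.B, true)
  | .A, false => (.C, true)
  | .B, true => (.A, true)
  | .B, false => (.C, false)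
  | .C, true => (.A, false)
  | .C, false => (.B, false)

/-- the sign of this crossing -/
def cs : Lt → Bool → ℤ
  | .A, true => 1
  | .A, false => -1
  | .B, true => -1
  | .B, false => 1
  | .C, true => 1
  | .C, false => -1

theorem th0_ind {y : Lt} (hk : ∀ z, K (pt T z false) ↔ z = y) (o : Bool) :
    th0 T (ind K o) G = cs y o * G (pt T (pr y o).1 false) (pr y o).2 := by
  have a := hk .A
  have b := hk .B
  have c := hk .C
  simp only [th0, ind, a, b, c]
  cases y <;> cases o <;> simp [cs, pr]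

theorem ind_zero {c : ℕ} (h : ¬K c) (o l : Bool) : ind K o c l = 0 := by
  simp [ind, h]

theorem indb_zero {c : ℕ} (h : ¬K c) (l : Bool) : indb K c l = 0 := by
  simp [indb, h]

/-- a closed set of crossings at one triple point -/
theorem clo_one (h : St D (T :: l) m) {L : Lt → Prop}
    (hL : ∀ y i, L y → ∃ z j, L z ∧ m (pt T y i) = pt T z j) :
    Clo D (T :: l) m (fun c => ∃ y i, L y ∧ c = pt T y i) ∧
    (∀ c, onD D c → ¬∃ y i, L y ∧ c = pt T y i) ∧
    (∀ S ∈ l, ∀ z, ¬∃ y i, L y ∧ pt S z false = pt T y i) ∧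
    ∀ z, (∃ y i, L y ∧ pt T z false = pt T y i) ↔ L z := by
  have hT : T ∈ T :: l := by simp
  refine ⟨⟨?_, ?_⟩, ?_, ?_, fun z => ⟨?_, fun hz => ⟨z, false, hz, rfl⟩⟩⟩
  · rintro c - ⟨y, i, hy, rfl⟩
    obtain ⟨z, j, hz, e⟩ := hL y i hy
    exact ⟨z, j, hz, e⟩
  · rintro S hS z i ⟨y, j, hy, e⟩
    rcases List.mem_cons.1 hS with rfl | hS
    · obtain ⟨rfl, -⟩ := h.pt_inj hT e
      exact ⟨_, _, hy, rfl⟩
    · exact absurd e.symm (h.ne hS y z j i)
  · rintro c hc ⟨y, i, -, rfl⟩
    exact h.pt_onD hT y i hc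
  · rintro S hS z ⟨y, i, -, e⟩
    exact h.ne hS y z i false e.symm
  · rintro ⟨y, i, hy, e⟩
    obtain ⟨rfl, -⟩ := h.pt_inj hT e
    exact hy

/-- no letter is closed up -/
theorem St.F1 (h : St D (T :: l) m) (hn : (D.map Prod.snd).Nodup) (y : Lt) :
    m (pt T y false) ≠ pt T y true := by
  intro hm
  have hT : T ∈ T :: l := by simp
  have hm' : m (pt T y true) = pt T y false := by rw [← hm, h.m_pt hT]
  obtain ⟨h1, h2, h3, h4⟩ := clo_one h (L := fun z => z = y) (by
    rintro z i rfl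
    cases i
    · exact ⟨z, true, rfl, hm⟩
    · exact ⟨z, false, rfl, hm'⟩)
  have hN : ∀ c, onD (D ++ TC (T :: l)) c → (∃ z i, z = y ∧ c = pt T z i) → m c ≠ c := by
    rintro c - ⟨z, i, rfl, rfl⟩ he
    cases i
    · rw [hm] at he; exact absurd (h.pt_inj hT he).2 (by simp)
    · rw [hm'] at he; exact absurd (h.pt_inj hT he).2 (by simp)
  have := th0_of (theta_one h hn (fl_ind h h1 hN true) fl_one
    (fun c hc o => ind_zero (h2 c hc) _ _) fun S hS z o => ind_zero (h3 S hS z) _ _)
  rw [th0_ind h4] at this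
  cases y <;> simp [cs] at this

/-- the letters `A` and `C` do not form a closed curve -/
theorem St.F3 (h : St D (T :: l) m) (hn : (D.map Prod.snd).Nodup)
    (hA : ∀ i, ∃ j, m (pt T .A i) = pt T .C j) : False := by
  have hT : T ∈ T :: l := by simp
  have hC : ∀ j, ∃ i, m (pt T .C j) = pt T .A i := by
    obtain ⟨j₀, h₀⟩ := hA false
    obtain ⟨j₁, h₁⟩ := hA true
    have hne : j₀ ≠ j₁ := by
      rintro rfl
      have := h₀.trans h₁.symm
      have e := congrArg m this
      rw [h.m_pt hT, h.m_pt hT] at e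
      exact absurd (h.pt_inj hT e).2 (by simp)
    intro j
    by_cases hj : j = j₀
    · exact ⟨false, by rw [hj, ← h₀, h.m_pt hT]⟩
    · have : j = j₁ := by cases j <;> cases j₀ <;> cases j₁ <;> simp_all
      exact ⟨true, by rw [this, ← h₁, h.m_pt hT]⟩
  obtain ⟨h1, h2, h3, h4⟩ := clo_one h (L := fun z => z ≠ .B) (by
    intro z i hz
    cases z
    · obtain ⟨j, hj⟩ := hA i
      exact ⟨.C, j, by simp, hj⟩
    · exact absurd rfl hz
    · obtain ⟨j, hj⟩ := hC i
      exact ⟨.A, j, by simp, hj⟩)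
  have hN : ∀ c, onD (D ++ TC (T :: l)) c → (∃ z i, z ≠ .B ∧ c = pt T z i) → m c ≠ c := by
    rintro c - ⟨z, i, hz, rfl⟩ he
    cases z
    · obtain ⟨j, hj⟩ := hA i
      rw [hj] at he; exact absurd (h.pt_inj hT he).1 (by simp)
    · exact absurd rfl hz
    · obtain ⟨j, hj⟩ := hC i
      rw [hj] at he; exact absurd (h.pt_inj hT he).1 (by simp)
  have := th0_of (theta_one h hn (fl_ind h h1 hN true) fl_one
    (fun c hc o => ind_zero (h2 c hc) _ _) fun S hS z o => ind_zero (h3 S hS z) _ _)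
  simp only [th0, ind, h4] at this
  simp at this

/-- both ends of `B` are branch points -/
theorem St.F2 (h : St D (T :: l) m) (hn : (D.map Prod.snd).Nodup)
    (hB : ∀ i, m (pt T .B i) = pt T .B i) (hG : Fl D (T :: l) m G)
    (g1 : G (pt T .A false) true = 1) (g2 : G (pt T .C false) false = 0) : False := by
  obtain ⟨h1, h2, h3, h4⟩ := clo_one h (L := fun z => z = .B) (by
    rintro z i rfl
    exact ⟨.B, i, rfl, hB i⟩)
  have := th0_of (theta_one h hn (fl_indb h h1) hG
    (fun c hc o => indb_zero (h2 c hc) _) fun S hS z o => indb_zero (h3 S hS z) _)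
  simp only [th0, indb, h4] at this
  simp [g1, g2] at this

theorem cs_cases (y : Lt) (o : Bool) : cs y o = 1 ∨ cs y o = -1 := by
  cases y <;> cases o <;> simp [cs]

theorem sT_cases (T : Tri) :
    (if et T then (-1 : ℤ) else 1) = 1 ∨ (if et T then (-1 : ℤ) else 1) = -1 := by
  cases et T <;> simp

theorem arith₁ {T T' : Tri} {c : ℤ} (hc : c = 1 ∨ c = -1)
    (k : ((if et T then (-1 : ℤ) else 1) + (if et T' then (-1 : ℤ) else 1)) * c = 0) :
    et T' = !et T := by
  cases h1 : et T <;> cases h2 : et T' <;> rw [h1, h2] at k <;> rcases hc with rfl | rfl <;>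
    simp at k ⊢

theorem arith₂ {s s' c c' g g' : ℤ} (hs : s = 1 ∨ s = -1) (hs' : s' = 1 ∨ s' = -1)
    (hc : c = 1 ∨ c = -1) (hc' : c' = 1 ∨ c' = -1) (k : s * (c * 1) + s' * (c' * 1) = 0)
    (k' : s * (c * g) + s' * (c' * g') = 0) : g = g' := by
  rcases hs with rfl | rfl <;> rcases hs' with rfl | rfl <;> rcases hc with rfl | rfl <;>
    rcases hc' with rfl | rfl <;> omega

/-- a closed double curve through two triple points -/
theorem St.F4 {y w : Lt} (h : St D (T :: T' :: l) m) (hn : (D.map Prod.snd).Nodup)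
    (hc : ∀ i, ∃ j, m (pt T y i) = pt T' w j) (o : Bool) :
    (cs y o = cs w o → et T' = !et T) ∧ ∀ G, Fl D (T :: T' :: l) m G →
      G (pt T (pr y o).1 false) (pr y o).2 = G (pt T' (pr w o).1 false) (pr w o).2 := by
  have hT : T ∈ T :: T' :: l := by simp
  have hT' : T' ∈ T :: T' :: l := by simp
  have hne : ∀ y z i j, pt T y i ≠ pt T' z j := fun y z i j => h.ne (by simp) y z i j
  have hne' : ∀ S ∈ l, ∀ z j y i, pt T' y i ≠ pt S z j := by
    intro S hS z j y i
    have h' : St D (T' :: T :: l) m := h.permT (List.Perm.swap _ _ _)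
    exact h'.ne (by simp [hS]) y z i j
  have hc' : ∀ j, ∃ i, m (pt T' w j) = pt T y i := by
    obtain ⟨j₀, h₀⟩ := hc false
    obtain ⟨j₁, h₁⟩ := hc true
    have hne : j₀ ≠ j₁ := by
      rintro rfl
      have e := congrArg m (h₀.trans h₁.symm)
      rw [h.m_pt hT, h.m_pt hT] at e
      exact absurd (h.pt_inj hT e).2 (by simp)
    intro j
    by_cases hj : j = j₀
    · exact ⟨false, by rw [hj, ← h₀, h.m_pt hT]⟩
    · have : j = j₁ := by cases j <;> cases j₀ <;> cases j₁ <;> simp_all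
      exact ⟨true, by rw [this, ← h₁, h.m_pt hT]⟩
  set K : ℕ → Prop := fun c => (∃ i, c = pt T y i) ∨ ∃ j, c = pt T' w j with hKd
  have hK : Clo D (T :: T' :: l) m K := by
    refine ⟨?_, ?_⟩
    · rintro c - (⟨i, rfl⟩ | ⟨i, rfl⟩)
      · obtain ⟨j, hj⟩ := hc i
        exact Or.inr ⟨j, hj⟩
      · obtain ⟨j, hj⟩ := hc' i
        exact Or.inl ⟨j, hj⟩
    · rintro S hS z i (⟨j, e⟩ | ⟨j, e⟩)
      · rcases List.mem_cons.1 hS with rfl | hS
        · obtain ⟨rfl, -⟩ := h.pt_inj hT e
          exact Or.inl ⟨_, rfl⟩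
        · exact absurd e.symm (h.ne hS y z j i)
      · rcases List.mem_cons.1 hS with rfl | hS
        · exact absurd e (hne _ _ _ _)
        · rcases List.mem_cons.1 hS with rfl | hS
          · obtain ⟨rfl, -⟩ := h.pt_inj hT' e
            exact Or.inr ⟨_, rfl⟩
          · exact absurd e.symm (hne' S hS _ _ _ _)
  have hN : ∀ c, onD (D ++ TC (T :: T' :: l)) c → K c → m c ≠ c := by
    rintro c - (⟨i, rfl⟩ | ⟨i, rfl⟩) he
    · obtain ⟨j, hj⟩ := hc i
      rw [hj] at he; exact hne _ _ _ _ he.symm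
    · obtain ⟨j, hj⟩ := hc' i
      rw [hj] at he; exact hne _ _ _ _ he
  have h0 : ∀ c, onD D c → ¬K c := by
    rintro c hc (⟨i, rfl⟩ | ⟨i, rfl⟩)
    · exact h.pt_onD hT _ _ hc
    · exact h.pt_onD hT' _ _ hc
  have h1 : ∀ S ∈ l, ∀ z, ¬K (pt S z false) := by
    rintro S hS z (⟨i, e⟩ | ⟨i, e⟩)
    · exact h.ne (by simp [hS]) _ _ _ _ e.symm
    · exact hne' S hS _ _ _ _ e.symm
  have k1 : ∀ z, K (pt T z false) ↔ z = y := by
    intro z
    constructor
    · rintro (⟨i, e⟩ | ⟨i, e⟩)
      · exact (h.pt_inj hT e).1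
      · exact absurd e (hne _ _ _ _)
    · rintro rfl; exact Or.inl ⟨_, rfl⟩
  have k2 : ∀ z, K (pt T' z false) ↔ z = w := by
    intro z
    constructor
    · rintro (⟨i, e⟩ | ⟨i, e⟩)
      · exact absurd e.symm (hne _ _ _ _)
      · exact (h.pt_inj hT' e).1
    · rintro rfl; exact Or.inr ⟨_, rfl⟩
  have key : ∀ G, Fl D (T :: T' :: l) m G →
      (if et T then -1 else 1) * (cs y o * G (pt T (pr y o).1 false) (pr y o).2) +
      (if et T' then -1 else 1) * (cs w o * G (pt T' (pr w o).1 false) (pr w o).2) = 0 := by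
    intro G hG
    have := theta_two h hn (fl_ind h hK hN o) hG (fun c hc o => ind_zero (h0 c hc) _ _)
      fun S hS z o => ind_zero (h1 S hS z) _ _
    rwa [th_eq, th_eq, th0_ind k1, th0_ind k2] at this
  have k := key _ fl_one
  have c1 := cs_cases y o
  have c2 := cs_cases w o
  refine ⟨fun he => ?_, fun G hG => ?_⟩
  · rw [he] at k
    refine arith₁ c2 ?_
    linarith
  · exact arith₂ (sT_cases T) (sT_cases T') c1 c2 k (key G hG)

end Pool.Agent.V5helper74.SR
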