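import Pool.Agent.V5helper74.SR.E11

/-! Double curves passing through few triple points. -/

namespace Pool.Agent.V5helper74.SR

open Pool.Agent.Y468.SR
open Pool.Agent.Y874.TP (NullV Tri TC word4 passes_append' TC_cons TC_nil sep mem_code colour)
open Pool.Agent.R800.BT (Bad Hts)

variable {D : Code} {Ts : List Tri} {m : ℕ → ℕ} {T T' : Tri} {l : List Tri}

/-- the colour of a double curve -/
def cl (T : Tri) (y : Lt) : ℕ := colour (pt T y false)

/-- each double curve passes through one triple point only, or at most twice through triple points,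
the two sheets of the curve being different -/
def Tame (Ts : List Tri) : Prop :=
  ∀ k, (Ts.filter fun T => decide (k ∈ T.cols)).length ≤ 1 ∨
    (k % 2 = 1 ∧ (Ts.flatMap Tri.cols).count k ≤ 2)

theorem Tame.perm {Ts' : List Tri} (hp : Ts.Perm Ts') (h : Tame Ts) : Tame Ts' := by
  intro k
  rcases h k with h | ⟨h1, h2⟩
  · left
    rw [← (hp.filter _).length_eq]
    exact h
  · right
    refine ⟨h1, ?_⟩
    rw [← (hp.flatMap_right _).count_eq]
    exact h2

theorem Tame.tail (h : Tame (T :: l)) : Tame l := by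
  intro k
  rcases h k with h | ⟨h1, h2⟩
  · left
    rw [List.filter_cons] at h
    split_ifs at h
    · rw [List.length_cons] at h; omega
    · exact h
  · right
    rw [List.flatMap_cons, List.count_append] at h2
    exact ⟨h1, by omega⟩

theorem mem_cols {y : Lt} : cl T y ∈ T.cols := by
  cases y <;> simp [cl, pt, Tri.cols]

theorem count_cols (k : ℕ) : T.cols.count k = (if cl T .A = k then 1 else 0) +
    (if cl T .B = k then 1 else 0) + (if cl T .C = k then 1 else 0) := by
  simp only [Tri.cols, cl, pt, List.count_cons, List.count_nil, beq_iff_eq]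
  by_cases a : colour T.a₁ = k <;> by_cases b : colour T.b₁ = k <;>
    by_cases c : colour T.c₁ = k <;> simp [a, b, c]

theorem count_pos (y : Lt) : 1 ≤ T.cols.count (cl T y) := List.count_pos_iff.2 mem_cols

theorem count_one {y z : Lt} (h : T.cols.count (cl T y) ≤ 1) (he : cl T z = cl T y) : z = y := by
  rw [count_cols] at h
  cases y <;> cases z <;> simp only [reduceCtorEq] <;> simp [he] at h <;> split_ifs at h <;> omega

theorem Tame.pair (h : Tame (T :: T' :: l)) {y w : Lt} (he : cl T' w = cl T y) :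
    cl T y % 2 = 1 ∧ (∀ z, cl T z = cl T y → z = y) ∧ (∀ z, cl T' z = cl T y → z = w) ∧
      ∀ S ∈ l, ∀ z, cl S z ≠ cl T y := by
  rcases h (cl T y) with h | ⟨h1, h2⟩
  · exfalso
    rw [List.filter_cons, List.filter_cons, if_pos (by simpa using mem_cols),
      if_pos (by rw [← he]; simpa using mem_cols)] at h
    simp only [List.length_cons] at h
    omega
  · rw [List.flatMap_cons, List.flatMap_cons, List.count_append, List.count_append] at h2
    have c1 := count_pos (T := T) y
    have c2 := count_pos (T := T') w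
    rw [he] at c2
    refine ⟨h1, fun z hz => count_one (by omega) hz, fun z hz => count_one (by rw [he]; omega)
      (by rw [hz, he]), fun S hS z hz => ?_⟩
    have h3 : (l.flatMap Tri.cols).count (cl T y) = 0 := by omega
    rw [List.count_eq_zero] at h3
    exact h3 (List.mem_flatMap.2 ⟨S, hS, by rw [← hz]; exact mem_cols⟩)

/-- the state with colours -/
structure GS (D : Code) (Ts : List Tri) (m : ℕ → ℕ) : Prop extends St D Ts m where
  col : ∀ T ∈ Ts, ∀ y, colour (pt T y true) = cl T y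
  cmp : ∀ T ∈ Ts, ∀ y i, colour (m (pt T y i)) = cl T y
  cmo : ∀ T ∈ Ts, ∀ y i, cl T y % 2 = 1 → m (pt T y i) ≠ pt T y i
  tame : Tame Ts

theorem GS.perm {Ts' : List Tri} (hp : Ts.Perm Ts') (h : GS D Ts m) : GS D Ts' m where
  toSt := h.toSt.permT hp
  col := fun T hT => h.col T (hp.mem_iff.2 hT)
  cmp := fun T hT => h.cmp T (hp.mem_iff.2 hT)
  cmo := fun T hT => h.cmo T (hp.mem_iff.2 hT)
  tame := h.tame.perm hp

theorem GS.cpt (h : GS D Ts m) (hT : T ∈ Ts) (y : Lt) (i : Bool) : colour (pt T y i) = cl T y := by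
  cases i
  · rfl
  · exact h.col T hT y

/-- the crossings of one colour at the triple points and those matched with them -/
def Ks (Ts : List Tri) (m : ℕ → ℕ) (k : ℕ) (c : ℕ) : Prop :=
  colour c = k ∧ (onD (TC Ts) c ∨ onD (TC Ts) (m c))

theorem on_iff {c : ℕ} : onD (TC Ts) c ↔ ∃ T ∈ Ts, ∃ y i, c = pt T y i := by
  rw [onD_TC]
  constructor
  · rintro ⟨T, hT, hc⟩
    obtain ⟨y, i, e⟩ := names_pt.1 hc
    exact ⟨T, hT, y, i, e.symm⟩
  · rintro ⟨T, hT, y, i, rfl⟩
    exact ⟨T, hT, pt_names T y i⟩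

theorem GS.colour_m (h : GS D Ts m) {k c : ℕ} (hc : onD (D ++ TC Ts) c) (hk : Ks Ts m k c) :
    Ks Ts m k (m c) := by
  obtain ⟨h1, h2⟩ := hk
  refine ⟨?_, ?_⟩
  · rcases h2 with h2 | h2
    · obtain ⟨T, hT, y, i, rfl⟩ := on_iff.1 h2
      rw [h.cmp T hT y i, ← h.cpt hT y i, h1]
    · obtain ⟨T, hT, y, i, e⟩ := on_iff.1 h2
      have := h.cmp T hT y i
      rw [← e, h.m_m hc, h1] at this
      rw [e, h.cpt hT y i, this]
  · rw [h.m_m hc]; exact h2.symm

theorem GS.clo (h : GS D Ts m) (k : ℕ) : Clo D Ts m (Ks Ts m k) where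
  mm := fun _ hc hk => h.colour_m hc hk
  op := by
    rintro T hT y i ⟨h1, -⟩
    refine ⟨?_, Or.inl (on_iff.2 ⟨T, hT, y, _, rfl⟩)⟩
    rw [h.cpt hT] at h1 ⊢
    exact h1

theorem GS.nofix (h : GS D Ts m) {k c : ℕ} (hc : onD (D ++ TC Ts) c) (hk : Ks Ts m k c)
    (he : m c = c) : ∃ T ∈ Ts, ∃ y i, c = pt T y i ∧ cl T y = k ∧ m (pt T y i) = pt T y i ∧
      k % 2 = 0 := by
  obtain ⟨h1, h2⟩ := hk
  rw [he, or_self] at h2
  obtain ⟨T, hT, y, i, rfl⟩ := on_iff.1 h2
  rw [h.cpt hT] at h1
  refine ⟨T, hT, y, i, rfl, h1, he, ?_⟩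
  by_contra h3
  exact h.cmo T hT y i (by omega) he

theorem GS.ks_pt (h : GS D Ts m) (hT : T ∈ Ts) (y : Lt) (i : Bool) (k : ℕ) :
    Ks Ts m k (pt T y i) ↔ cl T y = k := by
  unfold Ks
  rw [h.cpt hT]
  exact ⟨fun h => h.1, fun e => ⟨e, Or.inl (on_iff.2 ⟨T, hT, y, i, rfl⟩)⟩⟩

theorem pr_inj : ∀ y w : Lt, (∀ o, (pr y o).2 = (pr w o).2) → y = w := by
  intro y w h
  have h1 := h true
  have h2 := h false
  cases y <;> cases w <;> simp [pr] at h1 h2 ⊢

theorem pr_surj (y z : Lt) (h : z ≠ y) : ∃ o, (pr y o).1 = z := by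
  cases y <;> cases z <;> first
    | exact absurd rfl h
    | exact ⟨true, rfl⟩
    | exact ⟨false, rfl⟩

/-- a closed double curve through two triple points: all three double curves are joined -/
theorem GS.pairlem (h : GS D (T :: T' :: l) m) (hn : (D.map Prod.snd).Nodup) {y w : Lt}
    (hc : ∀ i, ∃ j, m (pt T y i) = pt T' w j) :
    et T' = (!et T) ∧ ∀ z, cl T' z = cl T z ∧ ∃ i j, m (pt T z i) = pt T' z j := by
  have hT : T ∈ T :: T' :: l := by simp
  have hT' : T' ∈ T :: T' :: l := by simp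
  have hne : ∀ y z i j, pt T y i ≠ pt T' z j := fun y z i j => h.ne (by simp) y z i j
  have key : ∀ o, cl T' (pr w o).1 = cl T (pr y o).1 ∧ (pr w o).2 = (pr y o).2 := by
    intro o
    have hF := (h.F4 hn hc o).2
    set z := (pr y o).1
    set z' := (pr w o).1
    have h1 := hF _ (fl_indb h.toSt (h.clo (cl T z)))
    have e : cl T' z' = cl T z := by
      by_contra hne'
      have k1 : Ks (T :: T' :: l) m (cl T z) (pt T z false) := (h.ks_pt hT z false _).2 rfl
      have k2 : ¬Ks (T :: T' :: l) m (cl T z) (pt T' z' false) :=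
        fun k => hne' ((h.ks_pt hT' z' false _).1 k)
      unfold indb at h1
      rw [if_pos k1, if_neg k2] at h1
      exact absurd h1 (by norm_num)
    refine ⟨e, ?_⟩
    obtain ⟨p1, -⟩ := h.tame.pair e
    have h2 := hF _ (fl_ind h.toSt (h.clo (cl T z)) (fun c hc hk he => by
      obtain ⟨-, -, -, -, -, -, -, h3⟩ := h.nofix hc hk he
      omega) (pr y o).2)
    have k1 : Ks (T :: T' :: l) m (cl T z) (pt T z false) := (h.ks_pt hT z false _).2 rfl
    unfold ind at h2
    rw [if_pos ⟨k1, rfl⟩] at h2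
    by_contra h3
    rw [if_neg (fun h => h3 h.2)] at h2
    exact absurd h2 (by norm_num)
  have hyw : y = w := pr_inj y w fun o => ((key o).2).symm
  subst hyw
  refine ⟨(h.F4 hn hc true).1 rfl, fun z => ?_⟩
  by_cases hz : z = y
  · subst hz
    obtain ⟨j, hj⟩ := hc false
    refine ⟨?_, false, j, hj⟩
    rw [← h.cpt hT' z j, ← hj, h.cmp T hT]
  · obtain ⟨o, ho⟩ := pr_surj y z hz
    have e := (key o).1
    rw [ho] at e
    refine ⟨e, ?_⟩
    by_contra hno
    push Not at hno
    obtain ⟨p1, p2, p3, p4⟩ := h.tame.pair e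
    set K : ℕ → Prop := fun c => ∃ i, c = pt T z i ∨ c = m (pt T z i) with hKd
    have hK : Clo D (T :: T' :: l) m K := by
      refine ⟨?_, ?_⟩
      · rintro c - ⟨i, rfl | rfl⟩
        · exact ⟨i, Or.inr rfl⟩
        · exact ⟨i, Or.inl (h.m_pt hT z i)⟩
      · rintro S hS x i ⟨j, e' | e'⟩
        · rcases List.mem_cons.1 hS with rfl | hS
          · obtain ⟨rfl, -⟩ := h.pt_inj hT e'
            exact ⟨_, Or.inl rfl⟩
          · exact absurd e'.symm (h.ne hS _ _ _ _)
        · have hx : cl S x = cl T z := by rw [← h.cpt hS x i, e', h.cmp T hT]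
          rcases List.mem_cons.1 hS with rfl | hS
          · obtain rfl := p2 x hx
            exact ⟨_, Or.inl rfl⟩
          · rcases List.mem_cons.1 hS with rfl | hS
            · obtain rfl := p3 x hx
              exact absurd e'.symm (hno j i)
            · exact absurd hx (p4 S hS x)
    have hN : ∀ c, onD (D ++ TC (T :: T' :: l)) c → K c → m c ≠ c := by
      rintro c hc' ⟨i, rfl | rfl⟩ he
      · exact h.cmo T hT z i p1 he
      · rw [h.m_pt hT] at he
        exact h.cmo T hT z i p1 he.symm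
    have h2 := (h.F4 hn hc o).2 _ (fl_ind h.toSt hK hN (pr y o).2)
    rw [ho] at h2
    unfold ind at h2
    rw [if_pos ⟨⟨false, Or.inl rfl⟩, rfl⟩, if_neg] at h2
    · exact absurd h2 (by norm_num)
    · rintro ⟨⟨i, e' | e'⟩, -⟩
      · exact hne _ _ _ _ e'.symm
      · exact hno i false e'.symm

end Pool.Agent.V5helper74.SR
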