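import Pool.Agent.V5helper74.SR.E1
import Pool.Agent.Y759.TP2.Inst
import Pool.Agent.Y761.TP2.Flow
import Pool.Agent.R800.BT.Step

/-! Pictures of diagrams with triple points, without colours. -/

namespace Pool.Agent.V5helper74.SR

open Pool.Agent.Y874.TP2 (CycL om part sg)

namespace Pq

variable {X : Type} {P : Pq X}

/-- a crossing with an outer dart of both strands -/
def LF (P : Pq X) (q : List X) : Prop := ∃ x₀ x₁ x₂ x₃, q = [x₀, x₁, x₂, x₃] ∧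
  (P.σ x₀ ∈ P.B.flatten ∨ P.σ x₂ ∈ P.B.flatten) ∧ (P.σ x₁ ∈ P.B.flatten ∨ P.σ x₃ ∈ P.B.flatten)

/-- `a` and `b` are outer darts, `b` follows `a` -/
def Adj (P : Pq X) (q : List X) (a b : X) : Prop :=
  CycL a b q ∧ P.σ a ∈ P.B.flatten ∧ P.σ b ∈ P.B.flatten

theorem adj_cor (hG : P.Good) {q : List X} (hq : q ∈ P.Q) {a b : X} (h : P.Adj q a b) (hab : a ≠ b) :
    P.Cor (P.σ b) (P.σ a) ∧ P.σ b ≠ P.σ a ∧ P.Cq (P.σ b) q ∧ P.Cq (P.σ a) q := by
  obtain ⟨h1, h2, h3⟩ := h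
  obtain ⟨ma, mb⟩ := cycL_mem h1
  have e1 : P.σ (P.σ a) = a := hG.invσ a (dartQ hq ma)
  have e2 : P.σ (P.σ b) = b := hG.invσ b (dartQ hq mb)
  refine ⟨⟨h3, h2, q, hq, by rw [e1, e2]; exact h1⟩, fun h => hab (by rw [← e1, ← h, e2]),
    cq_base hG h3 hq (by rw [e2]; exact mb), cq_base hG h2 hq (by rw [e1]; exact ma)⟩

theorem LF.adj (hG : P.Good) {q : List X} (hq : q ∈ P.Q) (h : P.LF q) :
    ∃ a b, P.Adj q a b ∧ a ≠ b := by
  have hn := hG.nodupQ hq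
  obtain ⟨x₀, x₁, x₂, x₃, rfl, h1, h2⟩ := h
  simp only [List.nodup_cons, List.mem_cons, List.not_mem_nil, or_false, not_or,
    not_false_eq_true, List.nodup_nil, and_true] at hn
  obtain ⟨⟨n1, n2, n3⟩, ⟨n4, n5⟩, n6⟩ := hn
  have c1 : CycL x₀ x₁ [x₀, x₁, x₂, x₃] := Or.inl ⟨[], _, rfl⟩
  have c2 : CycL x₁ x₂ [x₀, x₁, x₂, x₃] := Or.inl ⟨[x₀], _, rfl⟩
  have c3 : CycL x₂ x₃ [x₀, x₁, x₂, x₃] := Or.inl ⟨[x₀, x₁], _, rfl⟩
  have c4 : CycL x₃ x₀ [x₀, x₁, x₂, x₃] := Or.inr ⟨[x₁, x₂], rfl⟩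
  rcases h1 with h1 | h1 <;> rcases h2 with h2 | h2
  · exact ⟨x₀, x₁, ⟨c1, h1, h2⟩, n1⟩
  · exact ⟨x₃, x₀, ⟨c4, h2, h1⟩, Ne.symm n3⟩
  · exact ⟨x₁, x₂, ⟨c2, h2, h1⟩, n4⟩
  · exact ⟨x₂, x₃, ⟨c3, h1, h2⟩, n6⟩

/-- all outer darts -/
theorem LF.adj2 (hG : P.Good) {q : List X} (hq : q ∈ P.Q) (h : P.LF q)
    (hall : ∀ a ∈ q, P.σ a ∈ P.B.flatten) :
    ∃ a b c, P.Adj q a b ∧ P.Adj q b c ∧ a ≠ b ∧ b ≠ c := by
  have hn := hG.nodupQ hq
  obtain ⟨x₀, x₁, x₂, x₃, rfl, h1, h2⟩ := h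
  simp only [List.nodup_cons, List.mem_cons, List.not_mem_nil, or_false, not_or,
    not_false_eq_true, List.nodup_nil, and_true] at hn
  obtain ⟨⟨n1, n2, n3⟩, ⟨n4, n5⟩, n6⟩ := hn
  have c1 : CycL x₀ x₁ [x₀, x₁, x₂, x₃] := Or.inl ⟨[], _, rfl⟩
  have c2 : CycL x₁ x₂ [x₀, x₁, x₂, x₃] := Or.inl ⟨[x₀], _, rfl⟩
  exact ⟨x₀, x₁, x₂, ⟨c1, hall _ (by simp), hall _ (by simp)⟩,
    ⟨c2, hall _ (by simp), hall _ (by simp)⟩, n1, n4⟩

/-- two corners -/
theorem two_at (hG : P.Good) {x : X} (hx : x ∈ P.B.flatten) {q : List X} (hq : q ∈ P.Q)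
    (hxq : P.σ x ∈ q) (h : P.LF q) (hl : ∀ a ∈ q, P.σ a ∉ q)
    (hn : ∀ q' ∈ P.Q, (∃ a ∈ q, P.σ a ∈ q') → P.LF q') :
    ∃ p₁ r₁ p₂ r₂, P.Cor p₁ r₁ ∧ P.Cor p₂ r₂ ∧ p₁ ≠ r₁ ∧ p₂ ≠ r₂ ∧ ¬(p₁ = p₂ ∧ r₁ = r₂) ∧
    P.Conn x p₁ ∧ P.Conn x r₁ ∧ P.Conn x p₂ ∧ P.Conn x r₂ := by
  have cx := cq_base hG hx hq hxq
  by_cases hall : ∀ a ∈ q, P.σ a ∈ P.B.flatten
  · obtain ⟨a, b, c, h1, h2, n1, n2⟩ := h.adj2 hG hq hall
    obtain ⟨k1, k2, k3, k4⟩ := adj_cor hG hq h1 n1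
    obtain ⟨l1, l2, l3, l4⟩ := adj_cor hG hq h2 n2
    exact ⟨_, _, _, _, k1, l1, k2, l2, fun h => k2 h.2.symm, conn_of cx k3, conn_of cx k4,
      conn_of cx l3, conn_of cx l4⟩
  · push Not at hall
    obtain ⟨a, ha, ha'⟩ := hall
    have hd := hG.dartσ a (dartQ hq ha)
    obtain ⟨q', hq', haq'⟩ := List.mem_flatten.1 (hd.resolve_left ha')
    obtain ⟨b, c, h1, n1⟩ := h.adj hG hq
    obtain ⟨b', c', h2, n2⟩ := (hn q' hq' ⟨a, ha, haq'⟩).adj hG hq'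
    obtain ⟨k1, k2, k3, k4⟩ := adj_cor hG hq h1 n1
    obtain ⟨l1, l2, l3, l4⟩ := adj_cor hG hq' h2 n2
    have cx' := cq_step hG hq hq' ha haq' cx
    refine ⟨_, _, _, _, k1, l1, k2, l2, fun h => ?_, conn_of cx k3, conn_of cx k4,
      conn_of cx' l3, conn_of cx' l4⟩
    obtain ⟨mb, mc⟩ := cycL_mem h1.1
    obtain ⟨mb', mc'⟩ := cycL_mem h2.1
    have e : c = c' := by
      rw [← hG.invσ c (dartQ hq mc), h.1, hG.invσ c' (dartQ hq' mc')]
    have : q = q' := hG.uniqQ hq hq' mc (e ▸ mc')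
    exact hl a ha (this ▸ haq')

end Pq

open Pool.Agent.Y468.SR
open Pool.Agent.Y874.TP (NullV Tri TC word4 passes_append' TC_cons TC_nil sep mem_code)
open Pool.Agent.R800.BT (Bad Hts Cr)
open Pool.Agent.Y759.TP2 (flatten_fst part_mem part_invol sg_part)

/-- the picture of a diagram -/
def pcode (D : Code) (Ts : List Tri) (m : ℕ → ℕ) : Pq Pass where
  B := D.map Prod.fst
  Q := (TC Ts).map Prod.fst
  σ := part m

theorem pcode_dart (D : Code) (Ts : List Tri) (m : ℕ → ℕ) (x : Pass) :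
    (pcode D Ts m).dart x ↔ x ∈ passes (D ++ TC Ts) := by
  unfold Pq.dart pcode
  simp only [flatten_fst, passes_append', List.mem_append]

theorem pcode_good {D : Code} {Ts : List Tri} {m : ℕ → ℕ} (hnd : (D.map Prod.snd).Nodup)
    (hwf : WF (passes (D ++ TC Ts))) (hm : Matching (passes (D ++ TC Ts)) m)
    (hnull : NullV (D ++ TC Ts) m) : (pcode D Ts m).Good := by
  have hfl : ∀ f g : Pass → ℤ, (pcode D Ts m).Flow f → (pcode D Ts m).Flow g →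
      (∀ C ∈ D, (C.1.map f).sum = 0) ∧
        ((D ++ TC Ts).map fun C => om f g C.1).sum = 0 := by
    intro f g hf hg
    refine Pool.Agent.Y761.TP2.flow D (TC Ts) m f g hnd hwf hm hnull ?_ ?_
    · intro p hp
      have hp' := (pcode_dart D Ts m p).2 hp
      exact ⟨hf.1 p hp', hg.1 p hp'⟩
    · intro C hC
      have hC' : C.1 ∈ (pcode D Ts m).Q := List.mem_map_of_mem hC
      exact ⟨hf.2 _ hC', hg.2 _ hC'⟩
  refine ⟨?_, ?_, ?_, ?_, ?_, ?_⟩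
  · have h1 : (pcode D Ts m).B.flatten ++ (pcode D Ts m).Q.flatten = passes (D ++ TC Ts) := by
      rw [passes_append']
      exact congrArg₂ _ (flatten_fst D) (flatten_fst (TC Ts))
    rw [h1]
    exact hwf.nodup
  · intro x hx
    rw [pcode_dart] at hx ⊢
    exact part_mem hwf hm hx
  · intro x hx
    rw [pcode_dart] at hx
    exact part_invol hm hx
  · intro x _ h
    have h1 := sg_part m x
    have h2 : part m x = x := h
    rw [h2] at h1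
    unfold sg at h1
    split_ifs at h1 <;> omega
  · intro f hf W hW
    obtain ⟨C, hC, rfl⟩ := List.mem_map.1 hW
    exact (hfl f f hf hf).1 C hC
  · intro f g hf hg
    have h1 := (hfl f g hf hg).2
    have h2 : ((pcode D Ts m).B ++ (pcode D Ts m).Q).map (om f g) =
        (D ++ TC Ts).map fun C => om f g C.1 := by
      rw [List.map_append, List.map_append]
      refine congrArg₂ _ ?_ ?_
      · exact List.map_map
      · exact List.map_map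
    rw [h2]
    exact h1

/-- the names of the crossings of `D` -/
def onD (D : Code) (c : ℕ) : Prop := ∃ p ∈ passes D, p.crossing = c

/-- each double curve through the triple point leads directly to `D` in one direction -/
def Fr (D : Code) (m : ℕ → ℕ) (T : Tri) : Prop :=
  (onD D (m T.a₁) ∨ onD D (m T.a₂)) ∧ (onD D (m T.b₁) ∨ onD D (m T.b₂)) ∧
    (onD D (m T.c₁) ∨ onD D (m T.c₂))

/-- the state -/
structure St (D : Code) (Ts : List Tri) (m : ℕ → ℕ) : Prop where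
  wfD : WF (passes D)
  wf : WF (passes (D ++ TC Ts))
  mt : Matching (passes (D ++ TC Ts)) m
  nv : NullV (D ++ TC Ts) m
  ok : ∀ T ∈ Ts, T.Ok ∧ Hts T

variable {D : Code} {Ts : List Tri} {m : ℕ → ℕ}

theorem mem_TC_of {T : Tri} (hT : T ∈ Ts) {p : Pass} (hp : p ∈ passes T.code) :
    p ∈ passes (TC Ts) := by
  obtain ⟨C, hC, hp⟩ := mem_passes.1 hp
  exact mem_passes.2 ⟨C, List.mem_flatMap.2 ⟨T, hT, hC⟩, hp⟩

theorem St.memE (_h : St D Ts m) {T : Tri} (hT : T ∈ Ts) {p : Pass} (hp : p ∈ passes T.code) :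
    p ∈ passes (D ++ TC Ts) := by
  rw [passes_append']
  exact List.mem_append_right _ (mem_TC_of hT hp)

theorem St.not_onD (h : St D Ts m) {T : Tri} (hT : T ∈ Ts) {c : ℕ} (hc : c ∈ T.names) :
    ¬onD D c := by
  rintro ⟨p, hp, rfl⟩
  obtain ⟨q, hq, h1⟩ := Pool.Agent.Y874.TP.exists_pass hT hc
  exact sep h.wfD h.wf hp hq h1

theorem St.invol (h : St D Ts m) {p : Pass} (hp : p ∈ passes (D ++ TC Ts)) :
    m (m p.crossing) = p.crossing := matching_invol h.mt hp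

/-- an outer dart -/
theorem St.outer (h : St D Ts m) {T : Tri} (hT : T ∈ Ts) {p : Pass} (hp : p ∈ passes T.code)
    (hc : onD D (m p.crossing)) : part m p ∈ ((pcode D Ts m).B).flatten := by
  have h1 : part m p ∈ passes (D ++ TC Ts) := part_mem h.wf h.mt (h.memE hT hp)
  have h2 : (part m p).crossing = m p.crossing := by
    unfold part
    split_ifs with h3
    · exact h3.symm
    · rfl
  rw [passes_append', List.mem_append] at h1
  rcases h1 with h1 | h1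
  · show part m p ∈ (D.map Prod.fst).flatten
    rw [flatten_fst]; exact h1
  · obtain ⟨q, hq, hq'⟩ := hc
    exact absurd (h2.trans hq'.symm) (sep h.wfD h.wf hq h1)

theorem St.nodup (h : St D Ts m) {T : Tri} (hT : T ∈ Ts) :
    [T.a₁, T.a₂, T.b₁, T.b₂, T.c₁, T.c₂].Nodup := by
  refine Pool.Agent.R800.BT.names_nodup ?_ (h.ok T hT).2
  obtain ⟨l₁, l₂, rfl⟩ := List.append_of_mem hT
  have := (WF.perm (passes_perm Pool.Agent.R800.BT.perm_TC) h.wf).2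
  rw [passes_append', List.map_append] at this
  exact (List.nodup_append.1 this).1

theorem word4_LF {P : Pq Pass} {e : Bool} {p₁ p₂ q₁ q₂ : Pass}
    (h1 : P.σ p₁ ∈ P.B.flatten ∨ P.σ p₂ ∈ P.B.flatten)
    (h2 : P.σ q₁ ∈ P.B.flatten ∨ P.σ q₂ ∈ P.B.flatten) : P.LF (word4 e p₁ p₂ q₁ q₂) := by
  cases e
  · exact ⟨p₂, q₂, p₁, q₁, rfl, h1.symm, h2.symm⟩
  · exact ⟨q₂, p₂, q₁, p₁, rfl, h2.symm, h1.symm⟩

theorem mem_word4 {e : Bool} {p₁ p₂ q₁ q₂ x : Pass} :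
    x ∈ word4 e p₁ p₂ q₁ q₂ ↔ x = p₁ ∨ x = p₂ ∨ x = q₁ ∨ x = q₂ := by
  cases e <;> simp only [word4, Bool.false_eq_true, if_false, if_true, List.mem_cons,
    List.not_mem_nil, or_false] <;> tauto

/-- the circles of a free triple point -/
theorem St.lf (h : St D Ts m) {T : Tri} (hT : T ∈ Ts) (hF : Fr D m T) :
    ∀ w ∈ [T.wi, T.wj, T.wk], (pcode D Ts m).LF w := by
  obtain ⟨fa, fb, fc⟩ := hF
  have o : ∀ {p : Pass}, p ∈ passes T.code → onD D (m p.crossing) →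
      (pcode D Ts m).σ p ∈ (pcode D Ts m).B.flatten := fun hp hc => h.outer hT hp hc
  have A : ∀ p ∈ passes T.code, ∀ q ∈ passes T.code, (onD D (m p.crossing) ∨ onD D (m q.crossing)) →
      ((pcode D Ts m).σ p ∈ (pcode D Ts m).B.flatten ∨ (pcode D Ts m).σ q ∈ (pcode D Ts m).B.flatten) :=
    fun p hp q hq h => h.imp (o hp) (o hq)
  intro w hw
  simp only [List.mem_cons, List.not_mem_nil, or_false] at hw
  rcases hw with rfl | rfl | rfl
  · exact word4_LF (A _ (by rw [mem_code]; simp) _ (by rw [mem_code]; simp) fa)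
      (A _ (by rw [mem_code]; simp) _ (by rw [mem_code]; simp) fb)
  · exact word4_LF (A _ (by rw [mem_code]; simp) _ (by rw [mem_code]; simp) fa)
      (A _ (by rw [mem_code]; simp) _ (by rw [mem_code]; simp) fc)
  · exact word4_LF (A _ (by rw [mem_code]; simp) _ (by rw [mem_code]; simp) fb)
      (A _ (by rw [mem_code]; simp) _ (by rw [mem_code]; simp) fc)

end Pool.Agent.V5helper74.SR
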