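import Pool.Agent.V5helper74.SR.E2

/-! The junction lemma for diagrams with free triple points. -/

namespace Pool.Agent.V5helper74.SR

open Pool.Agent.Y874.TP2 (CycL om part sg)
open Pool.Agent.Y468.SR
open Pool.Agent.Y874.TP (NullV Tri TC word4 passes_append' TC_cons TC_nil sep mem_code Cyc)
open Pool.Agent.R800.BT (Bad Hts Cr)
open Pool.Agent.Y759.TP2 (flatten_fst part_mem part_invol sg_part)

variable {D : Code} {Ts : List Tri} {m : ℕ → ℕ}

theorem part_cases (m : ℕ → ℕ) (p : Pass) : (m p.crossing = p.crossing ∧ part m p = p.mate) ∨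
    (m p.crossing ≠ p.crossing ∧ (part m p).crossing = m p.crossing ∧
      (part m p).isOver = p.isOver) := by
  by_cases h : m p.crossing = p.crossing
  · left; exact ⟨h, by unfold part; rw [if_pos h]⟩
  · right
    have : part m p = ⟨m p.crossing, p.isOver, !p.isPos⟩ := by unfold part; rw [if_neg h]
    rw [this]
    exact ⟨h, rfl, rfl⟩

/-- facts about the matching at a free triple point -/
structure Nb (T : Tri) (m : ℕ → ℕ) : Prop where
  a : ∀ x ∈ [T.a₁, T.a₂], m x ≠ x ∧ m x ∉ [T.a₁, T.a₂] ∧ m x ∉ [T.b₁, T.b₂]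
  c : ∀ x ∈ [T.c₁, T.c₂], m x ≠ x ∧ m x ∉ [T.c₁, T.c₂] ∧ m x ∉ [T.b₁, T.b₂]
  b : ∀ x ∈ [T.b₁, T.b₂], m x ∉ [T.a₁, T.a₂] ∧ m x ∉ [T.c₁, T.c₂] ∧ (m x ≠ x → m x ∉ [T.b₁, T.b₂])

theorem St.invol' (h : St D Ts m) {T : Tri} (hT : T ∈ Ts) {c : ℕ} (hc : c ∈ T.names) :
    m (m c) = c := by
  obtain ⟨q, hq, rfl⟩ := Pool.Agent.Y874.TP.exists_pass hT hc
  exact h.invol (by rw [passes_append']; simp [hq])

theorem St.nb (h : St D Ts m) {T : Tri} (hT : T ∈ Ts) (hF : Fr D m T) (hB : ¬Bad T m) : Nb T m := by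
  have hnd := h.nodup hT
  have key : ∀ x y : ℕ, x ∈ T.names → y ∈ T.names → (onD D (m x) ∨ onD D (m y)) →
      m x ≠ y ∧ m y ≠ x := by
    intro x y hx hy hh
    have ix := h.invol' hT hx
    have iy := h.invol' hT hy
    rcases hh with hh | hh
    · refine ⟨fun e => h.not_onD hT hy (e ▸ hh), fun e => h.not_onD hT hy ?_⟩
      rw [← e, iy] at hh; exact hh
    · refine ⟨fun e => h.not_onD hT hx ?_, fun e => h.not_onD hT hx (e ▸ hh)⟩
      rw [← e, ix] at hh; exact hh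
  have na : ∀ {x}, x ∈ [T.a₁, T.a₂] → x ∈ T.names := by
    intro x hx; simp only [Tri.names, List.mem_cons, List.not_mem_nil, or_false] at hx ⊢; tauto
  have nb : ∀ {x}, x ∈ [T.b₁, T.b₂] → x ∈ T.names := by
    intro x hx; simp only [Tri.names, List.mem_cons, List.not_mem_nil, or_false] at hx ⊢; tauto
  have nc : ∀ {x}, x ∈ [T.c₁, T.c₂] → x ∈ T.names := by
    intro x hx; simp only [Tri.names, List.mem_cons, List.not_mem_nil, or_false] at hx ⊢; tauto
  obtain ⟨fa, fb, fc⟩ := hF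
  have ka := key _ _ (na (by simp)) (na (by simp)) fa
  have kb := key _ _ (nb (by simp)) (nb (by simp)) fb
  have kc := key _ _ (nc (by simp)) (nc (by simp)) fc
  have ba : ∀ x ∈ [T.a₁, T.a₂], m x ≠ x ∧ m x ∉ [T.b₁, T.b₂] := fun x hx =>
    ⟨fun e => hB (Or.inl ⟨x, hx, Or.inl e⟩), fun e => hB (Or.inl ⟨x, hx, Or.inr e⟩)⟩
  have bc : ∀ x ∈ [T.c₁, T.c₂], m x ≠ x ∧ m x ∉ [T.b₁, T.b₂] := fun x hx =>
    ⟨fun e => hB (Or.inr ⟨x, hx, Or.inl e⟩), fun e => hB (Or.inr ⟨x, hx, Or.inr e⟩)⟩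
  refine ⟨fun x hx => ⟨(ba x hx).1, ?_, (ba x hx).2⟩, fun x hx => ⟨(bc x hx).1, ?_, (bc x hx).2⟩,
    fun x hx => ⟨fun e => ?_, fun e => ?_, fun hne => ?_⟩⟩
  · have := (ba x hx).1
    simp only [List.mem_cons, List.not_mem_nil, or_false] at hx ⊢
    rcases hx with rfl | rfl
    · rintro (e | e)
      · exact this e
      · exact ka.1 e
    · rintro (e | e)
      · exact ka.2 e
      · exact this e
  · have := (bc x hx).1
    simp only [List.mem_cons, List.not_mem_nil, or_false] at hx ⊢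
    rcases hx with rfl | rfl
    · rintro (e | e)
      · exact this e
      · exact kc.1 e
    · rintro (e | e)
      · exact kc.2 e
      · exact this e
  · exact (ba _ e).2 (by rw [h.invol' hT (nb hx)]; exact hx)
  · exact (bc _ e).2 (by rw [h.invol' hT (nb hx)]; exact hx)
  · simp only [List.mem_cons, List.not_mem_nil, or_false] at hx ⊢
    rcases hx with rfl | rfl
    · rintro (e | e)
      · exact hne e
      · exact kb.1 e
    · rintro (e | e)
      · exact kb.2 e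
      · exact hne e

theorem no_loop {T : Tri} (hd : [T.a₁, T.a₂, T.b₁, T.b₂, T.c₁, T.c₂].Nodup) (ht : Hts T)
    (hN : Nb T m) : ∀ w ∈ [T.wi, T.wj, T.wk], ∀ p ∈ w, part m p ∉ w := by
  obtain ⟨t1, t2, t3⟩ := ht
  obtain ⟨ha, hc, hb⟩ := hN
  simp only [List.nodup_cons, List.mem_cons, List.not_mem_nil, or_false, not_or,
    not_false_eq_true, List.nodup_nil, and_true] at hd
  simp only [List.mem_cons, List.not_mem_nil, or_false, not_or, forall_eq_or_imp, forall_eq] at ha hb hc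
  obtain ⟨⟨a1, a2, a3, a4, a5⟩, ⟨b1, b2, b3, b4⟩, ⟨c1, c2, c3⟩, ⟨d1, d2⟩, e1⟩ := hd
  have cw : ∀ {x p : Pass}, x = p → x.crossing = p.crossing ∧ x.isOver = p.isOver :=
    fun h => by rw [h]; exact ⟨rfl, rfl⟩
  intro w hw p hp hp'
  simp only [List.mem_cons, List.not_mem_nil, or_false] at hw
  rcases hw with rfl | rfl | rfl
  · have g : ∀ x, x ∈ T.wi → x.isOver = true ∧ (x.crossing = T.a₁ ∨ x.crossing = T.a₂ ∨
        x.crossing = T.b₁ ∨ x.crossing = T.b₂) := by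
      intro x hx
      unfold Tri.wi at hx
      rw [mem_word4] at hx
      rcases hx with rfl | rfl | rfl | rfl
      · exact ⟨t1, Or.inl rfl⟩
      · exact ⟨t1, Or.inr (Or.inl rfl)⟩
      · exact ⟨t2, Or.inr (Or.inr (Or.inl rfl))⟩
      · exact ⟨t2, Or.inr (Or.inr (Or.inr rfl))⟩
    obtain ⟨g1, g2⟩ := g p hp
    obtain ⟨g3, g4⟩ := g _ hp'
    rcases part_cases m p with ⟨k1, k2⟩ | ⟨k1, k2, k3⟩
    · rw [k2] at g3
      change (!p.isOver) = true at g3
      rw [g1] at g3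
      exact absurd g3 (by simp)
    · rw [k2] at g4
      rcases g2 with e | e | e | e <;> rw [e] at g4 k1 <;> tauto
  · have g : ∀ x, x ∈ T.wj → (x.isOver = false ∧ (x.crossing = T.a₁ ∨ x.crossing = T.a₂)) ∨
        (x.isOver = true ∧ (x.crossing = T.c₁ ∨ x.crossing = T.c₂)) := by
      intro x hx
      unfold Tri.wj at hx
      rw [mem_word4] at hx
      rcases hx with rfl | rfl | rfl | rfl
      · exact Or.inl ⟨by show (!T.ta) = false; rw [t1]; rfl, Or.inl rfl⟩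
      · exact Or.inl ⟨by show (!T.ta) = false; rw [t1]; rfl, Or.inr rfl⟩
      · exact Or.inr ⟨t3, Or.inl rfl⟩
      · exact Or.inr ⟨t3, Or.inr rfl⟩
    have g1 := g p hp
    have g2 := g _ hp'
    rcases part_cases m p with ⟨k1, k2⟩ | ⟨k1, k2, k3⟩
    · rcases g1 with ⟨-, e | e⟩ | ⟨-, e | e⟩ <;> rw [e] at k1 <;> tauto
    · rw [k2, k3] at g2
      rcases g1 with ⟨o, e⟩ | ⟨o, e⟩
      · rw [o] at g2
        rcases g2 with ⟨-, g2⟩ | ⟨g2, -⟩
        · rcases e with e | e <;> rw [e] at g2 k1 <;> tauto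
        · exact absurd g2 (by simp)
      · rw [o] at g2
        rcases g2 with ⟨g2, -⟩ | ⟨-, g2⟩
        · exact absurd g2 (by simp)
        · rcases e with e | e <;> rw [e] at g2 k1 <;> tauto
  · have g : ∀ x, x ∈ T.wk → x.isOver = false ∧ (x.crossing = T.b₁ ∨ x.crossing = T.b₂ ∨
        x.crossing = T.c₁ ∨ x.crossing = T.c₂) := by
      intro x hx
      unfold Tri.wk at hx
      rw [mem_word4] at hx
      rcases hx with rfl | rfl | rfl | rfl
      · exact ⟨by show (!T.tb) = false; rw [t2]; rfl, Or.inl rfl⟩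
      · exact ⟨by show (!T.tb) = false; rw [t2]; rfl, Or.inr (Or.inl rfl)⟩
      · exact ⟨by show (!T.tc) = false; rw [t3]; rfl, Or.inr (Or.inr (Or.inl rfl))⟩
      · exact ⟨by show (!T.tc) = false; rw [t3]; rfl, Or.inr (Or.inr (Or.inr rfl))⟩
    obtain ⟨g1, g2⟩ := g p hp
    obtain ⟨g3, g4⟩ := g _ hp'
    rcases part_cases m p with ⟨k1, k2⟩ | ⟨k1, k2, k3⟩
    · rw [k2] at g3
      change (!p.isOver) = false at g3
      rw [g1] at g3
      exact absurd g3 (by simp)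
    · rw [k2] at g4
      rcases g2 with e | e | e | e <;> rw [e] at g4 k1 <;> tauto

theorem mem_Q {w : List Pass} (hw : w ∈ (pcode D Ts m).Q) : ∃ T ∈ Ts, w ∈ [T.wi, T.wj, T.wk] := by
  obtain ⟨C, hC, rfl⟩ := List.mem_map.1 hw
  obtain ⟨T, hT, hC⟩ := List.mem_flatMap.1 hC
  refine ⟨T, hT, ?_⟩
  simp only [Tri.code, List.mem_cons, List.not_mem_nil, or_false] at hC ⊢
  rcases hC with rfl | rfl | rfl <;> simp

/-- neighbouring passages which cancel or belong to a corner -/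
def Jn (D : Code) (Ts : List Tri) (m : ℕ → ℕ) : Prop :=
  ∃ C ∈ D, ∃ a c p r, C.1 = a ++ p :: r :: c ∧
    (Canc m p r ∨ ∃ T ∈ Ts, ∃ W ∈ [T.wi, T.wj, T.wk], ∃ p' r' : Pass, Cyc r' p' W ∧
      p'.crossing = m p.crossing ∧ p'.isOver = p.isOver ∧
      r'.crossing = m r.crossing ∧ r'.isOver = r.isOver)

theorem St.junc_of (h : St D Ts m) (hn : (D.map Prod.snd).Nodup) (hD : passes D ≠ [])
    (hT : (pcode D Ts m).Two) : Jn D Ts m := by
  have hG := pcode_good hn h.wf h.mt h.nv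
  have hex : ∃ W ∈ (pcode D Ts m).B, W ≠ [] := by
    obtain ⟨p, hp⟩ := List.exists_mem_of_ne_nil _ hD
    obtain ⟨C, hC, hp⟩ := mem_passes.1 hp
    exact ⟨C.1, List.mem_map_of_mem hC, List.ne_nil_of_mem hp⟩
  obtain ⟨W, hWm, A, x, y, C', e, hh⟩ := Pq.junc hG hT hex
  obtain ⟨C, hC, rfl⟩ := List.mem_map.1 hWm
  refine ⟨C, hC, A, C', x, y, e, ?_⟩
  have hxD : x ∈ passes D := mem_passes.2 ⟨C, hC, by rw [e]; simp⟩
  have hyD : y ∈ passes D := mem_passes.2 ⟨C, hC, by rw [e]; simp⟩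
  rcases hh with hh | ⟨q, hq, hh⟩
  · left
    have h' : part m x = y := hh
    unfold part at h'
    split_ifs at h' with hm
    · left
      exact ⟨hm, by rw [← h']; rfl, by rw [← h']; rfl⟩
    · right
      exact ⟨hm, by rw [← h'], by rw [← h']⟩
  · right
    have hmem : ∀ p : Pass, p ∈ passes D → part m p ∈ q →
        (part m p).crossing = m p.crossing ∧ (part m p).isOver = p.isOver := by
      intro p hp hpq
      rcases part_cases m p with ⟨k1, k2⟩ | ⟨-, k2⟩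
      · exfalso
        obtain ⟨Cq, hCq, rfl⟩ := List.mem_map.1 hq
        have h1 : p.mate ∈ passes (TC Ts) := mem_passes.2 ⟨Cq, hCq, by rw [← k2]; exact hpq⟩
        exact sep h.wfD h.wf (h.wfD.1 p hp) h1 rfl
      · exact k2
    obtain ⟨m1, m2⟩ := Pq.cycL_mem hh
    obtain ⟨c1, c2⟩ := hmem x hxD m2
    obtain ⟨c3, c4⟩ := hmem y hyD m1
    obtain ⟨T, hT, hw⟩ := mem_Q hq
    exact ⟨T, hT, q, hw, part m x, part m y, hh, c1, c2, c3, c4⟩

/-- all triple points are free and cannot be removed -/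
theorem St.two (h : St D Ts m) (hn : (D.map Prod.snd).Nodup)
    (hF : ∀ T ∈ Ts, Fr D m T ∧ ¬Bad T m) : (pcode D Ts m).Two := by
  have hG := pcode_good hn h.wf h.mt h.nv
  intro x hx hx'
  have hd := hG.dartσ x (Or.inl hx)
  obtain ⟨q, hq, hxq⟩ := List.mem_flatten.1 (hd.resolve_left hx')
  obtain ⟨T, hT, hw⟩ := mem_Q hq
  refine Pq.two_at hG hx hq hxq (h.lf hT (hF T hT).1 q hw)
    (no_loop (h.nodup hT) (h.ok T hT).2 (h.nb hT (hF T hT).1 (hF T hT).2) q hw) fun q' hq' _ => ?_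
  obtain ⟨T', hT', hw'⟩ := mem_Q hq'
  exact h.lf hT' (hF T' hT').1 q' hw'

end Pool.Agent.V5helper74.SR
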