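import Pool.Agent.V5helper74.SR.E3
import Pool.Agent.Y874.TP2.Reid
import Pool.Agent.Y220.TP.Cut

/-! Cancelling crossings and cutting, without colours and with a given matching. -/

namespace Pool.Agent.V5helper74.SR

open Pool.Agent.Y468.SR
open Pool.Agent.Y874.TP (NullV passes_append')

variable {m : ℕ → ℕ}

open Function in
theorem one_down {E E' : List (Pass ⊕ ℕ)} {c : ℕ}
    (hE : ∀ r, r ∈ pl E → r.crossing = c ∨ r ∈ pl E') (hsub : ∀ r ∈ pl E', r ∈ pl E)
    (hfr : ∀ r ∈ pl E', r.crossing ≠ c)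
    (hev : ∀ (G : Type) [Group G] (o u : ℕ → G), u c = (o c)⁻¹ → ev o u E 1 = ev o u E' 1)
    (hec : m c = c) (hm : Matching (pl E) m) (hn : NullE E m) :
    Matching (pl E') m ∧ NullE E' m := by
  refine ⟨?_, ?_⟩
  · intro r hr
    obtain ⟨q, hq, h1, h2, h3⟩ := hm r (hsub r hr)
    refine ⟨q, ?_, h1, h2, h3⟩
    refine (hE q hq).resolve_left fun hqc => ?_
    rw [hqc, hec] at h2
    exact hfr r hr h2.symm
  · intro G _ o u hv b
    have hagree : ∀ r ∈ pl E', val o u r = val (update o c 1) (update u c 1) r := by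
      intro r hr
      simp [val, hfr r hr]
    rw [ev_congr E' hagree, ← hev G (update o c 1) (update u c 1) (by simp)]
    refine hn G _ _ (fun r hr => ?_) b
    by_cases hrc : r.crossing = c
    · rw [hrc, hec]; simp
    · have hr' := (hE r hr).resolve_left hrc
      have hmr : m r.crossing ≠ c := by
        intro h
        obtain ⟨q, hq, h1, h2, -⟩ := hm r hr
        rw [h1, h, hec] at h2
        exact hrc h2.symm
      have := hv r hr'
      simpa [hrc, hmr] using this

open Function in
theorem two_down {E E' : List (Pass ⊕ ℕ)} {c d : ℕ} (hcd : c ≠ d)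
    (hE : ∀ r, r ∈ pl E → r.crossing = c ∨ r.crossing = d ∨ r ∈ pl E')
    (hsub : ∀ r ∈ pl E', r ∈ pl E)
    (hfc : ∀ r ∈ pl E', r.crossing ≠ c) (hfd : ∀ r ∈ pl E', r.crossing ≠ d)
    (hev : ∀ (G : Type) [Group G] (o u : ℕ → G), o d = (o c)⁻¹ → u d = (u c)⁻¹ →
      ev o u E 1 = ev o u E' 1)
    (he : m c = d) (hf : m d = c) (hm : Matching (pl E) m) (hn : NullE E m) :
    Matching (pl E') m ∧ NullE E' m := by
  have hin : ∀ r, r ∈ pl E → r.crossing ≠ c → r.crossing ≠ d → r ∈ pl E' := fun r hr h1 h2 =>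
    ((hE r hr).resolve_left h1).resolve_left h2
  have hoff : ∀ r ∈ pl E, r.crossing ≠ d → m r.crossing ≠ c := by
    intro r hr h h'
    obtain ⟨q, hq, h1, h2, -⟩ := hm r hr
    rw [h1, h', he] at h2
    exact h h2.symm
  have hoff' : ∀ r ∈ pl E, r.crossing ≠ c → m r.crossing ≠ d := by
    intro r hr h h'
    obtain ⟨q, hq, h1, h2, -⟩ := hm r hr
    rw [h1, h', hf] at h2
    exact h h2.symm
  refine ⟨?_, Pool.Agent.Y874.TP2.RD.invC_two_aux hfc hfd hev hn ?_ hcd⟩
  · intro r hr
    obtain ⟨q, hq, h1, h2, h3⟩ := hm r (hsub r hr)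
    refine ⟨q, hin q hq ?_ ?_, h1, h2, h3⟩
    · rw [h1]; exact hoff r (hsub r hr) (hfd r hr)
    · rw [h1]; exact hoff' r (hsub r hr) (hfc r hr)
  · intro G _ o u hv
    refine ⟨1, 1, fun r hr => ?_⟩
    by_cases h1 : r.crossing = c
    · rw [h1, he]; simp [hcd, Ne.symm hcd]
    by_cases h2 : r.crossing = d
    · rw [h2, hf]; simp [hcd, Ne.symm hcd]
    · have := hv r (hin r hr h1 h2)
      have a1 := hoff r hr h2
      have a2 := hoff' r hr h1
      simpa [h1, h2, a1, a2] using this

/-- a crossing matched with itself is cancelled -/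
theorem cancel_one {D D' : Code} {A B : List (Pass ⊕ ℕ)} {p : Pass} (hwf : WF (passes D))
    (e1 : enc D = A ++ two p p.mate ++ B) (e2 : enc D' = A ++ B) (hc : m p.crossing = p.crossing)
    (hm : Matching (passes D) m) (hn : NullV D m) : Matching (passes D') m ∧ NullV D' m := by
  have hP := hwf.2
  rw [← pl_enc, e1] at hP hm
  have hn' : NullE (enc D) m := (null_iff D m).2 hn
  rw [e1] at hn'
  have hperm : (pl (A ++ two p p.mate ++ B)).Perm (p :: p.mate :: (pl A ++ pl B)) := by
    rw [List.perm_iff_count]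
    intro a
    simp only [pl_append, pl_two, List.count_append, List.count_cons, List.count_nil]
    omega
  have hfr := nodup_keys ((hperm.map _).nodup_iff.1 hP)
  have hE : ∀ r, r ∈ pl (A ++ two p p.mate ++ B) → r.crossing = p.crossing ∨ r ∈ pl (A ++ B) := by
    intro r hr
    rw [hperm.mem_iff] at hr
    simp only [List.mem_cons] at hr
    rcases hr with rfl | rfl | hr
    · exact Or.inl rfl
    · exact Or.inl rfl
    · exact Or.inr (by simpa using hr)
  have hsub : ∀ r ∈ pl (A ++ B), r ∈ pl (A ++ two p p.mate ++ B) := by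
    intro r hr
    rw [hperm.mem_iff]
    simp only [List.mem_cons]
    exact Or.inr (Or.inr (by simpa using hr))
  have hfr' : ∀ r ∈ pl (A ++ B), r.crossing ≠ p.crossing := by
    intro r hr
    exact hfr r (by simpa using hr)
  have hev : ∀ (G : Type) [Group G] (o u : ℕ → G), u p.crossing = (o p.crossing)⁻¹ →
      ev o u (A ++ two p p.mate ++ B) 1 = ev o u (A ++ B) 1 :=
    fun G _ o u h => ev_insert o u A B p p.mate (val_mate p h) 1
  obtain ⟨k1, k2⟩ := one_down hE hsub hfr' hev hc hm hn'
  rw [← e2] at k1 k2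
  rw [pl_enc] at k1
  exact ⟨k1, (null_iff D' m).1 k2⟩

/-- two crossings matched with one another are cancelled -/
theorem cancel_two {D D' : Code} {A B C : List (Pass ⊕ ℕ)} {p q : Pass} (hwf : WF (passes D))
    (h : p.crossing ≠ q.crossing) (ho : p.isOver = q.isOver)
    (e1 : enc D = A ++ two p q ++ B ++ two p.mate q.mate ++ C) (e2 : enc D' = A ++ B ++ C)
    (hc : m p.crossing = q.crossing) (hd : m q.crossing = p.crossing)
    (hm : Matching (passes D) m) (hn : NullV D m) : Matching (passes D') m ∧ NullV D' m := by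
  have hP := hwf.2
  rw [← pl_enc, e1] at hP hm
  have hn' : NullE (enc D) m := (null_iff D m).2 hn
  rw [e1] at hn'
  have hperm : (pl (A ++ two p q ++ B ++ two p.mate q.mate ++ C)).Perm
      (p :: p.mate :: (q :: q.mate :: (pl A ++ pl B ++ pl C))) := by
    rw [List.perm_iff_count]
    intro a
    simp only [pl_append, pl_two, List.count_append, List.count_cons, List.count_nil]
    omega
  have hperm' : (pl (A ++ two p q ++ B ++ two p.mate q.mate ++ C)).Perm
      (q :: q.mate :: (p :: p.mate :: (pl A ++ pl B ++ pl C))) := by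
    rw [List.perm_iff_count]
    intro a
    simp only [pl_append, pl_two, List.count_append, List.count_cons, List.count_nil]
    omega
  have hfr := nodup_keys ((hperm.map _).nodup_iff.1 hP)
  have hfr' := nodup_keys ((hperm'.map _).nodup_iff.1 hP)
  have hE : ∀ r, r ∈ pl (A ++ two p q ++ B ++ two p.mate q.mate ++ C) →
      r.crossing = p.crossing ∨ r.crossing = q.crossing ∨ r ∈ pl (A ++ B ++ C) := by
    intro r hr
    rw [hperm.mem_iff] at hr
    simp only [List.mem_cons] at hr
    rcases hr with rfl | rfl | rfl | rfl | hr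
    · exact Or.inl rfl
    · exact Or.inl rfl
    · exact Or.inr (Or.inl rfl)
    · exact Or.inr (Or.inl rfl)
    · exact Or.inr (Or.inr (by simpa using hr))
  have hsub : ∀ r ∈ pl (A ++ B ++ C), r ∈ pl (A ++ two p q ++ B ++ two p.mate q.mate ++ C) := by
    intro r hr
    rw [hperm.mem_iff]
    simp only [List.mem_cons]
    exact Or.inr (Or.inr (Or.inr (Or.inr (by simpa using hr))))
  have hfc : ∀ r ∈ pl (A ++ B ++ C), r.crossing ≠ p.crossing := by
    intro r hr
    refine hfr r ?_
    simp only [List.mem_cons]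
    exact Or.inr (Or.inr (by simpa using hr))
  have hfd : ∀ r ∈ pl (A ++ B ++ C), r.crossing ≠ q.crossing := by
    intro r hr
    refine hfr' r ?_
    simp only [List.mem_cons]
    exact Or.inr (Or.inr (by simpa using hr))
  have hev : ∀ (G : Type) [Group G] (o u : ℕ → G), o q.crossing = (o p.crossing)⁻¹ →
      u q.crossing = (u p.crossing)⁻¹ →
      ev o u (A ++ two p q ++ B ++ two p.mate q.mate ++ C) 1 = ev o u (A ++ B ++ C) 1 := by
    intro G _ o u h1 h2
    rw [ev_insert o u (A ++ two p q ++ B) C _ _ (val_pair p.mate q.mate (by simp [ho]) h1 h2).1 1]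
    have := ev_insert o u A (B ++ C) p q (val_pair p q ho h1 h2).1 1
    simpa [List.append_assoc] using this
  obtain ⟨k1, k2⟩ := two_down h hE hsub hfc hfd hev hc hd hm hn'
  rw [← e2] at k1 k2
  rw [pl_enc] at k1
  exact ⟨k1, (null_iff D' m).1 k2⟩

open Pool.Agent.Y220.TP in
/-- cutting along a double curve -/
theorem cutF (p q : Pass) (y z : List Pass) (b b' : ℕ) (S : Code) (m : ℕ → ℕ)
    (hW : WF (passes ((p :: (y ++ q :: z), b) :: S)))
    (hm : Matching (passes ((p :: (y ++ q :: z), b) :: S)) m)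
    (hN : NullV ((p :: (y ++ q :: z), b) :: S) m)
    (h0 : m p.crossing ≠ p.crossing) (h1 : q.crossing = m p.crossing) (h2 : q.isOver = p.isOver)
    (hbb : b ≠ b') (hS : ∀ C ∈ S, C.2 ≠ b') :
    ∃ S' : Code, S'.map Prod.fst = S.map Prod.fst ∧
    List.Forall₂ (fun C' C : List Pass × ℕ => C'.2 = C.2 ∨ (C.2 = b ∧ C'.2 = b')) S' S ∧
    Matching (passes ((p :: q :: z, b) :: (y, b') :: S')) m ∧
    NullV ((p :: q :: z, b) :: (y, b') :: S') m := by
  set P := passes ((p :: (y ++ q :: z), b) :: S) with hP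
  have hpP : p ∈ P := by simp [hP]
  have hqP : q ∈ P := by simp [hP]
  have hyP : ∀ r ∈ y, r ∈ P := fun r hr => by simp [hP, hr]
  have hzP : ∀ r ∈ z, r ∈ P := fun r hr => by simp [hP, hr]
  have hSP : ∀ C ∈ S, ∀ r ∈ C.1, r ∈ P := fun C hC r hr => by
    rw [hP, passes_cons]
    exact List.mem_append_right _ (mem_passes.2 ⟨C, hC, hr⟩)
  have hpq : p.crossing ≠ q.crossing := by rw [h1]; exact Ne.symm h0
  have hmq : m q.crossing = p.crossing := by rw [h1]; exact matching_invol hm hpP
  have eq_of : ∀ r ∈ P, ∀ r' ∈ P, r.crossing = r'.crossing → r.isOver = r'.isOver → r = r' :=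
    fun r hr r' hr' hc ho => List.inj_on_of_nodup_map hW.2 hr hr' (by simp [hc, ho])
  have hnd : (p :: ((y ++ q :: z) ++ passes S)).Nodup := by
    have := WF.nodup hW
    simpa [hP] using this
  have hnd' : (p ∉ y ∧ p ∉ z ∧ q ∉ y ∧ q ∉ z) ∧ p ∉ passes S ∧ q ∉ passes S := by
    rw [List.nodup_cons, List.append_assoc, List.nodup_append] at hnd
    obtain ⟨h3, h4, h5, h6⟩ := hnd
    rw [List.cons_append, List.nodup_cons] at h5
    exact ⟨⟨fun h => h3 (by simp [h]), fun h => h3 (by simp [h]), fun h => h6 q h q (by simp) rfl,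
      fun h => h5.1 (by simp [h])⟩, fun h => h3 (by simp [h]), fun h => h5.1 (by simp [h])⟩
  obtain ⟨⟨hpy, hpz, hqy, hqz⟩, hpS, hqS⟩ := hnd'
  -- the twisted labels
  have hv2 := valid_tw (valid_map (emb (F := FreeGroup (ℕ × Bool))) (valid_letter hm)) hm h1.symm
    hmq hpq (tt (FreeGroup (ℕ × Bool))) p.isOver
  set o' := tw p.crossing q.crossing (tt (FreeGroup (ℕ × Bool))) p.isOver fun c => emb (fo m c)
    with ho'
  set u' := tw p.crossing q.crossing (tt (FreeGroup (ℕ × Bool))) (!p.isOver) fun c => emb (fu m c)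
    with hu'
  have hval : ∀ w : List Pass, (∀ r ∈ w, r ∈ P) → p ∉ w → q ∉ w →
      wval o' u' w = emb (wval (fo m) (fu m) w) := by
    intro w hw hpw hqw
    rw [← wval_map]
    refine wval_congr fun r hr => ?_
    rw [ho', hu', val_tw]
    split_ifs with k1 k2 k3
    · exact absurd (eq_of r (hw r hr) p hpP k2 k1 ▸ hr) hpw
    · exact absurd (eq_of r (hw r hr) q hqP k3 (k1.trans h2.symm) ▸ hr) hqw
    · rfl
    · rfl
  have hvp : val o' u' p = tt _ := by
    rw [ho', hu', val_tw, if_pos rfl, if_pos rfl]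
  have hvq : val o' u' q = (tt _)⁻¹ := by
    rw [ho', hu', val_tw, if_pos h2, if_neg hpq.symm, if_pos rfl]
  have h3 := hN _ o' u' hv2 b
  have e3 : vals o' u' ((p :: (y ++ q :: z), b) :: S) =
      (wval o' u' (p :: (y ++ q :: z)), b) :: vals o' u' S := rfl
  rw [e3, bv_cons, if_pos rfl] at h3
  simp only [wval_cons, wval_append] at h3
  rw [hvp, hvq, hval y hyP hpy hqy, hval z hzP hpz hqz, ← mul_assoc, ← mul_assoc, twist_eq] at h3
  have e4 : bv (vals o' u' S) b = (bv (vals (fo m) (fu m) S) b).map emb := by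
    refine bv_map _ _ _ _ _ S b fun C hC => ?_
    exact hval C.1 (hSP C hC) (fun h => hpS (mem_passes.2 ⟨C, hC, h⟩))
      (fun h => hqS (mem_passes.2 ⟨C, hC, h⟩))
  rw [e4] at h3
  obtain ⟨r, h4, h5⟩ := h3.head
  obtain ⟨he, S', h6, h7, h8⟩ := split_pc hbb (wval (fo m) (fu m)) S hS r h4
  have h9 : wval (fo m) (fu m) z * r.a = 1 := by
    have := congrArg Wr.a h5
    simpa [mul_a, one_a] using this
  have h10 : wval (fo m) (fu m) y * r.b = 1 := by
    have := congrArg Wr.b h5
    simpa [mul_b, one_b] using this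
  have c1 : CN (wval (fo m) (fu m) z :: bv (vals (fo m) (fu m) S') b) := CN.of_head h7 h9
  have c2 : CN (wval (fo m) (fu m) y :: bv (vals (fo m) (fu m) S') b') := CN.of_head h8 h10
  -- the new passages
  have hmem : ∀ r, r ∈ P ↔ r ∈ passes ((p :: q :: z, b) :: (y, b') :: S') := by
    intro r
    simp only [hP, passes_cons, passes_eq h6, List.mem_append, List.mem_cons]
    tauto
  refine ⟨S', fst_eq h6, h6.imp fun _ _ h => h.2, ?_, ?_⟩
  · exact matching_congr hmem hm
  · intro G _ o u hv k
    have hv' : Valid P m o u := valid_congr (fun r => (hmem r).symm) hv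
    obtain ⟨φ, hφ⟩ := univ hv'
    have e5 : ∀ k, bv (vals o u S') k = (bv (vals (fo m) (fu m) S') k).map φ := by
      intro k
      refine bv_map _ _ _ _ _ S' k fun C hC => ?_
      refine (hφ C.1 fun r hr => ?_).symm
      rw [hmem]
      simp only [passes_cons, List.mem_append]
      exact Or.inr (Or.inr (mem_passes.2 ⟨C, hC, hr⟩))
    have e6 : vals o u ((p :: q :: z, b) :: (y, b') :: S') =
        (wval o u (p :: q :: z), b) :: (wval o u y, b') :: vals o u S' := rfl
    have e7 : wval o u (p :: q :: z) = φ (wval (fo m) (fu m) z) := by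
      simp only [wval_cons]
      obtain ⟨-, k2⟩ := hv' p hpP
      obtain ⟨k3, k4⟩ := k2 h0
      rw [← h1] at k3 k4
      rw [← mul_assoc, (val_pair p q h2.symm k3 k4).1, one_mul]
      exact (hφ z hzP).symm
    rw [e6, bv_cons, bv_cons]
    by_cases hk : k = b
    · subst hk
      rw [if_pos rfl, if_neg hbb.symm, e7, e5]
      exact (pc_map φ c1).of_eq (map_one φ)
    · by_cases hk' : k = b'
      · subst hk'
        rw [if_neg hbb, if_pos rfl, e5, ← hφ y hyP]
        exact (pc_map φ c2).of_eq (map_one φ)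
      · rw [if_neg (Ne.symm hk), if_neg (Ne.symm hk'), bv_eq h6 o u hk hk']
        have h11 := hN G o u hv' k
        have e8 : vals o u ((p :: (y ++ q :: z), b) :: S) =
            (wval o u (p :: (y ++ q :: z)), b) :: vals o u S := rfl
        rw [e8, bv_cons, if_neg (Ne.symm hk)] at h11
        exact h11

end Pool.Agent.V5helper74.SR
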