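import Pool.Agent.V5helper74.SR.E4
import Pool.Agent.Y874.TP2.Reduce
import Pool.Agent.Y968.TP.Out
import Pool.Agent.Y333.TP.Mid
import Pool.Agent.Y514.TP.OutP
import Pool.Agent.Y210.TP.Move

/-! One step of the reduction, without colours. -/

namespace Pool.Agent.V5helper74.SR

open Pool.Agent.Y468.SR
open Pool.Agent.Y874.TP (NullV Tri TC word4 passes_append' TC_cons TC_nil sep mem_code Cyc SameTri
  split_labels out mid cn_ones)
open Pool.Agent.Y874.TP2 (normal)
open Pool.Agent.R800.BT (Bad Hts nullV_perm perm_TC)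

variable {D : Code} {Ts : List Tri} {m : ℕ → ℕ}

/-- the matching is kept as far as possible -/
structure Keep (m : ℕ → ℕ) (Ts : List Tri) (D' : Code) (m' : ℕ → ℕ) (Ts' : List Tri) : Prop where
  sub : ∀ T' ∈ Ts', ∃ T ∈ Ts, SameTri T' T
  loc : ∀ c, onD (TC Ts') c → (onD (TC Ts') (m c) → m' c = m c) ∧
    (¬onD (TC Ts') (m c) → onD D' (m' c))

/-- the result of one step -/
def Red (D : Code) (Ts : List Tri) (m : ℕ → ℕ) : Prop :=
  ∃ D' Ts' m', (Ts'.length < Ts.length ∨
      (Ts'.length = Ts.length ∧ (passes D').length < (passes D).length)) ∧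
    Classical D' ∧ (D'.map Prod.snd).Nodup ∧ St D' Ts' m' ∧ Keep m Ts D' m' Ts' ∧
    Movie true false D D'

theorem SameTri.refl (T : Tri) : SameTri T T := ⟨T.li, T.lj, T.lk, rfl⟩

theorem St.side (h : St D Ts m) {c : ℕ} (hc : onD (TC Ts) c) : onD (TC Ts) (m c) ∨ onD D (m c) := by
  obtain ⟨p, hp, rfl⟩ := hc
  obtain ⟨q, hq, h1, -⟩ := h.mt p (by rw [passes_append']; simp [hp])
  rw [passes_append', List.mem_append] at hq
  rcases hq with hq | hq
  · exact Or.inr ⟨q, hq, h1⟩
  · exact Or.inl ⟨q, hq, h1⟩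

theorem St.disj (h : St D Ts m) {c : ℕ} (hc : onD (TC Ts) c) : ¬onD D c := by
  obtain ⟨p, hp, rfl⟩ := hc
  rintro ⟨q, hq, h1⟩
  exact sep h.wfD h.wf hq hp h1.symm

theorem St.mm (h : St D Ts m) {c : ℕ} (hc : onD (TC Ts) c ∨ onD D c) : m (m c) = c := by
  rcases hc with ⟨p, hp, rfl⟩ | ⟨p, hp, rfl⟩
  · exact h.invol (by rw [passes_append']; simp [hp])
  · exact h.invol (by rw [passes_append']; simp [hp])

theorem St.perm {D' : Code} (hp : D.Perm D') (h : St D Ts m) : St D' Ts m where
  wfD := WF.perm (passes_perm hp) h.wfD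
  wf := by
    have := h.wf
    rw [passes_append'] at this ⊢
    exact WF.perm (List.Perm.append_right _ (passes_perm hp)) this
  mt := matching_congr (fun r => (passes_perm (hp.append_right _)).mem_iff) h.mt
  nv := nullV_perm (hp.append_right _) h.nv
  ok := h.ok

theorem St.rotate {x y : List Pass} {b : ℕ} {R : Code} (h : St ((x ++ y, b) :: R) Ts m) :
    St ((y ++ x, b) :: R) Ts m where
  wfD := by
    have := h.wfD
    rw [passes_cons] at this ⊢
    exact WF.perm (List.Perm.append_right _ List.perm_append_comm) this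
  wf := by
    have := h.wf
    rw [passes_append', passes_cons] at this ⊢
    exact WF.perm (List.Perm.append_right _ (List.Perm.append_right _ List.perm_append_comm)) this
  mt := by
    refine matching_congr (fun r => ?_) h.mt
    simp only [passes_append', passes_cons, List.mem_append]; tauto
  nv := by
    refine Pool.Agent.R800.BT.nullV_of (fun r => ?_) (fun G _ o u hn a => ?_) h.nv
    · simp only [passes_append', passes_cons, List.mem_append]; tauto
    · have := hn a
      simp only [vals, List.cons_append, List.map_cons, bv_cons] at this ⊢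
      split_ifs at this ⊢ with h
      · have e := this.conj_head (wval o u y)
        simpa [mul_assoc] using e
      · exact this
  ok := h.ok

/-- names are kept if crossings of `D` matched with one another are removed -/
theorem keep_same {D' : Code} {Ts' : List Tri} (h : St D Ts m) (hs : ∀ T' ∈ Ts', ∃ T ∈ Ts, SameTri T' T)
    (hp : passes (TC Ts') = passes (TC Ts))
    (hk : ∀ c, onD D c → onD D' c ∨ onD D (m c)) : Keep m Ts D' m Ts' := by
  have e : ∀ c, onD (TC Ts') c ↔ onD (TC Ts) c := by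
    intro c; unfold onD; rw [hp]
  refine ⟨hs, fun c hc => ⟨fun _ => rfl, fun hc' => ?_⟩⟩
  rw [e] at hc hc'
  have h1 := (h.side hc).resolve_left hc'
  rcases hk _ h1 with h2 | h2
  · exact h2
  · rw [h.mm (Or.inl hc)] at h2
    exact absurd h2 (h.disj hc)

theorem caseA (hD : Classical D) (hn : (D.map Prod.snd).Nodup) (h : St D Ts m)
    {C : List Pass × ℕ} (hC : C ∈ D) {a c : List Pass} {p q : Pass} (hs : C.1 = a ++ p :: q :: c)
    (h0 : m p.crossing = p.crossing)
    (h1 : q.crossing = p.crossing) (h2 : q.isOver = !p.isOver) : Red D Ts m := by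
  have hp : p ∈ passes D := mem_passes.2 ⟨C, hC, by simp [hs]⟩
  have hq : q ∈ passes D := mem_passes.2 ⟨C, hC, by simp [hs]⟩
  have hqp : q = p.mate := by
    rcases hD.1.eq_mate hp hq h1 with rfl | rfl
    · simp at h2
    · rfl
  subst hqp
  obtain ⟨D', A, B, e1, e2, e3⟩ := exists_remove hC hs
  have hperm : (passes D).Perm ([p, p.mate] ++ passes D') := by
    rw [← pl_enc, ← pl_enc, e1, e2]
    simp only [pl_append, pl_two, List.append_assoc]
    rw [← List.append_assoc, ← List.append_assoc]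
    exact List.Perm.append_right _ List.perm_append_comm
  have hW : WF ([p, p.mate] ++ passes D') := WF.perm hperm hD.1
  have hW' : WF (passes D') := hW.remove (by simp)
  have hD' : Classical D' := by
    refine ⟨hW', planar_iff.2 ?_⟩
    rw [e2]
    refine planarE_one (p := p) (fun r hr => ?_) ?_
    · rw [← e2, pl_enc] at hr
      exact hW.ne_crossing (by simp) (by simp) hr
    · rw [← e1]; exact planar_iff.1 hD.2
  have hR : Reid true (enc D) (enc D') := by
    rw [e1, e2]; exact Reid.one A B p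
  obtain ⟨k1, k2⟩ := cancel_one (D := D ++ TC Ts) (D' := D' ++ TC Ts) (A := A) (B := B ++ enc (TC Ts))
    (p := p) h.wf (by rw [enc_append, e1]; simp) (by rw [enc_append, e2]; simp) h0 h.mt h.nv
  have hWe : WF (passes (D' ++ TC Ts)) := by
    refine WF.remove (k := [p, p.mate]) (WF.perm ?_ h.wf) (by simp)
    rw [passes_append', passes_append', ← List.append_assoc]
    exact List.Perm.append_right _ hperm
  refine ⟨D', Ts, m, Or.inr ⟨rfl, ?_⟩, hD', by rw [e3]; exact hn, ⟨hW', hWe, k1, k2, h.ok⟩,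
    keep_same h (fun T hT => ⟨T, hT, SameTri.refl T⟩) rfl ?_,
    Movie.head hD hD' (Step.reid D D' hR) Relation.ReflTransGen.refl⟩
  · rw [hperm.length_eq]; simp
  · rintro c ⟨r, hr, rfl⟩
    rw [hperm.mem_iff] at hr
    simp only [List.cons_append, List.nil_append, List.mem_cons] at hr
    rcases hr with rfl | rfl | hr
    · exact Or.inr ⟨r, hp, h0.symm⟩
    · exact Or.inr ⟨p, hp, h0.symm⟩
    · exact Or.inl ⟨r, hr, rfl⟩

theorem after {p q : Pass} {y z : List Pass} {R : Code} {b₁ b₂ : ℕ}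
    (hD₄ : Classical ((p :: q :: z, b₁) :: (y, b₂) :: R)) (hpq : p.crossing ≠ q.crossing)
    (h2 : q.isOver = p.isOver) (hs : q.isPos = !p.isPos) {C₃ : List Pass × ℕ}
    (hC₃ : C₃ ∈ ((z, b₁) :: (y, b₂) :: R)) {a₃ c₃ : List Pass}
    (h₃ : C₃.1 = a₃ ++ p.mate :: q.mate :: c₃) :
    ∃ D' A B, Classical D' ∧
      D'.map Prod.snd = ((p :: q :: z, b₁) :: (y, b₂) :: R).map Prod.snd ∧
      (passes ((p :: q :: z, b₁) :: (y, b₂) :: R)).Perm ([p, q, p.mate, q.mate] ++ passes D') ∧
      enc ((p :: q :: z, b₁) :: (y, b₂) :: R) = [] ++ two p q ++ A ++ two p.mate q.mate ++ B ∧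
      enc D' = [] ++ A ++ B := by
  obtain ⟨D', A, B, f1, f2, f3⟩ := exists_remove hC₃ h₃
  have g1 : enc ((p :: q :: z, b₁) :: (y, b₂) :: R) =
      [] ++ two p q ++ A ++ two p.mate q.mate ++ B := by
    have : enc ((p :: q :: z, b₁) :: (y, b₂) :: R) = two p q ++ enc ((z, b₁) :: (y, b₂) :: R) := by
      simp [two]
    rw [this, f1]; simp
  have g2 : enc D' = [] ++ A ++ B := by rw [f2]; simp
  have hperm₅ : (passes ((p :: q :: z, b₁) :: (y, b₂) :: R)).Perm
      ([p, q, p.mate, q.mate] ++ passes D') := by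
    rw [← pl_enc, ← pl_enc, g1, g2]
    simp only [pl_append, pl_two, List.append_assoc, List.nil_append, List.cons_append]
    refine List.Perm.cons _ (List.Perm.cons _ ?_)
    have : (pl A ++ (p.mate :: (q.mate :: pl B))).Perm (p.mate :: (pl A ++ (q.mate :: pl B))) :=
      List.perm_middle
    exact this.trans (List.Perm.cons _ List.perm_middle)
  have hW₅ : WF ([p, q, p.mate, q.mate] ++ passes D') := WF.perm hperm₅ hD₄.1
  have hW₆ : WF (passes D') := hW₅.remove (by simp)
  have hD' : Classical D' := by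
    refine ⟨hW₆, planar_iff.2 ?_⟩
    rw [g2]
    refine planarE_two (p := p) (q := q) (fun r hr => ?_) hpq h2.symm hs ?_
    · rw [← g2, pl_enc] at hr
      exact ⟨hW₅.ne_crossing (by simp) (by simp) hr, hW₅.ne_crossing (by simp) (by simp) hr⟩
    · rw [← g1]; exact planar_iff.1 hD₄.2
  refine ⟨D', A, B, hD', ?_, hperm₅, g1, g2⟩
  rw [f3]; simp

theorem same_facts {Ts' Ts : List Tri} (h : List.Forall₂ SameTri Ts' Ts) :
    Ts'.length = Ts.length ∧ passes (TC Ts') = passes (TC Ts) ∧
    ∀ T' ∈ Ts', ∃ T ∈ Ts, SameTri T' T := by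
  induction h with
  | nil => exact ⟨rfl, rfl, fun T hT => absurd hT (by simp)⟩
  | @cons T' T Ts' Ts h _ ih =>
    obtain ⟨h1, h3, h4⟩ := ih
    refine ⟨by simp [h1], ?_, ?_⟩
    · obtain ⟨i, j, k, rfl⟩ := h
      rw [TC_cons, TC_cons, passes_append', passes_append', h3]; rfl
    · intro T₁ hT₁
      rcases List.mem_cons.1 hT₁ with rfl | hT₁
      · exact ⟨T, by simp, h⟩
      · obtain ⟨T₂, h5, h6⟩ := h4 T₁ hT₁
        exact ⟨T₂, by simp [h5], h6⟩

theorem same_ok {T' T : Tri} (h : SameTri T' T) (hk : T.Ok ∧ Hts T) : T'.Ok ∧ Hts T' := by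
  obtain ⟨i, j, k, rfl⟩ := h
  exact hk

theorem caseB' {p q : Pass} {v : List Pass} {b : ℕ} {R : Code}
    (hD : Classical ((p :: v, b) :: R)) (hn : (((p :: v, b) :: R).map Prod.snd).Nodup)
    (hst : St ((p :: v, b) :: R) Ts m)
    {C : List Pass × ℕ} (hC : C ∈ ((p :: v, b) :: R)) {a c : List Pass}
    (h : C.1 = a ++ p.mate :: q.mate :: c) (h0 : m p.crossing ≠ p.crossing)
    (h1 : q.crossing = m p.crossing) (h2 : q.isOver = p.isOver) : Red ((p :: v, b) :: R) Ts m := by
  have hp : p ∈ passes ((p :: v, b) :: R) := by simp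
  have hq' : q.mate ∈ passes ((p :: v, b) :: R) := mem_passes.2 ⟨C, hC, by simp [h]⟩
  have hq : q ∈ passes ((p :: v, b) :: R) := by simpa using hD.1.1 _ hq'
  have hin : ∀ r ∈ passes ((p :: v, b) :: R), r ∈ passes ((p :: v, b) :: R ++ TC Ts) := by
    intro r hr; rw [passes_append']; exact List.mem_append_left _ hr
  have hpq : p.crossing ≠ q.crossing := by rw [h1]; exact Ne.symm h0
  have hmq : m q.crossing = p.crossing := by rw [h1]; exact matching_invol hst.mt (hin p hp)
  have hs : q.isPos = !p.isPos := by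
    obtain ⟨q₀, g1, g2, g3, g4⟩ := hst.mt p (hin p hp)
    rw [WellFormed.sign_eq (D := (p :: v, b) :: R ++ TC Ts) hst.wf g1 (hin q hq) (by rw [g2, h1])]
    exact g4 (by rw [g2]; exact h0)
  have e1 : p.mate ≠ p := by intro h; simpa using congrArg Pass.isOver h
  have e2 : q.mate ≠ q := by intro h; simpa using congrArg Pass.isOver h
  have e3 : p.mate ≠ q := fun h => hpq (congrArg Pass.crossing h : p.mate.crossing = q.crossing)
  have e4 : q.mate ≠ p := fun h =>
    hpq (congrArg Pass.crossing h : q.mate.crossing = p.crossing).symm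
  have hnd := WF.nodup hD.1
  have hpv : p ∉ v := by
    rw [passes_cons, List.cons_append, List.nodup_cons] at hnd
    exact fun h => hnd.1 (by simp [h])
  have hRb : ∀ C ∈ R, C.2 ≠ b := by
    intro C hC he
    rw [List.map_cons, List.nodup_cons] at hn
    exact hn.1 (List.mem_map.2 ⟨C, hC, he⟩)
  -- the passages of one type at the two crossings belong to the same component
  have hqv : q ∈ v := by
    by_contra hqv
    have hv1 : Valid (passes ((p :: v, b) :: R ++ TC Ts)) m (fun _ => (1 : Multiplicative ℤ))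
        (fun _ => 1) := fun r _ => by simp
    have := hst.nv _ _ _ (valid_tw hv1 hst.mt h1.symm hmq hpq (Multiplicative.ofAdd 1) p.isOver) b
    rw [vals_append, bv_append] at this
    simp only [vals, List.map_cons] at this
    rw [bv_cons, if_pos rfl] at this
    have hb1 := bv_vals_nil (o := tw p.crossing q.crossing (Multiplicative.ofAdd (1 : ℤ)) p.isOver
      fun _ => 1) (u := tw p.crossing q.crossing (Multiplicative.ofAdd (1 : ℤ)) (!p.isOver)
      fun _ => 1) hRb
    unfold vals at hb1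
    rw [hb1, List.cons_append, List.nil_append] at this
    have h4 : ∀ w : List Pass, wval (fun _ => (1 : Multiplicative ℤ)) (fun _ => 1) w = 1 := by
      intro w
      induction w with
      | nil => rfl
      | cons r v ih => rw [wval_cons, ih]; simp [val]
    have h5 := cn_ones (fun y hy => ?_) this
    · simp only [wval_cons] at h5
      have h3 : wval (tw p.crossing q.crossing (Multiplicative.ofAdd (1 : ℤ)) p.isOver fun _ => 1)
          (tw p.crossing q.crossing (Multiplicative.ofAdd (1 : ℤ)) (!p.isOver) fun _ => 1) v =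
          wval (fun _ => 1) (fun _ => 1) v := by
        refine wval_congr fun r hr => ?_
        rw [val_tw]
        split_ifs with k1 k2 k3
        · exact absurd (hD.1.eq_of (by simp [hr]) hp k2 k1 ▸ hr) hpv
        · exact absurd (hD.1.eq_of (by simp [hr]) hq k3 (k1.trans h2.symm) ▸ hr) hqv
        · rfl
        · rfl
      rw [h3, h4, val_tw, if_pos rfl, if_pos rfl, mul_one] at h5
      have := congrArg Multiplicative.toAdd h5
      simp at this
    · simp only [bv, List.mem_map, List.mem_filter] at hy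
      obtain ⟨x, ⟨⟨C', hC', rfl⟩, -⟩, rfl⟩ := hy
      simp only
      refine Eq.trans (wval_congr (o' := fun _ => 1) (u' := fun _ => 1) fun r hr => ?_) (h4 C'.1)
      have hr' : r ∈ passes (TC Ts) := mem_passes.2 ⟨C', hC', hr⟩
      have k4 := sep hD.1 hst.wf hp hr'
      have k5 := sep hD.1 hst.wf hq hr'
      rw [val_tw, if_neg k4, if_neg k5, ite_self]
  obtain ⟨y, z, rfl⟩ := List.append_of_mem hqv
  obtain ⟨b', hb'⟩ := Infinite.exists_notMem_finset
    (((p :: (y ++ q :: z), b) :: R ++ TC Ts).map Prod.snd).toFinset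
  have hb'' : b' ≠ b ∧ ∀ C ∈ R ++ TC Ts, C.2 ≠ b' := by
    simp only [List.cons_append, List.map_cons, List.mem_toFinset, List.mem_cons, not_or,
      List.mem_map, not_exists, not_and] at hb'
    exact ⟨hb'.1, hb'.2⟩
  have hb' : b' ≠ b ∧ ∀ C ∈ R, C.2 ≠ b' := ⟨hb''.1, fun C hC => hb''.2 C (by simp [hC])⟩
  -- the factor
  have hfac : ∃ C₃ ∈ ((z, b) :: (y, b') :: R), ∃ a₃ c₃, C₃.1 = a₃ ++ p.mate :: q.mate :: c₃ := by
    rcases List.mem_cons.1 hC with rfl | hC
    · rcases a with _ | ⟨s, a⟩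
      · simp only [List.nil_append, List.cons.injEq] at h
        exact absurd h.1.symm e1
      · simp only [List.cons_append, List.cons.injEq] at h
        rcases fac_mid h.2 e3.symm e2.symm with ⟨a', c', h⟩ | ⟨a', c', h⟩
        · exact ⟨(y, b'), by simp, a', c', h⟩
        · exact ⟨(z, b), by simp, a', c', h⟩
    · exact ⟨C, by simp [hC], a, c, h⟩
  obtain ⟨C₃, hC₃, a₃, c₃, h₃⟩ := hfac
  obtain ⟨hperm₄, hD₄, hmov⟩ := cut_movie hD hpq h2 hs hb' (b₁ := b) (b₂ := b')
    (Or.inl ⟨rfl, rfl⟩) hC₃ h₃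
  obtain ⟨D', A, B, hD', f3, hperm₅, g1, g2⟩ := after hD₄ hpq h2 hs hC₃ h₃
  obtain ⟨S', s1, s2, s3, s4⟩ := cutF p q y z b b' (R ++ TC Ts) m hst.wf hst.mt hst.nv h0 h1 h2
    hb'.1.symm hb''.2
  obtain ⟨Ts', rfl, s5⟩ := split_labels R S' s1 s2 hRb
  obtain ⟨t1, t2, t3⟩ := same_facts s5
  have hW₄ : WF (passes ((p :: q :: z, b) :: (y, b') :: R ++ TC Ts')) := by
    have := hst.wf
    rw [passes_append'] at this ⊢
    rw [t2]
    exact WF.perm (List.Perm.append_right _ hperm₄) this
  obtain ⟨k1, k2⟩ := cancel_two (D := (p :: q :: z, b) :: (y, b') :: R ++ TC Ts')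
    (D' := D' ++ TC Ts') (A := []) (B := A) (C := B ++ enc (TC Ts')) (p := p) (q := q) hW₄ hpq
    h2.symm (by rw [enc_append, g1]; simp) (by rw [enc_append, g2]; simp) h1.symm hmq s3 s4
  have hW₅ : WF (passes (D' ++ TC Ts')) := by
    refine WF.remove (k := [p, q, p.mate, q.mate]) (WF.perm ?_ hW₄) (by simp)
    rw [passes_append', passes_append', ← List.append_assoc]
    exact List.Perm.append_right _ hperm₅
  have hRe : Reid true (enc ((p :: q :: z, b) :: (y, b') :: R)) (enc D') := by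
    rw [g1, g2]
    exact Reid.twoSame [] A B p q hpq h2.symm hs
  refine ⟨D', Ts', m, Or.inr ⟨t1, ?_⟩, hD', ?_, ⟨hD'.1, hW₅, k1, k2, fun T' hT' => ?_⟩,
    keep_same hst t3 t2 ?_,
    (movie_mono hmov).trans (Movie.head hD₄ hD' (Step.reid _ D' hRe) Relation.ReflTransGen.refl)⟩
  · rw [hperm₄.length_eq, hperm₅.length_eq]; simp; omega
  · rw [f3]
    simp only [List.map_cons, List.nodup_cons, List.mem_cons, not_or] at hn ⊢
    refine ⟨⟨hb'.1.symm, hn.1⟩, fun h => ?_, hn.2⟩
    obtain ⟨C, hC, h⟩ := List.mem_map.1 h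
    exact hb'.2 C hC h
  · obtain ⟨T, hT, hs⟩ := t3 T' hT'
    exact same_ok hs (hst.ok T hT)
  · rintro c ⟨r, hr, rfl⟩
    rw [hperm₄.mem_iff, hperm₅.mem_iff] at hr
    simp only [List.cons_append, List.nil_append, List.mem_cons] at hr
    rcases hr with rfl | rfl | rfl | rfl | hr
    · exact Or.inr ⟨q, hq, h1⟩
    · exact Or.inr ⟨p, hp, hmq.symm⟩
    · exact Or.inr ⟨q, hq, h1⟩
    · exact Or.inr ⟨p, hp, hmq.symm⟩
    · exact Or.inl ⟨r, hr, rfl⟩

theorem Red.of_eq {D₁ : Code} (hl : (passes D₁).length = (passes D).length) (hmv : Movie true false D D₁)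
    (h : Red D₁ Ts m) : Red D Ts m := by
  obtain ⟨D', Ts', m', r1, r2, r3, r4, r5, r6⟩ := h
  exact ⟨D', Ts', m', by rw [← hl]; exact r1, r2, r3, r4, r5, hmv.trans r6⟩

theorem caseB (hD : Classical D) (hn : (D.map Prod.snd).Nodup) (hst : St D Ts m)
    {C : List Pass × ℕ} (hC : C ∈ D)
    {a c : List Pass} {p q : Pass} (h : C.1 = a ++ p :: q :: c) (h0 : m p.crossing ≠ p.crossing)
    (h1 : q.crossing = m p.crossing) (h2 : q.isOver = p.isOver) : Red D Ts m := by
  have hp : p ∈ passes D := mem_passes.2 ⟨C, hC, by simp [h]⟩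
  have hpq : p.crossing ≠ q.crossing := by rw [h1]; exact Ne.symm h0
  obtain ⟨⟨w, b⟩, hC', hpC'⟩ := mem_passes.1 (hD.1.1 p hp)
  obtain ⟨D₁, D₂, rfl⟩ := List.append_of_mem hC'
  obtain ⟨x, v, rfl⟩ := List.append_of_mem hpC'
  have hperm : (D₁ ++ (x ++ p.mate :: v, b) :: D₂).Perm ((x ++ p.mate :: v, b) :: (D₁ ++ D₂)) :=
    List.perm_middle
  have c1 := classical_perm hperm hD
  have c2 : Classical ((p.mate :: v ++ x, b) :: (D₁ ++ D₂)) := classical_rotate c1
  have i1 := hst.perm hperm
  have i2 : St ((p.mate :: v ++ x, b) :: (D₁ ++ D₂)) Ts m := i1.rotate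
  have hperm2 : (passes ((x ++ p.mate :: v, b) :: (D₁ ++ D₂))).Perm
      (passes ((p.mate :: v ++ x, b) :: (D₁ ++ D₂))) := by
    rw [passes_cons, passes_cons]
    exact List.Perm.append_right _ List.perm_append_comm
  have l1 : (((p.mate :: (v ++ x), b) :: (D₁ ++ D₂)).map Prod.snd).Nodup := by
    have := (hperm.map Prod.snd).nodup hn
    simpa using this
  have hfac : ∃ C' ∈ ((p.mate :: (v ++ x), b) :: (D₁ ++ D₂)), ∃ a' c',
      C'.1 = a' ++ p :: q :: c' := by
    rcases List.mem_cons.1 (hperm.subset hC) with rfl | hC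
    · have k1 : p.mate ≠ p := by intro h; simpa using congrArg Pass.isOver h
      have k2 : p.mate ≠ q := fun h => hpq (congrArg Pass.crossing h : p.mate.crossing = q.crossing)
      rcases fac_mid h k1 k2 with ⟨a', c', h⟩ | ⟨a', c', h⟩
      · exact ⟨_, List.mem_cons_self, p.mate :: v ++ a', c', by simp [h]⟩
      · exact ⟨_, List.mem_cons_self, p.mate :: a', c' ++ x, by simp [h]⟩
    · exact ⟨C, List.mem_cons_of_mem _ hC, a, c, h⟩
  obtain ⟨C', hC', a', c', h'⟩ := hfac
  refine Red.of_eq ?_ (Movie.head hD c1 (Step.perm _ _ hperm) (Movie.head c1 c2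
    (Step.rotate x (p.mate :: v) b (D₁ ++ D₂)) Relation.ReflTransGen.refl))
    (caseB' (p := p.mate) (q := q.mate) c2 l1 i2 hC' (a := a') (c := c') (by simpa using h') h0 h1
      (by simp [h2]))
  rw [(passes_perm hperm).length_eq, hperm2.length_eq]

end Pool.Agent.V5helper74.SR
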