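import Pool.Agent.V5helper74.SR.E5

/-! Pushing a triple point through the boundary, and the reduction. -/

namespace Pool.Agent.V5helper74.SR

open Pool.Agent.Y468.SR
open Pool.Agent.Y874.TP (NullV Tri TC word4 passes_append' TC_cons TC_nil sep mem_code Cyc SameTri
  split_labels out mid exists_bound wf_ceq CEq par)
open Pool.Agent.Y874.TP2 (normal)
open Pool.Agent.R800.BT (Bad Hts nullV_perm perm_TC)
open Pool.Agent.Y968.TP (Cfg exists_cfg sub4 cA cB passes_out nA nB)

variable {D : Code} {Ts : List Tri} {m : ℕ → ℕ}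

section
variable {O : Code} {T : Tri} {p r : Pass} {na nb : ℕ} {l2 : List Pass}

theorem cfg_perm (h : Cfg D O T m p r na nb l2) : (passes (out p r T.tc na nb D)).Perm
    (nA T na :: (nA T na).mate :: nB T nb :: (nB T nb).mate :: passes D) := by
  rw [passes_out]
  refine (List.Perm.flatMap_right _ h.perm4).trans ?_
  refine List.Perm.trans ?_ (List.Perm.cons _ (List.Perm.cons _ (List.Perm.cons _
    (List.Perm.cons _ h.perm4.symm))))
  simp only [List.flatMap_cons, h.ext1, h.ext2, h.ext3, h.ext4, h.fl2, List.cons_append, List.nil_append]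
  rw [List.perm_iff_count]
  intro q
  cases par p r <;>
    simp only [if_true, if_false, Bool.false_eq_true, List.count_cons, nA, nB,
      Pass.mate, List.cons_append, List.nil_append] <;> omega

/-- a triple point is pushed through the boundary -/
theorem outF {C : List Pass × ℕ} {a c : List Pass} (hOk : T.Ok) (hei : T.ei = true)
    (hD : WF (passes D)) (hW : WF (passes (D ++ (T.code ++ O))))
    (hM : Matching (passes (D ++ (T.code ++ O))) m) (hN : NullV (D ++ (T.code ++ O)) m)
    (hC : C ∈ D) (hsplit : C.1 = a ++ p :: r :: c) (hma : m p.crossing = T.a₁)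
    (hpo : p.isOver = T.ta) (hmb : m r.crossing = T.b₁) (hro : r.isOver = T.tb) (hne : na ≠ nb)
    (hnew : ∀ q ∈ passes (D ++ (T.code ++ O)), q.crossing ≠ na ∧ q.crossing ≠ nb) :
    ∃ m', WF (passes (out p r T.tc na nb D ++ O)) ∧
      Matching (passes (out p r T.tc na nb D ++ O)) m' ∧ NullV (out p r T.tc na nb D ++ O) m' ∧
      ∀ c, onD O c → (onD O (m c) → m' c = m c) ∧
        (¬onD O (m c) → onD (out p r T.tc na nb D) (m' c)) := by
  have hp : p ∈ passes D := mem_passes.2 ⟨C, hC, by simp [hsplit]⟩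
  have hr : r ∈ passes D := mem_passes.2 ⟨C, hC, by simp [hsplit]⟩
  obtain ⟨l2, h⟩ := exists_cfg hOk hei hD hW hM hp hr hma hpo hmb hro hne hnew
  refine ⟨_, h.wf', h.tr.matching hM, ?_, ?_⟩
  · intro G _ o u hv b
    have h1 := hN G _ _ (h.valid hv) b
    rw [vals_append, vals_append, bv_append, bv_append, h.valsO, h.valsD hC hsplit] at h1
    rw [vals_append, bv_append]
    refine Pool.Agent.Y968.TP.cn_ones ?_ h1
    intro g hg
    simp only [Tri.code, vals, List.map_cons, List.map_nil, h.wi, h.wj, h.wk, bv, List.mem_map,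
      List.mem_filter, List.mem_cons, List.not_mem_nil, or_false] at hg
    obtain ⟨⟨g', b'⟩, ⟨h2, -⟩, rfl⟩ := hg
    rcases h2 with h2 | h2 | h2 <;> exact congrArg Prod.fst h2
  · rintro c ⟨q, hq, rfl⟩
    have hqE : q ∈ passes (D ++ (T.code ++ O)) := by
      rw [passes_append', passes_append']; simp [hq]
    have hx := h.ox q hq
    have hd := h.dox q (List.mem_append_right _ hq)
    have hinv := matching_invol hM hqE
    have e1 : sub4 p.crossing r.crossing na nb T.a₂ T.b₂ (cA T) (cB T) q.crossing = q.crossing := by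
      unfold sub4
      rw [if_neg hx.1, if_neg hx.2, if_neg hd.2.2.2.2.2.2.1, if_neg hd.2.2.2.2.2.2.2]
    simp only [e1]
    obtain ⟨q', hq', f1, -⟩ := hM q hqE
    constructor
    · rintro ⟨q'', hq'', f2⟩
      have hd' := h.dox q'' (List.mem_append_right _ hq'')
      rw [f2] at hd'
      unfold sub4
      rw [if_neg hd'.2.1, if_neg hd'.2.2.2.1, if_neg hd'.2.2.2.2.1, if_neg hd'.2.2.2.2.2.1]
    · intro hno
      have hmem : ∀ x, onD D x ∨ x = na ∨ x = nb → onD (out p r T.tc na nb D) x := by
        rintro x (⟨s, hs, rfl⟩ | rfl | rfl)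
        · exact ⟨s, (cfg_perm h).symm.subset (by simp [hs]), rfl⟩
        · exact ⟨nA T x, (cfg_perm h).symm.subset (by simp), rfl⟩
        · exact ⟨nB T x, (cfg_perm h).symm.subset (by simp), rfl⟩
      have hma' : m T.a₁ = p.crossing := by
        rw [← hma]; exact matching_invol hM (by rw [passes_append']; simp [hp])
      have hmb' : m T.b₁ = r.crossing := by
        rw [← hmb]; exact matching_invol hM (by rw [passes_append']; simp [hr])
      have na1 : m q.crossing ≠ T.a₁ := fun e => by
        rw [e, hma'] at hinv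
        exact hx.1 hinv.symm
      have nb1 : m q.crossing ≠ T.b₁ := fun e => by
        rw [e, hmb'] at hinv
        exact hx.2 hinv.symm
      unfold sub4
      split_ifs with g1 g2 g3 g4
      · exact hmem _ (Or.inl ⟨p, hp, rfl⟩)
      · exact hmem _ (Or.inl ⟨r, hr, rfl⟩)
      · exact hmem _ (Or.inr (Or.inl rfl))
      · exact hmem _ (Or.inr (Or.inr rfl))
      · refine hmem _ (Or.inl ?_)
        have := h.perm1.subset hq'
        simp only [List.mem_append, Pool.Agent.Y968.TP.tw, List.mem_cons, List.not_mem_nil, or_false] at this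
        rcases this with this | this | this
        · exfalso
          rcases this with rfl | rfl | rfl | rfl | rfl | rfl | rfl | rfl | rfl | rfl | rfl | rfl
          · exact na1 f1.symm
          · exact na1 f1.symm
          · exact nb1 f1.symm
          · exact nb1 f1.symm
          · exact g1 f1.symm
          · exact g1 f1.symm
          · exact g2 f1.symm
          · exact g2 f1.symm
          · exact g3 f1.symm
          · exact g3 f1.symm
          · exact g4 f1.symm
          · exact g4 f1.symm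
        · exact ⟨q', this, f1⟩
        · exact absurd ⟨q', this, f1⟩ hno

end

theorem remF (hD : Classical D) (hn : (D.map Prod.snd).Nodup) (hst : St D Ts m)
    {C : List Pass × ℕ} (hC : C ∈ D) {a c : List Pass} {p r : Pass}
    (h : C.1 = a ++ p :: r :: c) {T : Tri} (hT : T ∈ Ts) {W : List Pass}
    (hW : W ∈ [T.wi, T.wj, T.wk]) {p' r' : Pass} (hcyc : Cyc r' p' W)
    (e1 : p'.crossing = m p.crossing) (e2 : p'.isOver = p.isOver)
    (e3 : r'.crossing = m r.crossing) (e4 : r'.isOver = r.isOver) : Red D Ts m := by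
  obtain ⟨T', g1, rfl, rfl, g4⟩ := normal hW hcyc
  obtain ⟨l₁, l₂, rfl⟩ := List.append_of_mem hT
  obtain ⟨hok, hht⟩ := hst.ok T hT
  have hperm : (D ++ TC (l₁ ++ T :: l₂)).Perm (D ++ (T.code ++ TC (l₁ ++ l₂))) := by
    refine List.Perm.append_left _ ?_
    simp only [TC, List.flatMap_append, List.flatMap_cons]
    rw [← List.append_assoc, ← List.append_assoc]
    exact List.Perm.append_right _ List.perm_append_comm
  have hW' : WF (passes (D ++ (T'.code ++ TC (l₁ ++ l₂)))) :=
    wf_ceq g4.ceq (WF.perm (passes_perm hperm) hst.wf)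
  have hmem : ∀ s, s ∈ passes (D ++ TC (l₁ ++ T :: l₂)) ↔
      s ∈ passes (D ++ (T'.code ++ TC (l₁ ++ l₂))) := by
    intro s
    rw [(passes_perm hperm).mem_iff]
    simp only [passes_append', List.mem_append, g4.ceq.1 s]
  have hM' : Matching (passes (D ++ (T'.code ++ TC (l₁ ++ l₂)))) m := matching_congr hmem hst.mt
  have hN' : NullV (D ++ (T'.code ++ TC (l₁ ++ l₂))) m := by
    refine Pool.Agent.R800.BT.nullV_of hmem (fun G _ o u hn' b => ?_) hst.nv
    have h1 := (hn' b).perm (bv_perm ((hperm.trans (List.perm_append_comm_assoc _ _ _)).map _) b)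
    rw [List.map_append, bv_append] at h1
    have h2 := g4.ceq.2.2 G o u b _ h1
    have h3 : (vals o u (D ++ (T'.code ++ TC (l₁ ++ l₂)))).Perm
        (vals o u T'.code ++ vals o u (D ++ TC (l₁ ++ l₂))) := by
      unfold vals
      rw [← List.map_append]
      exact (List.perm_append_comm_assoc _ _ _).map _
    exact h2.perm (by rw [← bv_append]; exact (bv_perm h3.symm b))
  have hok' := g4.ok hok
  have hcn : T'.a₁ ≠ T'.b₁ := by
    intro h
    have h1 := hW'.2
    have h2 : (passes T'.code).Nodup := by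
      have := WF.nodup hW'
      rw [passes_append', passes_append'] at this
      exact (List.nodup_append.1 (List.nodup_append.1 this).2.1).1
    have h3 : ∀ P Q : Pass, P ∈ passes (D ++ (T'.code ++ TC (l₁ ++ l₂))) →
        Q ∈ passes (D ++ (T'.code ++ TC (l₁ ++ l₂))) → P.crossing = Q.crossing →
        P.isOver = Q.isOver → P = Q := fun P Q hP hQ hc ho =>
      List.inj_on_of_nodup_map h1 hP hQ (by simp [hc, ho])
    have hmem : ∀ P ∈ passes T'.code, P ∈ passes (D ++ (T'.code ++ TC (l₁ ++ l₂))) := by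
      intro P hP
      rw [passes_append', passes_append']; simp [hP]
    by_cases ho : T'.ta = T'.tb
    · have e := h3 T'.pa₁ T'.pb₁ (hmem _ (by rw [mem_code]; simp)) (hmem _ (by rw [mem_code]; simp))
        h ho
      rw [Tri.code, passes_cons] at h2
      have h4 := (List.nodup_append.1 h2).1
      unfold Tri.wi word4 at h4
      rw [if_pos g1, e] at h4
      simp at h4
    · have e := h3 T'.pa₁.mate T'.pb₁ (hmem _ (by rw [mem_code]; simp))
        (hmem _ (by rw [mem_code]; simp)) h (by
          change (!T'.ta) = T'.tb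
          cases h5 : T'.ta <;> cases h6 : T'.tb <;> simp_all)
      rw [Tri.code, passes_cons, passes_cons] at h2
      refine (List.nodup_append.1 h2).2.2 T'.pb₁ ?_ T'.pa₁.mate ?_ e.symm
      · unfold Tri.wi word4; rw [if_pos g1]; simp
      · unfold Tri.wj word4; split_ifs <;> simp
  obtain ⟨K, hK⟩ := exists_bound (passes (D ++ (T'.code ++ TC (l₁ ++ l₂))))
  have hfr : ∀ k, ∀ q ∈ passes (D ++ (T'.code ++ TC (l₁ ++ l₂))),
      q.crossing ≠ Nat.pair 0 (K + k) := by
    intro k p hp he
    have := hK p hp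
    rw [he, Nat.unpair_pair] at this
    simp only at this
    omega
  have hne : Nat.pair 0 (K + 0) ≠ Nat.pair 0 (K + 1) := by
    intro h
    have := (Nat.pair_eq_pair.1 h).2
    omega
  have hpr : p.crossing ≠ r.crossing := by
    intro he
    have : T'.a₁ = T'.b₁ := by
      have h1 : T'.a₁ = m p.crossing := e1
      have h2 : T'.b₁ = m r.crossing := e3
      rw [h1, h2, he]
    exact hcn this
  have htc : T'.tc = r.isOver ∨ p.isOver = r.isOver := by
    rw [← e4, ← e2]
    exact hok'.1
  set na := Nat.pair 0 (K + 0) with hna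
  set nb := Nat.pair 0 (K + 1) with hnb
  obtain ⟨m', o1, o2, o3, o4⟩ := outF (O := TC (l₁ ++ l₂)) (T := T') hok' g1 hD.1 hW' hM' hN' hC h
    e1.symm e2.symm e3.symm e4.symm hne (fun q hq => ⟨hfr 0 q hq, hfr 1 q hq⟩)
  have hfrD : ∀ q ∈ passes D, q.crossing ≠ na ∧ q.crossing ≠ nb := by
    intro q hq
    have : q ∈ passes (D ++ (T'.code ++ TC (l₁ ++ l₂))) := by
      rw [passes_append']; exact List.mem_append_left _ hq
    exact ⟨hfr 0 q this, hfr 1 q this⟩
  have k1 := Pool.Agent.Y333.TP.mid_planar D p r T'.tc C a c na nb hD hC h hpr hne hfrD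
  have k2 := Pool.Agent.Y514.TP.out_planar D p r T'.tc C a c na nb hD hC h hpr hne hfrD
  obtain ⟨k3, k4⟩ := Pool.Agent.Y210.TP.move D p r T'.tc C a c na nb hD.1 hC h hpr htc hne hfrD
  have hsub : ∀ T₁ ∈ l₁ ++ l₂, T₁ ∈ l₁ ++ T :: l₂ := by
    intro T₁ hT₁
    rcases List.mem_append.1 hT₁ with h | h
    · simp [h]
    · simp [h]
  refine ⟨out p r T'.tc na nb D, l₁ ++ l₂, m', Or.inl ?_, k2, ?_, ⟨k2.1, o1, o2, o3, ?_⟩,
    ⟨fun T₁ hT₁ => ⟨T₁, hsub _ hT₁, SameTri.refl _⟩, o4⟩,
    Movie.head hD k1 (Step.reidInv _ _ k3) (Movie.head k1 k2 (Step.reid _ _ k4)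
      Relation.ReflTransGen.refl)⟩
  · simp only [List.length_append, List.length_cons]; omega
  · have : (out p r T'.tc na nb D).map Prod.snd = D.map Prod.snd := by simp [out]
    rw [this]; exact hn
  · intro T₁ hT₁
    exact hst.ok T₁ (hsub _ hT₁)

/-- one step of the reduction -/
theorem step_of_junc (hD : Classical D) (hn : (D.map Prod.snd).Nodup) (hst : St D Ts m)
    (hj : Jn D Ts m) : Red D Ts m := by
  obtain ⟨C, hC, a, c, p, r, hpr, hcase⟩ := hj
  rcases hcase with (⟨k1, k2, k3⟩ | ⟨k1, k2, k3⟩) | ⟨T, hT, W, hW, p', r', hcyc, e1, e2, e3, e4⟩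
  · exact caseA hD hn hst hC hpr k1 k2 k3
  · exact caseB hD hn hst hC hpr k1 k2 k3
  · exact remF hD hn hst hC hpr hT hW hcyc e1 e2 e3 e4

end Pool.Agent.V5helper74.SR
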