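import Pool.Agent.V5helper74.SR.E6

/-! Removing triple points with control of the matching; the reduction. -/

namespace Pool.Agent.V5helper74.SR

open Pool.Agent.Y468.SR
open Pool.Agent.Y874.TP
open Pool.Agent.R800.BT

variable {D : Code} {Ts : List Tri} {m : ℕ → ℕ}

/-- a matching for which all labels extend agrees with the old one outside the removed names -/
theorem rem_local {S N : Set ℕ} {m m' : ℕ → ℕ} {σ : ℕ → Bool} {χ : ℕ → ℕ} (hm' : Mt (S \ N) m' σ χ)
    (_hS : ∀ c ∈ S, m c ∈ S)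
    (h : ∀ (G : Type) [Group G] (o u : ℕ → G), Vd (S \ N) m' o u →
      ∃ o' u' : ℕ → G, Vd S m o' u' ∧ ∀ c, c ∉ N → o' c = o c ∧ u' c = u c)
    {c : ℕ} (hc : c ∈ S) (hcN : c ∉ N) (hmc : m c ∉ N) : m' c = m c := by
  classical
  set g : Multiplicative ℤ := Multiplicative.ofAdd 1 with hg
  have g1 : g ≠ 1 := by
    intro h
    have := congrArg Multiplicative.toAdd h
    simp [hg] at this
  have g2 : g⁻¹ ≠ 1 := fun h => g1 (inv_eq_one.1 h)
  obtain ⟨e1, e2, -, -⟩ := hm' c ⟨hc, hcN⟩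
  by_cases hfix : m' c = c
  · obtain ⟨o', u', k1, k2⟩ := h (Multiplicative ℤ) (fun x => if x = c then g else 1)
      (fun x => if x = c then g⁻¹ else 1) (by
        intro x hx
        obtain ⟨f1, f2, -, -⟩ := hm' x hx
        by_cases hxc : x = c
        · subst hxc
          simp [hfix]
        · have : m' x ≠ c := fun h => hxc (by rw [← f2, h, hfix])
          simp [hxc, this])
    obtain ⟨v1, v2⟩ := k1 c hc
    by_contra hne
    rw [hfix] at hne
    have v3 := (v2 (Ne.symm hne)).1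
    rw [(k2 c hcN).1, (k2 _ hmc).1] at v3
    simp only [if_true, if_neg (Ne.symm hne)] at v3
    exact g2 v3.symm
  · set e := m' c with he
    obtain ⟨o', u', k1, k2⟩ := h (Multiplicative ℤ)
      (fun x => if x = c then g else if x = e then g⁻¹ else 1) (fun _ => 1) (by
        intro x hx
        obtain ⟨f1, f2, -, -⟩ := hm' x hx
        by_cases hxc : x = c
        · subst hxc
          rw [← he]
          simp [hfix, Ne.symm hfix]
        · by_cases hxe : x = e
          · rw [hxe, e2]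
            simp [hfix, Ne.symm hfix]
          · have h1 : m' x ≠ c := fun h => hxe (by rw [← f2, h])
            have h2 : m' x ≠ e := fun h => hxc (by rw [← f2, h, e2])
            simp [hxc, hxe, h1, h2])
    obtain ⟨v1, v2⟩ := k1 c hc
    by_cases hd : m c = c
    · have v3 := v1 hd
      rw [(k2 c hcN).1, (k2 c hcN).2] at v3
      simp only [if_true] at v3
      exact absurd v3.symm g2
    · have v3 := (v2 hd).1
      rw [(k2 c hcN).1, (k2 _ hmc).1] at v3
      simp only [if_true, if_neg hd] at v3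
      by_contra hne
      rw [if_neg (Ne.symm hne)] at v3
      exact g2 v3.symm

/-- a triple point is removed -/
theorem removeL {T : Tri} {E : Code} {e : Bool} {σ : ℕ → Bool} {χ : ℕ → ℕ}
    (wf : WF (passes (T.code ++ E)))
    (hσ : ∀ p ∈ passes (T.code ++ E), σ p.crossing = p.isPos)
    (hm : Matching (passes (T.code ++ E)) m) (hn : NullV (T.code ++ E) m)
    (ht : T.ta = true ∧ T.tb = true ∧ T.tc = true) (he : T.ei = e ∧ T.ej = e ∧ T.ek = e)
    (hr : Rem (Cr (passes (T.code ++ E))) m σ χ e T.a₁ T.a₂ T.b₁ T.b₂ T.c₁ T.c₂) :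
    ∃ m', Matching (passes E) m' ∧ NullV E m' ∧
      ∀ c, onD E c → ¬onD T.code (m c) → m' c = m c := by
  obtain ⟨m', h1, h2⟩ := hr
  have hloc : ∀ c, onD E c → ¬onD T.code (m c) → m' c = m c := by
    intro c hc hmc
    have hcS : c ∈ Cr (passes E) := hc
    rw [← cr_diff wf] at hcS
    refine rem_local h1 ?_ (fun G _ o u hv => ?_) hcS.1 hcS.2 (fun h => hmc (nm_code.1 h))
    · rintro c ⟨p, hp, rfl⟩
      obtain ⟨q, hq, h3, -⟩ := hm p hp
      exact ⟨q, hq, h3⟩
    · obtain ⟨o', u', k1, k2, -⟩ := h2 G o u hv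
      exact ⟨o', u', k1, k2⟩
  rw [cr_diff wf] at h1 h2
  have hmem : ∀ p ∈ passes E, p ∈ passes (T.code ++ E) := by
    intro p hp; rw [passes_append']; simp [hp]
  obtain ⟨k1, k2⟩ := matching_of (fun p hp => hσ p (hmem p hp)) h1
  refine ⟨m', k1, fun G _ o u hv b => ?_, hloc⟩
  obtain ⟨o', u', v1, v2, v3⟩ := h2 G o u (vd_iff.2 hv)
  have h3 := hn G o' u' (vd_iff.1 v1) b
  rw [vals_append, bv_append] at h3
  have h4 := cn_drop (bv_one (tr_wval ht he v3) b) h3
  have h5 : vals o' u' E = vals o u E := by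
    unfold vals
    refine List.map_congr_left fun C hC => ?_
    refine Prod.ext ?_ rfl
    refine wval_congr fun r hr => ?_
    have hr' : r ∈ passes E := mem_passes.2 ⟨C, hC, hr⟩
    have h6 : r.crossing ∉ Nm T.a₁ T.a₂ T.b₁ T.b₂ T.c₁ T.c₂ := by
      have : r.crossing ∈ Cr (passes E) := ⟨r, hr', rfl⟩
      rw [← cr_diff wf] at this
      exact this.2
    obtain ⟨w1, w2⟩ := v2 _ h6
    unfold val
    rw [w1, w2]
  rwa [h5] at h4

/-- the conclusion of the removal -/
def Drop (T : Tri) (E : Code) (m : ℕ → ℕ) : Prop :=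
  ∃ m', WF (passes E) ∧ Matching (passes E) m' ∧ NullV E m' ∧
    ∀ c, onD E c → ¬onD T.code (m c) → m' c = m c

theorem onD_ceq {E E' : Code} (h : CEq E E') (c : ℕ) : onD E c ↔ onD E' c := by
  unfold onD
  exact exists_congr fun p => and_congr_left fun _ => h.1 p

theorem Drop.of {T T' : Tri} {E : Code} (h : CEq T.code T'.code) (hd : Drop T' E m) : Drop T E m := by
  obtain ⟨m', h1, h2, h3, h4⟩ := hd
  exact ⟨m', h1, h2, h3, fun c hc hmc => h4 c hc fun h' => hmc ((onD_ceq h _).2 h')⟩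

theorem drop_normL {T : Tri} {E : Code} {e : Bool} (h : Sv (T.code ++ E) (fun _ => 0) m)
    (hok : T.Ok) (ht : Hts T) (he : T.ei = e ∧ T.ej = e ∧ T.ek = e) (hb : Bad T m) : Drop T E m := by
  obtain ⟨σ, hσ⟩ := exists_sign h.wf
  obtain ⟨m', h1, h2, h3⟩ := removeL h.wf hσ h.mt h.nv ht he
    (rem_of_bad (e := e) (dat h hσ hok ht he fun _ _ _ _ => rfl) hb)
  refine ⟨m', ?_, h1, h2, h3⟩
  have := h.wf
  rw [passes_append'] at this
  exact this.remove fun p hp => mate_code hp

/-- a bad triple point can be removed -/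
theorem dropL {T : Tri} {E : Code} (h : Sv (T.code ++ E) (fun _ => 0) m) (hok : T.Ok)
    (ht : Hts T) (hb : Bad T m) : Drop T E m := by
  have hA := Tri.tr_swapA T
  have hB := Tri.tr_swapB T
  have hAB := Tri.tr_swapB T.swapA
  by_cases h1 : T.ei = T.ej
  · by_cases h2 : T.ek = T.ei
    · exact drop_normL (e := T.ei) h hok ht ⟨rfl, h1.symm, h2⟩ hb
    · refine Drop.of hA.ceq (drop_normL (e := T.ek) (h.ceq hA.ceq) (hA.ok hok) ht ?_ (bad_swapA hb))
      refine ⟨?_, ?_, rfl⟩ <;> simp only [Tri.swapA]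
      · cases h3 : T.ek <;> cases h4 : T.ei <;> simp_all
      · cases h3 : T.ek <;> cases h4 : T.ej <;> simp_all
  · by_cases h2 : T.ek = T.ei
    · refine Drop.of hB.ceq (drop_normL (e := T.ej) (h.ceq hB.ceq) (hB.ok hok) ht ?_ (bad_swapB hb))
      refine ⟨?_, rfl, ?_⟩ <;> simp only [Tri.swapB]
      · cases h3 : T.ei <;> cases h4 : T.ej <;> simp_all
      · cases h3 : T.ei <;> cases h4 : T.ej <;> simp_all
    · refine Drop.of (hA.ceq.trans hAB.ceq) (drop_normL (e := T.ei) ((h.ceq hA.ceq).ceq hAB.ceq)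
        (hAB.ok (hA.ok hok)) ht ?_ (bad_swapB (bad_swapA hb)))
      simp only [Tri.swapA, Tri.swapB]
      refine ⟨?_, ?_, ?_⟩
      · cases h3 : T.ei <;> rfl
      · cases h3 : T.ei <;> cases h4 : T.ej <;> simp_all
      · cases h3 : T.ei <;> cases h4 : T.ek <;> simp_all

theorem names_iff {T : Tri} {c : ℕ} : c ∈ T.names ↔ onD T.code c := by
  constructor
  · intro h
    have h1 : c ∈ Nm T.a₁ T.a₂ T.b₁ T.b₂ T.c₁ T.c₂ := by
      simp only [Tri.names, List.mem_cons, List.not_mem_nil, or_false] at h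
      simp only [Nm, Set.mem_insert_iff, Set.mem_singleton_iff]
      exact h
    exact nm_code.1 h1
  · intro h
    have h1 := nm_code.2 h
    simp only [Nm, Set.mem_insert_iff, Set.mem_singleton_iff] at h1
    simp only [Tri.names, List.mem_cons, List.not_mem_nil, or_false]
    exact h1

theorem onD_TC {c : ℕ} : onD (TC Ts) c ↔ ∃ T ∈ Ts, c ∈ T.names := by
  constructor
  · rintro ⟨p, hp, rfl⟩
    obtain ⟨T, hT, hp⟩ := mem_TC hp
    exact ⟨T, hT, names_iff.2 ⟨p, hp, rfl⟩⟩
  · rintro ⟨T, hT, hc⟩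
    exact exists_pass hT hc

theorem onD_append {E E' : Code} {c : ℕ} : onD (E ++ E') c ↔ onD E c ∨ onD E' c := by
  unfold onD
  rw [passes_append']
  constructor
  · rintro ⟨p, hp, h⟩
    rcases List.mem_append.1 hp with hp | hp
    · exact Or.inl ⟨p, hp, h⟩
    · exact Or.inr ⟨p, hp, h⟩
  · rintro (⟨p, hp, h⟩ | ⟨p, hp, h⟩)
    · exact ⟨p, by simp [hp], h⟩
    · exact ⟨p, by simp [hp], h⟩

/-- different triple points have different names -/
theorem St.names_disj {l₁ l₂ : List Tri} {T T' : Tri} (h : St D (l₁ ++ T :: l₂) m)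
    (hT' : T' ∈ l₁ ++ l₂) {c : ℕ} (hc : c ∈ T'.names) : ¬onD T.code c := by
  rintro ⟨p, hp, rfl⟩
  have hW := WF.perm (passes_perm (perm_TC (D := D) (l₁ := l₁) (l₂ := l₂) (T := T))) h.wf
  rw [passes_append'] at hW
  obtain ⟨q, hq, h1⟩ := exists_pass hT' hc
  refine hW.ne_crossing hp (mate_code hp) (q := q) ?_ h1
  rw [passes_append']; simp [hq]

theorem St.drop {l₁ l₂ : List Tri} {T : Tri} (h : St D (l₁ ++ T :: l₂) m) (hb : Bad T m) :
    ∃ m', St D (l₁ ++ l₂) m' ∧ ∀ c, onD (D ++ TC (l₁ ++ l₂)) c → ¬onD T.code (m c) → m' c = m c := by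
  obtain ⟨hok, ht⟩ := h.ok T (by simp)
  have hs : Sv (D ++ TC (l₁ ++ T :: l₂)) (fun _ => 0) m := ⟨h.wf, h.mt, h.nv, fun _ _ => rfl⟩
  obtain ⟨m', h1, h2, h3, h4⟩ := dropL (hs.perm perm_TC) hok ht hb
  refine ⟨m', ⟨h.wfD, h1, h2, h3, fun T' hT' => h.ok T' ?_⟩, h4⟩
  rcases List.mem_append.1 hT' with h | h <;> simp [h]

/-- `T` can be removed or is free -/
def Gd (D : Code) (m : ℕ → ℕ) (T : Tri) : Prop := Bad T m ∨ Fr D m T

theorem gd_drop {l₁ l₂ : List Tri} {T : Tri} (h : St D (l₁ ++ T :: l₂) m) {m' : ℕ → ℕ}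
    (hl : ∀ c, onD (D ++ TC (l₁ ++ l₂)) c → ¬onD T.code (m c) → m' c = m c)
    {T' : Tri} (hT' : T' ∈ l₁ ++ l₂) (hg : Gd D m T') : Gd D m' T' := by
  have hTm : T' ∈ l₁ ++ T :: l₂ := by
    rcases List.mem_append.1 hT' with h | h <;> simp [h]
  have hT : T ∈ l₁ ++ T :: l₂ := by simp
  have key : ∀ c ∈ T'.names, (m c ∈ T'.names ∨ onD D (m c)) → m' c = m c := by
    intro c hc hmc
    refine hl c (onD_append.2 (Or.inr (onD_TC.2 ⟨T', hT', hc⟩))) fun h' => ?_
    rcases hmc with hmc | hmc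
    · exact h.names_disj hT' hmc h'
    · exact h.not_onD hT (names_iff.2 h') hmc
  rcases hg with hg | ⟨f1, f2, f3⟩
  · left
    have k : ∀ c ∈ T'.names, ∀ l : List ℕ, (∀ x ∈ l, x ∈ T'.names) → (m c = c ∨ m c ∈ l) →
        (m' c = c ∨ m' c ∈ l) := by
      intro c hc l hl h'
      have : m' c = m c := key c hc (Or.inl (by
        rcases h' with h' | h'
        · rw [h']; exact hc
        · exact hl _ h'))
      rw [this]; exact h'
    rcases hg with ⟨x, hx, hh⟩ | ⟨x, hx, hh⟩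
    · refine Or.inl ⟨x, hx, k x ?_ _ ?_ hh⟩
      · simp only [Tri.names, List.mem_cons, List.not_mem_nil, or_false] at hx ⊢; tauto
      · intro y hy
        simp only [Tri.names, List.mem_cons, List.not_mem_nil, or_false] at hy ⊢; tauto
    · refine Or.inr ⟨x, hx, k x ?_ _ ?_ hh⟩
      · simp only [Tri.names, List.mem_cons, List.not_mem_nil, or_false] at hx ⊢; tauto
      · intro y hy
        simp only [Tri.names, List.mem_cons, List.not_mem_nil, or_false] at hy ⊢; tauto
  · right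
    have k : ∀ c ∈ T'.names, onD D (m c) → onD D (m' c) := by
      intro c hc h'
      rw [key c hc (Or.inr h')]; exact h'
    exact ⟨f1.imp (k _ (by simp [Tri.names])) (k _ (by simp [Tri.names])),
      f2.imp (k _ (by simp [Tri.names])) (k _ (by simp [Tri.names])),
      f3.imp (k _ (by simp [Tri.names])) (k _ (by simp [Tri.names]))⟩

/-- the property is kept -/
theorem fr_keep {D' : Code} {Ts' : List Tri} {m' : ℕ → ℕ} (h : St D Ts m) (h' : St D' Ts' m')
    (hk : Keep m Ts D' m' Ts') (hF : ∀ T ∈ Ts, Fr D m T ∧ ¬Bad T m) :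
    ∀ T' ∈ Ts', Fr D' m' T' ∧ ¬Bad T' m' := by
  intro T' hT'
  obtain ⟨T, hT, i, j, k, rfl⟩ := hk.sub T' hT'
  obtain ⟨⟨f1, f2, f3⟩, hb⟩ := hF T hT
  have onT : ∀ c ∈ T.names, onD (TC Ts') c := fun c hc => onD_TC.2 ⟨_, hT', hc⟩
  have sub : ∀ c, onD (TC Ts') c → onD (TC Ts) c := by
    intro c hc
    obtain ⟨T₁, hT₁, hc⟩ := onD_TC.1 hc
    obtain ⟨T₂, hT₂, i', j', k', rfl⟩ := hk.sub T₁ hT₁
    exact onD_TC.2 ⟨T₂, hT₂, hc⟩
  have kD : ∀ c ∈ T.names, onD D (m c) → onD D' (m' c) := by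
    intro c hc hd
    refine (hk.loc c (onT c hc)).2 fun h1 => ?_
    exact h.disj (sub _ h1) hd
  refine ⟨⟨f1.imp (kD _ (by simp [Tri.names])) (kD _ (by simp [Tri.names])),
      f2.imp (kD _ (by simp [Tri.names])) (kD _ (by simp [Tri.names])),
      f3.imp (kD _ (by simp [Tri.names])) (kD _ (by simp [Tri.names]))⟩, fun hb' => hb ?_⟩
  have key : ∀ c ∈ T.names, ∀ l : List ℕ, (∀ x ∈ l, x ∈ T.names) → (m' c = c ∨ m' c ∈ l) →
      (m c = c ∨ m c ∈ l) := by
    intro c hc l hl hh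
    have h1 : onD (TC Ts') (m' c) := by
      rcases hh with hh | hh
      · rw [hh]; exact onT c hc
      · exact onT _ (hl _ hh)
    by_cases h2 : onD (TC Ts') (m c)
    · rw [← (hk.loc c (onT c hc)).1 h2]; exact hh
    · exact absurd ((hk.loc c (onT c hc)).2 h2) (h'.disj h1)
  rcases hb' with ⟨x, hx, hh⟩ | ⟨x, hx, hh⟩
  · refine Or.inl ⟨x, hx, key x ?_ _ ?_ hh⟩
    · simp only [Tri.names, List.mem_cons, List.not_mem_nil, or_false] at hx ⊢; tauto
    · intro y hy
      simp only [Tri.names, List.mem_cons, List.not_mem_nil, or_false] at hy ⊢; tauto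
  · refine Or.inr ⟨x, hx, key x ?_ _ ?_ hh⟩
    · simp only [Tri.names, List.mem_cons, List.not_mem_nil, or_false] at hx ⊢; tauto
    · intro y hy
      simp only [Tri.names, List.mem_cons, List.not_mem_nil, or_false] at hy ⊢; tauto

/-- diagrams all of whose triple points are free or can be removed -/
theorem engine (n : ℕ) : ∀ (l : ℕ) (D : Code) (Ts : List Tri) (m : ℕ → ℕ), Ts.length = n →
    (passes D).length = l → Classical D → (D.map Prod.snd).Nodup → St D Ts m →
    (∀ T ∈ Ts, Gd D m T) → Movie true false D [] := by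
  induction n using Nat.strong_induction_on with
  | _ n ihn =>
    intro l
    induction l using Nat.strong_induction_on with
    | _ l ihl =>
      intro D Ts m h1 h2 hD hn h3 hG
      by_cases h : passes D = []
      · exact movie_mono (deaths hn h)
      by_cases hb : ∃ T ∈ Ts, Bad T m
      · obtain ⟨T, hT, hb⟩ := hb
        obtain ⟨l₁, l₂, rfl⟩ := List.append_of_mem hT
        obtain ⟨m', k1, k2⟩ := h3.drop hb
        refine ihn (l₁ ++ l₂).length ?_ _ D (l₁ ++ l₂) m' rfl rfl hD hn k1 fun T' hT' =>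
          gd_drop h3 k2 hT' (hG T' ?_)
        · rw [← h1]; simp only [List.length_append, List.length_cons]; omega
        · rcases List.mem_append.1 hT' with h | h <;> simp [h]
      · push Not at hb
        have hF : ∀ T ∈ Ts, Fr D m T ∧ ¬Bad T m := fun T hT => ⟨(hG T hT).resolve_left (hb T hT), hb T hT⟩
        obtain ⟨D', Ts', m', r1, r2, r3, r4, r5, r6⟩ :=
          step_of_junc hD hn h3 (h3.junc_of hn h (h3.two hn hF))
        have hF' := fr_keep h3 r4 r5 hF
        refine r6.trans ?_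
        rcases r1 with r1 | ⟨r1, r1'⟩
        · exact ihn Ts'.length (by omega) _ D' Ts' m' rfl rfl r2 r3 r4 fun T hT => Or.inr (hF' T hT).1
        · exact ihl (passes D').length (by omega) D' Ts' m' (by omega) rfl r2 r3 r4
            fun T hT => Or.inr (hF' T hT).1

end Pool.Agent.V5helper74.SR
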