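import Pool.Agent.V5helper74.SR.E7

/-! Removing two triple points joined by double curves: the algebra. -/

namespace Pool.Agent.V5helper74.SR

open Pool.Agent.Y468.SR
open Pool.Agent.Y874.TP
open Pool.Agent.R800.BT

variable {S : Set ℕ} {m : ℕ → ℕ} {σ : ℕ → Bool} {χ : ℕ → ℕ} {e : Bool}
  {x x' y y' z z' X X' Y Y' Z Z' : ℕ}

/-- the names in `S` which are not in the list -/
def dl (S : Set ℕ) (l : List ℕ) : Set ℕ := {c | c ∈ S ∧ c ∉ l}

theorem mem_dl {S : Set ℕ} {l : List ℕ} {c : ℕ} : c ∈ dl S l ↔ c ∈ S ∧ c ∉ l := Iff.rfl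

theorem dl_pair (S : Set ℕ) (a b : ℕ) : S \ {a, b} = dl S [a, b] := by
  ext c
  simp only [Set.mem_sdiff, Set.mem_insert_iff, Set.mem_singleton_iff, mem_dl, List.mem_cons,
    List.not_mem_nil, or_false]

theorem dl_dl (S : Set ℕ) (l l' : List ℕ) : dl (dl S l) l' = dl S (l ++ l') := by
  ext c
  simp only [mem_dl, List.mem_append, not_or, and_assoc]

theorem dl_perm (S : Set ℕ) {l l' : List ℕ} (h : l.Perm l') : dl S l = dl S l' := by
  ext c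
  simp only [mem_dl, h.mem_iff]

/-- two triple points, the corresponding names have opposite signs -/
structure Dat2 (S : Set ℕ) (m : ℕ → ℕ) (σ : ℕ → Bool) (x x' y y' z z' X X' Y Y' Z Z' : ℕ) :
    Prop where
  mt : Mt S m σ (fun _ => 0)
  nd : [x, x', y, y', z, z', X, X', Y, Y', Z, Z'].Nodup
  mem : ∀ c ∈ [x, x', y, y', z, z', X, X', Y, Y', Z, Z'], c ∈ S
  sx : σ X = !σ x
  sx' : σ X' = !σ x'
  sy : σ Y = !σ y
  sy' : σ Y' = !σ y'
  sz : σ Z = !σ z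
  sz' : σ Z' = !σ z'

theorem Dat2.swap (h : Dat2 S m σ x x' y y' z z' X X' Y Y' Z Z') :
    Dat2 S m σ x' x y' y z' z X' X Y' Y Z' Z where
  mt := h.mt
  nd := by
    refine List.Perm.nodup ?_ h.nd
    rw [List.perm_iff_count]; intro a; simp only [List.count_cons, List.count_nil]; omega
  mem := by
    intro c hc
    refine h.mem c ?_
    simp only [List.mem_cons, List.not_mem_nil, or_false] at hc ⊢; tauto
  sx := h.sx'
  sx' := h.sx
  sy := h.sy'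
  sy' := h.sy
  sz := h.sz'
  sz' := h.sz

/-- the names of both triple points -/
def Nm2 (x x' y y' z z' X X' Y Y' Z Z' : ℕ) : List ℕ := [x, x', y, y', z, z', X, X', Y, Y', Z, Z']

/-- both triple points can be removed -/
def Rem2 (S : Set ℕ) (m : ℕ → ℕ) (σ : ℕ → Bool) (e : Bool)
    (x x' y y' z z' X X' Y Y' Z Z' : ℕ) : Prop :=
  ∃ m', Mt (dl S (Nm2 x x' y y' z z' X X' Y Y' Z Z')) m' σ (fun _ => 0) ∧
    ∀ (G : Type) [Group G] (o u : ℕ → G),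
    Vd (dl S (Nm2 x x' y y' z z' X X' Y Y' Z Z')) m' o u → ∃ o' u' : ℕ → G, Vd S m o' u' ∧
      (∀ c, c ∉ Nm2 x x' y y' z z' X X' Y Y' Z Z' → o' c = o c ∧ u' c = u c) ∧
      Tr e o' u' x x' y y' z z' ∧ Tr (!e) o' u' X X' Y Y' Z Z'

theorem nm2_swap : (Nm2 x' x y' y z' z X' X Y' Y Z' Z).Perm (Nm2 x x' y y' z z' X X' Y Y' Z Z') := by
  unfold Nm2
  rw [List.perm_iff_count]; intro a; simp only [List.count_cons, List.count_nil]; omega

theorem Rem2.swap (h : Rem2 S m σ e x' x y' y z' z X' X Y' Y Z' Z) :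
    Rem2 S m σ e x x' y y' z z' X X' Y Y' Z Z' := by
  obtain ⟨m', h1, h2⟩ := h
  rw [dl_perm S nm2_swap] at h1 h2
  refine ⟨m', h1, fun G _ o u hv => ?_⟩
  obtain ⟨o', u', k1, k2, k3, k4⟩ := h2 G o u hv
  exact ⟨o', u', k1, fun c hc => k2 c fun h => hc (nm2_swap.subset h), k3.swap, k4.swap⟩

theorem tr_inv {G : Type} [Group G] {o u : ℕ → G} (h : Tr e o u x x' y y' z z')
    (h1 : o X = (o x)⁻¹) (h2 : o X' = (o x')⁻¹) (h3 : o Y = (o y)⁻¹) (h4 : o Y' = (o y')⁻¹)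
    (h5 : o Z = (o z)⁻¹) (h6 : o Z' = (o z')⁻¹) (k1 : u X = (u x)⁻¹) (k2 : u X' = (u x')⁻¹)
    (k3 : u Y = (u y)⁻¹) (k4 : u Y' = (u y')⁻¹) (k5 : u Z = (u z)⁻¹) (k6 : u Z' = (u z')⁻¹) :
    Tr (!e) o u X X' Y Y' Z Z' := by
  have key : ∀ a b c d : G, a * b * c * d = 1 → b⁻¹ * a⁻¹ * d⁻¹ * c⁻¹ = 1 := by
    intro a b c d h
    have h1 : c * d * (a * b) = 1 := by
      have := rot4 h
      simpa [mul_assoc] using this
    have h2 : (c * d * (a * b))⁻¹ = 1 := by rw [h1, inv_one]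
    rw [← h2]; group
  unfold Tr at h ⊢
  cases e
  · simp only [Bool.false_eq_true, if_false] at h
    simp only [Bool.not_false, if_true, h1, h2, h3, h4, h5, h6, k1, k2, k3, k4, k5, k6]
    exact ⟨key _ _ _ _ h.1, key _ _ _ _ h.2.1, key _ _ _ _ h.2.2⟩
  · simp only [if_true] at h
    simp only [Bool.not_true, Bool.false_eq_true, if_false, h1, h2, h3, h4, h5, h6, k1, k2, k3, k4,
      k5, k6]
    exact ⟨key _ _ _ _ h.1, key _ _ _ _ h.2.1, key _ _ _ _ h.2.2⟩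

theorem elim_pairL {S : Set ℕ} {m : ℕ → ℕ} {a a' : ℕ} (h : Mt S m σ (fun _ => 0)) (ha : a ∈ S)
    (ha' : a' ∈ S) (hne : a ≠ a') (hs : σ a' = !σ a) :
    ∃ m', Mt (dl S [a, a']) m' σ (fun _ => 0) ∧ ∀ (G : Type) [Group G] (o u : ℕ → G),
      Vd (dl S [a, a']) m' o u → ∃ o' u' : ℕ → G, Vd S m o' u' ∧
        (∀ c, c ∉ [a, a'] → o' c = o c ∧ u' c = u c) ∧
        o' a' = (o' a)⁻¹ ∧ u' a' = (u' a)⁻¹ := by
  obtain ⟨m', h1, h2⟩ := elim_pair h ha ha' hne hs rfl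
  rw [dl_pair] at h1 h2
  refine ⟨m', h1, fun G _ o u hv => ?_⟩
  obtain ⟨o', u', k1, k2, k3⟩ := h2 G o u hv
  refine ⟨o', u', k1, fun c hc => ?_, k3⟩
  simp only [List.mem_cons, List.not_mem_nil, or_false, not_or] at hc
  exact k2 c hc.1 hc.2

/-- pairs are eliminated -/
theorem elimL : ∀ (l : List (ℕ × ℕ)) (S : Set ℕ) (m : ℕ → ℕ), Mt S m σ (fun _ => 0) →
    (l.flatMap fun p => [p.1, p.2]).Nodup → (∀ p ∈ l, p.1 ∈ S ∧ p.2 ∈ S ∧ σ p.2 = !σ p.1) →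
    ∃ m', Mt (dl S (l.flatMap fun p => [p.1, p.2])) m' σ (fun _ => 0) ∧
      ∀ (G : Type) [Group G] (o u : ℕ → G),
      Vd (dl S (l.flatMap fun p => [p.1, p.2])) m' o u → ∃ o' u' : ℕ → G, Vd S m o' u' ∧
      (∀ c, c ∉ (l.flatMap fun p => [p.1, p.2]) → o' c = o c ∧ u' c = u c) ∧
      ∀ p ∈ l, o' p.2 = (o' p.1)⁻¹ ∧ u' p.2 = (u' p.1)⁻¹ := by
  intro l
  induction l with
  | nil =>
    intro S m h _ _
    have e : dl S [] = S := by ext c; simp [dl]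
    refine ⟨m, by rw [List.flatMap_nil, e]; exact h, fun G _ o u hv => ⟨o, u, ?_, fun c _ => ⟨rfl, rfl⟩, by simp⟩⟩
    rw [List.flatMap_nil, e] at hv
    exact hv
  | cons p l ih =>
    intro S m h hn hl
    rw [List.flatMap_cons, List.nodup_append] at hn
    obtain ⟨n1, n2, n3⟩ := hn
    obtain ⟨p1, p2, p3⟩ := hl p (by simp)
    have hne : p.1 ≠ p.2 := by
      simp only [List.nodup_cons, List.mem_cons, List.not_mem_nil, or_false] at n1
      exact n1.1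
    obtain ⟨m1, h1, k1⟩ := elim_pairL h p1 p2 hne p3
    obtain ⟨m', h2, k2⟩ := ih (dl S [p.1, p.2]) m1 h1 n2 (by
      intro q hq
      obtain ⟨q1, q2, q3⟩ := hl q (by simp [hq])
      have f1 : q.1 ∈ l.flatMap fun p => [p.1, p.2] := List.mem_flatMap.2 ⟨q, hq, by simp⟩
      have f2 : q.2 ∈ l.flatMap fun p => [p.1, p.2] := List.mem_flatMap.2 ⟨q, hq, by simp⟩
      exact ⟨⟨q1, fun h => n3 _ h _ f1 rfl⟩, ⟨q2, fun h => n3 _ h _ f2 rfl⟩, q3⟩)
    rw [dl_dl] at h2 k2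
    refine ⟨m', h2, fun G _ o u hv => ?_⟩
    obtain ⟨o1, u1, v1, w1, r1⟩ := k2 G o u hv
    obtain ⟨o2, u2, v2, w2, r2⟩ := k1 G o1 u1 v1
    refine ⟨o2, u2, v2, fun c hc => ?_, fun q hq => ?_⟩
    · rw [List.flatMap_cons, List.mem_append, not_or] at hc
      rw [(w2 c hc.1).1, (w2 c hc.1).2]
      exact w1 c hc.2
    · rcases List.mem_cons.1 hq with rfl | hq
      · exact r2
      · have f1 : q.1 ∈ l.flatMap fun p => [p.1, p.2] := List.mem_flatMap.2 ⟨q, hq, by simp⟩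
        have f2 : q.2 ∈ l.flatMap fun p => [p.1, p.2] := List.mem_flatMap.2 ⟨q, hq, by simp⟩
        have g1 := w2 q.1 fun h => n3 _ h _ f1 rfl
        have g2 := w2 q.2 fun h => n3 _ h _ f2 rfl
        rw [g1.1, g1.2, g2.1, g2.2]
        exact r1 q hq

/-- two pairs are matched, `p` and `q` are the names with free labels -/
theorem free_two {S : Set ℕ} {p P q Q : ℕ} {l : List (ℕ × ℕ)} (h : Mt S m σ (fun _ => 0))
    (nd : ([p, P] ++ ([q, Q] ++ (l.flatMap fun p => [p.1, p.2]))).Nodup)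
    (hm : ∀ c ∈ [p, P, q, Q], c ∈ S)
    (hl : ∀ p ∈ l, p.1 ∈ S ∧ p.2 ∈ S ∧ σ p.2 = !σ p.1)
    (e₁ : m p = P) (e₂ : m q = Q) :
    ∃ m', Mt (dl S ([p, P] ++ ([q, Q] ++ (l.flatMap fun p => [p.1, p.2])))) m' σ (fun _ => 0) ∧
      ∀ (G : Type) [Group G] (o u : ℕ → G),
      Vd (dl S ([p, P] ++ ([q, Q] ++ (l.flatMap fun p => [p.1, p.2])))) m' o u → ∃ o' u' : ℕ → G,
      (∀ p ∈ l, o' p.2 = (o' p.1)⁻¹ ∧ u' p.2 = (u' p.1)⁻¹) ∧
      ∀ α β γ δ : G, ∃ o'' u'' : ℕ → G, Vd S m o'' u'' ∧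
      (∀ c ∈ l.flatMap fun p => [p.1, p.2], o'' c = o' c ∧ u'' c = u' c) ∧
      (∀ c, c ∉ ([p, P] ++ ([q, Q] ++ (l.flatMap fun p => [p.1, p.2]))) →
        o'' c = o c ∧ u'' c = u c) ∧
      (o'' p = α ∧ u'' p = β ∧ o'' P = α⁻¹ ∧ u'' P = β⁻¹) ∧
      (o'' q = γ ∧ u'' q = δ ∧ o'' Q = γ⁻¹ ∧ u'' Q = δ⁻¹) := by
  rw [List.nodup_append, List.nodup_append] at nd
  obtain ⟨n1, ⟨n2, n3, n4⟩, n5⟩ := nd
  have c1 : p ≠ P := by
    simp only [List.nodup_cons, List.mem_cons, List.not_mem_nil, or_false] at n1; exact n1.1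
  have f3 : q ≠ Q := by
    simp only [List.nodup_cons, List.mem_cons, List.not_mem_nil, or_false] at n2; exact n2.1
  have hp : p ∈ S := hm _ (by simp)
  have hq : q ∈ S := hm _ (by simp)
  have c2 : p ≠ q := n5 p (by simp) q (by simp)
  have c3 : p ≠ Q := n5 p (by simp) Q (by simp)
  have d2 : P ≠ q := n5 P (by simp) q (by simp)
  have d3 : P ≠ Q := n5 P (by simp) Q (by simp)
  have e₁' : m P = p := by rw [← e₁, (h p hp).2.1]
  have e₂' : m Q = q := by rw [← e₂, (h q hq).2.1]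
  obtain ⟨h1, k1⟩ := elim_free2 h e₁ e₁' c1
  obtain ⟨h2, k2⟩ := elim_free2 h1 e₂ e₂' f3
  rw [dl_pair, dl_pair] at h2
  obtain ⟨m', h3, k3⟩ := elimL l _ m h2 n3 (fun r hr => by
    obtain ⟨r1, r2, r3⟩ := hl r hr
    have g1 : r.1 ∈ l.flatMap fun p => [p.1, p.2] := List.mem_flatMap.2 ⟨r, hr, by simp⟩
    have g2 : r.2 ∈ l.flatMap fun p => [p.1, p.2] := List.mem_flatMap.2 ⟨r, hr, by simp⟩
    exact ⟨⟨⟨r1, fun h => n5 _ h _ (List.mem_append_right _ g1) rfl⟩, fun h => n4 _ h _ g1 rfl⟩,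
      ⟨⟨r2, fun h => n5 _ h _ (List.mem_append_right _ g2) rfl⟩, fun h => n4 _ h _ g2 rfl⟩, r3⟩)
  rw [dl_pair, dl_pair] at k2
  rw [dl_dl, dl_dl] at h3
  rw [dl_dl, dl_dl] at k3
  refine ⟨m', h3, fun G _ o u hv => ?_⟩
  obtain ⟨o', u', v1, w1, r1⟩ := k3 G o u hv
  refine ⟨o', u', r1, fun α β γ δ => ?_⟩
  have v2 := k2 G o' u' v1 γ δ
  rw [← dl_pair] at v2
  have v3 := k1 G _ _ v2 α β
  refine ⟨_, _, v3, fun c hc => ?_, fun c hc => ?_, ?_, ?_⟩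
  · have g1 : c ≠ p := fun h => n5 p (by simp) c (List.mem_append_right _ hc) h.symm
    have g2 : c ≠ P := fun h => n5 P (by simp) c (List.mem_append_right _ hc) h.symm
    have g3 : c ≠ q := fun h => n4 q (by simp) c hc h.symm
    have g4 : c ≠ Q := fun h => n4 Q (by simp) c hc h.symm
    simp only [g1, g2, g3, g4, if_false, and_self]
  · simp only [List.mem_append, List.mem_cons, List.not_mem_nil, or_false, not_or] at hc
    obtain ⟨⟨g1, g2⟩, ⟨g3, g4⟩, g5⟩ := hc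
    simp only [g1, g2, g3, g4, if_false]
    exact w1 c g5
  · simp only [if_true, if_neg (Ne.symm c1), and_self]
  · simp only [if_neg (Ne.symm c2), if_neg (Ne.symm c3), if_neg (Ne.symm d2), if_neg (Ne.symm d3),
      if_true, if_neg (Ne.symm f3), and_self]

theorem rem2_same (h : Dat2 S m σ x x' y y' z z' X X' Y Y' Z Z') (h1 : m x = X) (h2 : m y = Y) :
    Rem2 S m σ e x x' y y' z z' X X' Y Y' Z Z' := by
  have hp : ([x, X] ++ ([y, Y] ++ ([(x', X'), (y', Y'), (z, Z), (z', Z')].flatMap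
      fun p => [p.1, p.2]))).Perm (Nm2 x x' y y' z z' X X' Y Y' Z Z') := by
    unfold Nm2
    rw [List.perm_iff_count]; intro a
    simp only [List.flatMap_cons, List.flatMap_nil, List.cons_append, List.nil_append,
      List.append_nil, List.count_cons, List.count_nil]; omega
  have nd := hp.symm.nodup h.nd
  obtain ⟨m', g1, g2⟩ := free_two h.mt nd (fun c hc => h.mem c (by
    simp only [List.mem_cons, List.not_mem_nil, or_false] at hc ⊢; tauto)) (by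
    intro p hp
    simp only [List.mem_cons, List.not_mem_nil, or_false] at hp
    rcases hp with rfl | rfl | rfl | rfl
    · exact ⟨h.mem _ (by simp), h.mem _ (by simp), h.sx'⟩
    · exact ⟨h.mem _ (by simp), h.mem _ (by simp), h.sy'⟩
    · exact ⟨h.mem _ (by simp), h.mem _ (by simp), h.sz⟩
    · exact ⟨h.mem _ (by simp), h.mem _ (by simp), h.sz'⟩) h1 h2
  rw [dl_perm S hp] at g1 g2
  refine ⟨m', g1, fun G _ o u hv => ?_⟩
  obtain ⟨o', u', r, g3⟩ := g2 G o u hv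
  simp only [List.mem_cons, List.not_mem_nil, or_false, forall_eq_or_imp, forall_eq] at r
  obtain ⟨⟨r1, r1'⟩, ⟨r2, r2'⟩, ⟨r3, r3'⟩, ⟨r4, r4'⟩⟩ := r
  obtain ⟨o'', u'', v1, w1, w2, ⟨a1, a2, a3, a4⟩, ⟨b1, b2, b3, b4⟩⟩ := g3
    (if e = true then (o' y' * o' x' * 1)⁻¹ else (o' x' * o' y')⁻¹)
    (if e = true then (o' z' * u' x' * o' z)⁻¹ else (u' x' * o' z')⁻¹ * (o' z)⁻¹)
    1
    (if e = true then (u' z' * u' y' * u' z)⁻¹ else (u' y' * u' z')⁻¹ * (u' z)⁻¹)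
  have q1 := w1 x' (by simp)
  have q2 := w1 X' (by simp)
  have q3 := w1 y' (by simp)
  have q4 := w1 Y' (by simp)
  have q5 := w1 z (by simp)
  have q6 := w1 Z (by simp)
  have q7 := w1 z' (by simp)
  have q8 := w1 Z' (by simp)
  have t : Tr e o'' u'' x x' y y' z z' := by
    unfold Tr
    rw [a1, a2, b1, b2, q1.1, q1.2, q3.1, q3.2, q5.1, q5.2, q7.1, q7.2]
    split_ifs with he
    · refine ⟨?_, ?_, ?_⟩ <;> group
    · refine ⟨?_, ?_, ?_⟩ <;> group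
  refine ⟨o'', u'', v1, fun c hc => w2 c fun h' => hc (hp.subset h'), t, ?_⟩
  exact tr_inv t (by rw [a3, a1]) (by rw [q2.1, q1.1, r1]) (by rw [b3, b1]) (by rw [q4.1, q3.1, r2])
    (by rw [q6.1, q5.1, r3]) (by rw [q8.1, q7.1, r4]) (by rw [a4, a2]) (by rw [q2.2, q1.2, r1'])
    (by rw [b4, b2]) (by rw [q4.2, q3.2, r2']) (by rw [q6.2, q5.2, r3']) (by rw [q8.2, q7.2, r4'])

theorem rem2_diff (h : Dat2 S m σ x x' y y' z z' X X' Y Y' Z Z') (h1 : m x = X) (h2 : m y' = Y') :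
    Rem2 S m σ e x x' y y' z z' X X' Y Y' Z Z' := by
  have hp : ([x, X] ++ ([y', Y'] ++ ([(x', X'), (y, Y), (z, Z), (z', Z')].flatMap
      fun p => [p.1, p.2]))).Perm (Nm2 x x' y y' z z' X X' Y Y' Z Z') := by
    unfold Nm2
    rw [List.perm_iff_count]; intro a
    simp only [List.flatMap_cons, List.flatMap_nil, List.cons_append, List.nil_append,
      List.append_nil, List.count_cons, List.count_nil]; omega
  have nd := hp.symm.nodup h.nd
  obtain ⟨m', g1, g2⟩ := free_two h.mt nd (fun c hc => h.mem c (by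
    simp only [List.mem_cons, List.not_mem_nil, or_false] at hc ⊢; tauto)) (by
    intro p hp
    simp only [List.mem_cons, List.not_mem_nil, or_false] at hp
    rcases hp with rfl | rfl | rfl | rfl
    · exact ⟨h.mem _ (by simp), h.mem _ (by simp), h.sx'⟩
    · exact ⟨h.mem _ (by simp), h.mem _ (by simp), h.sy⟩
    · exact ⟨h.mem _ (by simp), h.mem _ (by simp), h.sz⟩
    · exact ⟨h.mem _ (by simp), h.mem _ (by simp), h.sz'⟩) h1 h2
  rw [dl_perm S hp] at g1 g2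
  refine ⟨m', g1, fun G _ o u hv => ?_⟩
  obtain ⟨o', u', r, g3⟩ := g2 G o u hv
  simp only [List.mem_cons, List.not_mem_nil, or_false, forall_eq_or_imp, forall_eq] at r
  obtain ⟨⟨r1, r1'⟩, ⟨r2, r2'⟩, ⟨r3, r3'⟩, ⟨r4, r4'⟩⟩ := r
  obtain ⟨o'', u'', v1, w1, w2, ⟨a1, a2, a3, a4⟩, ⟨b1, b2, b3, b4⟩⟩ := g3
    (if e = true then (1 * o' x' * o' y)⁻¹ else (o' x' * 1)⁻¹ * (o' y)⁻¹)
    (if e = true then (o' z' * u' x' * o' z)⁻¹ else (u' x' * o' z')⁻¹ * (o' z)⁻¹)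
    1
    (if e = true then (u' z')⁻¹ * (u' z * u' y)⁻¹ else (u' z' * u' y * u' z)⁻¹)
  have q1 := w1 x' (by simp)
  have q2 := w1 X' (by simp)
  have q3 := w1 y (by simp)
  have q4 := w1 Y (by simp)
  have q5 := w1 z (by simp)
  have q6 := w1 Z (by simp)
  have q7 := w1 z' (by simp)
  have q8 := w1 Z' (by simp)
  have t : Tr e o'' u'' x x' y y' z z' := by
    unfold Tr
    rw [a1, a2, b1, b2, q1.1, q1.2, q3.1, q3.2, q5.1, q5.2, q7.1, q7.2]
    split_ifs with he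
    · refine ⟨?_, ?_, ?_⟩ <;> group
    · refine ⟨?_, ?_, ?_⟩ <;> group
  refine ⟨o'', u'', v1, fun c hc => w2 c fun h' => hc (hp.subset h'), t, ?_⟩
  exact tr_inv t (by rw [a3, a1]) (by rw [q2.1, q1.1, r1]) (by rw [q4.1, q3.1, r2]) (by rw [b3, b1])
    (by rw [q6.1, q5.1, r3]) (by rw [q8.1, q7.1, r4]) (by rw [a4, a2]) (by rw [q2.2, q1.2, r1'])
    (by rw [q4.2, q3.2, r2']) (by rw [b4, b2]) (by rw [q6.2, q5.2, r3']) (by rw [q8.2, q7.2, r4'])

theorem rem2 (h : Dat2 S m σ x x' y y' z z' X X' Y Y' Z Z') (h1 : m x = X ∨ m x' = X')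
    (h2 : m y = Y ∨ m y' = Y') : Rem2 S m σ e x x' y y' z z' X X' Y Y' Z Z' := by
  rcases h1 with h1 | h1 <;> rcases h2 with h2 | h2
  · exact rem2_same h h1 h2
  · exact rem2_diff h h1 h2
  · exact (rem2_diff h.swap h1 h2).swap
  · exact (rem2_same h.swap h1 h2).swap

end Pool.Agent.V5helper74.SR
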