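import Pool.Agent.V5helper74.SR.E8

/-! Removing two triple points joined by double curves. -/

namespace Pool.Agent.V5helper74.SR

open Pool.Agent.Y468.SR
open Pool.Agent.Y874.TP
open Pool.Agent.R800.BT

/-- the double curves through a triple point -/
inductive Lt
  | A | B | C
  deriving DecidableEq

/-- the crossings of the circles -/
def pt (T : Tri) : Lt → Bool → ℕ
  | .A, false => T.a₁
  | .A, true => T.a₂
  | .B, false => T.b₁
  | .B, true => T.b₂
  | .C, false => T.c₁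
  | .C, true => T.c₂

theorem names_pt {T : Tri} {c : ℕ} : c ∈ T.names ↔ ∃ y i, pt T y i = c := by
  constructor
  · intro h
    simp only [Tri.names, List.mem_cons, List.not_mem_nil, or_false] at h
    rcases h with rfl | rfl | rfl | rfl | rfl | rfl
    · exact ⟨.A, false, rfl⟩
    · exact ⟨.A, true, rfl⟩
    · exact ⟨.B, false, rfl⟩
    · exact ⟨.B, true, rfl⟩
    · exact ⟨.C, false, rfl⟩
    · exact ⟨.C, true, rfl⟩
  · rintro ⟨y, i, rfl⟩
    simp only [Tri.names, List.mem_cons, List.not_mem_nil, or_false]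
    cases y <;> cases i <;> simp [pt]

theorem pt_names (T : Tri) (y : Lt) (i : Bool) : pt T y i ∈ T.names := names_pt.2 ⟨y, i, rfl⟩

/-- the sign of a triple point -/
def et (T : Tri) : Bool := xor T.ei (xor T.ej T.ek)

/-- the same circles, the names of the two crossings of some double curves are exchanged -/
structure Sw (T T' : Tri) : Prop where
  ceq : CEq T.code T'.code
  ok : T.Ok → T'.Ok
  ht : Hts T → Hts T'
  et : et T' = et T
  pt : ∀ y, ∃ s, ∀ i, pt T' y i = pt T y (xor s i)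

theorem Sw.refl (T : Tri) : Sw T T :=
  ⟨CEq.refl _, id, id, rfl, fun y => ⟨false, fun i => by rw [Bool.false_xor]⟩⟩

theorem Sw.trans {T T' T'' : Tri} (h : Sw T T') (h' : Sw T' T'') : Sw T T'' := by
  refine ⟨h.ceq.trans h'.ceq, fun k => h'.ok (h.ok k), fun k => h'.ht (h.ht k), h'.et.trans h.et,
    fun y => ?_⟩
  obtain ⟨s, hs⟩ := h.pt y
  obtain ⟨s', hs'⟩ := h'.pt y
  exact ⟨xor s s', fun i => by rw [hs', hs, Bool.xor_assoc]⟩

def swapC (T : Tri) : Tri :=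
  { T with c₁ := T.c₂, c₂ := T.c₁, sc := !T.sc, ej := !T.ej, ek := !T.ek }

theorem sw_A (T : Tri) : Sw T T.swapA := by
  refine ⟨(Tri.tr_swapA T).ceq, (Tri.tr_swapA T).ok, id, ?_, fun y => ?_⟩
  · simp only [et, Tri.swapA]
    cases T.ei <;> cases T.ej <;> cases T.ek <;> rfl
  · cases y
    · exact ⟨true, fun i => by cases i <;> rfl⟩
    · exact ⟨false, fun i => by cases i <;> rfl⟩
    · exact ⟨false, fun i => by cases i <;> rfl⟩

theorem sw_B (T : Tri) : Sw T T.swapB := by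
  refine ⟨(Tri.tr_swapB T).ceq, (Tri.tr_swapB T).ok, id, ?_, fun y => ?_⟩
  · simp only [et, Tri.swapB]
    cases T.ei <;> cases T.ej <;> cases T.ek <;> rfl
  · cases y
    · exact ⟨false, fun i => by cases i <;> rfl⟩
    · exact ⟨true, fun i => by cases i <;> rfl⟩
    · exact ⟨false, fun i => by cases i <;> rfl⟩

theorem sw_C (T : Tri) : Sw T (swapC T) := by
  refine ⟨?_, ?_, id, ?_, fun y => ?_⟩
  · have h1 : (swapC T).pc₁ = T.pc₂ := by simp [Tri.pc₁, Tri.pc₂, swapC]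
    have h2 : (swapC T).pc₂ = T.pc₁ := by simp [Tri.pc₁, Tri.pc₂, swapC]
    simp only [Tri.code, Tri.wi, Tri.wj, Tri.wk, h1, h2]
    exact ceq_three (RotW.refl _) (word4_swap₂ _ _ _ _ _) (word4_swap₂ _ _ _ _ _)
  · obtain ⟨a₁, a₂, b₁, b₂, c₁, c₂, ta, tb, tc, sa, sb, sc, ei, ej, ek, li, lj, lk⟩ := T
    simp only [Tri.Ok, swapC]
    revert ta tb tc sa sb sc ei ej ek; decide
  · simp only [et, swapC]
    cases T.ei <;> cases T.ej <;> cases T.ek <;> rfl
  · cases y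
    · exact ⟨false, fun i => by cases i <;> rfl⟩
    · exact ⟨false, fun i => by cases i <;> rfl⟩
    · exact ⟨true, fun i => by cases i <;> rfl⟩

theorem exists_norm₁ (T : Tri) : ∃ T', Sw T T' ∧ T'.ei = et T ∧ T'.ej = et T ∧ T'.ek = et T := by
  cases h1 : T.ei <;> cases h2 : T.ej <;> cases h3 : T.ek
  · exact ⟨T, Sw.refl T, by simp [et, h1, h2, h3], by simp [et, h1, h2, h3], by simp [et, h1, h2, h3]⟩
  · exact ⟨_, sw_A T, by simp [et, h1, h2, h3, Tri.swapA], by simp [et, h1, h2, h3, Tri.swapA],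
      by simp [et, h1, h2, h3, Tri.swapA]⟩
  · exact ⟨_, sw_B T, by simp [et, h1, h2, h3, Tri.swapB], by simp [et, h1, h2, h3, Tri.swapB],
      by simp [et, h1, h2, h3, Tri.swapB]⟩
  · exact ⟨_, sw_C T, by simp [et, h1, h2, h3, swapC], by simp [et, h1, h2, h3, swapC],
      by simp [et, h1, h2, h3, swapC]⟩
  · exact ⟨_, sw_C T, by simp [et, h1, h2, h3, swapC], by simp [et, h1, h2, h3, swapC],
      by simp [et, h1, h2, h3, swapC]⟩
  · exact ⟨_, sw_B T, by simp [et, h1, h2, h3, Tri.swapB], by simp [et, h1, h2, h3, Tri.swapB],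
      by simp [et, h1, h2, h3, Tri.swapB]⟩
  · exact ⟨_, sw_A T, by simp [et, h1, h2, h3, Tri.swapA], by simp [et, h1, h2, h3, Tri.swapA],
      by simp [et, h1, h2, h3, Tri.swapA]⟩
  · exact ⟨T, Sw.refl T, by simp [et, h1, h2, h3], by simp [et, h1, h2, h3], by simp [et, h1, h2, h3]⟩

theorem exists_norm (T : Tri) (s : Bool) :
    ∃ T', Sw T T' ∧ T'.ei = et T ∧ T'.ej = et T ∧ T'.ek = et T ∧ T'.sa = s := by
  obtain ⟨T', h1, h2, h3, h4⟩ := exists_norm₁ T
  by_cases h : T'.sa = s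
  · exact ⟨T', h1, h2, h3, h4, h⟩
  · refine ⟨_, h1.trans ((sw_A T').trans ((sw_B _).trans (sw_C _))), ?_, ?_, ?_, ?_⟩
    · simp only [swapC, Tri.swapB, Tri.swapA, Bool.not_not, h2]
    · simp only [swapC, Tri.swapB, Tri.swapA, Bool.not_not, h3]
    · simp only [swapC, Tri.swapB, Tri.swapA, Bool.not_not, h4]
    · simp only [swapC, Tri.swapB, Tri.swapA]
      cases h5 : T'.sa <;> cases s <;> simp_all

variable {T T' : Tri} {R : Code} {e : Bool} {σ : ℕ → Bool} {m : ℕ → ℕ}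

theorem nm_dl {S : Set ℕ} {x x' y y' z z' : ℕ} (l : List ℕ) :
    dl (S \ Nm x x' y y' z z') l = dl S ([x, x', y, y', z, z'] ++ l) := by
  ext c
  simp only [mem_dl, Set.mem_sdiff, Nm, Set.mem_insert_iff, Set.mem_singleton_iff, List.mem_append,
    List.mem_cons, List.not_mem_nil, or_false]
  tauto

theorem cr_diff2 (h : WF (passes (T.code ++ (T'.code ++ R)))) :
    dl (Cr (passes (T.code ++ (T'.code ++ R))))
      (Nm2 T.a₁ T.a₂ T.b₁ T.b₂ T.c₁ T.c₂ T'.a₁ T'.a₂ T'.b₁ T'.b₂ T'.c₁ T'.c₂) = Cr (passes R) := by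
  have h' : WF (passes (T'.code ++ R)) := by
    have := h
    rw [passes_append'] at this
    exact this.remove fun p hp => mate_code hp
  have h1 := cr_diff h
  have h2 := cr_diff h'
  rw [← h1] at h2
  rw [← h2]
  ext c
  simp only [mem_dl, Set.mem_sdiff, Nm, Nm2, Set.mem_insert_iff, Set.mem_singleton_iff,
    List.mem_cons, List.not_mem_nil, or_false]
  tauto

/-- two triple points are removed -/
theorem removeL2 (wf : WF (passes (T.code ++ (T'.code ++ R))))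
    (hσ : ∀ p ∈ passes (T.code ++ (T'.code ++ R)), σ p.crossing = p.isPos)
    (hm : Matching (passes (T.code ++ (T'.code ++ R))) m) (hn : NullV (T.code ++ (T'.code ++ R)) m)
    (ht : Hts T) (ht' : Hts T') (he : T.ei = e ∧ T.ej = e ∧ T.ek = e)
    (he' : T'.ei = (!e) ∧ T'.ej = (!e) ∧ T'.ek = (!e))
    (hr : Rem2 (Cr (passes (T.code ++ (T'.code ++ R)))) m σ e T.a₁ T.a₂ T.b₁ T.b₂ T.c₁ T.c₂
      T'.a₁ T'.a₂ T'.b₁ T'.b₂ T'.c₁ T'.c₂) :
    ∃ m', Matching (passes R) m' ∧ NullV R m' ∧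
      ∀ c, onD R c → ¬onD T.code (m c) → ¬onD T'.code (m c) → m' c = m c := by
  obtain ⟨m', h1, h2⟩ := hr
  set N := Nm2 T.a₁ T.a₂ T.b₁ T.b₂ T.c₁ T.c₂ T'.a₁ T'.a₂ T'.b₁ T'.b₂ T'.c₁ T'.c₂ with hN
  have hNm : ∀ c, c ∈ N → onD T.code c ∨ onD T'.code c := by
    intro c hc
    rw [← names_iff, ← names_iff]
    simp only [hN, Nm2, Tri.names, List.mem_cons, List.not_mem_nil, or_false] at hc ⊢
    tauto
  have hdl : dl (Cr (passes (T.code ++ (T'.code ++ R)))) N =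
      Cr (passes (T.code ++ (T'.code ++ R))) \ {c | c ∈ N} := rfl
  have hloc : ∀ c, onD R c → ¬onD T.code (m c) → ¬onD T'.code (m c) → m' c = m c := by
    intro c hc hmc hmc'
    have hcS : c ∈ Cr (passes R) := hc
    rw [← cr_diff2 wf] at hcS
    rw [hdl] at h1 h2
    refine rem_local h1 ?_ (fun G _ o u hv => ?_) hcS.1 hcS.2
      (fun h => (hNm _ h).elim hmc hmc')
    · rintro c ⟨p, hp, rfl⟩
      obtain ⟨q, hq, h3, -⟩ := hm p hp
      exact ⟨q, hq, h3⟩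
    · obtain ⟨o', u', k1, k2, -⟩ := h2 G o u hv
      exact ⟨o', u', k1, k2⟩
  rw [hN, cr_diff2 wf] at h1 h2
  have hmem : ∀ p ∈ passes R, p ∈ passes (T.code ++ (T'.code ++ R)) := by
    intro p hp; rw [passes_append', passes_append']; simp [hp]
  obtain ⟨k1, k2⟩ := matching_of (fun p hp => hσ p (hmem p hp)) h1
  refine ⟨m', k1, fun G _ o u hv b => ?_, hloc⟩
  obtain ⟨o', u', v1, v2, v3, v4⟩ := h2 G o u (vd_iff.2 hv)
  have h3 := hn G o' u' (vd_iff.1 v1) b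
  rw [vals_append, bv_append, vals_append, bv_append] at h3
  have h4 := cn_drop (bv_one (tr_wval ht' he' v4) b) (cn_drop (bv_one (tr_wval ht he v3) b) h3)
  have h5 : vals o' u' R = vals o u R := by
    unfold vals
    refine List.map_congr_left fun C hC => ?_
    refine Prod.ext ?_ rfl
    refine wval_congr fun r hr => ?_
    have hr' : r ∈ passes R := mem_passes.2 ⟨C, hC, hr⟩
    have h6 : r.crossing ∉ N := by
      have : r.crossing ∈ Cr (passes R) := ⟨r, hr', rfl⟩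
      rw [← cr_diff2 wf] at this
      exact this.2
    obtain ⟨w1, w2⟩ := v2 _ h6
    unfold val
    rw [w1, w2]
  rwa [h5] at h4

/-- the data of two normal triple points -/
theorem dat2 (wf : WF (passes (T.code ++ (T'.code ++ R))))
    (hσ : ∀ p ∈ passes (T.code ++ (T'.code ++ R)), σ p.crossing = p.isPos)
    (hm : Matching (passes (T.code ++ (T'.code ++ R))) m)
    (hok : T.Ok) (hok' : T'.Ok) (ht : Hts T) (ht' : Hts T') (he : T.ei = e ∧ T.ej = e ∧ T.ek = e)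
    (he' : T'.ei = (!e) ∧ T'.ej = (!e) ∧ T'.ek = (!e)) (hs : T'.sa = !T.sa) :
    Dat2 (Cr (passes (T.code ++ (T'.code ++ R)))) m σ T.a₁ T.a₂ T.b₁ T.b₂ T.c₁ T.c₂
      T'.a₁ T'.a₂ T'.b₁ T'.b₂ T'.c₁ T'.c₂ := by
  obtain ⟨s1, s2⟩ := ok_signs hok ht he
  obtain ⟨s3, s4⟩ := ok_signs hok' ht' he'
  have hT : ∀ p ∈ passes T.code, p ∈ passes (T.code ++ (T'.code ++ R)) := by
    intro p hp; rw [passes_append']; simp [hp]
  have hT' : ∀ p ∈ passes T'.code, p ∈ passes (T.code ++ (T'.code ++ R)) := by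
    intro p hp; rw [passes_append', passes_append']; simp [hp]
  have m1 := hT T.pa₁ (by rw [mem_code]; simp)
  have m2 := hT T.pa₂ (by rw [mem_code]; simp)
  have m3 := hT T.pb₁ (by rw [mem_code]; simp)
  have m4 := hT T.pb₂ (by rw [mem_code]; simp)
  have m5 := hT T.pc₁ (by rw [mem_code]; simp)
  have m6 := hT T.pc₂ (by rw [mem_code]; simp)
  have n1 := hT' T'.pa₁ (by rw [mem_code]; simp)
  have n2 := hT' T'.pa₂ (by rw [mem_code]; simp)
  have n3 := hT' T'.pb₁ (by rw [mem_code]; simp)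
  have n4 := hT' T'.pb₂ (by rw [mem_code]; simp)
  have n5 := hT' T'.pc₁ (by rw [mem_code]; simp)
  have n6 := hT' T'.pc₂ (by rw [mem_code]; simp)
  have v1 : σ T.a₁ = !T.sa := hσ _ m1
  have v2 : σ T.a₂ = T.sa := hσ _ m2
  have v3 : σ T.b₁ = !T.sb := hσ _ m3
  have v4 : σ T.b₂ = T.sb := hσ _ m4
  have v5 : σ T.c₁ = !T.sc := hσ _ m5
  have v6 : σ T.c₂ = T.sc := hσ _ m6
  have w1 : σ T'.a₁ = !T'.sa := hσ _ n1
  have w2 : σ T'.a₂ = T'.sa := hσ _ n2
  have w3 : σ T'.b₁ = !T'.sb := hσ _ n3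
  have w4 : σ T'.b₂ = T'.sb := hσ _ n4
  have w5 : σ T'.c₁ = !T'.sc := hσ _ n5
  have w6 : σ T'.c₂ = T'.sc := hσ _ n6
  have hnd := wf.2
  rw [passes_append', passes_append', List.map_append, List.map_append] at hnd
  have d1 : [T.a₁, T.a₂, T.b₁, T.b₂, T.c₁, T.c₂].Nodup := names_nodup (List.nodup_append.1 hnd).1 ht
  have d2 : [T'.a₁, T'.a₂, T'.b₁, T'.b₂, T'.c₁, T'.c₂].Nodup :=
    names_nodup (List.nodup_append.1 (List.nodup_append.1 hnd).2.1).1 ht'
  have d3 : ∀ c ∈ [T.a₁, T.a₂, T.b₁, T.b₂, T.c₁, T.c₂],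
      ∀ d ∈ [T'.a₁, T'.a₂, T'.b₁, T'.b₂, T'.c₁, T'.c₂], c ≠ d := by
    rintro c hc d hd rfl
    obtain ⟨p, hp, h1⟩ := names_iff.1 (show c ∈ T.names from hc)
    obtain ⟨q, hq, h2⟩ := names_iff.1 (show c ∈ T'.names from hd)
    have hW := wf
    rw [passes_append'] at hW
    refine hW.ne_crossing hp (mate_code hp) (q := q) ?_ (h2.trans h1.symm)
    rw [passes_append']; simp [hq]
  refine ⟨mt_of hσ hm fun _ _ => rfl, List.nodup_append.2 ⟨d1, d2, d3⟩, ?_, ?_, ?_, ?_, ?_, ?_, ?_⟩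
  · intro c hc
    simp only [List.mem_cons, List.not_mem_nil, or_false] at hc
    rcases hc with rfl | rfl | rfl | rfl | rfl | rfl | rfl | rfl | rfl | rfl | rfl | rfl
    · exact ⟨_, m1, rfl⟩
    · exact ⟨_, m2, rfl⟩
    · exact ⟨_, m3, rfl⟩
    · exact ⟨_, m4, rfl⟩
    · exact ⟨_, m5, rfl⟩
    · exact ⟨_, m6, rfl⟩
    · exact ⟨_, n1, rfl⟩
    · exact ⟨_, n2, rfl⟩
    · exact ⟨_, n3, rfl⟩
    · exact ⟨_, n4, rfl⟩
    · exact ⟨_, n5, rfl⟩
    · exact ⟨_, n6, rfl⟩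
  · rw [w1, v1, hs]
  · rw [w2, v2, hs]
  · rw [w3, v3, s3, hs, s1]
  · rw [w4, v4, s3, hs, s1]
  · rw [w5, v5, s4, hs, s2]
  · rw [w6, v6, s4, hs, s2]

theorem sg_op {P : List Pass} (hσ : ∀ p ∈ P, σ p.crossing = p.isPos)
    (hP : ∀ p ∈ passes T.code, p ∈ P) (y : Lt) : σ (pt T y true) = !σ (pt T y false) := by
  cases y
  · have v1 : σ T.a₁ = !T.sa := hσ _ (hP T.pa₁ (by rw [mem_code]; simp))
    have v2 : σ T.a₂ = T.sa := hσ _ (hP T.pa₂ (by rw [mem_code]; simp))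
    simp only [pt, v1, v2, Bool.not_not]
  · have v1 : σ T.b₁ = !T.sb := hσ _ (hP T.pb₁ (by rw [mem_code]; simp))
    have v2 : σ T.b₂ = T.sb := hσ _ (hP T.pb₂ (by rw [mem_code]; simp))
    simp only [pt, v1, v2, Bool.not_not]
  · have v1 : σ T.c₁ = !T.sc := hσ _ (hP T.pc₁ (by rw [mem_code]; simp))
    have v2 : σ T.c₂ = T.sc := hσ _ (hP T.pc₂ (by rw [mem_code]; simp))
    simp only [pt, v1, v2, Bool.not_not]

/-- the two triple points can be removed -/
def Drop2 (T T' : Tri) (R : Code) (m : ℕ → ℕ) : Prop :=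
  ∃ m', Matching (passes R) m' ∧ NullV R m' ∧
    ∀ c, onD R c → ¬onD T.code (m c) → ¬onD T'.code (m c) → m' c = m c

theorem dropPair (h : Sv (T.code ++ (T'.code ++ R)) (fun _ => 0) m) (hok : T.Ok) (hok' : T'.Ok)
    (ht : Hts T) (ht' : Hts T') (he : et T' = !et T)
    (hA : ∃ i j, m (pt T .A i) = pt T' .A j) (hB : ∃ i j, m (pt T .B i) = pt T' .B j) :
    Drop2 T T' R m := by
  obtain ⟨T₁, s1, e1, e2, e3, -⟩ := exists_norm T true
  obtain ⟨T₂, s2, f1, f2, f3, f4⟩ := exists_norm T' (!T₁.sa)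
  have hp : (T.code ++ (T'.code ++ R)).Perm (T'.code ++ (T.code ++ R)) :=
    List.perm_append_comm_assoc _ _ _
  have hp' : (T₂.code ++ (T.code ++ R)).Perm (T.code ++ (T₂.code ++ R)) :=
    List.perm_append_comm_assoc _ _ _
  have h1 : Sv (T₁.code ++ (T₂.code ++ R)) (fun _ => 0) m :=
    (((h.perm hp).ceq s2.ceq).perm hp').ceq s1.ceq
  obtain ⟨σ, hσ⟩ := exists_sign h1.wf
  have hd := dat2 h1.wf hσ h1.mt (s1.ok hok) (s2.ok hok') (s1.ht ht) (s2.ht ht')
    ⟨e1, e2, e3⟩ ⟨by rw [f1, he], by rw [f2, he], by rw [f3, he]⟩ f4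
  have key : ∀ y, (∃ i j, m (pt T y i) = pt T' y j) → ∃ i j, m (pt T₁ y i) = pt T₂ y j := by
    rintro y ⟨i, j, hij⟩
    obtain ⟨a, ha⟩ := s1.pt y
    obtain ⟨b, hb⟩ := s2.pt y
    refine ⟨xor a i, xor b j, ?_⟩
    rw [ha, hb, ← Bool.xor_assoc, ← Bool.xor_assoc, Bool.xor_self, Bool.xor_self, Bool.false_xor,
      Bool.false_xor, hij]
  have hs : ∀ c ∈ Cr (passes (T₁.code ++ (T₂.code ++ R))), ∀ d, m c = d → d ≠ c → σ d = σ c →
      False := by
    intro c hc d h1 h2 h3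
    have h4 := (hd.mt c hc).2.2.1 (by rw [h1]; exact h2)
    rw [h1, h3] at h4
    cases h5 : σ c <;> rw [h5] at h4 <;> simp at h4
  have hnd := hd.nd
  simp only [List.nodup_cons, List.mem_cons, List.not_mem_nil, or_false, not_or,
    not_false_eq_true, List.nodup_nil, and_true] at hnd
  obtain ⟨⟨-, -, -, -, -, p1, p2, -⟩, ⟨-, -, -, -, p3, p4, -⟩, ⟨-, -, -, -, -, p5, p6, -⟩,
    ⟨-, -, -, -, p7, p8, -⟩, -⟩ := hnd
  have oA : σ T₁.a₂ = !σ T₁.a₁ := sg_op hσ (fun p hp => by rw [passes_append']; simp [hp]) .A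
  have oB : σ T₁.b₂ = !σ T₁.b₁ := sg_op hσ (fun p hp => by rw [passes_append']; simp [hp]) .B
  have gA : m T₁.a₁ = T₂.a₁ ∨ m T₁.a₂ = T₂.a₂ := by
    obtain ⟨i, j, hij⟩ := key .A hA
    cases i <;> cases j <;> simp only [pt] at hij
    · exact Or.inl hij
    · exact (hs _ (hd.mem _ (by simp)) _ hij (Ne.symm p2) (by rw [hd.sx', oA, Bool.not_not])).elim
    · exact (hs _ (hd.mem _ (by simp)) _ hij (Ne.symm p3) (by rw [hd.sx, oA])).elim
    · exact Or.inr hij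
  have gB : m T₁.b₁ = T₂.b₁ ∨ m T₁.b₂ = T₂.b₂ := by
    obtain ⟨i, j, hij⟩ := key .B hB
    cases i <;> cases j <;> simp only [pt] at hij
    · exact Or.inl hij
    · exact (hs _ (hd.mem _ (by simp)) _ hij (Ne.symm p6) (by rw [hd.sy', oB, Bool.not_not])).elim
    · exact (hs _ (hd.mem _ (by simp)) _ hij (Ne.symm p7) (by rw [hd.sy, oB])).elim
    · exact Or.inr hij
  obtain ⟨m', k1, k2, k3⟩ := removeL2 h1.wf hσ h1.mt h1.nv (s1.ht ht) (s2.ht ht') ⟨e1, e2, e3⟩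
    ⟨by rw [f1, he], by rw [f2, he], by rw [f3, he]⟩ (rem2 hd gA gB)
  refine ⟨m', k1, k2, fun c hc h₁ h₂ => k3 c hc (fun h => h₁ ((onD_ceq s1.ceq _).2 h))
    (fun h => h₂ ((onD_ceq s2.ceq _).2 h))⟩

variable {D : Code} {Ts : List Tri}

theorem permTC {Ts Ts' : List Tri} (hp : Ts.Perm Ts') : (TC Ts).Perm (TC Ts') := by
  unfold TC
  exact hp.flatMap_right _

theorem St.permT {Ts Ts' : List Tri} (hp : Ts.Perm Ts') (h : St D Ts m) : St D Ts' m where
  wfD := h.wfD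
  wf := WF.perm (passes_perm ((permTC hp).append_left D)) h.wf
  mt := matching_congr (fun _ => (passes_perm ((permTC hp).append_left D)).mem_iff) h.mt
  nv := nullV_perm ((permTC hp).append_left D) h.nv
  ok := fun T hT => h.ok T (hp.mem_iff.2 hT)

/-- two triple points joined by double curves can be removed -/
theorem St.drop2 {l : List Tri} (h : St D (T :: T' :: l) m) (he : et T' = !et T)
    (hA : ∃ i j, m (pt T .A i) = pt T' .A j) (hB : ∃ i j, m (pt T .B i) = pt T' .B j) :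
    ∃ m', St D l m' ∧
      ∀ c, onD (D ++ TC l) c → ¬onD T.code (m c) → ¬onD T'.code (m c) → m' c = m c := by
  obtain ⟨hok, ht⟩ := h.ok T (by simp)
  obtain ⟨hok', ht'⟩ := h.ok T' (by simp)
  have hp : (D ++ TC (T :: T' :: l)).Perm (T.code ++ (T'.code ++ (D ++ TC l))) := by
    rw [TC_cons, TC_cons]
    exact (List.perm_append_comm_assoc _ _ _).trans
      (List.Perm.append_left _ (List.perm_append_comm_assoc _ _ _))
  have hs : Sv (D ++ TC (T :: T' :: l)) (fun _ => 0) m := ⟨h.wf, h.mt, h.nv, fun _ _ => rfl⟩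
  have hs' := hs.perm hp
  obtain ⟨m', k1, k2, k3⟩ := dropPair hs' hok hok' ht ht' he hA hB
  have hw : WF (passes (D ++ TC l)) := by
    have h1 := hs'.wf
    rw [passes_append'] at h1
    have h2 := h1.remove fun p hp => mate_code hp
    rw [passes_append'] at h2
    exact h2.remove fun p hp => mate_code hp
  exact ⟨m', ⟨h.wfD, hw, k1, k2, fun S hS => h.ok S (by simp [hS])⟩, k3⟩

end Pool.Agent.V5helper74.SR
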