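import Mathlib

/-! Counting the faces of planar 4-valent graphs with ends on the boundary. -/

namespace Pool.Agent.V5helper74.SR.Face

open Finset Module

/-- the following dart at the same vertex -/
def nx {V : Type} (d : V × ZMod 4) : V × ZMod 4 := (d.1, d.2 + 1)

/-- the preceding dart at the same vertex -/
def pv {V : Type} (d : V × ZMod 4) : V × ZMod 4 := (d.1, d.2 - 1)

theorem nx_pv {V : Type} (d : V × ZMod 4) : nx (pv d) = d := by simp [nx, pv]

theorem pv_nx {V : Type} (d : V × ZMod 4) : pv (nx d) = d := by simp [nx, pv]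

/-- a 4-valent graph, `τ` maps each dart to the other end of its edge, the fixed darts lead to the
boundary -/
structure Gr (V : Type) where
  τ : V × ZMod 4 → V × ZMod 4
  inv : ∀ d, τ (τ d) = d

variable {V : Type} (G : Gr V)

/-- the face permutation -/
def Gr.fp : Equiv.Perm (V × ZMod 4) where
  toFun d := nx (G.τ d)
  invFun d := G.τ (pv d)
  left_inv d := by simp only [pv_nx, G.inv]
  right_inv d := by simp only [G.inv, nx_pv]

theorem Gr.fp_apply (d : V × ZMod 4) : G.fp d = nx (G.τ d) := rfl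

/-- planarity: each closed flow is the coboundary of a function on the faces, zero on the faces
meeting the boundary -/
def Gr.Pl [Fintype V] : Prop := ∀ f : V × ZMod 4 → ℚ, (∀ d, f (G.τ d) = -f d) →
  (∀ v, ∑ s, f (v, s) = 0) → ∃ w : V × ZMod 4 → ℚ, (∀ d, w (nx d) = w d + f d) ∧
    (∀ d, w (nx (G.τ d)) = w d) ∧ ∀ d, G.τ d = d → w d = 0

/-- each face not meeting the boundary has at least four corners -/
def Gr.Big : Prop := ∀ d, (∀ n : ℕ, G.τ ((G.fp ^ n) d) ≠ (G.fp ^ n) d) →
  G.fp d ≠ d ∧ (G.fp ^ 2) d ≠ d ∧ (G.fp ^ 3) d ≠ d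

theorem inv_pow {D : Type} {π : Equiv.Perm D} {w : D → ℚ} (h : ∀ d, w (π d) = w d) (d : D) (n : ℕ) :
    w ((π ^ n) d) = w d := by
  induction n with
  | zero => rfl
  | succ n ih => rw [pow_succ', Equiv.Perm.mul_apply, h, ih]

section
variable [Fintype V] [DecidableEq V]

/-- the relation of belonging to one face -/
def Gr.st : Setoid (V × ZMod 4) where
  r a b := ∃ n : ℕ, (G.fp ^ n) a = b
  iseqv := by
    refine ⟨fun a => ⟨0, rfl⟩, ?_, ?_⟩
    · rintro a b ⟨n, rfl⟩
      set π := G.fp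
      have hp : 0 < orderOf π := orderOf_pos π
      obtain ⟨k, hk⟩ : ∃ k, k + n = n * orderOf π := by
        refine ⟨n * orderOf π - n, ?_⟩
        have : n ≤ n * orderOf π := Nat.le_mul_of_pos_right n hp
        omega
      refine ⟨k, ?_⟩
      rw [← Equiv.Perm.mul_apply, ← pow_add, hk, mul_comm, pow_mul, pow_orderOf_eq_one, one_pow]
      rfl
    · rintro a b c ⟨n, rfl⟩ ⟨k, rfl⟩
      exact ⟨k + n, by rw [pow_add, Equiv.Perm.mul_apply]⟩

theorem Gr.out_eq (c : Quotient G.st) : (Quotient.mk G.st c.out) = c := Quotient.out_eq c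

/-- the faces not meeting the boundary -/
abbrev Gr.Inn : Type := {c : Quotient G.st // ∀ d, Quotient.mk G.st d = c → G.τ d ≠ d}

/-- functions on the faces, zero on the faces meeting the boundary -/
def Gr.W : Submodule ℚ (V × ZMod 4 → ℚ) where
  carrier := {w | (∀ d, w (nx (G.τ d)) = w d) ∧ ∀ d, G.τ d = d → w d = 0}
  add_mem' := by
    rintro a b ⟨h1, h2⟩ ⟨h3, h4⟩
    exact ⟨fun d => by simp [h1, h3], fun d hd => by simp [h2 d hd, h4 d hd]⟩
  zero_mem' := ⟨fun _ => rfl, fun _ _ => rfl⟩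
  smul_mem' := by
    rintro c a ⟨h1, h2⟩
    exact ⟨fun d => by simp [h1], fun d hd => by simp [h2 d hd]⟩

/-- the closed flows -/
def Gr.F : Submodule ℚ (V × ZMod 4 → ℚ) where
  carrier := {f | (∀ d, f (G.τ d) = -f d) ∧ ∀ v, ∑ s, f (v, s) = 0}
  add_mem' := by
    rintro a b ⟨h1, h2⟩ ⟨h3, h4⟩
    refine ⟨fun d => by simp [h1, h3]; ring, fun v => ?_⟩
    simp [Finset.sum_add_distrib, h2, h4]
  zero_mem' := ⟨fun _ => by simp, fun _ => by simp⟩
  smul_mem' := by
    rintro c a ⟨h1, h2⟩
    refine ⟨fun d => by simp [h1], fun v => ?_⟩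
    simp [← Finset.mul_sum, h2]

/-- the coboundary -/
def cob : (V × ZMod 4 → ℚ) →ₗ[ℚ] (V × ZMod 4 → ℚ) where
  toFun w d := w (nx d) - w d
  map_add' a b := by ext d; simp only [Pi.add_apply]; ring
  map_smul' c a := by ext d; simp only [Pi.smul_apply, smul_eq_mul, RingHom.id_apply]; ring

theorem F_le (hP : G.Pl) : G.F ≤ G.W.map cob := by
  rintro f ⟨h1, h2⟩
  obtain ⟨w, k1, k2, k3⟩ := hP f h1 h2
  refine ⟨w, ⟨k2, k3⟩, ?_⟩
  ext d
  show w (nx d) - w d = f d
  rw [k1 d]; ring

noncomputable instance : Fintype (Quotient G.st) := by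
  classical
  exact Fintype.ofFinite _

noncomputable instance : Fintype G.Inn := by
  classical
  unfold Gr.Inn
  infer_instance

theorem W_le : finrank ℚ G.W ≤ Fintype.card G.Inn := by
  classical
  let e : G.W →ₗ[ℚ] (G.Inn → ℚ) :=
    { toFun := fun w c => w.1 c.1.out
      map_add' := fun a b => rfl
      map_smul' := fun c a => rfl }
  have he : Function.Injective e := by
    rw [injective_iff_map_eq_zero]
    rintro ⟨w, h1, h2⟩ h
    have h3 : ∀ c : G.Inn, w c.1.out = 0 := fun c => congrFun h c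
    have h1' : ∀ d, w (G.fp d) = w d := h1
    refine Subtype.ext (funext fun d => ?_)
    show w d = 0
    by_cases hc : ∀ d', Quotient.mk G.st d' = Quotient.mk G.st d → G.τ d' ≠ d'
    · have h4 := h3 ⟨Quotient.mk G.st d, hc⟩
      obtain ⟨n, hn⟩ := Quotient.exact (Quotient.out_eq (Quotient.mk G.st d))
      rw [← hn, inv_pow h1']
      exact h4
    · push Not at hc
      obtain ⟨d', hd', h5⟩ := hc
      obtain ⟨n, hn⟩ := Quotient.exact hd'
      rw [← hn, inv_pow h1', h2 d' h5]
  have := LinearMap.finrank_le_finrank_of_injective he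
  rwa [finrank_fintype_fun_eq_card] at this


/-- the number of a dart -/
noncomputable def num (d : V × ZMod 4) : ℕ := (Fintype.equivFin (V × ZMod 4) d).val

theorem num_inj {a b : V × ZMod 4} (h : num a = num b) : a = b :=
  (Fintype.equivFin _).injective (Fin.ext h)

/-- one dart of each edge -/
abbrev Gr.Ep : Type := {d : V × ZMod 4 // num d < num (G.τ d)}

noncomputable instance : Fintype G.Ep := by
  classical
  unfold Gr.Ep
  infer_instance

/-- the darts leading to the boundary -/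
abbrev Gr.Ou : Type := {d : V × ZMod 4 // G.τ d = d}

noncomputable instance : Fintype G.Ou := by
  classical
  unfold Gr.Ou
  infer_instance

theorem card_Ep : 2 * Fintype.card G.Ep + Fintype.card G.Ou = 4 * Fintype.card V := by
  classical
  have e : (G.Ep ⊕ G.Ep) ⊕ G.Ou ≃ V × ZMod 4 := by
    refine Equiv.ofBijective (fun x => match x with
      | Sum.inl (Sum.inl d) => d.1
      | Sum.inl (Sum.inr d) => G.τ d.1
      | Sum.inr d => d.1) ⟨?_, ?_⟩
    · rintro ((⟨a, ha⟩ | ⟨a, ha⟩) | ⟨a, ha⟩) ((⟨b, hb⟩ | ⟨b, hb⟩) | ⟨b, hb⟩) h <;>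
        simp only at h
      · subst h; rfl
      · subst h; rw [G.inv] at ha; omega
      · subst h; rw [hb] at ha; omega
      · subst h; rw [G.inv] at hb; omega
      · have := congrArg G.τ h
        rw [G.inv, G.inv] at this
        subst this; rfl
      · rw [← h, G.inv] at hb
        rw [← hb] at ha; omega
      · subst h; rw [ha] at hb; omega
      · rw [h, G.inv] at ha
        rw [← ha] at hb; omega
      · subst h; rfl
    · intro d
      rcases lt_trichotomy (num d) (num (G.τ d)) with h | h | h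
      · exact ⟨Sum.inl (Sum.inl ⟨d, h⟩), rfl⟩
      · exact ⟨Sum.inr ⟨d, (num_inj h).symm⟩, rfl⟩
      · exact ⟨Sum.inl (Sum.inr ⟨G.τ d, by rw [G.inv]; exact h⟩), G.inv d⟩
  have := Fintype.card_congr e
  rw [Fintype.card_sum, Fintype.card_sum, Fintype.card_prod, ZMod.card] at this
  omega

/-- a function on the edges as a function on the darts -/
noncomputable def Gr.jm : (G.Ep → ℚ) →ₗ[ℚ] (V × ZMod 4 → ℚ) := by
  classical
  exact
  { toFun := fun h d => (if hd : num d < num (G.τ d) then h ⟨d, hd⟩ else 0) -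
      (if hd : num (G.τ d) < num (G.τ (G.τ d)) then h ⟨G.τ d, hd⟩ else 0)
    map_add' := by
      intro a b; ext d
      have e : ∀ x, (a + b) x = a x + b x := fun _ => rfl
      simp only [Pi.add_apply, e]
      split_ifs <;> ring
    map_smul' := by
      intro c a; ext d
      have e : ∀ x, (c • a) x = c * a x := fun _ => rfl
      simp only [Pi.smul_apply, smul_eq_mul, RingHom.id_apply, e]
      split_ifs <;> ring }

theorem jm_apply (h : G.Ep → ℚ) (d : V × ZMod 4) [Decidable (num d < num (G.τ d))]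
    [Decidable (num (G.τ d) < num (G.τ (G.τ d)))] : G.jm h d =
    (if hd : num d < num (G.τ d) then h ⟨d, hd⟩ else 0) -
      (if hd : num (G.τ d) < num (G.τ (G.τ d)) then h ⟨G.τ d, hd⟩ else 0) := by
  unfold Gr.jm
  simp only [LinearMap.coe_mk, AddHom.coe_mk]
  congr

theorem jm_inj : Function.Injective G.jm := by
  classical
  rw [injective_iff_map_eq_zero]
  intro h h0
  funext ⟨d, hd⟩
  have := congrFun h0 d
  rw [jm_apply, dif_pos hd, dif_neg (by rw [G.inv]; omega), sub_zero] at this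
  exact this

theorem jm_anti (h : G.Ep → ℚ) (d : V × ZMod 4) : G.jm h (G.τ d) = -G.jm h d := by
  classical
  rw [jm_apply, jm_apply]
  have e : ∀ d', d' = d → (if hd : num d' < num (G.τ d') then h ⟨d', hd⟩ else 0) =
      if hd : num d < num (G.τ d) then h ⟨d, hd⟩ else 0 := by
    rintro d' rfl; rfl
  rw [e (G.τ (G.τ d)) (G.inv d)]
  ring

/-- the divergence -/
def dv : (V × ZMod 4 → ℚ) →ₗ[ℚ] (V → ℚ) where
  toFun f v := ∑ s, f (v, s)
  map_add' a b := by ext v; simp [Finset.sum_add_distrib]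
  map_smul' c a := by ext v; simp [Finset.mul_sum]

/-- the sum -/
def tot : (V → ℚ) →ₗ[ℚ] ℚ where
  toFun g := ∑ v, g v
  map_add' a b := by simp [Finset.sum_add_distrib]
  map_smul' c a := by simp [Finset.mul_sum]

theorem tot_dv (h : G.Ep → ℚ) : tot (dv (G.jm h)) = 0 := by
  classical
  have h1 : tot (dv (G.jm h)) = ∑ d : V × ZMod 4, G.jm h d := by
    rw [Fintype.sum_prod_type]; rfl
  rw [h1]
  have h2 : ∑ d : V × ZMod 4, G.jm h d = ∑ d : V × ZMod 4, G.jm h (G.τ d) :=
    (Equiv.sum_comp (⟨G.τ, G.τ, G.inv, G.inv⟩ : Equiv.Perm (V × ZMod 4)) fun d => G.jm h d).symm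
  have h3 : ∑ d : V × ZMod 4, G.jm h (G.τ d) = -∑ d : V × ZMod 4, G.jm h d := by
    rw [← Finset.sum_neg_distrib]
    exact Finset.sum_congr rfl fun d _ => jm_anti G h d
  rw [h3] at h2
  linarith

theorem F_ge [Nonempty V] : Fintype.card G.Ep + 1 ≤ finrank ℚ G.F + Fintype.card V := by
  classical
  set Ψ : (G.Ep → ℚ) →ₗ[ℚ] (V → ℚ) := dv.comp G.jm with hΨ
  have h1 : finrank ℚ (LinearMap.range Ψ) + finrank ℚ (LinearMap.ker Ψ) = Fintype.card G.Ep := by
    rw [LinearMap.finrank_range_add_finrank_ker, finrank_fintype_fun_eq_card]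
  have h2 : finrank ℚ (LinearMap.range Ψ) ≤ finrank ℚ (LinearMap.ker (tot (V := V))) := by
    refine Submodule.finrank_mono ?_
    rintro _ ⟨h, rfl⟩
    exact tot_dv G h
  have h3 : finrank ℚ (LinearMap.range (tot (V := V))) + finrank ℚ (LinearMap.ker (tot (V := V))) =
      Fintype.card V := by
    rw [LinearMap.finrank_range_add_finrank_ker, finrank_fintype_fun_eq_card]
  have h4 : finrank ℚ (LinearMap.range (tot (V := V))) = 1 := by
    have : LinearMap.range (tot (V := V)) = ⊤ := by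
      rw [LinearMap.range_eq_top]
      intro x
      obtain ⟨v⟩ := ‹Nonempty V›
      refine ⟨Pi.single v x, ?_⟩
      show ∑ u, (Pi.single v x : V → ℚ) u = x
      simp
    rw [this, finrank_top, finrank_self]
  have h5 : finrank ℚ (LinearMap.ker Ψ) ≤ finrank ℚ G.F := by
    let e : LinearMap.ker Ψ →ₗ[ℚ] G.F :=
      (G.jm.comp (LinearMap.ker Ψ).subtype).codRestrict G.F (by
        rintro ⟨h, hh⟩
        refine ⟨fun d => jm_anti G h d, fun v => ?_⟩
        exact congrFun hh v)
    refine LinearMap.finrank_le_finrank_of_injective (f := e) ?_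
    rintro ⟨a, ha⟩ ⟨b, hb⟩ h
    have : G.jm a = G.jm b := congrArg Subtype.val h
    exact Subtype.ext (jm_inj G this)
  omega


/-- the darts leading to the boundary whose predecessor does not -/
abbrev Gr.Oi : Type := {d : V × ZMod 4 // G.τ d = d ∧ G.τ (pv d) ≠ pv d}

/-- the corners -/
abbrev Gr.Cn : Type := {d : V × ZMod 4 // G.τ d = d ∧ G.τ (pv d) = pv d}

noncomputable instance : Fintype G.Oi := by
  classical
  infer_instance

noncomputable instance : Fintype G.Cn := by
  classical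
  infer_instance

theorem card_Ou : Fintype.card G.Ou = Fintype.card G.Oi + Fintype.card G.Cn := by
  classical
  have e : G.Oi ⊕ G.Cn ≃ G.Ou := by
    refine Equiv.ofBijective (fun x => match x with
      | Sum.inl d => ⟨d.1, d.2.1⟩
      | Sum.inr d => ⟨d.1, d.2.1⟩) ⟨?_, ?_⟩
    · rintro (⟨a, ha, ha'⟩ | ⟨a, ha, ha'⟩) (⟨b, hb, hb'⟩ | ⟨b, hb, hb'⟩) h <;>
        simp only [Subtype.mk.injEq] at h
      · subst h; rfl
      · subst h; exact absurd hb' ha'
      · subst h; exact absurd ha' hb'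
      · subst h; rfl
    · rintro ⟨d, hd⟩
      by_cases h : G.τ (pv d) = pv d
      · exact ⟨Sum.inr ⟨d, hd, h⟩, rfl⟩
      · exact ⟨Sum.inl ⟨d, hd, h⟩, rfl⟩
  have := Fintype.card_congr e
  rw [Fintype.card_sum] at this
  omega

theorem mk_pow (d : V × ZMod 4) (n : ℕ) :
    (Quotient.mk G.st ((G.fp ^ n) d)) = Quotient.mk G.st d :=
  Eq.symm (Quotient.sound (s := G.st) (show ∃ k : ℕ, (G.fp ^ k) d = (G.fp ^ n) d from ⟨n, rfl⟩))

theorem card_le (hB : G.Big) :
    4 * Fintype.card G.Inn + Fintype.card G.Ou + Fintype.card G.Oi ≤ 4 * Fintype.card V := by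
  classical
  let φ : ((G.Inn × Fin 4) ⊕ G.Ou) ⊕ G.Oi → V × ZMod 4 := fun x => match x with
    | Sum.inl (Sum.inl (c, k)) => (G.fp ^ (k : ℕ)) c.1.out
    | Sum.inl (Sum.inr d) => d.1
    | Sum.inr d => G.τ (pv d.1)
  have hcl : ∀ (c : G.Inn) (n : ℕ), Quotient.mk G.st ((G.fp ^ n) c.1.out) = c.1 := by
    intro c n
    rw [mk_pow]; exact Quotient.out_eq c.1
  have hno : ∀ (c : G.Inn) (n : ℕ), G.τ ((G.fp ^ n) c.1.out) ≠ (G.fp ^ n) c.1.out :=
    fun c n => c.2 _ (hcl c n)
  have hcO : ∀ (c : G.Inn) (n : ℕ) (d : V × ZMod 4), G.τ d = d → G.τ (pv d) ≠ pv d →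
      (G.fp ^ n) c.1.out ≠ G.τ (pv d) := by
    intro c n d h1 _ h
    have h2 : (G.fp ^ (n + 1)) c.1.out = d := by
      rw [pow_succ', Equiv.Perm.mul_apply, h, Gr.fp_apply, G.inv, nx_pv]
    exact hno c (n + 1) (by rw [h2]; exact h1)
  have key : ∀ (c : G.Inn) (k l : ℕ), k < l → l < 4 →
      (G.fp ^ k) c.1.out ≠ (G.fp ^ l) c.1.out := by
    intro c k l h1 h2 h
    obtain ⟨j, rfl⟩ : ∃ j, l = j + k := ⟨l - k, by omega⟩
    rw [pow_add, Equiv.Perm.mul_apply] at h
    obtain ⟨b1, b2, b3⟩ := hB ((G.fp ^ k) c.1.out) fun n => by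
      rw [← Equiv.Perm.mul_apply, ← pow_add]
      exact hno c (n + k)
    have : j = 1 ∨ j = 2 ∨ j = 3 := by omega
    rcases this with rfl | rfl | rfl
    · rw [pow_one] at h; exact b1 h.symm
    · exact b2 h.symm
    · exact b3 h.symm
  have hφ : Function.Injective φ := by
    rintro ((⟨c, k⟩ | ⟨a, ha⟩) | ⟨a, ha, ha'⟩) ((⟨c', k'⟩ | ⟨b, hb⟩) | ⟨b, hb, hb'⟩) h
    · have h : (G.fp ^ (k : ℕ)) c.1.out = (G.fp ^ (k' : ℕ)) c'.1.out := h
      have h1 : c = c' := Subtype.ext (by rw [← hcl c k, h, hcl])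
      subst h1
      have h2 : k = k' := by
        rcases lt_trichotomy (k : ℕ) (k' : ℕ) with h3 | h3 | h3
        · exact absurd h (key c _ _ h3 k'.2)
        · exact Fin.ext h3
        · exact absurd h.symm (key c _ _ h3 k.2)
      rw [h2]
    · have h : (G.fp ^ (k : ℕ)) c.1.out = b := h
      exact absurd (by rw [h]; exact hb) (hno c k)
    · exact absurd h (hcO c k b hb hb')
    · have h : a = (G.fp ^ (k' : ℕ)) c'.1.out := h
      exact absurd (by rw [← h]; exact ha) (hno c' k')
    · have h : a = b := h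
      subst h; rfl
    · have h : a = G.τ (pv b) := h
      refine absurd ?_ hb'
      have h1 : G.τ (pv b) = pv b := by
        rw [h, G.inv] at ha
        exact ha.symm
      exact h1
    · exact absurd h.symm (hcO c' k' a ha ha')
    · have h : G.τ (pv a) = b := h
      refine absurd ?_ ha'
      rw [← h, G.inv] at hb
      exact hb.symm
    · have h : G.τ (pv a) = G.τ (pv b) := h
      have h1 := congrArg G.τ h
      rw [G.inv, G.inv] at h1
      have h2 := congrArg nx h1
      rw [nx_pv, nx_pv] at h2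
      subst h2; rfl
  have h := Fintype.card_le_of_injective φ hφ
  simp only [Fintype.card_sum, Fintype.card_prod, Fintype.card_fin, ZMod.card] at h
  omega

/-- planar graphs with big faces have at least four corners -/
theorem four_corners [Nonempty V] (hP : G.Pl) (hB : G.Big) : 4 ≤ Fintype.card G.Cn := by
  have h1 := card_Ep G
  have h2 := F_ge G
  have h3 : finrank ℚ G.F ≤ finrank ℚ G.W :=
    (Submodule.finrank_mono (F_le G hP)).trans (Submodule.finrank_map_le _ _)
  have h4 := W_le G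
  have h5 := card_Ou G
  have h6 := card_le G hB
  omega

/-- two corners -/
theorem two_corners [Nonempty V] (hP : G.Pl) (hB : G.Big) : ∃ d d' : V × ZMod 4, d ≠ d' ∧
    (G.τ d = d ∧ G.τ (pv d) = pv d) ∧ (G.τ d' = d' ∧ G.τ (pv d') = pv d') := by
  have h := four_corners G hP hB
  obtain ⟨a, b, hab⟩ := Fintype.one_lt_card_iff.1 (show 1 < Fintype.card G.Cn by omega)
  exact ⟨a.1, b.1, fun h => hab (Subtype.ext h), a.2, b.2⟩

end

end Pool.Agent.V5helper74.SR.Face
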