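import Pool.Agent.V5helper74.SR.G1
import Pool.Agent.V5helper74.SR.E2

/-! Planarity of pictures given by flows; pictures with big faces have corners. -/

namespace Pool.Agent.V5helper74.SR

open Pool.Agent.Y874.TP2 (CycL om)
open Face

theorem z4 (s : ZMod 4) : s = 0 ∨ s = 1 ∨ s = 2 ∨ s = 3 := by revert s; decide

section
variable {X : Type}

/-- the elements of a word of length four -/
def el (q : List X) (hq : q.length = 4) (s : ZMod 4) : X :=
  q.get ⟨ZMod.val s, by rw [hq]; exact ZMod.val_lt s⟩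

/-- the sum of the values before an element -/
def pre (F : X → ℤ) (q : List X) (s : ZMod 4) : ℤ := ((q.take (ZMod.val s)).map F).sum

theorem len4 {q : List X} (hq : q.length = 4) : ∃ a b c d, q = [a, b, c, d] := by
  rcases q with _ | ⟨a, _ | ⟨b, _ | ⟨c, _ | ⟨d, _ | ⟨e, q⟩⟩⟩⟩⟩
  · simp at hq
  · simp at hq
  · simp at hq
  · simp at hq
  · exact ⟨a, b, c, d, rfl⟩
  · simp at hq

theorem el_cyc {q : List X} (hq : q.length = 4) (s : ZMod 4) :
    CycL (el q hq s) (el q hq (s + 1)) q := by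
  obtain ⟨a, b, c, d, rfl⟩ := len4 hq
  rcases z4 s with rfl | rfl | rfl | rfl
  · exact Or.inl ⟨[], [c, d], rfl⟩
  · exact Or.inl ⟨[a], [d], rfl⟩
  · exact Or.inl ⟨[a, b], [], rfl⟩
  · exact Or.inr ⟨[b, c], rfl⟩

theorem el_mem {q : List X} (hq : q.length = 4) (s : ZMod 4) : el q hq s ∈ q := List.get_mem _ _

theorem mem_el {q : List X} (hq : q.length = 4) {x : X} (hx : x ∈ q) : ∃ s, el q hq s = x := by
  obtain ⟨a, b, c, d, rfl⟩ := len4 hq
  simp only [List.mem_cons, List.not_mem_nil, or_false] at hx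
  rcases hx with rfl | rfl | rfl | rfl
  · exact ⟨0, rfl⟩
  · exact ⟨1, rfl⟩
  · exact ⟨2, rfl⟩
  · exact ⟨3, rfl⟩

theorem el_inj {q : List X} (hn : q.Nodup) (hq : q.length = 4) {s t : ZMod 4}
    (h : el q hq s = el q hq t) : s = t := by
  have := List.nodup_iff_injective_get.1 hn h
  have h1 : ZMod.val s = ZMod.val t := Fin.mk.inj_iff.1 this
  exact ZMod.val_injective 4 h1

theorem sum4 (F : X → ℤ) {q : List X} (hq : q.length = 4) :
    (q.map F).sum = ∑ s, F (el q hq s) := by
  obtain ⟨a, b, c, d, rfl⟩ := len4 hq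
  have h : ∀ g : ZMod 4 → ℤ, ∑ s, g s = g 0 + g 1 + g 2 + g 3 := fun g => Fin.sum_univ_four g
  rw [h]
  simp only [List.map_cons, List.map_nil, List.sum_cons, List.sum_nil]
  show F a + (F b + (F c + (F d + 0))) = F a + F b + F c + F d
  ring

theorem pre_next (F : X → ℤ) {q : List X} (hq : q.length = 4) (h0 : (q.map F).sum = 0)
    (s : ZMod 4) : pre F q (s + 1) = pre F q s + F (el q hq s) := by
  obtain ⟨a, b, c, d, rfl⟩ := len4 hq
  simp only [List.map_cons, List.map_nil, List.sum_cons, List.sum_nil] at h0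
  rcases z4 s with rfl | rfl | rfl | rfl
  · show F a + 0 = 0 + F a
    ring
  · show F a + (F b + 0) = F a + 0 + F b
    ring
  · show F a + (F b + (F c + 0)) = F a + (F b + 0) + F c
    ring
  · show (0 : ℤ) = F a + (F b + (F c + 0)) + F d
    linarith

open Classical in
/-- the intersection number with an element -/
theorem om_one (F : X → ℤ) {q : List X} (hn : q.Nodup) (hq : q.length = 4)
    (h0 : (q.map F).sum = 0) (s : ZMod 4) :
    om F (fun x => if x = el q hq s then 1 else 0) q = 2 * pre F q s + F (el q hq s) := by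
  obtain ⟨a, b, c, d, rfl⟩ := len4 hq
  simp only [List.map_cons, List.map_nil, List.sum_cons, List.sum_nil] at h0
  simp only [List.nodup_cons, List.mem_cons, List.not_mem_nil, or_false, not_or,
    not_false_eq_true, List.nodup_nil, and_true] at hn
  obtain ⟨⟨n1, n2, n3⟩, ⟨n4, n5⟩, n6⟩ := hn
  rcases z4 s with rfl | rfl | rfl | rfl
  · show om F (fun x => if x = a then 1 else 0) [a, b, c, d] = 2 * 0 + F a
    simp [om, Ne.symm n1, Ne.symm n2, Ne.symm n3]
    linarith
  · show om F (fun x => if x = b then 1 else 0) [a, b, c, d] = 2 * (F a + 0) + F b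
    simp [om, n1, Ne.symm n4, Ne.symm n5]
    linarith
  · show om F (fun x => if x = c then 1 else 0) [a, b, c, d] = 2 * (F a + (F b + 0)) + F c
    simp [om, n2, n4, Ne.symm n6]
    linarith
  · show om F (fun x => if x = d then 1 else 0) [a, b, c, d] = 2 * (F a + (F b + (F c + 0))) + F d
    simp [om, n3, n5, n6]
    linarith

theorem om_add (F g h : X → ℤ) (q : List X) :
    om F (fun x => g x + h x) q = om F g q + om F h q := by
  induction q with
  | nil => rfl
  | cons x q ih =>
    have : (q.map fun x => g x + h x).sum = (q.map g).sum + (q.map h).sum := Pq.sum_add g h q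
    simp only [om, ih, this]
    ring

theorem om_sub (F g h : X → ℤ) (q : List X) :
    om F (fun x => g x - h x) q = om F g q - om F h q := by
  induction q with
  | nil => rfl
  | cons x q ih =>
    have : (q.map fun x => g x - h x).sum = (q.map g).sum - (q.map h).sum := Pq.sum_sub g h q
    simp only [om, ih, this]
    ring

theorem om_zero₂ (F g : X → ℤ) (q : List X) (h : ∀ x ∈ q, g x = 0) : om F g q = 0 :=
  Pool.Agent.Y874.TP2.om_zero' h

end

namespace Pq

variable {X : Type} {P : Pq X}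

/-- the words of the circles which are connected with `x` -/
abbrev Vx (P : Pq X) (x : X) : Type := {q : List X // q ∈ P.Q ∧ P.Cq x q}

noncomputable instance (x : X) : Fintype (P.Vx x) := by
  classical
  have : Finite (P.Vx x) := Set.Finite.subset (List.finite_toSet P.Q) fun q hq => hq.1
  exact Fintype.ofFinite _

section
variable (hG : P.Good) (h4 : ∀ q ∈ P.Q, q.length = 4) (x : X)

/-- the dart -/
def at' (h4 : ∀ q ∈ P.Q, q.length = 4) (x : X) (d : P.Vx x × ZMod 4) : X :=
  el d.1.1 (h4 d.1.1 d.1.2.1) d.2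

include hG in
theorem at_inj {d d' : P.Vx x × ZMod 4} (h : at' h4 x d = at' h4 x d') : d = d' := by
  obtain ⟨⟨q, hq, hc⟩, s⟩ := d
  obtain ⟨⟨q', hq', hc'⟩, s'⟩ := d'
  have h1 : el q (h4 q hq) s = el q' (h4 q' hq') s' := h
  have h2 : q = q' := hG.uniqQ hq hq' (el_mem (h4 q hq) s) (by rw [h1]; exact el_mem _ _)
  subst h2
  have h3 := el_inj (hG.nodupQ hq) (h4 q hq) h1
  rw [h3]

theorem at_surj {y : X} {q : List X} (hq : q ∈ P.Q) (hc : P.Cq x q) (hy : y ∈ q) :
    ∃ d, at' h4 x d = y := by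
  obtain ⟨s, hs⟩ := mem_el (h4 q hq) hy
  exact ⟨(⟨q, hq, hc⟩, s), hs⟩

theorem at_mem (d : P.Vx x × ZMod 4) : at' h4 x d ∈ d.1.1 := el_mem _ _

theorem at_dart (d : P.Vx x × ZMod 4) : P.dart (at' h4 x d) := dartQ d.1.2.1 (at_mem h4 x d)

include hG in
theorem step_ex (d : P.Vx x × ZMod 4) (h : P.σ (at' h4 x d) ∉ P.B.flatten) :
    ∃ d', at' h4 x d' = P.σ (at' h4 x d) := by
  obtain ⟨q', hq', h'⟩ := List.mem_flatten.1 ((hG.dartσ _ (at_dart h4 x d)).resolve_left h)
  exact at_surj h4 x hq' (cq_step hG d.1.2.1 hq' (at_mem h4 x d) h' d.1.2.2) h'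

theorem no_at {d : P.Vx x × ZMod 4} (hG : P.Good) (h : at' h4 x d ∈ P.B.flatten) : False :=
  hG.disj d.1.2.1 (at_mem h4 x d) h

open Classical in
/-- the other end of the edge -/
noncomputable def tau (d : P.Vx x × ZMod 4) : P.Vx x × ZMod 4 :=
  if h : ∃ d', at' h4 x d' = P.σ (at' h4 x d) then h.choose else d

theorem at_tau {d : P.Vx x × ZMod 4} (h : ∃ d', at' h4 x d' = P.σ (at' h4 x d)) :
    at' h4 x (tau h4 x d) = P.σ (at' h4 x d) := by
  unfold tau
  rw [dif_pos h]
  exact h.choose_spec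

theorem tau_no {d : P.Vx x × ZMod 4} (h : ¬∃ d', at' h4 x d' = P.σ (at' h4 x d)) :
    tau h4 x d = d := by
  unfold tau
  rw [dif_neg h]

include hG in
theorem tau_tau (d : P.Vx x × ZMod 4) : tau h4 x (tau h4 x d) = d := by
  by_cases h : ∃ d', at' h4 x d' = P.σ (at' h4 x d)
  · have h1 := at_tau h4 x h
    have h2 : P.σ (at' h4 x (tau h4 x d)) = at' h4 x d := by
      rw [h1, hG.invσ _ (at_dart h4 x d)]
    have h3 := at_tau h4 x (d := tau h4 x d) ⟨d, h2.symm⟩
    rw [h2] at h3
    exact at_inj hG h4 x h3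
  · rw [tau_no h4 x h, tau_no h4 x h]

/-- the graph of the circles connected with `x` -/
noncomputable def gr : Gr (P.Vx x) := ⟨tau h4 x, tau_tau hG h4 x⟩

include hG in
theorem tau_fix {d : P.Vx x × ZMod 4} : tau h4 x d = d ↔ P.σ (at' h4 x d) ∈ P.B.flatten := by
  constructor
  · intro h
    by_contra h1
    have h2 := at_tau h4 x (step_ex hG h4 x d h1)
    rw [h] at h2
    exact hG.neσ _ (at_dart h4 x d) h2.symm
  · intro h
    refine tau_no h4 x ?_
    rintro ⟨d', hd'⟩
    exact no_at h4 x hG (by rw [hd']; exact h)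


/-- the intersection number in the circles -/
def In (P : Pq X) (F g : X → ℤ) : ℤ := (P.Q.map (om F g)).sum

theorem in_add (F g h : X → ℤ) : In P F (fun x => g x + h x) = In P F g + In P F h := by
  unfold In
  induction P.Q with
  | nil => rfl
  | cons q Q ih => simp only [List.map_cons, List.sum_cons, ih, om_add]; ring

theorem in_sub (F g h : X → ℤ) : In P F (fun x => g x - h x) = In P F g - In P F h := by
  unfold In
  induction P.Q with
  | nil => rfl
  | cons q Q ih => simp only [List.map_cons, List.sum_cons, ih, om_sub]; ring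

theorem in_flow (hG : P.Good) {F g : X → ℤ} (hF : P.Flow F) (hB : ∀ y ∈ P.B.flatten, F y = 0)
    (hg : P.Flow g) : In P F g = 0 := by
  have h := hG.om0 F g hF hg
  rw [List.map_append, List.sum_append] at h
  have h1 : (P.B.map (om F g)).sum = 0 := by
    refine List.sum_eq_zero fun z hz => ?_
    obtain ⟨W, hW, rfl⟩ := List.mem_map.1 hz
    exact Pool.Agent.Y874.TP2.om_zero fun y hy => hB y (List.mem_flatten.2 ⟨W, hW, hy⟩)
  rw [h1, zero_add] at h
  exact h

open Classical in
theorem in_one (hG : P.Good) (h4 : ∀ q ∈ P.Q, q.length = 4) {F : X → ℤ} (hF : P.Flow F)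
    {q : List X} (hq : q ∈ P.Q) (s : ZMod 4) :
    In P F (fun y => if y = el q (h4 q hq) s then 1 else 0) =
      2 * pre F q s + F (el q (h4 q hq) s) := by
  rw [← om_one F (hG.nodupQ hq) (h4 q hq) (hF.2 q hq) s]
  refine circ_one hG hq fun q' hq' hne => om_zero₂ _ _ _ fun y hy => if_neg ?_
  rintro rfl
  exact hne (hG.uniqQ hq' hq hy (el_mem _ _))

open Classical in
theorem in_none {F : X → ℤ} {p : X} (hp : ∀ q ∈ P.Q, p ∉ q) :
    In P F (fun y => if y = p then 1 else 0) = 0 := by
  unfold In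
  refine List.sum_eq_zero fun z hz => ?_
  obtain ⟨q, hq, rfl⟩ := List.mem_map.1 hz
  refine om_zero₂ _ _ _ fun y hy => if_neg ?_
  rintro rfl
  exact hp q hq hy

theorem pre_at (h4 : ∀ q ∈ P.Q, q.length = 4) (x : X) {F : X → ℤ} (hF : P.Flow F)
    (d : P.Vx x × ZMod 4) :
    pre F (nx d).1.1 (nx d).2 = pre F d.1.1 d.2 + F (at' h4 x d) :=
  pre_next F (h4 d.1.1 d.1.2.1) (hF.2 _ d.1.2.1) d.2

/-- the potential of a closed flow -/
theorem potential (hG : P.Good) (h4 : ∀ q ∈ P.Q, q.length = 4) (x : X) {F : X → ℤ}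
    (hF : P.Flow F) (hB : ∀ y ∈ P.B.flatten, F y = 0) :
    ∃ w : P.Vx x × ZMod 4 → ℤ, (∀ d, w (nx d) = w d + 2 * F (at' h4 x d)) ∧
      (∀ d, w (nx (tau h4 x d)) = w d) ∧ ∀ d, tau h4 x d = d → w d = 0 := by
  classical
  choose g hg using fun v : P.Vx x => v.2.2
  have hw1 : ∀ d : P.Vx x × ZMod 4, In P F (g (nx d).1) + 2 * pre F (nx d).1.1 (nx d).2 =
      In P F (g d.1) + 2 * pre F d.1.1 d.2 + 2 * F (at' h4 x d) := by
    intro d
    rw [pre_at h4 x hF d]
    show In P F (g d.1) + _ = _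
    ring
  have h0 : ∀ d : P.Vx x × ZMod 4, tau h4 x d = d → F (at' h4 x d) = 0 := by
    intro d hd
    have h1 := hF.1 _ (at_dart h4 x d)
    rw [hB _ ((tau_fix hG h4 x).1 hd)] at h1
    linarith
  refine ⟨fun d => In P F (g d.1) + 2 * pre F d.1.1 d.2, hw1, fun d => ?_, fun d hd => ?_⟩
  · by_cases hd : tau h4 x d = d
    · show In P F (g (nx (tau h4 x d)).1) + 2 * pre F (nx (tau h4 x d)).1.1 (nx (tau h4 x d)).2 = _
      rw [hd, hw1 d, h0 d hd]
      ring
    · have ho : P.σ (at' h4 x d) ∉ P.B.flatten := fun h => hd ((tau_fix hG h4 x).2 h)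
      have ht := at_tau h4 x (step_ex hG h4 x d ho)
      set d' := tau h4 x d with hd'
      have hy : P.dart (at' h4 x d) := at_dart h4 x d
      -- the difference of the two flows
      have hflow : P.Flow fun y => (g d.1 y + P.ed (at' h4 x d) y) - g d'.1 y := by
        refine ⟨fun y hy' => ?_, fun q hq => ?_⟩
        · simp only [(hg d.1).1 y hy', ed_σ hG hy hy', (hg d'.1).1 y hy']
          ring
        · rw [sum_sub, sum_add, (hg d.1).2.1 q hq, (hg d'.1).2.1 q hq, sum_ed (hG.nodupQ hq)]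
          have k1 : at' h4 x d ∈ q ↔ q = d.1.1 :=
            ⟨fun h => hG.uniqQ hq d.1.2.1 h (at_mem h4 x d), fun h => by rw [h]; exact at_mem h4 x d⟩
          have k2 : P.σ (at' h4 x d) ∈ q ↔ q = d'.1.1 := by
            rw [← ht]
            exact ⟨fun h => hG.uniqQ hq d'.1.2.1 h (at_mem h4 x d'),
              fun h => by rw [h]; exact at_mem h4 x d'⟩
          simp only [k1, k2]
          split_ifs <;> ring
      have h1 := in_flow hG hF hB hflow
      rw [in_sub, in_add] at h1
      have h2 : In P F (P.ed (at' h4 x d)) = (2 * pre F d.1.1 d.2 + F (at' h4 x d)) -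
          (2 * pre F d'.1.1 d'.2 + F (at' h4 x d')) := by
        have e1 := in_one hG h4 hF d.1.2.1 d.2
        have e2 := in_one hG h4 hF d'.1.2.1 d'.2
        have e3 : P.ed (at' h4 x d) = fun y => (if y = at' h4 x d then 1 else 0) -
            (if y = at' h4 x d' then 1 else 0) := by
          rw [ht]; rfl
        rw [e3, in_sub]
        exact congrArg₂ (· - ·) e1 e2
      have h3 : F (at' h4 x d') = -F (at' h4 x d) := by rw [ht]; exact hF.1 _ hy
      show In P F (g (nx d').1) + 2 * pre F (nx d').1.1 (nx d').2 = _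
      rw [hw1 d', h3]
      rw [h2, h3] at h1
      show In P F (g d'.1) + 2 * pre F d'.1.1 d'.2 + 2 * -F (at' h4 x d) =
        In P F (g d.1) + 2 * pre F d.1.1 d.2
      linarith
  · have ho : P.σ (at' h4 x d) ∈ P.B.flatten := (tau_fix hG h4 x).1 hd
    have hy : P.dart (at' h4 x d) := at_dart h4 x d
    have hnoQ : ∀ q ∈ P.Q, P.σ (at' h4 x d) ∉ q := fun q hq h => hG.disj hq h ho
    have hflow : P.Flow fun y => g d.1 y + P.ed (at' h4 x d) y := by
      refine ⟨fun y hy' => ?_, fun q hq => ?_⟩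
      · simp only [(hg d.1).1 y hy', ed_σ hG hy hy']
        ring
      · rw [sum_add, (hg d.1).2.1 q hq, sum_ed (hG.nodupQ hq), if_neg (hnoQ q hq)]
        have k1 : at' h4 x d ∈ q ↔ q = d.1.1 :=
          ⟨fun h => hG.uniqQ hq d.1.2.1 h (at_mem h4 x d), fun h => by rw [h]; exact at_mem h4 x d⟩
        simp only [k1]
        split_ifs <;> ring
    have h1 := in_flow hG hF hB hflow
    rw [in_add] at h1
    have h2 : In P F (P.ed (at' h4 x d)) = 2 * pre F d.1.1 d.2 + F (at' h4 x d) := by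
      have e1 := in_one hG h4 hF d.1.2.1 d.2
      have e2 : In P F (fun y => if y = P.σ (at' h4 x d) then 1 else 0) = 0 := in_none hnoQ
      have e3 : P.ed (at' h4 x d) = fun y => (if y = at' h4 x d then 1 else 0) -
          (if y = P.σ (at' h4 x d) then 1 else 0) := rfl
      rw [e3, in_sub, e2, sub_zero]
      exact e1
    rw [h2, h0 d hd] at h1
    show In P F (g d.1) + 2 * pre F d.1.1 d.2 = 0
    linarith

end

end Pq

end Pool.Agent.V5helper74.SR
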