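import Pool.Agent.V5helper74.SR.G2

/-! Pictures with big faces have two corners in each component. -/

namespace Pool.Agent.V5helper74.SR

open Pool.Agent.Y874.TP2 (CycL om)
open Face

theorem clear_den {D : Type} [Finite D] (f : D → ℚ) : ∃ N : ℤ, N ≠ 0 ∧ ∃ z : D → ℤ,
    ∀ d, (z d : ℚ) = N * f d := by
  obtain ⟨b, hb⟩ := IsLocalization.exist_integer_multiples_of_finite (nonZeroDivisors ℤ) f
  refine ⟨(b : ℤ), nonZeroDivisors.ne_zero b.2, ?_⟩
  choose z hz using hb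
  refine ⟨z, fun d => ?_⟩
  have := hz d
  simpa using this

namespace Pq

variable {X : Type} {P : Pq X}

theorem gr_planar (hG : P.Good) (h4 : ∀ q ∈ P.Q, q.length = 4) (x : X) : (gr hG h4 x).Pl := by
  classical
  intro f h1 h2
  have h1 : ∀ d, f (tau h4 x d) = -f d := h1
  obtain ⟨N, hN, z, hz⟩ := clear_den f
  have hN' : (N : ℚ) ≠ 0 := by exact_mod_cast hN
  have hz1 : ∀ d, z (tau h4 x d) = -z d := by
    intro d
    have : (z (tau h4 x d) : ℚ) = -z d := by rw [hz, hz, h1]; ring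
    exact_mod_cast this
  have hz2 : ∀ v, ∑ s, z (v, s) = 0 := by
    intro v
    have : ((∑ s, z (v, s) : ℤ) : ℚ) = 0 := by
      push_cast
      simp only [hz]
      rw [← Finset.mul_sum, h2, mul_zero]
    exact_mod_cast this
  have hz3 : ∀ d, tau h4 x d = d → z d = 0 := by
    intro d hd
    have := hz1 d
    rw [hd] at this
    omega
  set F : X → ℤ := fun y => if h : ∃ d, at' h4 x d = y then z h.choose else 0 with hFd
  have hFa : ∀ d, F (at' h4 x d) = z d := by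
    intro d
    have hex : ∃ d', at' h4 x d' = at' h4 x d := ⟨d, rfl⟩
    rw [hFd]
    simp only
    rw [dif_pos hex]
    exact congrArg z (at_inj hG h4 x hex.choose_spec)
  have hF0 : ∀ y, (¬∃ d, at' h4 x d = y) → F y = 0 := fun y hy => dif_neg hy
  have hB : ∀ y ∈ P.B.flatten, F y = 0 := by
    intro y hy
    refine hF0 y ?_
    rintro ⟨d, rfl⟩
    exact no_at h4 x hG hy
  have hF : P.Flow F := by
    refine ⟨fun y hy => ?_, fun q hq => ?_⟩
    · by_cases h : ∃ d, at' h4 x d = y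
      · obtain ⟨d, rfl⟩ := h
        by_cases hd : tau h4 x d = d
        · rw [hB _ ((tau_fix hG h4 x).1 hd), hFa, hz3 d hd, neg_zero]
        · have ho : P.σ (at' h4 x d) ∉ P.B.flatten := fun h => hd ((tau_fix hG h4 x).2 h)
          rw [← at_tau h4 x (step_ex hG h4 x d ho), hFa, hFa, hz1]
      · rw [hF0 y h, neg_zero]
        by_cases h' : ∃ d, at' h4 x d = P.σ y
        · obtain ⟨d, hd⟩ := h'
          have e : P.σ (at' h4 x d) = y := by rw [hd, hG.invσ y hy]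
          by_cases hd' : tau h4 x d = d
          · rw [← hd, hFa, hz3 d hd']
          · have ho : P.σ (at' h4 x d) ∉ P.B.flatten := fun h => hd' ((tau_fix hG h4 x).2 h)
            exact absurd ⟨_, (at_tau h4 x (step_ex hG h4 x d ho)).trans e⟩ h
        · exact hF0 _ h'
    · by_cases hc : P.Cq x q
      · rw [sum4 F (h4 q hq), ← hz2 ⟨q, hq, hc⟩]
        exact Finset.sum_congr rfl fun s _ => hFa (⟨q, hq, hc⟩, s)
      · refine List.sum_eq_zero fun t ht => ?_
        obtain ⟨y, hy, rfl⟩ := List.mem_map.1 ht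
        refine hF0 y ?_
        rintro ⟨d, rfl⟩
        have := hG.uniqQ hq d.1.2.1 hy (at_mem h4 x d)
        exact hc (this ▸ d.1.2.2)
  obtain ⟨w, w1, w2, w3⟩ := potential hG h4 x hF hB
  refine ⟨fun d => (w d : ℚ) / (2 * N), fun d => ?_, fun d => ?_, fun d hd => ?_⟩
  · simp only [w1 d, hFa]
    push_cast
    rw [hz]
    field_simp
  · show (w (nx (tau h4 x d)) : ℚ) / (2 * N) = _
    rw [w2 d]
  · simp only [w3 d hd]
    simp

/-- the next dart of the face -/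
def Fs (P : Pq X) (y z : X) : Prop := y ∈ P.Q.flatten ∧ P.σ y ∉ P.B.flatten ∧
  ∃ q ∈ P.Q, CycL (P.σ y) z q

/-- no faces with less than four corners -/
structure NoShort (P : Pq X) : Prop where
  one : ∀ y, ¬P.Fs y y
  two : ∀ y z, P.Fs y z → ¬P.Fs z y
  three : ∀ y z t, P.Fs y z → P.Fs z t → ¬P.Fs t y

theorem fs_fp (hG : P.Good) (h4 : ∀ q ∈ P.Q, q.length = 4) (x : X) {d : P.Vx x × ZMod 4}
    (hd : tau h4 x d ≠ d) : P.Fs (at' h4 x d) (at' h4 x ((gr hG h4 x).fp d)) := by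
  have ho : P.σ (at' h4 x d) ∉ P.B.flatten := fun h => hd ((tau_fix hG h4 x).2 h)
  refine ⟨List.mem_flatten.2 ⟨_, d.1.2.1, at_mem h4 x d⟩, ho, (tau h4 x d).1.1,
    (tau h4 x d).1.2.1, ?_⟩
  rw [← at_tau h4 x (step_ex hG h4 x d ho)]
  exact el_cyc (h4 _ (tau h4 x d).1.2.1) _

theorem gr_big (hG : P.Good) (h4 : ∀ q ∈ P.Q, q.length = 4) (hS : P.NoShort) (x : X) :
    (gr hG h4 x).Big := by
  intro d hd
  set G := gr hG h4 x with hGd
  have h0 : P.Fs (at' h4 x d) (at' h4 x (G.fp d)) := fs_fp hG h4 x (hd 0)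
  have h1 : P.Fs (at' h4 x (G.fp d)) (at' h4 x ((G.fp ^ 2) d)) := by
    have := fs_fp hG h4 x (d := G.fp d) (hd 1)
    rwa [← Equiv.Perm.mul_apply, ← pow_two] at this
  have h2 : P.Fs (at' h4 x ((G.fp ^ 2) d)) (at' h4 x ((G.fp ^ 3) d)) := by
    have := fs_fp hG h4 x (d := (G.fp ^ 2) d) (hd 2)
    rwa [← Equiv.Perm.mul_apply, ← pow_succ'] at this
  refine ⟨fun h => ?_, fun h => ?_, fun h => ?_⟩
  · rw [h] at h0; exact hS.one _ h0
  · rw [h] at h1; exact hS.two _ _ h0 h1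
  · rw [h] at h2; exact hS.three _ _ _ h0 h1 h2

/-- pictures with big faces have two corners in each component -/
theorem two_of_faces (hG : P.Good) (h4 : ∀ q ∈ P.Q, q.length = 4) (hS : P.NoShort) : P.Two := by
  intro x hx hx'
  obtain ⟨q, hq, hxq⟩ := List.mem_flatten.1 ((hG.dartσ x (Or.inl hx)).resolve_left hx')
  have cx := cq_base hG hx hq hxq
  have : Nonempty (P.Vx x) := ⟨⟨q, hq, cx⟩⟩
  classical
  obtain ⟨d, d', hne, ⟨k1, k2⟩, l1, l2⟩ :=
    two_corners (gr hG h4 x) (gr_planar hG h4 x) (gr_big hG h4 hS x)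
  have key : ∀ d : P.Vx x × ZMod 4, tau h4 x d = d → tau h4 x (pv d) = pv d →
      P.Cor (P.σ (at' h4 x d)) (P.σ (at' h4 x (pv d))) ∧
      P.σ (at' h4 x d) ≠ P.σ (at' h4 x (pv d)) ∧ P.Conn x (P.σ (at' h4 x d)) ∧
      P.Conn x (P.σ (at' h4 x (pv d))) := by
    intro d h1 h2
    have o1 := (tau_fix hG h4 x).1 h1
    have o2 := (tau_fix hG h4 x).1 h2
    have e1 : P.σ (P.σ (at' h4 x d)) = at' h4 x d := hG.invσ _ (at_dart h4 x d)
    have e2 : P.σ (P.σ (at' h4 x (pv d))) = at' h4 x (pv d) := hG.invσ _ (at_dart h4 x (pv d))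
    refine ⟨⟨o1, o2, d.1.1, d.1.2.1, ?_⟩, fun h => ?_, ?_, ?_⟩
    · rw [e1, e2]
      have := el_cyc (h4 d.1.1 d.1.2.1) (pv d).2
      rw [show (pv d).2 + 1 = d.2 from by simp [pv]] at this
      exact this
    · have h3 : at' h4 x d = at' h4 x (pv d) := by rw [← e1, h, e2]
      have h4' := at_inj hG h4 x h3
      have h5 : d.2 = d.2 - 1 := congrArg Prod.snd h4'
      have : ∀ s : ZMod 4, s ≠ s - 1 := by decide
      exact this _ h5
    · exact conn_of d.1.2.2 (cq_base hG o1 d.1.2.1 (by rw [e1]; exact at_mem h4 x d))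
    · exact conn_of d.1.2.2 (cq_base hG o2 d.1.2.1 (by rw [e2]; exact at_mem h4 x (pv d)))
  obtain ⟨a1, a2, a3, a4⟩ := key d k1 k2
  obtain ⟨b1, b2, b3, b4⟩ := key d' l1 l2
  refine ⟨_, _, _, _, a1, b1, a2, b2, fun h => hne ?_, a3, a4, b3, b4⟩
  refine at_inj hG h4 x ?_
  rw [← hG.invσ _ (at_dart h4 x d), h.1, hG.invσ _ (at_dart h4 x d')]

end Pq

end Pool.Agent.V5helper74.SR
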