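import Pool.Agent.V5helper74.SR.G3
import Pool.Agent.V5helper74.SR.E11

/-! The faces with few corners of the picture of a diagram with triple points. -/

namespace Pool.Agent.V5helper74.SR

open Pool.Agent.Y874.TP2 (CycL om part sg)
open Pool.Agent.Y468.SR
open Pool.Agent.Y874.TP (NullV Tri TC word4 passes_append' TC_cons TC_nil sep mem_code)
open Pool.Agent.R800.BT (Bad Hts)

variable {D : Code} {Ts : List Tri} {m : ℕ → ℕ}

instance : Fintype Lt := ⟨{.A, .B, .C}, by intro x; cases x <;> simp⟩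

/-- the sign of the second crossing of a letter -/
def sl (T : Tri) : Lt → Bool
  | .A => T.sa
  | .B => T.sb
  | .C => T.sc

/-- the dart of a crossing in the given sheet -/
def dp (T : Tri) (z : Lt) (i o : Bool) : Pass := ⟨pt T z i, o, !(xor i (sl T z))⟩

/-- the circle containing the dart -/
def wd (T : Tri) : Lt → Bool → List Pass
  | .A, true => T.wi
  | .B, true => T.wi
  | .A, false => T.wj
  | .C, true => T.wj
  | .B, false => T.wk
  | .C, false => T.wk

/-- the change of the index between a dart and the following one -/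
def cx (T : Tri) : Lt → Bool → Bool
  | .A, true => T.ei
  | .B, true => !T.ei
  | .A, false => T.ej
  | .C, true => !T.ej
  | .B, false => T.ek
  | .C, false => !T.ek

/-- the following dart -/
def nd (T : Tri) (z : Lt) (i o : Bool) : Pass := dp T (pr z o).1 (xor i (cx T z o)) (pr z o).2

theorem words (T : Tri) (ht : Hts T) :
    T.wi = word4 T.ei (dp T .A false true) (dp T .A true true) (dp T .B false true)
      (dp T .B true true) ∧
    T.wj = word4 T.ej (dp T .A false false) (dp T .A true false) (dp T .C false true)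
      (dp T .C true true) ∧
    T.wk = word4 T.ek (dp T .B false false) (dp T .B true false) (dp T .C false false)
      (dp T .C true false) := by
  obtain ⟨t1, t2, t3⟩ := ht
  simp only [Tri.wi, Tri.wj, Tri.wk, Tri.pa₁, Tri.pa₂, Tri.pb₁, Tri.pb₂, Tri.pc₁, Tri.pc₂, dp, pt, sl,
    t1, t2, t3, Pass.mate, Bool.false_xor, Bool.true_xor, Bool.not_not, Bool.not_true, and_self]

theorem wd_mem (T : Tri) (ht : Hts T) (z : Lt) (i o : Bool) : dp T z i o ∈ wd T z o := by
  obtain ⟨h1, h2, h3⟩ := words T ht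
  cases z <;> cases o <;> cases i <;> simp only [wd, h1, h2, h3] <;> rw [mem_word4] <;> simp

theorem mem_wd (T : Tri) (ht : Hts T) {p : Pass} {w : List Pass} (hw : w ∈ [T.wi, T.wj, T.wk])
    (hp : p ∈ w) : ∃ z i o, p = dp T z i o ∧ w = wd T z o := by
  obtain ⟨h1, h2, h3⟩ := words T ht
  simp only [List.mem_cons, List.not_mem_nil, or_false] at hw
  rcases hw with rfl | rfl | rfl
  · rw [h1, mem_word4] at hp
    rcases hp with rfl | rfl | rfl | rfl
    · exact ⟨.A, false, true, rfl, rfl⟩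
    · exact ⟨.A, true, true, rfl, rfl⟩
    · exact ⟨.B, false, true, rfl, rfl⟩
    · exact ⟨.B, true, true, rfl, rfl⟩
  · rw [h2, mem_word4] at hp
    rcases hp with rfl | rfl | rfl | rfl
    · exact ⟨.A, false, false, rfl, rfl⟩
    · exact ⟨.A, true, false, rfl, rfl⟩
    · exact ⟨.C, false, true, rfl, rfl⟩
    · exact ⟨.C, true, true, rfl, rfl⟩
  · rw [h3, mem_word4] at hp
    rcases hp with rfl | rfl | rfl | rfl
    · exact ⟨.B, false, false, rfl, rfl⟩
    · exact ⟨.B, true, false, rfl, rfl⟩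
    · exact ⟨.C, false, false, rfl, rfl⟩
    · exact ⟨.C, true, false, rfl, rfl⟩

theorem wd_w (T : Tri) (z : Lt) (o : Bool) : wd T z o ∈ [T.wi, T.wj, T.wk] := by
  cases z <;> cases o <;> simp [wd]

/-- the following element of a word -/
theorem cyc_nd {T : Tri} (ht : Hts T) (hd : [T.a₁, T.a₂, T.b₁, T.b₂, T.c₁, T.c₂].Nodup)
    {z : Lt} {i o : Bool} {x : Pass} (h : CycL (dp T z i o) x (wd T z o)) : x = nd T z i o := by
  obtain ⟨h1, h2, h3⟩ := words T ht
  simp only [List.nodup_cons, List.mem_cons, List.not_mem_nil, or_false, not_or,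
    not_false_eq_true, List.nodup_nil, and_true] at hd
  obtain ⟨⟨a1, a2, a3, a4, a5⟩, ⟨b1, b2, b3, b4⟩, ⟨c1, c2, c3⟩, ⟨d1, d2⟩, e1⟩ := hd
  have cw : ∀ {x p : Pass}, x = p → x.crossing = p.crossing := fun h => by rw [h]
  have key : ∀ (e : Bool) (p₁ p₂ q₁ q₂ y : Pass), p₁.crossing ≠ p₂.crossing →
      p₁.crossing ≠ q₁.crossing → p₁.crossing ≠ q₂.crossing → p₂.crossing ≠ q₁.crossing →
      p₂.crossing ≠ q₂.crossing → q₁.crossing ≠ q₂.crossing → CycL y x (word4 e p₁ p₂ q₁ q₂) →
      (y = p₁ → x = if e then q₂ else q₁) ∧ (y = p₂ → x = if e then q₁ else q₂) ∧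
      (y = q₁ → x = if e then p₁ else p₂) ∧ (y = q₂ → x = if e then p₂ else p₁) := by
    intro e p₁ p₂ q₁ q₂ y n1 n2 n3 n4 n5 n6 hc
    have m1 : p₁ ≠ p₂ := fun h => n1 (cw h)
    have m2 : p₁ ≠ q₁ := fun h => n2 (cw h)
    have m3 : p₁ ≠ q₂ := fun h => n3 (cw h)
    have m4 : p₂ ≠ q₁ := fun h => n4 (cw h)
    have m5 : p₂ ≠ q₂ := fun h => n5 (cw h)
    have m6 : q₁ ≠ q₂ := fun h => n6 (cw h)
    cases e
    · have := Tri.cyc4 (show Pool.Agent.Y874.TP.Cyc y x [p₂, q₂, p₁, q₁] from hc)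
      simp only [Bool.false_eq_true, if_false]
      rcases this with ⟨rfl, rfl⟩ | ⟨rfl, rfl⟩ | ⟨rfl, rfl⟩ | ⟨rfl, rfl⟩
      · exact ⟨fun h => absurd h.symm m1, fun _ => rfl, fun h => absurd h m4, fun h => absurd h m5⟩
      · exact ⟨fun h => absurd h.symm m3, fun h => absurd h.symm m5, fun h => absurd h.symm m6,
          fun _ => rfl⟩
      · exact ⟨fun _ => rfl, fun h => absurd h m1, fun h => absurd h m2, fun h => absurd h m3⟩
      · exact ⟨fun h => absurd h.symm m2, fun h => absurd h.symm m4, fun _ => rfl,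
          fun h => absurd h m6⟩
    · have := Tri.cyc4 (show Pool.Agent.Y874.TP.Cyc y x [q₂, p₂, q₁, p₁] from hc)
      simp only [if_true]
      rcases this with ⟨rfl, rfl⟩ | ⟨rfl, rfl⟩ | ⟨rfl, rfl⟩ | ⟨rfl, rfl⟩
      · exact ⟨fun h => absurd h.symm m3, fun h => absurd h.symm m5, fun h => absurd h.symm m6,
          fun _ => rfl⟩
      · exact ⟨fun h => absurd h.symm m1, fun _ => rfl, fun h => absurd h m4, fun h => absurd h m5⟩
      · exact ⟨fun h => absurd h.symm m2, fun h => absurd h.symm m4, fun _ => rfl,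
          fun h => absurd h m6⟩
      · exact ⟨fun _ => rfl, fun h => absurd h m1, fun h => absurd h m2, fun h => absurd h m3⟩
  have hi : ∀ y, CycL y x T.wi → _ := fun y hc => key T.ei (dp T .A false true) (dp T .A true true)
    (dp T .B false true) (dp T .B true true) y a1 a2 a3 b1 b2 c1 (h1 ▸ hc)
  have hj : ∀ y, CycL y x T.wj → _ := fun y hc => key T.ej (dp T .A false false)
    (dp T .A true false) (dp T .C false true) (dp T .C true true) y a1 a4 a5 b3 b4 e1 (h2 ▸ hc)
  have hk : ∀ y, CycL y x T.wk → _ := fun y hc => key T.ek (dp T .B false false)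
    (dp T .B true false) (dp T .C false false) (dp T .C true false) y c1 c2 c3 d1 d2 e1 (h3 ▸ hc)
  cases z <;> cases o <;> simp only [wd] at h
  · obtain ⟨k1, k2, k3, k4⟩ := hj _ h
    cases i
    · rw [k1 rfl]; simp only [nd, pr, cx, Bool.false_xor]; cases T.ej <;> rfl
    · rw [k2 rfl]; simp only [nd, pr, cx, Bool.true_xor]; cases T.ej <;> rfl
  · obtain ⟨k1, k2, k3, k4⟩ := hi _ h
    cases i
    · rw [k1 rfl]; simp only [nd, pr, cx, Bool.false_xor]; cases T.ei <;> rfl
    · rw [k2 rfl]; simp only [nd, pr, cx, Bool.true_xor]; cases T.ei <;> rfl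
  · obtain ⟨k1, k2, k3, k4⟩ := hk _ h
    cases i
    · rw [k1 rfl]; simp only [nd, pr, cx, Bool.false_xor]; cases T.ek <;> rfl
    · rw [k2 rfl]; simp only [nd, pr, cx, Bool.true_xor]; cases T.ek <;> rfl
  · obtain ⟨k1, k2, k3, k4⟩ := hi _ h
    cases i
    · rw [k3 rfl]; simp only [nd, pr, cx, Bool.false_xor]; cases T.ei <;> rfl
    · rw [k4 rfl]; simp only [nd, pr, cx, Bool.true_xor]; cases T.ei <;> rfl
  · obtain ⟨k1, k2, k3, k4⟩ := hk _ h
    cases i
    · rw [k3 rfl]; simp only [nd, pr, cx, Bool.false_xor]; cases T.ek <;> rfl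
    · rw [k4 rfl]; simp only [nd, pr, cx, Bool.true_xor]; cases T.ek <;> rfl
  · obtain ⟨k1, k2, k3, k4⟩ := hj _ h
    cases i
    · rw [k3 rfl]; simp only [nd, pr, cx, Bool.false_xor]; cases T.ej <;> rfl
    · rw [k4 rfl]; simp only [nd, pr, cx, Bool.true_xor]; cases T.ej <;> rfl

end Pool.Agent.V5helper74.SR
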