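import Pool.Agent.V5helper74.SR.E8

/-! Removing two triple points joined by double curves, with control of the classes. -/

namespace Pool.Agent.V5helper74.SR

open Pool.Agent.Y468.SR
open Pool.Agent.Y874.TP
open Pool.Agent.R800.BT

variable {S : Set ℕ} {m : ℕ → ℕ} {σ : ℕ → Bool} {χ : ℕ → ℕ} {e : Bool}
  {x x' y y' z z' X X' Y Y' Z Z' : ℕ}

/-- a matching keeping the classes, fixed names have even classes -/
structure Me (S : Set ℕ) (m : ℕ → ℕ) (σ : ℕ → Bool) (χ : ℕ → ℕ) : Prop where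
  mt : Mt S m σ χ
  ev : ∀ c ∈ S, m c = c → χ c % 2 = 0

/-- the matching after removing a pair -/
def ep (m : ℕ → ℕ) (a a' c : ℕ) : ℕ := if m c = a then (if m a' = a' then c else m a') else
    if m c = a' then (if m a = a then c else m a) else m c

theorem elim_pairX {a a' : ℕ} (h : Mt S m σ χ) (ha : a ∈ S) (ha' : a' ∈ S) (hne : a ≠ a')
    (hs : σ a' = !σ a) (hx : χ a' = χ a) :
    Mt (S \ {a, a'}) (ep m a a') σ χ ∧ ∀ (G : Type) [Group G] (o u : ℕ → G),
      Vd (S \ {a, a'}) (ep m a a') o u → ∃ o' u' : ℕ → G, Vd S m o' u' ∧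
        (∀ c, c ≠ a → c ≠ a' → o' c = o c ∧ u' c = u c) ∧
        o' a' = (o' a)⁻¹ ∧ u' a' = (u' a)⁻¹ := by
  classical
  obtain ⟨k1, k2, k3, k4⟩ := h a ha
  obtain ⟨l1, l2, l3, l4⟩ := h a' ha'
  have key : ∀ c, c ∈ S \ {a, a'} → c ∈ S ∧ c ≠ a ∧ c ≠ a' := by
    rintro c ⟨h1, h2⟩
    simp only [Set.mem_insert_iff, Set.mem_singleton_iff, not_or] at h2
    exact ⟨h1, h2.1, h2.2⟩
  have mem : ∀ c, c ∈ S → c ≠ a → c ≠ a' → c ∈ S \ {a, a'} := by
    intro c h1 h2 h3
    exact ⟨h1, by simp [h2, h3]⟩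
  refine ⟨?_, ?_⟩
  · intro c hc0
    unfold ep
    obtain ⟨hc, c1, c2⟩ := key c hc0
    obtain ⟨h1, h2, h3, h4⟩ := h c hc
    by_cases h5 : m c = a
    · have e : m a = c := by rw [← h5, h2]
      simp only [h5, if_true]
      by_cases h6 : m a' = a'
      · simp only [h6, if_true, h5]
        refine ⟨hc0, ?_, ?_, ?_⟩ <;> simp
      · simp only [h6, if_false]
        have h7 : m a' ≠ a := fun h7 => c2 (by rw [← e, ← h7, l2])
        rw [l2, if_neg (Ne.symm hne), if_pos rfl, if_neg (by rw [e]; exact c1)]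
        refine ⟨mem _ l1 h7 h6, e, fun _ => ?_, ?_⟩
        · rw [l3 h6, hs, Bool.not_not]
          have := k3 (by rw [e]; exact c1)
          rw [e] at this
          rw [this, Bool.not_not]
        · rw [l4, hx, ← k4, e]
    · simp only [h5, if_false]
      by_cases h8 : m c = a'
      · have e : m a' = c := by rw [← h8, h2]
        simp only [h8, if_true]
        by_cases h6 : m a = a
        · simp only [h6, if_true, h8]
          rw [if_neg (Ne.symm hne)]
          refine ⟨hc0, ?_, ?_, ?_⟩ <;> simp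
        · simp only [h6, if_false]
          have h7 : m a ≠ a' := fun h7 => c1 (by rw [← e, ← h7, k2])
          rw [k2, if_pos rfl, if_neg (by rw [e]; exact c2)]
          refine ⟨mem _ k1 h6 h7, e, fun _ => ?_, ?_⟩
          · rw [k3 h6]
            have := l3 (by rw [e]; exact c2)
            rw [e, hs, Bool.not_not] at this
            rw [this]
          · rw [k4, ← hx, ← l4, e]
      · simp only [h8, if_false]
        rw [h2, if_neg c1, if_neg c2]
        exact ⟨mem _ h1 h5 h8, rfl, h3, h4⟩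
  · intro G _ o u hv
    unfold ep at hv
    set α : (ℕ → G) → G := fun f => if m a ≠ a ∧ m a ≠ a' then (f (m a))⁻¹ else
      if m a' ≠ a' ∧ m a' ≠ a then f (m a') else 1 with hα
    have fact : ∀ c, c ∈ S → c ≠ a → c ≠ a' → m c = a → (m a' = a' → u c = (o c)⁻¹) ∧
        (m a' ≠ a' → o (m a') = (o c)⁻¹ ∧ u (m a') = (u c)⁻¹) := by
      intro c hc c1 c2 h5
      have e : m a = c := by rw [← h5, (h c hc).2.1]
      have := hv c (mem c hc c1 c2)
      simp only [h5, if_true] at this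
      by_cases h6 : m a' = a'
      · simp only [h6, if_true] at this
        exact ⟨fun _ => by simpa using this, fun h => absurd h6 h⟩
      · simp only [h6, if_false] at this
        refine ⟨fun h => absurd h h6, fun _ => this.2 fun h7 => ?_⟩
        have : m c = a' := by rw [← h7, l2]
        exact hne (h5.symm.trans this)
    have fact' : ∀ c, c ∈ S → c ≠ a → c ≠ a' → m c = a' → (m a = a → u c = (o c)⁻¹) ∧
        (m a ≠ a → o (m a) = (o c)⁻¹ ∧ u (m a) = (u c)⁻¹) := by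
      intro c hc c1 c2 h5
      have h9 : m c ≠ a := by rw [h5]; exact Ne.symm hne
      have := hv c (mem c hc c1 c2)
      simp only [h5, if_true, if_neg (Ne.symm hne)] at this
      by_cases h6 : m a = a
      · simp only [h6, if_true] at this
        exact ⟨fun _ => by simpa using this, fun h => absurd h6 h⟩
      · simp only [h6, if_false] at this
        refine ⟨fun h => absurd h h6, fun _ => this.2 fun h7 => ?_⟩
        have : m c = a := by rw [← h7, k2]
        exact h9 this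
    refine ⟨fun c => if c = a then α o else if c = a' then (α o)⁻¹ else o c,
      fun c => if c = a then α u else if c = a' then (α u)⁻¹ else u c, ?_, ?_, ?_, ?_⟩
    · intro c hc
      by_cases c1 : c = a
      · subst c1
        simp only [if_true]
        refine ⟨fun h0 => ?_, fun h0 => ?_⟩
        · have e1 : ∀ f : ℕ → G, α f = if m a' ≠ a' ∧ m a' ≠ c then f (m a') else 1 := by
            intro f; simp [hα, h0]
          rw [e1, e1]
          by_cases h6 : m a' = a'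
          · simp [h6]
          · have h7 : m a' ≠ c := fun h7 => hne (by rw [← h0, ← h7, l2])
            simp only [h6, h7, ne_eq, not_false_eq_true, and_self, if_true]
            exact (fact' (m a') l1 h7 h6 l2).1 h0
        · rw [if_neg h0, if_neg h0]
          by_cases h7 : m c = a'
          · have h8 : m a' = c := by rw [← h7, k2]
            have e1 : ∀ f : ℕ → G, α f = 1 := by
              intro f; simp [hα, h7, h8]
            simp [e1, h7]
          · rw [if_neg h7, if_neg h7]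
            have e1 : ∀ f : ℕ → G, α f = (f (m c))⁻¹ := by
              intro f; simp [hα, h0, h7]
            simp [e1]
      · by_cases c2 : c = a'
        · subst c2
          simp only [c1, if_false, if_true]
          refine ⟨fun h0 => ?_, fun h0 => ?_⟩
          · by_cases h6 : m a = a
            · have e1 : ∀ f : ℕ → G, α f = 1 := by
                intro f; simp [hα, h6, h0]
              simp [e1]
            · have h7 : m a ≠ c := fun h7 => c1 (by rw [← h0, ← h7, k2])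
              have e1 : ∀ f : ℕ → G, α f = (f (m a))⁻¹ := by
                intro f; simp [hα, h6, h7]
              rw [e1, e1]
              have := (fact (m a) k1 h6 h7 k2).1 h0
              rw [this]
          · by_cases h7 : m c = a
            · have h8 : m a = c := by rw [← h7, l2]
              have e1 : ∀ f : ℕ → G, α f = 1 := by
                intro f; simp [hα, h7, h8]
              simp [e1, h7]
            · rw [if_neg h7, if_neg h7, if_neg h0, if_neg h0]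
              by_cases h6 : m a = a
              · have e1 : ∀ f : ℕ → G, α f = f (m c) := by
                  intro f; simp [hα, h6, h0, h7]
                simp [e1]
              · have h9 : m a ≠ c := fun h9 => h7 (by rw [← h9, k2])
                have e1 : ∀ f : ℕ → G, α f = (f (m a))⁻¹ := by
                  intro f; simp [hα, h6, h9]
                rw [e1, e1, inv_inv, inv_inv]
                have := (fact (m a) k1 h6 h9 k2).2 h0
                exact this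
        · simp only [c1, c2, if_false]
          by_cases h5 : m c = a
          · have e : m a = c := by rw [← h5, (h c hc).2.1]
            have e1 : ∀ f : ℕ → G, α f = (f c)⁻¹ := by
              intro f; simp [hα, e, c1, c2]
            rw [h5, if_pos rfl, if_pos rfl, e1, e1]
            exact ⟨fun h => absurd h.symm c1, fun _ => ⟨rfl, rfl⟩⟩
          · by_cases h8 : m c = a'
            · have e : m a' = c := by rw [← h8, (h c hc).2.1]
              rw [h8, if_neg (Ne.symm hne), if_neg (Ne.symm hne), if_pos rfl, if_pos rfl]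
              refine ⟨fun h => absurd h.symm c2, fun _ => ?_⟩
              by_cases h6 : m a = a
              · have e1 : ∀ f : ℕ → G, α f = f c := by
                  intro f; simp [hα, h6, e, c1, c2]
                rw [e1, e1]; exact ⟨rfl, rfl⟩
              · have h9 : m a ≠ a' := fun h9 => c1 (by rw [← e, ← h9, k2])
                have e1 : ∀ f : ℕ → G, α f = (f (m a))⁻¹ := by
                  intro f; simp [hα, h6, h9]
                rw [e1, e1, inv_inv, inv_inv]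
                exact (fact' c hc c1 c2 h8).2 h6
            · rw [if_neg h5, if_neg h8, if_neg h5, if_neg h8]
              have := hv c (mem c hc c1 c2)
              simp only [h5, h8, if_false] at this
              exact this
    · intro c c1 c2
      simp [c1, c2]
    · simp [Ne.symm hne]
    · simp [Ne.symm hne]

theorem elim_pairE {a a' : ℕ} (h : Me S m σ χ) (ha : a ∈ S) (ha' : a' ∈ S) (hne : a ≠ a')
    (hs : σ a' = !σ a) (hx : χ a' = χ a) :
    ∃ m', Me (dl S [a, a']) m' σ χ ∧ ∀ (G : Type) [Group G] (o u : ℕ → G),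
      Vd (dl S [a, a']) m' o u → ∃ o' u' : ℕ → G, Vd S m o' u' ∧
        (∀ c, c ∉ [a, a'] → o' c = o c ∧ u' c = u c) ∧
        o' a' = (o' a)⁻¹ ∧ u' a' = (u' a)⁻¹ := by
  obtain ⟨h1, h2⟩ := elim_pairX h.mt ha ha' hne hs hx
  refine ⟨ep m a a', ⟨?_, fun c hc he => ?_⟩, fun G _ o u hv => ?_⟩
  · rw [← dl_pair]; exact h1
  · obtain ⟨hcS, hcl⟩ := hc
    simp only [List.mem_cons, List.not_mem_nil, or_false, not_or] at hcl
    obtain ⟨k1, k2, k3, k4⟩ := h.mt c hcS
    unfold ep at he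
    by_cases h5 : m c = a
    · rw [if_pos h5] at he
      by_cases h6 : m a' = a'
      · rw [← k4, h5, ← hx]
        exact h.ev a' ha' h6
      · rw [if_neg h6] at he
        have : m (m a') = m c := congrArg m he
        rw [(h.mt a' ha').2.1, h5] at this
        exact absurd this (Ne.symm hne)
    · rw [if_neg h5] at he
      by_cases h7 : m c = a'
      · rw [if_pos h7] at he
        by_cases h6 : m a = a
        · rw [← k4, h7, hx]
          exact h.ev a ha h6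
        · rw [if_neg h6] at he
          have : m (m a) = m c := congrArg m he
          rw [(h.mt a ha).2.1, h7] at this
          exact absurd this hne
      · rw [if_neg h7] at he
        exact h.ev c hcS he
  · rw [← dl_pair] at hv
    obtain ⟨o', u', k1, k2, k3⟩ := h2 G o u hv
    refine ⟨o', u', k1, fun c hc => ?_, k3⟩
    simp only [List.mem_cons, List.not_mem_nil, or_false, not_or] at hc
    exact k2 c hc.1 hc.2

/-- pairs are eliminated -/
theorem elimE : ∀ (l : List (ℕ × ℕ)) (S : Set ℕ) (m : ℕ → ℕ), Me S m σ χ →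
    (l.flatMap fun p => [p.1, p.2]).Nodup →
    (∀ p ∈ l, p.1 ∈ S ∧ p.2 ∈ S ∧ σ p.2 = (!σ p.1) ∧ χ p.2 = χ p.1) →
    ∃ m', Me (dl S (l.flatMap fun p => [p.1, p.2])) m' σ χ ∧
      ∀ (G : Type) [Group G] (o u : ℕ → G),
      Vd (dl S (l.flatMap fun p => [p.1, p.2])) m' o u → ∃ o' u' : ℕ → G, Vd S m o' u' ∧
      (∀ c, c ∉ (l.flatMap fun p => [p.1, p.2]) → o' c = o c ∧ u' c = u c) ∧
      ∀ p ∈ l, o' p.2 = (o' p.1)⁻¹ ∧ u' p.2 = (u' p.1)⁻¹ := by
  intro l
  induction l with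
  | nil =>
    intro S m h _ _
    have e : dl S [] = S := by ext c; simp [dl]
    refine ⟨m, by rw [List.flatMap_nil, e]; exact h, fun G _ o u hv => ⟨o, u, ?_, fun c _ => ⟨rfl, rfl⟩, by simp⟩⟩
    rw [List.flatMap_nil, e] at hv
    exact hv
  | cons p l ih =>
    intro S m h hn hl
    rw [List.flatMap_cons, List.nodup_append] at hn
    obtain ⟨n1, n2, n3⟩ := hn
    obtain ⟨p1, p2, p3, p4⟩ := hl p (by simp)
    have hne : p.1 ≠ p.2 := by
      simp only [List.nodup_cons, List.mem_cons, List.not_mem_nil, or_false] at n1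
      exact n1.1
    obtain ⟨m1, h1, k1⟩ := elim_pairE h p1 p2 hne p3 p4
    obtain ⟨m', h2, k2⟩ := ih (dl S [p.1, p.2]) m1 h1 n2 (by
      intro q hq
      obtain ⟨q1, q2, q3, q4⟩ := hl q (by simp [hq])
      have f1 : q.1 ∈ l.flatMap fun p => [p.1, p.2] := List.mem_flatMap.2 ⟨q, hq, by simp⟩
      have f2 : q.2 ∈ l.flatMap fun p => [p.1, p.2] := List.mem_flatMap.2 ⟨q, hq, by simp⟩
      exact ⟨⟨q1, fun h => n3 _ h _ f1 rfl⟩, ⟨q2, fun h => n3 _ h _ f2 rfl⟩, q3, q4⟩)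
    rw [dl_dl] at h2 k2
    refine ⟨m', h2, fun G _ o u hv => ?_⟩
    obtain ⟨o1, u1, v1, w1, r1⟩ := k2 G o u hv
    obtain ⟨o2, u2, v2, w2, r2⟩ := k1 G o1 u1 v1
    refine ⟨o2, u2, v2, fun c hc => ?_, fun q hq => ?_⟩
    · rw [List.flatMap_cons, List.mem_append, not_or] at hc
      rw [(w2 c hc.1).1, (w2 c hc.1).2]
      exact w1 c hc.2
    · rcases List.mem_cons.1 hq with rfl | hq
      · exact r2
      · have f1 : q.1 ∈ l.flatMap fun p => [p.1, p.2] := List.mem_flatMap.2 ⟨q, hq, by simp⟩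
        have f2 : q.2 ∈ l.flatMap fun p => [p.1, p.2] := List.mem_flatMap.2 ⟨q, hq, by simp⟩
        have g1 := w2 q.1 fun h => n3 _ h _ f1 rfl
        have g2 := w2 q.2 fun h => n3 _ h _ f2 rfl
        rw [g1.1, g1.2, g2.1, g2.2]
        exact r1 q hq

theorem Me.sub {l : List ℕ} {m' : ℕ → ℕ} (h : Me S m σ χ) (h1 : Mt (dl S l) m σ χ) :
    Me (dl S l) m σ χ := ⟨h1, fun c hc => h.ev c hc.1⟩

/-- two pairs are matched, `p` and `q` are the names with free labels -/
theorem free_twoE {S : Set ℕ} {p P q Q : ℕ} {l : List (ℕ × ℕ)} (h : Me S m σ χ)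
    (nd : ([p, P] ++ ([q, Q] ++ (l.flatMap fun p => [p.1, p.2]))).Nodup)
    (hm : ∀ c ∈ [p, P, q, Q], c ∈ S)
    (hl : ∀ p ∈ l, p.1 ∈ S ∧ p.2 ∈ S ∧ σ p.2 = (!σ p.1) ∧ χ p.2 = χ p.1)
    (e₁ : m p = P) (e₂ : m q = Q) :
    ∃ m', Me (dl S ([p, P] ++ ([q, Q] ++ (l.flatMap fun p => [p.1, p.2])))) m' σ χ ∧
      ∀ (G : Type) [Group G] (o u : ℕ → G),
      Vd (dl S ([p, P] ++ ([q, Q] ++ (l.flatMap fun p => [p.1, p.2])))) m' o u → ∃ o' u' : ℕ → G,
      (∀ p ∈ l, o' p.2 = (o' p.1)⁻¹ ∧ u' p.2 = (u' p.1)⁻¹) ∧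
      ∀ α β γ δ : G, ∃ o'' u'' : ℕ → G, Vd S m o'' u'' ∧
      (∀ c ∈ l.flatMap fun p => [p.1, p.2], o'' c = o' c ∧ u'' c = u' c) ∧
      (∀ c, c ∉ ([p, P] ++ ([q, Q] ++ (l.flatMap fun p => [p.1, p.2]))) →
        o'' c = o c ∧ u'' c = u c) ∧
      (o'' p = α ∧ u'' p = β ∧ o'' P = α⁻¹ ∧ u'' P = β⁻¹) ∧
      (o'' q = γ ∧ u'' q = δ ∧ o'' Q = γ⁻¹ ∧ u'' Q = δ⁻¹) := by
  rw [List.nodup_append, List.nodup_append] at nd
  obtain ⟨n1, ⟨n2, n3, n4⟩, n5⟩ := nd
  have c1 : p ≠ P := by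
    simp only [List.nodup_cons, List.mem_cons, List.not_mem_nil, or_false] at n1; exact n1.1
  have f3 : q ≠ Q := by
    simp only [List.nodup_cons, List.mem_cons, List.not_mem_nil, or_false] at n2; exact n2.1
  have hp : p ∈ S := hm _ (by simp)
  have hq : q ∈ S := hm _ (by simp)
  have c2 : p ≠ q := n5 p (by simp) q (by simp)
  have c3 : p ≠ Q := n5 p (by simp) Q (by simp)
  have d2 : P ≠ q := n5 P (by simp) q (by simp)
  have d3 : P ≠ Q := n5 P (by simp) Q (by simp)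
  have e₁' : m P = p := by rw [← e₁, (h.mt p hp).2.1]
  have e₂' : m Q = q := by rw [← e₂, (h.mt q hq).2.1]
  obtain ⟨h1, k1⟩ := elim_free2 h.mt e₁ e₁' c1
  obtain ⟨h2, k2⟩ := elim_free2 h1 e₂ e₂' f3
  rw [dl_pair, dl_pair] at h2
  have h2' : Me (dl (dl S [p, P]) [q, Q]) m σ χ := ⟨h2, fun c hc => h.ev c hc.1.1⟩
  obtain ⟨m', h3, k3⟩ := elimE l _ m h2' n3 (fun r hr => by
    obtain ⟨r1, r2, r3, r4⟩ := hl r hr
    have g1 : r.1 ∈ l.flatMap fun p => [p.1, p.2] := List.mem_flatMap.2 ⟨r, hr, by simp⟩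
    have g2 : r.2 ∈ l.flatMap fun p => [p.1, p.2] := List.mem_flatMap.2 ⟨r, hr, by simp⟩
    exact ⟨⟨⟨r1, fun h => n5 _ h _ (List.mem_append_right _ g1) rfl⟩, fun h => n4 _ h _ g1 rfl⟩,
      ⟨⟨r2, fun h => n5 _ h _ (List.mem_append_right _ g2) rfl⟩, fun h => n4 _ h _ g2 rfl⟩, r3, r4⟩)
  rw [dl_pair, dl_pair] at k2
  rw [dl_dl, dl_dl] at h3
  rw [dl_dl, dl_dl] at k3
  refine ⟨m', h3, fun G _ o u hv => ?_⟩
  obtain ⟨o', u', v1, w1, r1⟩ := k3 G o u hv
  refine ⟨o', u', r1, fun α β γ δ => ?_⟩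
  have v2 := k2 G o' u' v1 γ δ
  rw [← dl_pair] at v2
  have v3 := k1 G _ _ v2 α β
  refine ⟨_, _, v3, fun c hc => ?_, fun c hc => ?_, ?_, ?_⟩
  · have g1 : c ≠ p := fun h => n5 p (by simp) c (List.mem_append_right _ hc) h.symm
    have g2 : c ≠ P := fun h => n5 P (by simp) c (List.mem_append_right _ hc) h.symm
    have g3 : c ≠ q := fun h => n4 q (by simp) c hc h.symm
    have g4 : c ≠ Q := fun h => n4 Q (by simp) c hc h.symm
    simp only [g1, g2, g3, g4, if_false, and_self]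
  · simp only [List.mem_append, List.mem_cons, List.not_mem_nil, or_false, not_or] at hc
    obtain ⟨⟨g1, g2⟩, ⟨g3, g4⟩, g5⟩ := hc
    simp only [g1, g2, g3, g4, if_false]
    exact w1 c g5
  · simp only [if_true, if_neg (Ne.symm c1), and_self]
  · simp only [if_neg (Ne.symm c2), if_neg (Ne.symm c3), if_neg (Ne.symm d2), if_neg (Ne.symm d3),
      if_true, if_neg (Ne.symm f3), and_self]

/-- two triple points, the corresponding names have opposite signs and equal classes -/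
structure Dat3 (S : Set ℕ) (m : ℕ → ℕ) (σ : ℕ → Bool) (χ : ℕ → ℕ)
    (x x' y y' z z' X X' Y Y' Z Z' : ℕ) : Prop where
  me : Me S m σ χ
  nd : [x, x', y, y', z, z', X, X', Y, Y', Z, Z'].Nodup
  mem : ∀ c ∈ [x, x', y, y', z, z', X, X', Y, Y', Z, Z'], c ∈ S
  sx : σ X = (!σ x) ∧ χ X = χ x
  sx' : σ X' = (!σ x') ∧ χ X' = χ x'
  sy : σ Y = (!σ y) ∧ χ Y = χ y
  sy' : σ Y' = (!σ y') ∧ χ Y' = χ y'
  sz : σ Z = (!σ z) ∧ χ Z = χ z
  sz' : σ Z' = (!σ z') ∧ χ Z' = χ z'

theorem Dat3.swap (h : Dat3 S m σ χ x x' y y' z z' X X' Y Y' Z Z') :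
    Dat3 S m σ χ x' x y' y z' z X' X Y' Y Z' Z where
  me := h.me
  nd := by
    refine List.Perm.nodup ?_ h.nd
    rw [List.perm_iff_count]; intro a; simp only [List.count_cons, List.count_nil]; omega
  mem := by
    intro c hc
    refine h.mem c ?_
    simp only [List.mem_cons, List.not_mem_nil, or_false] at hc ⊢; tauto
  sx := h.sx'
  sx' := h.sx
  sy := h.sy'
  sy' := h.sy
  sz := h.sz'
  sz' := h.sz

/-- both triple points can be removed -/
def Rem3 (S : Set ℕ) (m : ℕ → ℕ) (σ : ℕ → Bool) (χ : ℕ → ℕ) (e : Bool)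
    (x x' y y' z z' X X' Y Y' Z Z' : ℕ) : Prop :=
  ∃ m', Me (dl S (Nm2 x x' y y' z z' X X' Y Y' Z Z')) m' σ χ ∧
    ∀ (G : Type) [Group G] (o u : ℕ → G),
    Vd (dl S (Nm2 x x' y y' z z' X X' Y Y' Z Z')) m' o u → ∃ o' u' : ℕ → G, Vd S m o' u' ∧
      (∀ c, c ∉ Nm2 x x' y y' z z' X X' Y Y' Z Z' → o' c = o c ∧ u' c = u c) ∧
      Tr e o' u' x x' y y' z z' ∧ Tr (!e) o' u' X X' Y Y' Z Z'

theorem Rem3.swap (h : Rem3 S m σ χ e x' x y' y z' z X' X Y' Y Z' Z) :
    Rem3 S m σ χ e x x' y y' z z' X X' Y Y' Z Z' := by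
  obtain ⟨m', h1, h2⟩ := h
  rw [dl_perm S nm2_swap] at h1 h2
  refine ⟨m', h1, fun G _ o u hv => ?_⟩
  obtain ⟨o', u', k1, k2, k3, k4⟩ := h2 G o u hv
  exact ⟨o', u', k1, fun c hc => k2 c fun h => hc (nm2_swap.subset h), k3.swap, k4.swap⟩

theorem rem3_xy_s (h : Dat3 S m σ χ x x' y y' z z' X X' Y Y' Z Z') (h1 : m x = X) (h2 : m y = Y) :
    Rem3 S m σ χ e x x' y y' z z' X X' Y Y' Z Z' := by
  have hp : ([x, X] ++ ([y, Y] ++ ([(x', X'), (y', Y'), (z, Z), (z', Z')].flatMap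
      fun p => [p.1, p.2]))).Perm (Nm2 x x' y y' z z' X X' Y Y' Z Z') := by
    unfold Nm2
    rw [List.perm_iff_count]; intro a
    simp only [List.flatMap_cons, List.flatMap_nil, List.cons_append, List.nil_append,
      List.append_nil, List.count_cons, List.count_nil]; omega
  have nd := hp.symm.nodup h.nd
  obtain ⟨m', g1, g2⟩ := free_twoE h.me nd (fun c hc => h.mem c (by
    simp only [List.mem_cons, List.not_mem_nil, or_false] at hc ⊢; tauto)) (by
    intro p hp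
    simp only [List.mem_cons, List.not_mem_nil, or_false] at hp
    rcases hp with rfl | rfl | rfl | rfl
    · exact ⟨h.mem _ (by simp), h.mem _ (by simp), h.sx'⟩
    · exact ⟨h.mem _ (by simp), h.mem _ (by simp), h.sy'⟩
    · exact ⟨h.mem _ (by simp), h.mem _ (by simp), h.sz⟩
    · exact ⟨h.mem _ (by simp), h.mem _ (by simp), h.sz'⟩) h1 h2
  rw [dl_perm S hp] at g1 g2
  refine ⟨m', g1, fun G _ o u hv => ?_⟩
  obtain ⟨o', u', r, g3⟩ := g2 G o u hv
  simp only [List.mem_cons, List.not_mem_nil, or_false, forall_eq_or_imp, forall_eq] at r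
  obtain ⟨⟨r1, r1'⟩, ⟨r2, r2'⟩, ⟨r3, r3'⟩, ⟨r4, r4'⟩⟩ := r
  obtain ⟨o'', u'', v1, w1, w2, ⟨a1, a2, a3, a4⟩, ⟨b1, b2, b3, b4⟩⟩ := g3
    (if e = true then (o' y' * o' x' * 1)⁻¹ else (o' x' * o' y')⁻¹ * (1)⁻¹)
    (if e = true then (o' z' * u' x' * o' z)⁻¹ else (u' x' * o' z')⁻¹ * (o' z)⁻¹)
    1
    (if e = true then (u' z' * u' y' * u' z)⁻¹ else (u' y' * u' z')⁻¹ * (u' z)⁻¹)
  have q1 := w1 x' (by simp)
  have q2 := w1 X' (by simp)
  have q3 := w1 y' (by simp)
  have q4 := w1 Y' (by simp)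
  have q5 := w1 z (by simp)
  have q6 := w1 Z (by simp)
  have q7 := w1 z' (by simp)
  have q8 := w1 Z' (by simp)
  have t : Tr e o'' u'' x x' y y' z z' := by
    unfold Tr
    rw [a1, a2, b1, b2, q1.1, q1.2, q3.1, q3.2, q5.1, q5.2, q7.1, q7.2]
    split_ifs with he
    · refine ⟨?_, ?_, ?_⟩ <;> group
    · refine ⟨?_, ?_, ?_⟩ <;> group
  refine ⟨o'', u'', v1, fun c hc => w2 c fun h' => hc (hp.subset h'), t, ?_⟩
  exact tr_inv t (by rw [a3, a1])
    (by rw [q2.1, q1.1, r1])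
    (by rw [b3, b1])
    (by rw [q4.1, q3.1, r2])
    (by rw [q6.1, q5.1, r3])
    (by rw [q8.1, q7.1, r4])
    (by rw [a4, a2])
    (by rw [q2.2, q1.2, r1'])
    (by rw [b4, b2])
    (by rw [q4.2, q3.2, r2'])
    (by rw [q6.2, q5.2, r3'])
    (by rw [q8.2, q7.2, r4'])

theorem rem3_xy_d (h : Dat3 S m σ χ x x' y y' z z' X X' Y Y' Z Z') (h1 : m x = X) (h2 : m y' = Y') :
    Rem3 S m σ χ e x x' y y' z z' X X' Y Y' Z Z' := by
  have hp : ([x, X] ++ ([y', Y'] ++ ([(x', X'), (y, Y), (z, Z), (z', Z')].flatMap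
      fun p => [p.1, p.2]))).Perm (Nm2 x x' y y' z z' X X' Y Y' Z Z') := by
    unfold Nm2
    rw [List.perm_iff_count]; intro a
    simp only [List.flatMap_cons, List.flatMap_nil, List.cons_append, List.nil_append,
      List.append_nil, List.count_cons, List.count_nil]; omega
  have nd := hp.symm.nodup h.nd
  obtain ⟨m', g1, g2⟩ := free_twoE h.me nd (fun c hc => h.mem c (by
    simp only [List.mem_cons, List.not_mem_nil, or_false] at hc ⊢; tauto)) (by
    intro p hp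
    simp only [List.mem_cons, List.not_mem_nil, or_false] at hp
    rcases hp with rfl | rfl | rfl | rfl
    · exact ⟨h.mem _ (by simp), h.mem _ (by simp), h.sx'⟩
    · exact ⟨h.mem _ (by simp), h.mem _ (by simp), h.sy⟩
    · exact ⟨h.mem _ (by simp), h.mem _ (by simp), h.sz⟩
    · exact ⟨h.mem _ (by simp), h.mem _ (by simp), h.sz'⟩) h1 h2
  rw [dl_perm S hp] at g1 g2
  refine ⟨m', g1, fun G _ o u hv => ?_⟩
  obtain ⟨o', u', r, g3⟩ := g2 G o u hv
  simp only [List.mem_cons, List.not_mem_nil, or_false, forall_eq_or_imp, forall_eq] at r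
  obtain ⟨⟨r1, r1'⟩, ⟨r2, r2'⟩, ⟨r3, r3'⟩, ⟨r4, r4'⟩⟩ := r
  obtain ⟨o'', u'', v1, w1, w2, ⟨a1, a2, a3, a4⟩, ⟨b1, b2, b3, b4⟩⟩ := g3
    (if e = true then (1 * o' x' * o' y)⁻¹ else (o' x' * 1)⁻¹ * (o' y)⁻¹)
    (if e = true then (o' z' * u' x' * o' z)⁻¹ else (u' x' * o' z')⁻¹ * (o' z)⁻¹)
    1
    (if e = true then (u' z')⁻¹ * (u' z * u' y)⁻¹ else (u' z' * u' y * u' z)⁻¹)
  have q1 := w1 x' (by simp)
  have q2 := w1 X' (by simp)
  have q3 := w1 y (by simp)
  have q4 := w1 Y (by simp)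
  have q5 := w1 z (by simp)
  have q6 := w1 Z (by simp)
  have q7 := w1 z' (by simp)
  have q8 := w1 Z' (by simp)
  have t : Tr e o'' u'' x x' y y' z z' := by
    unfold Tr
    rw [a1, a2, b1, b2, q1.1, q1.2, q3.1, q3.2, q5.1, q5.2, q7.1, q7.2]
    split_ifs with he
    · refine ⟨?_, ?_, ?_⟩ <;> group
    · refine ⟨?_, ?_, ?_⟩ <;> group
  refine ⟨o'', u'', v1, fun c hc => w2 c fun h' => hc (hp.subset h'), t, ?_⟩
  exact tr_inv t (by rw [a3, a1])
    (by rw [q2.1, q1.1, r1])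
    (by rw [q4.1, q3.1, r2])
    (by rw [b3, b1])
    (by rw [q6.1, q5.1, r3])
    (by rw [q8.1, q7.1, r4])
    (by rw [a4, a2])
    (by rw [q2.2, q1.2, r1'])
    (by rw [q4.2, q3.2, r2'])
    (by rw [b4, b2])
    (by rw [q6.2, q5.2, r3'])
    (by rw [q8.2, q7.2, r4'])

theorem rem3_xy (h : Dat3 S m σ χ x x' y y' z z' X X' Y Y' Z Z') (h1 : m x = X ∨ m x' = X')
    (h2 : m y = Y ∨ m y' = Y') : Rem3 S m σ χ e x x' y y' z z' X X' Y Y' Z Z' := by
  rcases h1 with h1 | h1 <;> rcases h2 with h2 | h2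
  · exact rem3_xy_s h h1 h2
  · exact rem3_xy_d h h1 h2
  · exact (rem3_xy_d h.swap h1 h2).swap
  · exact (rem3_xy_s h.swap h1 h2).swap

theorem rem3_xz_s (h : Dat3 S m σ χ x x' y y' z z' X X' Y Y' Z Z') (h1 : m x = X) (h2 : m z = Z) :
    Rem3 S m σ χ e x x' y y' z z' X X' Y Y' Z Z' := by
  have hp : ([x, X] ++ ([z, Z] ++ ([(x', X'), (y, Y), (y', Y'), (z', Z')].flatMap
      fun p => [p.1, p.2]))).Perm (Nm2 x x' y y' z z' X X' Y Y' Z Z') := by
    unfold Nm2
    rw [List.perm_iff_count]; intro a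
    simp only [List.flatMap_cons, List.flatMap_nil, List.cons_append, List.nil_append,
      List.append_nil, List.count_cons, List.count_nil]; omega
  have nd := hp.symm.nodup h.nd
  obtain ⟨m', g1, g2⟩ := free_twoE h.me nd (fun c hc => h.mem c (by
    simp only [List.mem_cons, List.not_mem_nil, or_false] at hc ⊢; tauto)) (by
    intro p hp
    simp only [List.mem_cons, List.not_mem_nil, or_false] at hp
    rcases hp with rfl | rfl | rfl | rfl
    · exact ⟨h.mem _ (by simp), h.mem _ (by simp), h.sx'⟩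
    · exact ⟨h.mem _ (by simp), h.mem _ (by simp), h.sy⟩
    · exact ⟨h.mem _ (by simp), h.mem _ (by simp), h.sy'⟩
    · exact ⟨h.mem _ (by simp), h.mem _ (by simp), h.sz'⟩) h1 h2
  rw [dl_perm S hp] at g1 g2
  refine ⟨m', g1, fun G _ o u hv => ?_⟩
  obtain ⟨o', u', r, g3⟩ := g2 G o u hv
  simp only [List.mem_cons, List.not_mem_nil, or_false, forall_eq_or_imp, forall_eq] at r
  obtain ⟨⟨r1, r1'⟩, ⟨r2, r2'⟩, ⟨r3, r3'⟩, ⟨r4, r4'⟩⟩ := r
  obtain ⟨o'', u'', v1, w1, w2, ⟨a1, a2, a3, a4⟩, ⟨b1, b2, b3, b4⟩⟩ := g3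
    (if e = true then (o' y' * o' x' * o' y)⁻¹ else (o' x' * o' y')⁻¹ * (o' y)⁻¹)
    (if e = true then (o' z' * u' x' * 1)⁻¹ else (u' x' * o' z')⁻¹ * (1)⁻¹)
    1
    (if e = true then (u' z' * u' y')⁻¹ * (u' y)⁻¹ else (u' y' * u' z' * u' y)⁻¹)
  have q1 := w1 x' (by simp)
  have q2 := w1 X' (by simp)
  have q3 := w1 y (by simp)
  have q4 := w1 Y (by simp)
  have q5 := w1 y' (by simp)
  have q6 := w1 Y' (by simp)
  have q7 := w1 z' (by simp)
  have q8 := w1 Z' (by simp)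
  have t : Tr e o'' u'' x x' y y' z z' := by
    unfold Tr
    rw [a1, a2, b1, b2, q1.1, q1.2, q3.1, q3.2, q5.1, q5.2, q7.1, q7.2]
    split_ifs with he
    · refine ⟨?_, ?_, ?_⟩ <;> group
    · refine ⟨?_, ?_, ?_⟩ <;> group
  refine ⟨o'', u'', v1, fun c hc => w2 c fun h' => hc (hp.subset h'), t, ?_⟩
  exact tr_inv t (by rw [a3, a1])
    (by rw [q2.1, q1.1, r1])
    (by rw [q4.1, q3.1, r2])
    (by rw [q6.1, q5.1, r3])
    (by rw [b3, b1])
    (by rw [q8.1, q7.1, r4])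
    (by rw [a4, a2])
    (by rw [q2.2, q1.2, r1'])
    (by rw [q4.2, q3.2, r2'])
    (by rw [q6.2, q5.2, r3'])
    (by rw [b4, b2])
    (by rw [q8.2, q7.2, r4'])

theorem rem3_xz_d (h : Dat3 S m σ χ x x' y y' z z' X X' Y Y' Z Z') (h1 : m x = X) (h2 : m z' = Z') :
    Rem3 S m σ χ e x x' y y' z z' X X' Y Y' Z Z' := by
  have hp : ([x, X] ++ ([z', Z'] ++ ([(x', X'), (y, Y), (y', Y'), (z, Z)].flatMap
      fun p => [p.1, p.2]))).Perm (Nm2 x x' y y' z z' X X' Y Y' Z Z') := by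
    unfold Nm2
    rw [List.perm_iff_count]; intro a
    simp only [List.flatMap_cons, List.flatMap_nil, List.cons_append, List.nil_append,
      List.append_nil, List.count_cons, List.count_nil]; omega
  have nd := hp.symm.nodup h.nd
  obtain ⟨m', g1, g2⟩ := free_twoE h.me nd (fun c hc => h.mem c (by
    simp only [List.mem_cons, List.not_mem_nil, or_false] at hc ⊢; tauto)) (by
    intro p hp
    simp only [List.mem_cons, List.not_mem_nil, or_false] at hp
    rcases hp with rfl | rfl | rfl | rfl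
    · exact ⟨h.mem _ (by simp), h.mem _ (by simp), h.sx'⟩
    · exact ⟨h.mem _ (by simp), h.mem _ (by simp), h.sy⟩
    · exact ⟨h.mem _ (by simp), h.mem _ (by simp), h.sy'⟩
    · exact ⟨h.mem _ (by simp), h.mem _ (by simp), h.sz⟩) h1 h2
  rw [dl_perm S hp] at g1 g2
  refine ⟨m', g1, fun G _ o u hv => ?_⟩
  obtain ⟨o', u', r, g3⟩ := g2 G o u hv
  simp only [List.mem_cons, List.not_mem_nil, or_false, forall_eq_or_imp, forall_eq] at r
  obtain ⟨⟨r1, r1'⟩, ⟨r2, r2'⟩, ⟨r3, r3'⟩, ⟨r4, r4'⟩⟩ := r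
  obtain ⟨o'', u'', v1, w1, w2, ⟨a1, a2, a3, a4⟩, ⟨b1, b2, b3, b4⟩⟩ := g3
    (if e = true then (o' y' * o' x' * o' y)⁻¹ else (o' x' * o' y')⁻¹ * (o' y)⁻¹)
    (if e = true then (1 * u' x' * o' z)⁻¹ else (u' x' * 1)⁻¹ * (o' z)⁻¹)
    1
    (if e = true then (u' y' * u' z * u' y)⁻¹ else (u' y')⁻¹ * (u' y * u' z)⁻¹)
  have q1 := w1 x' (by simp)
  have q2 := w1 X' (by simp)
  have q3 := w1 y (by simp)
  have q4 := w1 Y (by simp)
  have q5 := w1 y' (by simp)
  have q6 := w1 Y' (by simp)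
  have q7 := w1 z (by simp)
  have q8 := w1 Z (by simp)
  have t : Tr e o'' u'' x x' y y' z z' := by
    unfold Tr
    rw [a1, a2, b1, b2, q1.1, q1.2, q3.1, q3.2, q5.1, q5.2, q7.1, q7.2]
    split_ifs with he
    · refine ⟨?_, ?_, ?_⟩ <;> group
    · refine ⟨?_, ?_, ?_⟩ <;> group
  refine ⟨o'', u'', v1, fun c hc => w2 c fun h' => hc (hp.subset h'), t, ?_⟩
  exact tr_inv t (by rw [a3, a1])
    (by rw [q2.1, q1.1, r1])
    (by rw [q4.1, q3.1, r2])
    (by rw [q6.1, q5.1, r3])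
    (by rw [q8.1, q7.1, r4])
    (by rw [b3, b1])
    (by rw [a4, a2])
    (by rw [q2.2, q1.2, r1'])
    (by rw [q4.2, q3.2, r2'])
    (by rw [q6.2, q5.2, r3'])
    (by rw [q8.2, q7.2, r4'])
    (by rw [b4, b2])

theorem rem3_xz (h : Dat3 S m σ χ x x' y y' z z' X X' Y Y' Z Z') (h1 : m x = X ∨ m x' = X')
    (h2 : m z = Z ∨ m z' = Z') : Rem3 S m σ χ e x x' y y' z z' X X' Y Y' Z Z' := by
  rcases h1 with h1 | h1 <;> rcases h2 with h2 | h2
  · exact rem3_xz_s h h1 h2
  · exact rem3_xz_d h h1 h2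
  · exact (rem3_xz_d h.swap h1 h2).swap
  · exact (rem3_xz_s h.swap h1 h2).swap

theorem rem3_yz_s (h : Dat3 S m σ χ x x' y y' z z' X X' Y Y' Z Z') (h1 : m y = Y) (h2 : m z = Z) :
    Rem3 S m σ χ e x x' y y' z z' X X' Y Y' Z Z' := by
  have hp : ([y, Y] ++ ([z, Z] ++ ([(x, X), (x', X'), (y', Y'), (z', Z')].flatMap
      fun p => [p.1, p.2]))).Perm (Nm2 x x' y y' z z' X X' Y Y' Z Z') := by
    unfold Nm2
    rw [List.perm_iff_count]; intro a
    simp only [List.flatMap_cons, List.flatMap_nil, List.cons_append, List.nil_append,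
      List.append_nil, List.count_cons, List.count_nil]; omega
  have nd := hp.symm.nodup h.nd
  obtain ⟨m', g1, g2⟩ := free_twoE h.me nd (fun c hc => h.mem c (by
    simp only [List.mem_cons, List.not_mem_nil, or_false] at hc ⊢; tauto)) (by
    intro p hp
    simp only [List.mem_cons, List.not_mem_nil, or_false] at hp
    rcases hp with rfl | rfl | rfl | rfl
    · exact ⟨h.mem _ (by simp), h.mem _ (by simp), h.sx⟩
    · exact ⟨h.mem _ (by simp), h.mem _ (by simp), h.sx'⟩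
    · exact ⟨h.mem _ (by simp), h.mem _ (by simp), h.sy'⟩
    · exact ⟨h.mem _ (by simp), h.mem _ (by simp), h.sz'⟩) h1 h2
  rw [dl_perm S hp] at g1 g2
  refine ⟨m', g1, fun G _ o u hv => ?_⟩
  obtain ⟨o', u', r, g3⟩ := g2 G o u hv
  simp only [List.mem_cons, List.not_mem_nil, or_false, forall_eq_or_imp, forall_eq] at r
  obtain ⟨⟨r1, r1'⟩, ⟨r2, r2'⟩, ⟨r3, r3'⟩, ⟨r4, r4'⟩⟩ := r
  obtain ⟨o'', u'', v1, w1, w2, ⟨a1, a2, a3, a4⟩, ⟨b1, b2, b3, b4⟩⟩ := g3
    (if e = true then (o' y' * o' x')⁻¹ * (o' x)⁻¹ else (o' x' * o' y' * o' x)⁻¹)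
    (if e = true then (u' z' * u' y' * 1)⁻¹ else (u' y' * u' z')⁻¹ * (1)⁻¹)
    (if e = true then (o' z' * u' x')⁻¹ * (u' x)⁻¹ else (u' x' * o' z' * u' x)⁻¹)
    1
  have q1 := w1 x (by simp)
  have q2 := w1 X (by simp)
  have q3 := w1 x' (by simp)
  have q4 := w1 X' (by simp)
  have q5 := w1 y' (by simp)
  have q6 := w1 Y' (by simp)
  have q7 := w1 z' (by simp)
  have q8 := w1 Z' (by simp)
  have t : Tr e o'' u'' x x' y y' z z' := by
    unfold Tr
    rw [a1, a2, b1, b2, q1.1, q1.2, q3.1, q3.2, q5.1, q5.2, q7.1, q7.2]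
    split_ifs with he
    · refine ⟨?_, ?_, ?_⟩ <;> group
    · refine ⟨?_, ?_, ?_⟩ <;> group
  refine ⟨o'', u'', v1, fun c hc => w2 c fun h' => hc (hp.subset h'), t, ?_⟩
  exact tr_inv t (by rw [q2.1, q1.1, r1])
    (by rw [q4.1, q3.1, r2])
    (by rw [a3, a1])
    (by rw [q6.1, q5.1, r3])
    (by rw [b3, b1])
    (by rw [q8.1, q7.1, r4])
    (by rw [q2.2, q1.2, r1'])
    (by rw [q4.2, q3.2, r2'])
    (by rw [a4, a2])
    (by rw [q6.2, q5.2, r3'])
    (by rw [b4, b2])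
    (by rw [q8.2, q7.2, r4'])

theorem rem3_yz_d (h : Dat3 S m σ χ x x' y y' z z' X X' Y Y' Z Z') (h1 : m y = Y) (h2 : m z' = Z') :
    Rem3 S m σ χ e x x' y y' z z' X X' Y Y' Z Z' := by
  have hp : ([y, Y] ++ ([z', Z'] ++ ([(x, X), (x', X'), (y', Y'), (z, Z)].flatMap
      fun p => [p.1, p.2]))).Perm (Nm2 x x' y y' z z' X X' Y Y' Z Z') := by
    unfold Nm2
    rw [List.perm_iff_count]; intro a
    simp only [List.flatMap_cons, List.flatMap_nil, List.cons_append, List.nil_append,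
      List.append_nil, List.count_cons, List.count_nil]; omega
  have nd := hp.symm.nodup h.nd
  obtain ⟨m', g1, g2⟩ := free_twoE h.me nd (fun c hc => h.mem c (by
    simp only [List.mem_cons, List.not_mem_nil, or_false] at hc ⊢; tauto)) (by
    intro p hp
    simp only [List.mem_cons, List.not_mem_nil, or_false] at hp
    rcases hp with rfl | rfl | rfl | rfl
    · exact ⟨h.mem _ (by simp), h.mem _ (by simp), h.sx⟩
    · exact ⟨h.mem _ (by simp), h.mem _ (by simp), h.sx'⟩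
    · exact ⟨h.mem _ (by simp), h.mem _ (by simp), h.sy'⟩
    · exact ⟨h.mem _ (by simp), h.mem _ (by simp), h.sz⟩) h1 h2
  rw [dl_perm S hp] at g1 g2
  refine ⟨m', g1, fun G _ o u hv => ?_⟩
  obtain ⟨o', u', r, g3⟩ := g2 G o u hv
  simp only [List.mem_cons, List.not_mem_nil, or_false, forall_eq_or_imp, forall_eq] at r
  obtain ⟨⟨r1, r1'⟩, ⟨r2, r2'⟩, ⟨r3, r3'⟩, ⟨r4, r4'⟩⟩ := r
  obtain ⟨o'', u'', v1, w1, w2, ⟨a1, a2, a3, a4⟩, ⟨b1, b2, b3, b4⟩⟩ := g3
    (if e = true then (o' y' * o' x')⁻¹ * (o' x)⁻¹ else (o' x' * o' y' * o' x)⁻¹)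
    (if e = true then (1 * u' y' * u' z)⁻¹ else (u' y' * 1)⁻¹ * (u' z)⁻¹)
    (if e = true then (u' x' * o' z * u' x)⁻¹ else (u' x')⁻¹ * (u' x * o' z)⁻¹)
    1
  have q1 := w1 x (by simp)
  have q2 := w1 X (by simp)
  have q3 := w1 x' (by simp)
  have q4 := w1 X' (by simp)
  have q5 := w1 y' (by simp)
  have q6 := w1 Y' (by simp)
  have q7 := w1 z (by simp)
  have q8 := w1 Z (by simp)
  have t : Tr e o'' u'' x x' y y' z z' := by
    unfold Tr
    rw [a1, a2, b1, b2, q1.1, q1.2, q3.1, q3.2, q5.1, q5.2, q7.1, q7.2]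
    split_ifs with he
    · refine ⟨?_, ?_, ?_⟩ <;> group
    · refine ⟨?_, ?_, ?_⟩ <;> group
  refine ⟨o'', u'', v1, fun c hc => w2 c fun h' => hc (hp.subset h'), t, ?_⟩
  exact tr_inv t (by rw [q2.1, q1.1, r1])
    (by rw [q4.1, q3.1, r2])
    (by rw [a3, a1])
    (by rw [q6.1, q5.1, r3])
    (by rw [q8.1, q7.1, r4])
    (by rw [b3, b1])
    (by rw [q2.2, q1.2, r1'])
    (by rw [q4.2, q3.2, r2'])
    (by rw [a4, a2])
    (by rw [q6.2, q5.2, r3'])
    (by rw [q8.2, q7.2, r4'])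
    (by rw [b4, b2])

theorem rem3_yz (h : Dat3 S m σ χ x x' y y' z z' X X' Y Y' Z Z') (h1 : m y = Y ∨ m y' = Y')
    (h2 : m z = Z ∨ m z' = Z') : Rem3 S m σ χ e x x' y y' z z' X X' Y Y' Z Z' := by
  rcases h1 with h1 | h1 <;> rcases h2 with h2 | h2
  · exact rem3_yz_s h h1 h2
  · exact rem3_yz_d h h1 h2
  · exact (rem3_yz_d h.swap h1 h2).swap
  · exact (rem3_yz_s h.swap h1 h2).swap

end Pool.Agent.V5helper74.SR
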