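import Pool.Agent.V5helper74.SR.E9
import Pool.Agent.V5helper74.SR.G5
import Pool.Agent.V5helper74.SR.G6

/-! Removing two triple points joined by double curves, with control of the classes. -/

namespace Pool.Agent.V5helper74.SR

open Pool.Agent.Y468.SR
open Pool.Agent.Y874.TP
open Pool.Agent.R800.BT

variable {T T' : Tri} {R : Code} {e : Bool} {σ : ℕ → Bool} {m : ℕ → ℕ} {χ : ℕ → ℕ}

/-- two triple points are removed -/
theorem removeL3 (wf : WF (passes (T.code ++ (T'.code ++ R))))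
    (hσ : ∀ p ∈ passes (T.code ++ (T'.code ++ R)), σ p.crossing = p.isPos)
    (hn : NullV (T.code ++ (T'.code ++ R)) m)
    (ht : Hts T) (ht' : Hts T') (he : T.ei = e ∧ T.ej = e ∧ T.ek = e)
    (he' : T'.ei = (!e) ∧ T'.ej = (!e) ∧ T'.ek = (!e))
    (hr : Rem3 (Cr (passes (T.code ++ (T'.code ++ R)))) m σ χ e T.a₁ T.a₂ T.b₁ T.b₂ T.c₁ T.c₂
      T'.a₁ T'.a₂ T'.b₁ T'.b₂ T'.c₁ T'.c₂) :
    ∃ m', Matching (passes R) m' ∧ NullV R m' ∧
      ∀ c, onD R c → χ (m' c) = χ c ∧ (m' c = c → χ c % 2 = 0) := by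
  obtain ⟨m', h1, h2⟩ := hr
  set N := Nm2 T.a₁ T.a₂ T.b₁ T.b₂ T.c₁ T.c₂ T'.a₁ T'.a₂ T'.b₁ T'.b₂ T'.c₁ T'.c₂ with hN
  rw [hN, cr_diff2 wf] at h1 h2
  have hmem : ∀ p ∈ passes R, p ∈ passes (T.code ++ (T'.code ++ R)) := by
    intro p hp; rw [passes_append', passes_append']; simp [hp]
  obtain ⟨k1, k2⟩ := matching_of (fun p hp => hσ p (hmem p hp)) h1.mt
  refine ⟨m', k1, fun G _ o u hv b => ?_, fun c hc => ⟨(h1.mt c hc).2.2.2, h1.ev c hc⟩⟩
  obtain ⟨o', u', v1, v2, v3, v4⟩ := h2 G o u (vd_iff.2 hv)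
  have h3 := hn G o' u' (vd_iff.1 v1) b
  rw [vals_append, bv_append, vals_append, bv_append] at h3
  have h4 := cn_drop (bv_one (tr_wval ht' he' v4) b) (cn_drop (bv_one (tr_wval ht he v3) b) h3)
  have h5 : vals o' u' R = vals o u R := by
    unfold vals
    refine List.map_congr_left fun C hC => ?_
    refine Prod.ext ?_ rfl
    refine wval_congr fun r hr => ?_
    have hr' : r ∈ passes R := mem_passes.2 ⟨C, hC, hr⟩
    have h6 : r.crossing ∉ N := by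
      have : r.crossing ∈ Cr (passes R) := ⟨r, hr', rfl⟩
      rw [← cr_diff2 wf] at this
      exact this.2
    obtain ⟨w1, w2⟩ := v2 _ h6
    unfold val
    rw [w1, w2]
  rwa [h5] at h4

theorem dropPair3 (wf : WF (passes (T.code ++ (T'.code ++ R))))
    (hm : Matching (passes (T.code ++ (T'.code ++ R))) m) (hnv : NullV (T.code ++ (T'.code ++ R)) m)
    (hcl : ∀ c, onD (T.code ++ (T'.code ++ R)) c → χ (m c) = χ c ∧ (m c = c → χ c % 2 = 0))
    (hok : T.Ok) (hok' : T'.Ok) (ht : Hts T) (ht' : Hts T') (hs : ∀ y i j, χ (pt T' y i) = χ (pt T y j))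
    (hR : R2 m T T') :
    ∃ m', Matching (passes R) m' ∧ NullV R m' ∧
      ∀ c, onD R c → χ (m' c) = χ c ∧ (m' c = c → χ c % 2 = 0) := by
  obtain ⟨he, hzw⟩ := hR
  obtain ⟨T₁, s1, e1, e2, e3, -⟩ := exists_norm T true
  obtain ⟨T₂, s2, f1, f2, f3, f4⟩ := exists_norm T' (!T₁.sa)
  have h0 : Sv (T.code ++ (T'.code ++ R)) (fun _ => 0) m := ⟨wf, hm, hnv, fun _ _ => rfl⟩
  have hp : (T.code ++ (T'.code ++ R)).Perm (T'.code ++ (T.code ++ R)) :=
    List.perm_append_comm_assoc _ _ _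
  have hp' : (T₂.code ++ (T.code ++ R)).Perm (T.code ++ (T₂.code ++ R)) :=
    List.perm_append_comm_assoc _ _ _
  have h1 : Sv (T₁.code ++ (T₂.code ++ R)) (fun _ => 0) m :=
    (((h0.perm hp).ceq s2.ceq).perm hp').ceq s1.ceq
  have hon : ∀ c, onD (T₁.code ++ (T₂.code ++ R)) c → onD (T.code ++ (T'.code ++ R)) c := by
    intro c hc
    rw [onD_append, onD_append] at hc ⊢
    rwa [onD_ceq s1.ceq, onD_ceq s2.ceq]
  obtain ⟨σ, hσ⟩ := exists_sign h1.wf
  have hd2 := dat2 h1.wf hσ h1.mt (s1.ok hok) (s2.ok hok') (s1.ht ht) (s2.ht ht')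
    ⟨e1, e2, e3⟩ ⟨by rw [f1, he], by rw [f2, he], by rw [f3, he]⟩ f4
  have hs' : ∀ y i, χ (pt T₂ y i) = χ (pt T₁ y i) := by
    intro y i
    obtain ⟨a, ha⟩ := s1.pt y
    obtain ⟨b, hb⟩ := s2.pt y
    rw [ha, hb]
    exact hs y _ _
  have hd : Dat3 (Cr (passes (T₁.code ++ (T₂.code ++ R)))) m σ χ T₁.a₁ T₁.a₂ T₁.b₁ T₁.b₂ T₁.c₁ T₁.c₂
      T₂.a₁ T₂.a₂ T₂.b₁ T₂.b₂ T₂.c₁ T₂.c₂ :=
    ⟨⟨mt_of hσ h1.mt fun p hp => (hcl _ (hon _ ⟨p, hp, rfl⟩)).1, fun c hc => (hcl _ (hon _ hc)).2⟩,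
      hd2.nd, hd2.mem, ⟨hd2.sx, hs' .A false⟩, ⟨hd2.sx', hs' .A true⟩, ⟨hd2.sy, hs' .B false⟩,
      ⟨hd2.sy', hs' .B true⟩, ⟨hd2.sz, hs' .C false⟩, ⟨hd2.sz', hs' .C true⟩⟩
  have key : ∀ y, (∃ i j, m (pt T y i) = pt T' y j) → ∃ i j, m (pt T₁ y i) = pt T₂ y j := by
    rintro y ⟨i, j, hij⟩
    obtain ⟨a, ha⟩ := s1.pt y
    obtain ⟨b, hb⟩ := s2.pt y
    refine ⟨xor a i, xor b j, ?_⟩
    rw [ha, hb, ← Bool.xor_assoc, ← Bool.xor_assoc, Bool.xor_self, Bool.xor_self, Bool.false_xor,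
      Bool.false_xor, hij]
  have hsg : ∀ c ∈ Cr (passes (T₁.code ++ (T₂.code ++ R))), ∀ d, m c = d → d ≠ c → σ d = σ c →
      False := by
    intro c hc d h1 h2 h3
    have h4 := (hd2.mt c hc).2.2.1 (by rw [h1]; exact h2)
    rw [h1, h3] at h4
    cases h5 : σ c <;> rw [h5] at h4 <;> simp at h4
  have op₁ : ∀ y, σ (pt T₁ y true) = !σ (pt T₁ y false) :=
    sg_op hσ (fun p hp => by rw [passes_append']; simp [hp])
  have op₂ : ∀ y, σ (pt T₂ y true) = !σ (pt T₂ y false) :=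
    sg_op hσ (fun p hp => by rw [passes_append', passes_append']; simp [hp])
  have op₃ : ∀ y, σ (pt T₂ y false) = !σ (pt T₁ y false) := by
    intro y
    cases y
    · exact hd2.sx
    · exact hd2.sy
    · exact hd2.sz
  have hmem : ∀ y i, pt T₁ y i ∈ Cr (passes (T₁.code ++ (T₂.code ++ R))) := by
    intro y i
    cases y <;> cases i <;> exact hd2.mem _ (by simp [pt])
  have hne : ∀ y i j, pt T₂ y j ≠ pt T₁ y i := by
    have hnd := (List.nodup_append.1 (show ([T₁.a₁, T₁.a₂, T₁.b₁, T₁.b₂, T₁.c₁, T₁.c₂] ++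
      [T₂.a₁, T₂.a₂, T₂.b₁, T₂.b₂, T₂.c₁, T₂.c₂]).Nodup from hd2.nd)).2.2
    intro y i j
    refine Ne.symm (hnd _ ?_ _ ?_)
    · cases y <;> cases i <;> simp [pt]
    · cases y <;> cases j <;> simp [pt]
  have g : ∀ y, (∃ i j, m (pt T y i) = pt T' y j) → m (pt T₁ y false) = pt T₂ y false ∨
      m (pt T₁ y true) = pt T₂ y true := by
    intro y hy
    obtain ⟨i, j, hij⟩ := key y hy
    cases i <;> cases j
    · exact Or.inl hij
    · exact (hsg _ (hmem _ _) _ hij (hne _ _ _) (by rw [op₂, op₃, Bool.not_not])).elim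
    · exact (hsg _ (hmem _ _) _ hij (hne _ _ _) (by rw [op₃, op₁])).elim
    · exact Or.inr hij
  obtain ⟨z, w, hne', hz, hw⟩ := hzw
  have gz := g z hz
  have gw := g w hw
  have he2 : T₂.ei = (!(et T)) ∧ T₂.ej = (!(et T)) ∧ T₂.ek = (!(et T)) :=
    ⟨by rw [f1, he], by rw [f2, he], by rw [f3, he]⟩
  have fin := removeL3 (e := et T) h1.wf hσ h1.nv (s1.ht ht) (s2.ht ht') ⟨e1, e2, e3⟩ he2 (χ := χ)
  apply fin
  cases z <;> cases w
  · exact absurd rfl hne'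
  · exact rem3_xy hd gz gw
  · exact rem3_xz hd gz gw
  · exact rem3_xy hd gw gz
  · exact absurd rfl hne'
  · exact rem3_yz hd gz gw
  · exact rem3_xz hd gw gz
  · exact rem3_yz hd gw gz
  · exact absurd rfl hne'

variable {D : Code} {Ts : List Tri}

open Classical in
/-- the class of a name -/
noncomputable def cls (χ : ℕ → ℕ) (Ts : List Tri) (m : ℕ → ℕ) (c : ℕ) : ℕ :=
  if onD (TC Ts) c then χ c else if onD (TC Ts) (m c) then χ (m c) else 0

theorem cls_pt {Ts : List Tri} {T : Tri} (hT : T ∈ Ts) (y : Lt) (i : Bool) :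
    cls χ Ts m (pt T y i) = χ (pt T y i) := by
  unfold cls
  rw [if_pos (on_iff.2 ⟨T, hT, y, i, rfl⟩)]

theorem cls_ok (h : St D Ts m) (ht : Ty χ Ts m) {c : ℕ} (hc : onD (D ++ TC Ts) c) :
    cls χ Ts m (m c) = cls χ Ts m c ∧ (m c = c → cls χ Ts m c % 2 = 0) := by
  have hmm := h.m_m hc
  unfold cls
  rw [hmm]
  by_cases h1 : onD (TC Ts) c
  · rw [if_pos h1, if_pos h1]
    obtain ⟨T, hT, y, i, rfl⟩ := on_iff.1 h1
    refine ⟨?_, ht.fix T hT y i⟩
    by_cases h2 : onD (TC Ts) (m (pt T y i))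
    · rw [if_pos h2]
      obtain ⟨T', hT', z, j, e⟩ := on_iff.1 h2
      rw [e]
      exact ht.lab T hT T' hT' y z i j e
    · rw [if_neg h2]
  · by_cases h2 : onD (TC Ts) (m c)
    · simp only [if_neg h1, if_pos h2]
      exact ⟨trivial, fun e => absurd (e ▸ h2) h1⟩
    · simp only [if_neg h1, if_neg h2]
      exact ⟨trivial, fun _ => trivial⟩

/-- two triple points joined by double curves can be removed -/
theorem St.drop3 {l : List Tri} (h : St D (T :: T' :: l) m) (ht : Ty χ (T :: T' :: l) m)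
    (hs : ∀ y, χ (pt T' y false) = χ (pt T y false)) (hR : R2 m T T') :
    ∃ m', St D l m' ∧ Ty χ l m' := by
  obtain ⟨hok, hh⟩ := h.ok T (by simp)
  obtain ⟨hok', hh'⟩ := h.ok T' (by simp)
  have hT : T ∈ T :: T' :: l := by simp
  have hT' : T' ∈ T :: T' :: l := by simp
  have hp : (D ++ TC (T :: T' :: l)).Perm (T.code ++ (T'.code ++ (D ++ TC l))) := by
    rw [TC_cons, TC_cons]
    exact (List.perm_append_comm_assoc _ _ _).trans
      (List.Perm.append_left _ (List.perm_append_comm_assoc _ _ _))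
  have hs0 : Sv (D ++ TC (T :: T' :: l)) (fun _ => 0) m := ⟨h.wf, h.mt, h.nv, fun _ _ => rfl⟩
  have hs' := hs0.perm hp
  have hon : ∀ c, onD (T.code ++ (T'.code ++ (D ++ TC l))) c → onD (D ++ TC (T :: T' :: l)) c := by
    rintro c ⟨p, hp', rfl⟩
    exact ⟨p, (passes_perm hp).mem_iff.2 hp', rfl⟩
  obtain ⟨m', k1, k2, k3⟩ := dropPair3 (χ := cls χ (T :: T' :: l) m) hs'.wf hs'.mt hs'.nv
    (fun c hc => cls_ok h ht (hon c hc)) hok hok' hh hh' (fun y i j => by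
      rw [cls_pt hT', cls_pt hT, ht.same T' hT', ht.same T hT, hs]) hR
  have hw : WF (passes (D ++ TC l)) := by
    have h1 := hs'.wf
    rw [passes_append'] at h1
    have h2 := h1.remove fun p hp => mate_code hp
    rw [passes_append'] at h2
    exact h2.remove fun p hp => mate_code hp
  refine ⟨m', ⟨h.wfD, hw, k1, k2, fun S hS => h.ok S (by simp [hS])⟩,
    fun S hS y i => ht.same S (by simp [hS]) y i, fun S hS S' hS' y z i j e => ?_,
    fun S hS y i e => ?_⟩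
  · have hSm : S ∈ T :: T' :: l := by simp [hS]
    have hSm' : S' ∈ T :: T' :: l := by simp [hS']
    have := (k3 (pt S y i) (onD_append.2 (Or.inr (on_iff.2 ⟨S, hS, y, i, rfl⟩)))).1
    rw [e, cls_pt hSm', cls_pt hSm] at this
    exact this
  · have hSm : S ∈ T :: T' :: l := by simp [hS]
    have := (k3 (pt S y i) (onD_append.2 (Or.inr (on_iff.2 ⟨S, hS, y, i, rfl⟩)))).2 e
    rw [cls_pt hSm] at this
    exact this

end Pool.Agent.V5helper74.SR
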