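import Pool.Agent.R800.TP.Defs

/-!
# Movies of diagrams of virtual links

The movies of `Pool.Agent.R800.TP.Defs`, but the diagrams in the movie need not be planar: they are
arbitrary signed Gauss codes, that is, diagrams of links in thickened closed oriented surfaces up to
stabilisation (virtual links). Such a movie describes a surface in the product of a compact oriented
3-manifold and an interval.
-/

namespace Pool.Agent.V5helper74.SR

open Pool.Agent.Y468.SR
open Pool.Agent.Y874.TP (colour TriAt)
open Pool.Agent.Y874.TP2 (CStep)

/-- `VMovie handles Z D T`: the virtual link `D` bounds disjoint connected surfaces, one for each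
label, by a movie of virtual links ending with the empty diagram, births of components being allowed.
Triple points of the projection (moves of type III) are of two kinds: either at least two of the
three double curves through the triple point have colours in `Z`, or the three double curves have
colours outside `Z`. `T` is the list of the triples of colours of the double curves at the triple
points of the second kind: the colour of the crossing of the top and the middle strand, of the top
and the bottom strand, and of the middle and the bottom strand. If `handles = false`, the surfaces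
are planar (discs, if the labels of `D` are different). If `handles = true`, a component may be cut
into two components of the boundary of the same piece of surface, one of which passes only through
crossings with colours in `Z`. -/
inductive VMovie (handles : Bool) (Z : ℕ → Prop) : Code → List (ℕ × ℕ × ℕ) → Prop
  | nil : VMovie handles Z [] []
  | step {D D' : Code} {T : List (ℕ × ℕ × ℕ)} (h : WellFormed D) (hs : CStep D D')
      (hm : VMovie handles Z D' T) : VMovie handles Z D T
  | three {D D' : Code} {T : List (ℕ × ℕ × ℕ)} (h : WellFormed D) (A B C E : List (Pass ⊕ ℕ))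
      (X Y W t m b : Pass × Pass) (x y z : ℕ) (hT : TriAt x y z t m b)
      (hP : List.Perm [X, Y, W] [t, m, b])
      (hD : enc D = A ++ two X.1 X.2 ++ B ++ two Y.1 Y.2 ++ C ++ two W.1 W.2 ++ E)
      (hD' : enc D' = A ++ two X.2 X.1 ++ B ++ two Y.2 Y.1 ++ C ++ two W.2 W.1 ++ E)
      (hZ : ¬Z (colour x) ∧ ¬Z (colour y) ∧ ¬Z (colour z))
      (hm : VMovie handles Z D' T) : VMovie handles Z D ((colour x, colour y, colour z) :: T)
  | inner {D D' : Code} {T : List (ℕ × ℕ × ℕ)} (h : WellFormed D) (A B C E : List (Pass ⊕ ℕ))
      (X Y W t m b : Pass × Pass) (x y z : ℕ) (hT : TriAt x y z t m b)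
      (hP : List.Perm [X, Y, W] [t, m, b])
      (hD : enc D = A ++ two X.1 X.2 ++ B ++ two Y.1 Y.2 ++ C ++ two W.1 W.2 ++ E)
      (hD' : enc D' = A ++ two X.2 X.1 ++ B ++ two Y.2 Y.1 ++ C ++ two W.2 W.1 ++ E)
      (hZ : Z (colour x) ∧ Z (colour y) ∨ Z (colour x) ∧ Z (colour z) ∨ Z (colour y) ∧ Z (colour z))
      (hm : VMovie handles Z D' T) : VMovie handles Z D T
  | handle {R : Code} {T : List (ℕ × ℕ × ℕ)} (x y : List Pass) (b : ℕ) (hh : handles = true)
      (h : WellFormed ((x ++ y, b) :: R)) (hy : ∀ p ∈ y, Z (colour p.crossing))
      (hm : VMovie handles Z ((x, b) :: (y, b) :: R) T) : VMovie handles Z ((x ++ y, b) :: R) T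

end Pool.Agent.V5helper74.SR
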