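import Pool.Agent.V5helper74.SR.VDefs
import Pool.Agent.R800.TP.EvenC
import Pool.Agent.R800.BT.Final

/-! Movies of virtual links yield the invariant; adapted from `R800/TP/Lift.lean`. -/

namespace Pool.Agent.V5helper74.SR

open Pool.Agent.Y468.SR
open Pool.Agent.Y874.TP hiding S_REID S_REN S_THREE S_OUT S_CUT S_JUNC CStep CReid CM InvM InvC Inv3
open Pool.Agent.Y874.TP2
open Pool.Agent.Y874.TP2.T3
open Pool.Agent.Y874.TP2.T4 (del de dw cstep_del wf_del del_cons dw_eq_nil dw_append enc_del de_append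
  de_two_keep de_two_swap enc_inj triAt_crossing mem_three del_eq)

variable {Z : ℕ → Prop}

theorem vmovie_wf {hd : Bool} {D : Code} {T : List (ℕ × ℕ × ℕ)}
    (h : VMovie hd Z D T) : WellFormed D := by
  cases h with
  | nil => exact (classical_empty rfl).1
  | step h _ _ => exact h
  | three h => exact h
  | inner h => exact h
  | handle _ _ _ _ h => exact h

theorem vmovie_inv (hreid : S_REID) (hren : S_REN) (hthree : S_THREE) {hd : Bool} {D : Code}
    {T : List (ℕ × ℕ × ℕ)} (h : VMovie hd Z D T) :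
    ∃ Ts, InvB (del Z D) Ts ∧ Ts.map sig = T.map fun t => (t, (true, true, true)) := by
  induction h with
  | nil =>
    refine ⟨[], ⟨?_, by simp, ?_⟩, rfl⟩
    · exact ⟨by simp [TC, del], by simp [TC, del]⟩
    · refine ⟨id, fun p hp => absurd hp (by simp [TC, del]),
        fun p hp => absurd hp (by simp [TC, del]), fun G _ o u _ b => ?_⟩
      exact PC.nil
  | @step D D' T hD hs hm ih =>
    obtain ⟨Ts, h1, h2⟩ := ih
    rcases cstep_del (Z := Z) hs with h | h
    · obtain ⟨Ts', k1, k2⟩ := cstep_liftB hreid hren (wf_del hD)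
        (wf_del (vmovie_wf hm)) h h1
      exact ⟨Ts', k1, k2.trans h2⟩
    · exact ⟨Ts, by rw [h]; exact h1, h2⟩
  | @three D D' T hD A B C E X Y W t m b x y z hT hP hE hE' hZ hm ih =>
    obtain ⟨Ts, h1, h2⟩ := ih
    obtain ⟨c1, c2, c3⟩ := triAt_crossing hT
    have key : ∀ {u v : ℕ} {q : Pass × Pass}, ¬Z (colour u) → ¬Z (colour v) →
        (q.1.crossing = u ∧ q.2.crossing = v ∨ q.1.crossing = v ∧ q.2.crossing = u) →
        ¬Z (colour q.1.crossing) ∧ ¬Z (colour q.2.crossing) := by
      intro u v q hu hv hq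
      rcases hq with ⟨e1, e2⟩ | ⟨e1, e2⟩ <;> rw [e1, e2] <;> exact ⟨by assumption, by assumption⟩
    obtain ⟨⟨x1, x2⟩, ⟨y1, y2⟩, w1, w2⟩ := mem_three hP (P := fun q : Pass × Pass =>
      ¬Z (colour q.1.crossing) ∧ ¬Z (colour q.2.crossing)) (key hZ.1 hZ.2.1 c1)
      (key hZ.1 hZ.2.2 c2) (key hZ.2.1 hZ.2.2 c3)
    obtain ⟨T', k1, k2⟩ := three_lift (D := del Z D) (D' := del Z D') (A := de Z A) (B := de Z B)
      (C := de Z C) (E := de Z E) hthree hT hP
      (by rw [enc_del, hE]; simp only [de_append, de_two_keep x1 x2, de_two_keep y1 y2,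
        de_two_keep w1 w2])
      (by rw [enc_del, hE']; simp only [de_append, de_two_keep x2 x1, de_two_keep y2 y1,
        de_two_keep w2 w1]) h1
    exact ⟨T' :: Ts, k1, by rw [List.map_cons, List.map_cons, k2, h2]⟩
  | @inner D D' T hD A B C E X Y W t m b x y z hT hP hE hE' hZ hm ih =>
    obtain ⟨c1, c2, c3⟩ := triAt_crossing hT
    have key : ∀ {u v : ℕ} {q : Pass × Pass}, (Z (colour u) ∨ Z (colour v)) →
        (q.1.crossing = u ∧ q.2.crossing = v ∨ q.1.crossing = v ∧ q.2.crossing = u) →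
        Z (colour q.1.crossing) ∨ Z (colour q.2.crossing) := by
      intro u v q hu hq
      rcases hq with ⟨e1, e2⟩ | ⟨e1, e2⟩ <;> rw [e1, e2]
      · exact hu
      · exact hu.symm
    obtain ⟨x1, y1, w1⟩ := mem_three hP (P := fun q : Pass × Pass =>
      Z (colour q.1.crossing) ∨ Z (colour q.2.crossing)) (key (by tauto) c1)
      (key (by tauto) c2) (key (by tauto) c3)
    have e : del Z D = del Z D' := by
      refine enc_inj ?_
      rw [enc_del, enc_del, hE, hE']
      simp only [de_append, de_two_swap x1, de_two_swap y1, de_two_swap w1]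
    rw [e]
    exact ih
  | @handle R T x y b hh hD hy hm ih =>
    obtain ⟨Ts, h1, h2⟩ := ih
    rw [del_cons, del_cons, dw_eq_nil hy] at h1
    rw [del_cons, dw_append, dw_eq_nil hy, List.append_nil]
    have hw : WF (passes ((dw Z x, b) :: ([], b) :: del Z R)) := by
      have := wf_del (Z := Z) (vmovie_wf hm)
      rwa [del_cons, del_cons, dw_eq_nil hy] at this
    have hw' : WF (passes (([], b) :: (dw Z x, b) :: del Z R)) := by
      simpa [passes] using hw
    have hw'' : WF (passes ((dw Z x, b) :: del Z R)) := by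
      simpa [passes] using hw
    obtain ⟨Ts₁, k1, k2⟩ := cstep_liftB hreid hren hw' hw
      (.perm _ _ (List.Perm.swap _ _ _)) h1
    obtain ⟨Ts₂, k3, k4⟩ := cstep_liftB hreid hren hw'' hw'
      (.birth b _ ⟨(dw Z x, b), by simp, rfl⟩) k1
    exact ⟨Ts₂, k3, (k4.trans k2).trans h2⟩

/-- the invariant of a movie bounded by a diagram without crossings with colours in `Z` -/
theorem vmovie_inv' (hreid : S_REID) (hren : S_REN) (hthree : S_THREE) {hd : Bool} {D : Code}
    {T : List (ℕ × ℕ × ℕ)} (h : VMovie hd Z D T) (hZ : ∀ p ∈ passes D, ¬Z (colour p.crossing)) :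
    ∃ Ts, InvB D Ts ∧ Ts.map sig = T.map fun t => (t, (true, true, true)) := by
  have := vmovie_inv hreid hren hthree h
  rwa [del_eq hZ] at this

end Pool.Agent.V5helper74.SR
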