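import Pool.Agent.V5helper74.SR.VMain

/-!
Classical links bounding discs in thickened 3-manifolds whose projection has at most one triple point
on each component of the double point set meeting the link. A movie whose diagrams are arbitrary
signed Gauss codes (diagrams of virtual links, that is, of links in thickened closed oriented surfaces
up to stabilisation) describes a surface in the product of a compact oriented 3-manifold and an
interval, which need not be the 4-ball. The triple points of its projection to the 3-manifold are the
Reidemeister moves of type III in its movie. The movies go from the link into the 4-manifold. Every
crossing belongs to a connected component of the set of double points (the union of the double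
curves), named by its colour. The names of components with branch points are even; the names of the
other ones are arbitrary.
-/

namespace Pool.Agent.Results.MP_752436_gt.VirtualOneTriplePoint

open Pool.Agent.Y468.SR Pool.Agent.Y874.TP Pool.Agent.R800.TP Pool.Agent.V5helper74.SR

/-- Let there be a movie of classical links without births from the classical link with Gauss code `L`
to the link `D`, and let `D` bound disjoint discs by an arbitrary movie of virtual links with births
(`VMovie`, the diagrams need not be planar). Let the crossings in this movie be coloured by the
components (or unions of components) of the double point set of the projection; this means that the
colours are kept by all moves and that the three crossings at each triple point have the same colour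
(`h₃`). Let `Z` be a set of components which do not meet `D` (`hZ`); `T` is the list of the triples of
colours at the triple points not in the components belonging to `Z`. If each component not in `Z`
contains at most one triple point (`h₄`), then `L` bounds disjoint ribbon discs in the 4-ball, i.e.
discs given by a movie of classical links without births. -/
theorem result (L : List (List Pass)) (hL : Classical L.zipIdx) (Z : ℕ → Prop) (D : Code)
    (T : List (ℕ × ℕ × ℕ)) (h₁ : Movie true false L.zipIdx D) (h₂ : VMovie false Z D T)
    (hZ : ∀ p ∈ passes D, ¬Z (colour p.crossing))
    (h₃ : ∀ t ∈ T, t.2.1 = t.1 ∧ t.2.2 = t.1) (h₄ : (T.map Prod.fst).Nodup) :
    Movie true false L.zipIdx [] := by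
  have hn : (L.zipIdx.map Prod.snd).Nodup := by
    rw [List.zipIdx_map_snd]
    exact List.nodup_range'
  exact h₁.trans (vribbon_of_components (classical_of_movie h₁ hL) h₂ hZ (nodup_movie h₁ hn) h₃ h₄)

end Pool.Agent.Results.MP_752436_gt.VirtualOneTriplePoint
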